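import Pool.Agent.TransDeg.Red2

/-!
Central covers of the alternating group of degree eight have no faithful representation in
dimension at most six (in a weak form).
-/

set_option autoImplicit false

open Subgroup
open scoped commutatorElement

namespace TransDeg.Cent

namespace Eight

section Grp

variable {U : Type*} [Group U] (h a : U)

/-- conjugates of `a` by powers of `h` -/
def xx (i : ℕ) : U := h ^ i * a * (h ^ i)⁻¹

lemma xx_succ (i : ℕ) : h * xx h a i * h⁻¹ = xx h a (i + 1) := by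
  unfold xx
  rw [pow_succ' h i]
  group

variable {h a}

lemma xx_seven (h7 : h ^ 7 ∈ center U) (i : ℕ) : xx h a (i + 7) = xx h a i := by
  unfold xx
  have h1 := Subgroup.mem_center_iff.1 h7 a
  rw [pow_add]
  calc h ^ i * h ^ 7 * a * (h ^ i * h ^ 7)⁻¹ = h ^ i * (h ^ 7 * a) * (h ^ 7)⁻¹ * (h ^ i)⁻¹ := by
        group
    _ = h ^ i * (a * h ^ 7) * (h ^ 7)⁻¹ * (h ^ i)⁻¹ := by rw [h1]
    _ = h ^ i * a * (h ^ i)⁻¹ := by group

lemma xx_mul_seven (h7 : h ^ 7 ∈ center U) (i k : ℕ) : xx h a (i + k * 7) = xx h a i := by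
  induction k with
  | zero => simp
  | succ k ih => rw [Nat.succ_mul, ← Nat.add_assoc, xx_seven h7, ih]

lemma conj_central {z : U} (hz : z ∈ center U) (g : U) : g * z * g⁻¹ = z := by
  rw [Subgroup.mem_center_iff.1 hz g]
  group

lemma comm_mul_right {x y z : U} (h2 : ⁅x, z⁆ ∈ center U) :
    ⁅x, y * z⁆ = ⁅x, y⁆ * ⁅x, z⁆ := by
  have h1 : ⁅x, y * z⁆ = ⁅x, y⁆ * (y * ⁅x, z⁆ * y⁻¹) := by
    simp only [commutatorElement_def]
    group
  rw [h1, conj_central h2]

lemma comm_central_right {x z : U} (hz : z ∈ center U) : ⁅x, z⁆ = 1 := by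
  rw [commutatorElement_eq_one_iff_mul_comm]
  exact Subgroup.mem_center_iff.1 hz x

lemma cc_succ (hc : ∀ i j, ⁅xx h a i, xx h a j⁆ ∈ center U) (i j : ℕ) :
    ⁅xx h a (i + 1), xx h a (j + 1)⁆ = ⁅xx h a i, xx h a j⁆ := by
  rw [← xx_succ, ← xx_succ]
  have h1 : ⁅h * xx h a i * h⁻¹, h * xx h a j * h⁻¹⁆ = h * ⁅xx h a i, xx h a j⁆ * h⁻¹ := by
    simp only [commutatorElement_def]
    group
  rw [h1, conj_central (hc i j)]

lemma cc_add (hc : ∀ i j, ⁅xx h a i, xx h a j⁆ ∈ center U) (i j k : ℕ) :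
    ⁅xx h a (i + k), xx h a (j + k)⁆ = ⁅xx h a i, xx h a j⁆ := by
  induction k with
  | zero => rfl
  | succ k ih => rw [← Nat.add_assoc, ← Nat.add_assoc, cc_succ hc, ih]

lemma rel_add {s : U} (hs : s ∈ center U) (h3 : xx h a 0 * xx h a 1 = xx h a 3 * s) (i : ℕ) :
    xx h a i * xx h a (i + 1) = xx h a (i + 3) * s := by
  induction i with
  | zero => exact h3
  | succ i ih =>
    have h4 : h * s * h⁻¹ = s := conj_central hs h
    calc xx h a (i + 1) * xx h a (i + 1 + 1)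
        = (h * xx h a i * h⁻¹) * (h * xx h a (i + 1) * h⁻¹) := by rw [xx_succ, xx_succ]
      _ = h * (xx h a i * xx h a (i + 1)) * h⁻¹ := by group
      _ = (h * xx h a (i + 3) * h⁻¹) * (h * s * h⁻¹) := by rw [ih]; group
      _ = xx h a (i + 1 + 3) * s := by rw [h4, xx_succ]

lemma comm_zero_one (h7 : h ^ 7 ∈ center U) (hc : ∀ i j, ⁅xx h a i, xx h a j⁆ ∈ center U)
    {s : U} (hs : s ∈ center U) (h3 : xx h a 0 * xx h a 1 = xx h a 3 * s) (i j : ℕ) :
    xx h a i * xx h a j = xx h a j * xx h a i := by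
  have hr : ∀ i, xx h a (i + 3) = xx h a i * (xx h a (i + 1) * s⁻¹) := by
    intro i
    rw [← mul_assoc, rel_add hs h3 i]; group
  have hs' : s⁻¹ ∈ center U := inv_mem hs
  have hsplit : ∀ x : U, ∀ i : ℕ, ⁅x, xx h a (i + 1)⁆ ∈ center U →
      ⁅x, xx h a (i + 3)⁆ = ⁅x, xx h a i⁆ * ⁅x, xx h a (i + 1)⁆ := by
    intro x i hx
    have e1 : ⁅x, xx h a (i + 1) * s⁻¹⁆ = ⁅x, xx h a (i + 1)⁆ := by
      rw [comm_mul_right (by rw [comm_central_right hs']; exact one_mem _),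
        comm_central_right hs', mul_one]
    rw [hr, comm_mul_right (by rw [e1]; exact hx), e1]
  have c03 : ⁅xx h a 0, xx h a 3⁆ = ⁅xx h a 0, xx h a 1⁆ := by
    rw [hsplit _ 0 (hc _ _), commutatorElement_self, one_mul]
  have c02 : ⁅xx h a 0, xx h a 2⁆ = ⁅xx h a 0, xx h a 1⁆⁻¹ := by
    rw [← cc_add hc 0 2 1]
    show ⁅xx h a 1, xx h a 3⁆ = _
    rw [hsplit _ 0 (hc _ _)]
    show ⁅xx h a 1, xx h a 0⁆ * ⁅xx h a 1, xx h a 1⁆ = _
    rw [commutatorElement_self, mul_one, commutatorElement_inv]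
  have c04 : ⁅xx h a 0, xx h a 4⁆ = 1 := by
    rw [hsplit _ 1 (hc _ _)]
    show ⁅xx h a 0, xx h a 1⁆ * ⁅xx h a 0, xx h a 2⁆ = 1
    rw [c02, mul_inv_cancel]
  have c04' : ⁅xx h a 0, xx h a 4⁆ = ⁅xx h a 0, xx h a 1⁆⁻¹ := by
    have e1 := cc_add hc 0 3 4
    have e2 : xx h a (3 + 4) = xx h a 0 := xx_seven h7 0
    rw [e2] at e1
    rw [← commutatorElement_inv, ← c03, ← e1]
  have c01 : ⁅xx h a 0, xx h a 1⁆ = 1 := by
    rw [c04] at c04'
    exact inv_eq_one.1 c04'.symm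
  have c03' : ⁅xx h a 0, xx h a 3⁆ = 1 := by rw [c03, c01]
  have c02' : ⁅xx h a 0, xx h a 2⁆ = 1 := by rw [c02, c01, inv_one]
  have c05 : ⁅xx h a 0, xx h a 5⁆ = 1 := by
    have e1 := cc_add hc 0 2 5
    have e2 : xx h a (2 + 5) = xx h a 0 := xx_seven h7 0
    rw [e2, c02'] at e1
    rw [← commutatorElement_inv]
    show ⁅xx h a (0 + 5), xx h a 0⁆⁻¹ = 1
    rw [e1, inv_one]
  have c06 : ⁅xx h a 0, xx h a 6⁆ = 1 := by
    have e1 := cc_add hc 0 1 6
    have e2 : xx h a (1 + 6) = xx h a 0 := xx_seven h7 0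
    rw [e2, c01] at e1
    rw [← commutatorElement_inv]
    show ⁅xx h a (0 + 6), xx h a 0⁆⁻¹ = 1
    rw [e1, inv_one]
  have hall : ∀ k, ⁅xx h a 0, xx h a k⁆ = 1 := by
    intro k
    have e1 : xx h a k = xx h a (k % 7) := by
      have e2 := xx_mul_seven (a := a) h7 (k % 7) (k / 7)
      rw [Nat.mod_add_div'] at e2
      exact e2
    rw [e1]
    have e3 : k % 7 < 7 := Nat.mod_lt _ (by norm_num)
    generalize k % 7 = m at e3
    interval_cases m
    · exact commutatorElement_self _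
    · exact c01
    · exact c02'
    · exact c03'
    · exact c04
    · exact c05
    · exact c06
  have hle : ∀ i j, i ≤ j → ⁅xx h a i, xx h a j⁆ = 1 := by
    intro i j hij
    have e1 := cc_add hc 0 (j - i) i
    rw [Nat.zero_add, Nat.sub_add_cancel hij] at e1
    rw [e1, hall]
  rw [← commutatorElement_eq_one_iff_mul_comm]
  rcases le_total i j with hij | hij
  · exact hle i j hij
  · rw [← commutatorElement_inv, hle j i hij, inv_one]

/-- all the relations -/
lemma rels (h7 : h ^ 7 ∈ center U) (hc : ∀ i j, ⁅xx h a i, xx h a j⁆ ∈ center U)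
    {s : U} (hs : s ∈ center U) (h3 : xx h a 0 * xx h a 1 = xx h a 3 * s)
    (h2 : xx h a 0 * xx h a 0 ∈ center U) :
    ∃ y : ℕ → U, y 0 = a * s⁻¹ ∧ (∀ i, h * y i * h⁻¹ = y (i + 1)) ∧ (∀ i, y (i + 7) = y i) ∧
      (∀ i j, y i * y j = y j * y i) ∧ (∀ i, y i * y i = 1) ∧
      ∀ i, y i * y (i + 1) = y (i + 3) := by
  have hs' : s⁻¹ ∈ center U := inv_mem hs
  have hcm := comm_zero_one h7 hc hs h3
  have hsc : ∀ g : U, s⁻¹ * g = g * s⁻¹ := fun g => (Subgroup.mem_center_iff.1 hs' g).symm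
  have hy : ∀ i j, (xx h a i * s⁻¹) * (xx h a j * s⁻¹) = xx h a i * xx h a j * (s⁻¹ * s⁻¹) := by
    intro i j
    calc (xx h a i * s⁻¹) * (xx h a j * s⁻¹) = xx h a i * (s⁻¹ * xx h a j) * s⁻¹ := by group
      _ = xx h a i * xx h a j * (s⁻¹ * s⁻¹) := by rw [hsc]; group
  have hrel : ∀ i, (xx h a i * s⁻¹) * (xx h a (i + 1) * s⁻¹) = xx h a (i + 3) * s⁻¹ := by
    intro i
    rw [hy, rel_add hs h3 i]; group
  have hsucc : ∀ i, h * (xx h a i * s⁻¹) * h⁻¹ = xx h a (i + 1) * s⁻¹ := by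
    intro i
    calc h * (xx h a i * s⁻¹) * h⁻¹ = (h * xx h a i * h⁻¹) * (h * s⁻¹ * h⁻¹) := by group
      _ = _ := by rw [xx_succ, conj_central hs']
  have hcy : ∀ i j, (xx h a i * s⁻¹) * (xx h a j * s⁻¹) = (xx h a j * s⁻¹) * (xx h a i * s⁻¹) := by
    intro i j
    rw [hy, hy, hcm i j]
  have hsq : ∀ i, (xx h a i * s⁻¹) * (xx h a i * s⁻¹) = (xx h a 0 * s⁻¹) * (xx h a 0 * s⁻¹) := by
    intro i
    induction i with
    | zero => rfl
    | succ i ih =>
      have hcen : (xx h a 0 * s⁻¹) * (xx h a 0 * s⁻¹) ∈ center U := by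
        rw [hy]; exact mul_mem h2 (mul_mem hs' hs')
      calc (xx h a (i + 1) * s⁻¹) * (xx h a (i + 1) * s⁻¹)
          = (h * (xx h a i * s⁻¹) * h⁻¹) * (h * (xx h a i * s⁻¹) * h⁻¹) := by rw [hsucc]
        _ = h * ((xx h a i * s⁻¹) * (xx h a i * s⁻¹)) * h⁻¹ := by group
        _ = _ := by rw [ih, conj_central hcen]
  have hone : (xx h a 0 * s⁻¹) * (xx h a 0 * s⁻¹) = 1 := by
    have e1 : (xx h a 3 * s⁻¹) * (xx h a 3 * s⁻¹)
        = ((xx h a 0 * s⁻¹) * (xx h a 0 * s⁻¹)) * ((xx h a 1 * s⁻¹) * (xx h a 1 * s⁻¹)) := by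
      rw [← hrel 0]
      show (xx h a 0 * s⁻¹) * (xx h a 1 * s⁻¹) * ((xx h a 0 * s⁻¹) * (xx h a 1 * s⁻¹)) = _
      calc (xx h a 0 * s⁻¹) * (xx h a 1 * s⁻¹) * ((xx h a 0 * s⁻¹) * (xx h a 1 * s⁻¹))
          = (xx h a 0 * s⁻¹) * ((xx h a 1 * s⁻¹) * (xx h a 0 * s⁻¹)) * (xx h a 1 * s⁻¹) := by
            simp only [mul_assoc]
        _ = (xx h a 0 * s⁻¹) * ((xx h a 0 * s⁻¹) * (xx h a 1 * s⁻¹)) * (xx h a 1 * s⁻¹) := by
            rw [hcy 1 0]
        _ = _ := by simp only [mul_assoc]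
    rw [hsq 3, hsq 1] at e1
    exact (mul_eq_left.1 e1.symm)
  refine ⟨fun i => xx h a i * s⁻¹, ?_, hsucc, fun i => ?_, hcy, fun i => ?_, hrel⟩
  · show xx h a 0 * s⁻¹ = a * s⁻¹
    unfold xx; simp
  · show xx h a (i + 7) * s⁻¹ = xx h a i * s⁻¹
    rw [xx_seven h7]
  · show (xx h a i * s⁻¹) * (xx h a i * s⁻¹) = 1
    rw [hsq, hone]

end Grp

section Rep

/-- periodic multiplicative functions are trivial -/
lemma per_trivial {F : Type*} [Field F] {f : ℕ → F} (h7 : ∀ i, f (i + 7) = f i)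
    (h3 : ∀ i, f i * f (i + 1) = f (i + 3))
    (h0 : f 0 ≠ 0) {d : ℕ} (hd0 : 0 < d) (hd : d < 7) (hf : ∀ i, f (i + d) = f i) : f 0 = 1 := by
  have k7 : ∀ i k, f (i + k * 7) = f i := by
    intro i k
    induction k with
    | zero => simp
    | succ k ih => rw [Nat.succ_mul, ← Nat.add_assoc, h7, ih]
  have kd : ∀ i k, f (i + k * d) = f i := by
    intro i k
    induction k with
    | zero => simp
    | succ k ih => rw [Nat.succ_mul, ← Nat.add_assoc, hf, ih]
  obtain ⟨p, q, hpq⟩ : ∃ p q : ℕ, 1 + p * 7 = q * d := by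
    interval_cases d
    · exact ⟨0, 1, rfl⟩
    · exact ⟨1, 4, rfl⟩
    · exact ⟨2, 5, rfl⟩
    · exact ⟨1, 2, rfl⟩
    · exact ⟨2, 3, rfl⟩
    · exact ⟨5, 6, rfl⟩
  have e1 : f 1 = f 0 := by
    rw [← k7 1 p, hpq, ← kd 0 q, Nat.zero_add]
  have e3 : f 3 = f 0 := by
    have e4 : 3 + (3 * p) * 7 = 0 + (3 * q) * d := by
      calc 3 + (3 * p) * 7 = 3 * (1 + p * 7) := by ring
        _ = 3 * (q * d) := by rw [hpq]
        _ = 0 + (3 * q) * d := by ring
    rw [← k7 3 (3 * p), e4, kd]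
  have e5 := h3 0
  rw [Nat.zero_add, Nat.zero_add, e1, e3] at e5
  exact mul_left_cancel₀ h0 (by rw [e5, mul_one])

variable {F V U : Type*} [Field F] [IsAlgClosed F] [AddCommGroup V] [Module F V]
  [FiniteDimensional F V] [Group U] [Finite U]

theorem rep_trivial (hU : (Nat.card U : F) ≠ 0) (rho : U →* (V →ₗ[F] V))
    (hV : Module.finrank F V ≤ 6) {h : U} {y : ℕ → U}
    (hs : ∀ i, h * y i * h⁻¹ = y (i + 1)) (h7 : ∀ i, y (i + 7) = y i)
    (hc : ∀ i j, y i * y j = y j * y i) (h2 : ∀ i, y i * y i = 1)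
    (h3 : ∀ i, y i * y (i + 1) = y (i + 3)) : rho (y 0) = 1 := by
  classical
  set S : Subgroup U := Subgroup.closure (Set.range y) with hS
  have hyS : ∀ i, y i ∈ S := fun i => Subgroup.subset_closure ⟨i, rfl⟩
  have hcomm : ∀ x ∈ S, ∀ z ∈ S, x * z = z * x := by
    intro x hx z hz
    have hh : IsMulCommutative S := Subgroup.isMulCommutative_closure (k := Set.range y) (by
      rintro _ ⟨i, rfl⟩ _ ⟨j, rfl⟩
      exact hc i j)
    exact setLike_mul_comm hx hz
  have hy6 : ∀ i, h⁻¹ * y i * h = y (i + 6) := by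
    intro i
    rw [← h7 i, ← hs (i + 6)]
    group
  have hconj : ∀ x ∈ S, h⁻¹ * x * h ∈ S := by
    have : S ≤ S.comap (MulAut.conj h⁻¹).toMonoidHom := by
      rw [hS, Subgroup.closure_le]
      rintro _ ⟨i, rfl⟩
      show MulAut.conj h⁻¹ (y i) ∈ S
      rw [MulAut.conj_apply, inv_inv, hy6]
      exact hyS _
    intro x hx
    have h4 := this hx
    rw [Subgroup.mem_comap] at h4
    have h5 : (MulAut.conj h⁻¹).toMonoidHom x = h⁻¹ * x * h := by
      show MulAut.conj h⁻¹ x = _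
      rw [MulAut.conj_apply, inv_inv]
    rwa [h5] at h4
  -- the shift of weights
  let sft : (S → F) → (S → F) := fun χ x => χ ⟨h⁻¹ * (x : U) * h, hconj x x.2⟩
  have hsft : ∀ χ : S → F, ∀ v ∈ Red.wt rho S χ, rho h v ∈ Red.wt rho S (sft χ) := by
    intro χ v hv
    rw [Red.mem_wt] at hv ⊢
    intro x
    have h4 := hv ⟨h⁻¹ * (x : U) * h, hconj x x.2⟩
    have h5 : rho (x : U) (rho h v) = rho h (rho (h⁻¹ * (x : U) * h) v) := by
      rw [← Module.End.mul_apply, ← map_mul, ← Module.End.mul_apply, ← map_mul]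
      congr 2
      group
    rw [h5]
    show rho h (rho (h⁻¹ * (x : U) * h) v) = χ ⟨h⁻¹ * (x : U) * h, hconj x x.2⟩ • rho h v
    rw [← map_smul, ← h4]
  have hne : ∀ v : V, v ≠ 0 → rho h v ≠ 0 := by
    intro v hv h0
    apply hv
    have h4 : rho h⁻¹ (rho h v) = v := by
      rw [← Module.End.mul_apply, ← map_mul, inv_mul_cancel, map_one, Module.End.one_apply]
    rw [← h4, h0, map_zero]
  by_contra hcon
  -- a nontrivial weight
  obtain ⟨χ, v, hv0, hv, hv1⟩ : ∃ χ : S → F, ∃ v : V, v ≠ 0 ∧ v ∈ Red.wt rho S χ ∧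
      χ ⟨y 0, hyS 0⟩ ≠ 1 := by
    by_contra hno
    push Not at hno
    apply hcon
    apply Red.ext_wt hU rho S hcomm
    intro χ _ v hv
    by_cases hv0 : v = 0
    · rw [hv0, map_zero, map_zero]
    · have h4 := hno χ v hv0 hv
      rw [Red.mem_wt] at hv
      have h5 := hv ⟨y 0, hyS 0⟩
      rw [h4, one_smul] at h5
      rw [h5, Module.End.one_apply]
  set f : ℕ → F := fun i => χ ⟨y i, hyS i⟩ with hf
  have hfv : ∀ i, rho (y i) v = f i • v := by
    intro i
    rw [Red.mem_wt] at hv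
    exact hv ⟨y i, hyS i⟩
  have hf7 : ∀ i, f (i + 7) = f i := by
    intro i
    simp only [hf]
    congr 2
    exact h7 i
  have hsm : ∀ c d : F, c • v = d • v → c = d := fun c d hcd => smul_left_injective F hv0 hcd
  have hf3 : ∀ i, f i * f (i + 1) = f (i + 3) := by
    intro i
    apply hsm
    rw [← hfv (i + 3), ← h3 i, map_mul, Module.End.mul_apply, hfv (i + 1), map_smul, hfv i,
      smul_smul, mul_comm]
  have hf2 : f 0 * f 0 = 1 := by
    apply hsm
    rw [one_smul, mul_smul, ← hfv 0, ← map_smul, ← hfv 0, ← Module.End.mul_apply, ← map_mul, h2,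
      map_one, Module.End.one_apply]
  have hf0 : f 0 ≠ 0 := fun h0 => by
    rw [h0, mul_zero] at hf2
    exact zero_ne_one hf2
  -- the seven weights
  have hit : ∀ i, rho (h ^ i) v ∈ Red.wt rho S (sft^[i] χ) ∧ rho (h ^ i) v ≠ 0 := by
    intro i
    induction i with
    | zero =>
      simpa using ⟨hv, hv0⟩
    | succ i ih =>
      rw [pow_succ' h i, map_mul, Module.End.mul_apply, Function.iterate_succ_apply']
      exact ⟨hsft _ _ ih.1, hne _ ih.2⟩
  have hval : ∀ i j, (sft^[i] χ) ⟨y j, hyS j⟩ = f (j + 6 * i) := by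
    intro i
    induction i with
    | zero => intro j; rfl
    | succ i ih =>
      intro j
      rw [Function.iterate_succ_apply']
      show (sft^[i] χ) ⟨h⁻¹ * y j * h, _⟩ = _
      have h4 : (⟨h⁻¹ * y j * h, hconj (y j) (hyS j)⟩ : S) = ⟨y (j + 6), hyS (j + 6)⟩ :=
        Subtype.ext (hy6 j)
      rw [h4, ih]
      congr 1
      ring
  have hk7 : ∀ i k, f (i + k * 7) = f i := by
    intro i k
    induction k with
    | zero => simp
    | succ k ih => rw [Nat.succ_mul, ← Nat.add_assoc, hf7, ih]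
  have hdiff : ∀ i j : ℕ, i < j → j < 7 → sft^[i] χ ≠ sft^[j] χ := by
    intro i j hij hj heq
    apply hv1
    have hper : ∀ m, f (m + (j - i)) = f m := by
      intro m
      have h4 := congrFun heq ⟨y (m + j), hyS (m + j)⟩
      rw [hval, hval] at h4
      have h5 : m + j + 6 * i = (m + (j - i)) + i * 7 := by omega
      have h6 : m + j + 6 * j = m + j * 7 := by ring
      rw [h5, h6, hk7, hk7] at h4
      exact h4
    exact per_trivial hf7 hf3 hf0 (Nat.sub_pos_of_lt hij) (by omega) hper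
  obtain ⟨hfin, hcard⟩ := Red.finite_wts hU rho S hcomm
  let F7 : Fin 7 → {χ : S → F // Red.wt rho S χ ≠ ⊥} := fun i =>
    ⟨sft^[(i : ℕ)] χ, fun hbot => (hit i).2 (by
      have := (hit i).1
      rw [hbot, Submodule.mem_bot] at this
      exact this)⟩
  have hinj : Function.Injective F7 := by
    intro i j hij
    have h4 : sft^[(i : ℕ)] χ = sft^[(j : ℕ)] χ := congrArg Subtype.val hij
    rcases lt_trichotomy (i : ℕ) (j : ℕ) with h5 | h5 | h5
    · exact absurd h4 (hdiff i j h5 j.2)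
    · exact Fin.ext h5
    · exact absurd h4.symm (hdiff j i h5 i.2)
  have h8 := Nat.card_le_card_of_injective F7 hinj
  rw [Nat.card_eq_fintype_card, Fintype.card_fin] at h8
  omega

end Rep

/-- regular elementary abelian group: a translation -/
def tau : alternatingGroup (Fin 8) :=
  ⟨⟨![1, 0, 3, 2, 5, 4, 7, 6], ![1, 0, 3, 2, 5, 4, 7, 6], by decide, by decide⟩, by
    rw [Equiv.Perm.mem_alternatingGroup]; decide +kernel⟩

/-- an element of order seven permuting the nontrivial translations -/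
def gam : alternatingGroup (Fin 8) :=
  ⟨⟨![0, 2, 4, 6, 3, 1, 7, 5], ![0, 5, 1, 4, 2, 7, 3, 6], by decide, by decide⟩, by
    rw [Equiv.Perm.mem_alternatingGroup]; decide +kernel⟩

lemma tau_ne : tau ≠ 1 := by decide +kernel
lemma tau_sq : tau * tau = 1 := by decide +kernel
lemma gam_seven : gam ^ 7 = 1 := by decide +kernel
lemma tau_rel : tau * (gam * tau * gam⁻¹) = gam ^ 3 * tau * (gam ^ 3)⁻¹ := by decide +kernel
lemma tau_comm : ∀ i : Fin 7, tau * (gam ^ (i : ℕ) * tau * (gam ^ (i : ℕ))⁻¹)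
    = gam ^ (i : ℕ) * tau * (gam ^ (i : ℕ))⁻¹ * tau := by decide +kernel

lemma tau_comm_all (i : ℕ) : tau * (gam ^ i * tau * (gam ^ i)⁻¹)
    = gam ^ i * tau * (gam ^ i)⁻¹ * tau := by
  have h1 : gam ^ i = gam ^ (i % 7) := by
    conv_lhs => rw [← Nat.mod_add_div i 7, pow_add, pow_mul, gam_seven, one_pow, mul_one]
  rw [h1]
  exact tau_comm ⟨i % 7, Nat.mod_lt _ (by norm_num)⟩

lemma tau_comm_two (i j : ℕ) : (gam ^ i * tau * (gam ^ i)⁻¹) * (gam ^ j * tau * (gam ^ j)⁻¹)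
    = (gam ^ j * tau * (gam ^ j)⁻¹) * (gam ^ i * tau * (gam ^ i)⁻¹) := by
  wlog hij : i ≤ j generalizing i j
  · exact (this j i (le_of_not_ge hij)).symm
  obtain ⟨k, rfl⟩ := Nat.exists_eq_add_of_le hij
  have h1 := tau_comm_all k
  calc (gam ^ i * tau * (gam ^ i)⁻¹) * (gam ^ (i + k) * tau * (gam ^ (i + k))⁻¹)
      = gam ^ i * (tau * (gam ^ k * tau * (gam ^ k)⁻¹)) * (gam ^ i)⁻¹ := by
        rw [pow_add]; group
    _ = gam ^ i * (gam ^ k * tau * (gam ^ k)⁻¹ * tau) * (gam ^ i)⁻¹ := by rw [h1]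
    _ = _ := by rw [pow_add]; group

end Eight

theorem case8 {F V U : Type*} [Field F] [IsAlgClosed F] [AddCommGroup V] [Module F V]
    [FiniteDimensional F V] [Group U] [Finite U] (pi : U →* alternatingGroup (Fin 8))
    (hpi : Function.Surjective pi) (hker : pi.ker ≤ Subgroup.center U)
    (hU : (Nat.card U : F) ≠ 0) (rho : U →* (V →ₗ[F] V)) (hV : Module.finrank F V ≤ 6) :
    ∀ x y : U, rho ⁅x, y⁆ = 1 := by
  classical
  obtain ⟨a, ha⟩ := hpi Eight.tau
  obtain ⟨h, hh⟩ := hpi Eight.gam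
  have hxx : ∀ i, pi (Eight.xx h a i) = Eight.gam ^ i * Eight.tau * (Eight.gam ^ i)⁻¹ := by
    intro i
    simp only [Eight.xx, map_mul, map_pow, map_inv, ha, hh]
  have h7 : h ^ 7 ∈ center U := by
    apply hker
    rw [MonoidHom.mem_ker, map_pow, hh, Eight.gam_seven]
  have hc : ∀ i j, ⁅Eight.xx h a i, Eight.xx h a j⁆ ∈ center U := by
    intro i j
    apply hker
    rw [MonoidHom.mem_ker, map_commutatorElement, commutatorElement_eq_one_iff_mul_comm, hxx, hxx]
    exact Eight.tau_comm_two i j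
  have hs : (Eight.xx h a 3)⁻¹ * (Eight.xx h a 0 * Eight.xx h a 1) ∈ pi.ker := by
    rw [MonoidHom.mem_ker, map_mul, map_inv, map_mul, hxx, hxx, hxx, pow_zero, pow_one, inv_one,
      one_mul, mul_one, Eight.tau_rel, inv_mul_cancel]
  have h2 : Eight.xx h a 0 * Eight.xx h a 0 ∈ center U := by
    apply hker
    rw [MonoidHom.mem_ker, map_mul, hxx, pow_zero, inv_one, one_mul, mul_one, Eight.tau_sq]
  obtain ⟨y, hy0, hy1, hy7, hyc, hy2, hy3⟩ := Eight.rels h7 hc (hker hs)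
    (by group) h2
  have hrho : rho (y 0) = 1 := Eight.rep_trivial hU rho hV hy1 hy7 hyc hy2 hy3
  -- the kernel maps onto the alternating group
  have hpy : pi (y 0) = Eight.tau := by
    rw [hy0, map_mul, map_inv, (MonoidHom.mem_ker).1 hs, inv_one, mul_one, ha]
  let r' : U →* (V →ₗ[F] V)ˣ := rho.toHomUnits
  set N : Subgroup U := r'.ker with hN
  have hmemN : ∀ x, x ∈ N ↔ rho x = 1 := by
    intro x
    rw [hN, MonoidHom.mem_ker]
    constructor
    · intro h4
      have h5 := congrArg Units.val h4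
      exact h5
    · intro h4
      exact Units.ext h4
  have hnorm : (N.map pi).Normal := Subgroup.Normal.map inferInstance pi hpi
  have hsimple : IsSimpleGroup (alternatingGroup (Fin 8)) :=
    alternatingGroup.isSimpleGroup (by simp)
  have htop : N.map pi = ⊤ := by
    rcases hsimple.eq_bot_or_eq_top_of_normal _ hnorm with h4 | h4
    · exfalso
      apply Eight.tau_ne
      have h5 : Eight.tau ∈ N.map pi := ⟨y 0, (hmemN _).2 hrho, hpy⟩
      rw [h4, Subgroup.mem_bot] at h5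
      exact h5
    · exact h4
  have hdec : ∀ x : U, ∃ n ∈ N, ∃ z ∈ center U, x = n * z := by
    intro x
    have h4 : pi x ∈ N.map pi := by rw [htop]; trivial
    obtain ⟨n, hn, hnx⟩ := h4
    refine ⟨n, hn, n⁻¹ * x, hker ?_, by group⟩
    rw [MonoidHom.mem_ker, map_mul, map_inv, hnx, inv_mul_cancel]
  intro x y'
  obtain ⟨n, hn, z, hz, rfl⟩ := hdec x
  obtain ⟨m, hm, w, hw, rfl⟩ := hdec y'
  have hz' := Subgroup.mem_center_iff.1 hz
  have hw' := Subgroup.mem_center_iff.1 hw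
  have h4 : ⁅n * z, m * w⁆ = ⁅n, m⁆ := by
    have e1 : (n * z) * (m * w) = (n * m) * (z * w) := by
      calc (n * z) * (m * w) = n * (z * m) * w := by group
        _ = n * (m * z) * w := by rw [hz' m]
        _ = (n * m) * (z * w) := by group
    have e2 : (m * w) * (n * z) = (m * n) * (z * w) := by
      calc (m * w) * (n * z) = m * (w * n) * z := by group
        _ = m * (n * w) * z := by rw [hw' n]
        _ = m * n * (w * z) := by group
        _ = (m * n) * (z * w) := by rw [hw' z]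
    calc ⁅n * z, m * w⁆ = ((n * z) * (m * w)) * ((m * w) * (n * z))⁻¹ := by
          rw [commutatorElement_def]; group
      _ = ((n * m) * (z * w)) * ((m * n) * (z * w))⁻¹ := by rw [e1, e2]
      _ = ⁅n, m⁆ := by rw [commutatorElement_def]; group
  rw [h4]
  apply (hmemN _).1
  rw [commutatorElement_def]
  exact mul_mem (mul_mem (mul_mem hn hm) (inv_mem hn)) (inv_mem hm)

end TransDeg.Cent
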