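import Pool.Agent.TransDeg.CentF

/-!
Disjoint lifted 3-cycles in degree 9.
-/

set_option autoImplicit false
set_option linter.unusedSectionVars false

open Subgroup Module
open scoped commutatorElement

namespace TransDeg.Cent

section roots

variable {F : Type*} [Field F] {s : F}

lemma root_rel (h3 : s ^ 3 = 1) (h1 : s ≠ 1) : s ^ 2 + s + 1 = 0 := by
  have h : (s - 1) * (s ^ 2 + s + 1) = 0 := by linear_combination h3
  rcases mul_eq_zero.mp h with h | h
  · exact absurd (sub_eq_zero.mp h) h1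
  · exact h

lemma exists_exp (h3 : s ^ 3 = 1) (h1 : s ≠ 1) {y : F} (hy : y ^ 3 = 1) :
    ∃ i : ZMod 3, y = s ^ i.val := by
  have hr := root_rel h3 h1
  have h : (y - 1) * ((y - s) * (y - s ^ 2)) = 0 := by
    linear_combination hy - y ^ 2 * hr + s * y * hr - h3
  rcases mul_eq_zero.mp h with h | h
  · exact ⟨0, by rw [sub_eq_zero.mp h]; simp⟩
  · rcases mul_eq_zero.mp h with h | h
    · exact ⟨1, by rw [sub_eq_zero.mp h, ZMod.val_one, pow_one]⟩
    · exact ⟨2, by rw [sub_eq_zero.mp h]; rfl⟩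

lemma exp_neg (h3 : s ^ 3 = 1) (i : ZMod 3) : s ^ (-i).val * s ^ i.val = 1 := by
  rw [← pow_add]
  have h : ∀ i : ZMod 3, (-i).val + i.val = 0 ∨ (-i).val + i.val = 3 := by decide
  rcases h i with h | h <;> rw [h]
  · rw [pow_zero]
  · exact h3

lemma exp_inj (h3 : s ^ 3 = 1) (h1 : s ≠ 1) {i j : ZMod 3} (h : s ^ i.val = s ^ j.val) :
    i = j := by
  have ho : orderOf s = 3 := orderOf_eq_prime h3 h1
  have h2 := pow_injOn_Iio_orderOf (x := s) (by rw [ho]; exact ZMod.val_lt i)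
    (by rw [ho]; exact ZMod.val_lt j) h
  exact ZMod.val_injective 3 h2

end roots

section

variable {F V U : Type*} [Field F] [IsAlgClosed F] [AddCommGroup V] [Module F V]
  [FiniteDimensional F V] [Group U] [Finite U]

lemma eigen_cube {V : Type*} [AddCommGroup V] [Module F V] (ρ : U →* (V →ₗ[F] V)) {g : U}
    (hg : g ^ 3 = 1) {v : V} (hv : v ≠ 0) {x : F} (h : ρ g v = x • v) : x ^ 3 = 1 := by
  have h4 : ρ (g ^ 3) v = x ^ 3 • v := by
    rw [pow_three', rmul, rmul, h, map_smul, map_smul, h, map_smul, h, smul_smul, smul_smul]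
    congr 1
    ring
  rw [hg, map_one] at h4
  have h5 : (x ^ 3 - 1) • v = 0 := by
    rw [sub_smul, one_smul, ← h4]
    simp
  rcases smul_eq_zero.mp h5 with h6 | h6
  · exact sub_eq_zero.mp h6
  · exact absurd h6 hv

lemma eigen_inv {V : Type*} [AddCommGroup V] [Module F V] (ρ : U →* (V →ₗ[F] V)) {g : U} {v : V}
    {x y : F} (hxy : y * x = 1) (h : ρ g v = x • v) : ρ g⁻¹ v = y • v := by
  apply rinj ρ g
  rw [rinv', map_smul, h, smul_smul, hxy, one_smul]

/-- the three commuting elements -/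
def tri {m : ℕ} [NeZero m] (N : Fin m → Fin m → Fin m → U) : Fin 3 → U :=
  ![N 0 1 2, N 3 4 5, N 6 7 8]

theorem s2_nine (π : U →* alternatingGroup (Fin 9)) (hπ : Function.Surjective π)
    (hU : (Nat.card U : F) ≠ 0)
    (ρ : U →* (V →ₗ[F] V)) (hV : finrank F V ≤ 7) {N : Fin 9 → Fin 9 → Fin 9 → U}
    (hN : Sys (pm π) N) (v : V) :
    ρ (N 0 1 2) (ρ (N 3 4 5) v - v) = ρ (N 3 4 5) v - v := by
  classical
  have d1 : Dist (0 : Fin 9) 1 2 := ⟨by decide, by decide, by decide⟩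
  have d2 : Dist (3 : Fin 9) 4 5 := ⟨by decide, by decide, by decide⟩
  have d3 : Dist (6 : Fin 9) 7 8 := ⟨by decide, by decide, by decide⟩
  have c12 : N 0 1 2 * N 3 4 5 = N 3 4 5 * N 0 1 2 := by
    have h := hN.conj (N 0 1 2) d2
    rw [hN.m4 d1 (by decide) (by decide) (by decide), hN.m4 d1 (by decide) (by decide) (by decide),
      hN.m4 d1 (by decide) (by decide) (by decide)] at h
    calc N 0 1 2 * N 3 4 5 = (N 0 1 2 * N 3 4 5 * (N 0 1 2)⁻¹) * N 0 1 2 := by group
      _ = _ := by rw [h]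
  have c13 : N 0 1 2 * N 6 7 8 = N 6 7 8 * N 0 1 2 := by
    have h := hN.conj (N 0 1 2) d3
    rw [hN.m4 d1 (by decide) (by decide) (by decide), hN.m4 d1 (by decide) (by decide) (by decide),
      hN.m4 d1 (by decide) (by decide) (by decide)] at h
    calc N 0 1 2 * N 6 7 8 = (N 0 1 2 * N 6 7 8 * (N 0 1 2)⁻¹) * N 0 1 2 := by group
      _ = _ := by rw [h]
  have c23 : N 3 4 5 * N 6 7 8 = N 6 7 8 * N 3 4 5 := by
    have h := hN.conj (N 3 4 5) d3
    rw [hN.m4 d2 (by decide) (by decide) (by decide), hN.m4 d2 (by decide) (by decide) (by decide),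
      hN.m4 d2 (by decide) (by decide) (by decide)] at h
    calc N 3 4 5 * N 6 7 8 = (N 3 4 5 * N 6 7 8 * (N 3 4 5)⁻¹) * N 3 4 5 := by group
      _ = _ := by rw [h]
  have hcomm : ∀ i j, tri N i * tri N j = tri N j * tri N i := by
    intro i j
    fin_cases i <;> fin_cases j <;>
      first
        | rfl
        | exact c12
        | exact c12.symm
        | exact c13
        | exact c13.symm
        | exact c23
        | exact c23.symm
  by_contra hcon
  -- the operator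
  set f : V →ₗ[F] V := (ρ (N 0 1 2) - 1) * (ρ (N 3 4 5) - 1) with hf
  have hfv : f v ≠ 0 := by
    intro h0
    apply hcon
    have h1 : f v = ρ (N 0 1 2) (ρ (N 3 4 5) v - v) - (ρ (N 3 4 5) v - v) := rfl
    rw [h1, sub_eq_zero] at h0
    exact h0
  have hf0 : f ≠ 0 := by
    intro h0
    rw [h0] at hfv
    exact hfv rfl
  obtain ⟨v1, χ, hχ, hfv1⟩ := exists_joint hU ρ (tri N) hcomm hf0
  have hv1 : v1 ≠ 0 := by
    rintro rfl
    rw [map_zero] at hfv1
    exact hfv1 rfl
  have e1 : ρ (N 0 1 2) v1 = χ 0 • v1 := hχ 0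
  have e2 : ρ (N 3 4 5) v1 = χ 1 • v1 := hχ 1
  have e3 : ρ (N 6 7 8) v1 = χ 2 • v1 := hχ 2
  have hf1 : f v1 = ((χ 0 - 1) * (χ 1 - 1)) • v1 := by
    have h1 : f v1 = ρ (N 0 1 2) (ρ (N 3 4 5) v1 - v1) - (ρ (N 3 4 5) v1 - v1) := rfl
    rw [h1, e2, map_sub, map_smul, e1]
    module
  have hx : χ 0 ≠ 1 := by
    intro h; rw [hf1, h] at hfv1; simp at hfv1
  have hy : χ 1 ≠ 1 := by
    intro h; rw [hf1, h] at hfv1; simp at hfv1
  have x3 : χ 0 ^ 3 = 1 := eigen_cube ρ (hN.cube d1) hv1 e1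
  have y3 : χ 1 ^ 3 = 1 := eigen_cube ρ (hN.cube d2) hv1 e2
  have z3 : χ 2 ^ 3 = 1 := eigen_cube ρ (hN.cube d3) hv1 e3
  set s := χ 0 with hs
  obtain ⟨j, hj⟩ := exists_exp x3 hx y3
  obtain ⟨k, hk⟩ := exists_exp x3 hx z3
  have hj0 : j ≠ 0 := by
    rintro rfl
    apply hy
    rw [hj]; simp
  let E : ZMod 3 × ZMod 3 × ZMod 3 → Prop := fun p => ∃ v : V, v ≠ 0 ∧
    ρ (N 0 1 2) v = s ^ p.1.val • v ∧ ρ (N 3 4 5) v = s ^ p.2.1.val • v ∧
    ρ (N 6 7 8) v = s ^ p.2.2.val • v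
  have hE0 : E (1, j, k) := by
    refine ⟨v1, hv1, ?_, ?_, ?_⟩
    · show ρ (N 0 1 2) v1 = s ^ (1 : ZMod 3).val • v1
      rw [e1, ZMod.val_one, pow_one]
    · show ρ (N 3 4 5) v1 = s ^ j.val • v1
      rw [e2, hj]
    · show ρ (N 6 7 8) v1 = s ^ k.val • v1
      rw [e3, hk]
  have hEop : ∀ i p, E p → E (op i p) := by
    intro i p
    rintro ⟨w, hw0, h1, h2, h3⟩
    fin_cases i
    · -- inversion of the first two
      obtain ⟨u, hu⟩ := exists_lift hπ (g := Equiv.swap 0 1 * Equiv.swap 3 4) (by decide)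
      refine ⟨ρ u w, fun h => hw0 (rinj ρ u (by rw [h, map_zero])), ?_, ?_, ?_⟩
      · have h := conj_apply (ρ := ρ) hN u (a := 1) (b := 0) (c := 2) d1.swap w
        rw [hu] at h
        have h' : ρ u (ρ (N 1 0 2) w) = ρ (N 0 1 2) (ρ u w) := h
        rw [← h', hN.inv d1, eigen_inv ρ (exp_neg x3 p.1) h1, map_smul]
        rfl
      · have h := conj_apply (ρ := ρ) hN u (a := 4) (b := 3) (c := 5) d2.swap w
        rw [hu] at h
        have h' : ρ u (ρ (N 4 3 5) w) = ρ (N 3 4 5) (ρ u w) := h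
        rw [← h', hN.inv d2, eigen_inv ρ (exp_neg x3 p.2.1) h2, map_smul]
        rfl
      · have h := conj_apply (ρ := ρ) hN u (a := 6) (b := 7) (c := 8) d3 w
        rw [hu] at h
        have h' : ρ u (ρ (N 6 7 8) w) = ρ (N 6 7 8) (ρ u w) := h
        rw [← h', h3, map_smul]
        rfl
    · -- exchange of the first two, inversion of the third
      obtain ⟨u, hu⟩ := exists_lift hπ
        (g := Equiv.swap 0 3 * Equiv.swap 1 4 * Equiv.swap 2 5 * Equiv.swap 6 7) (by decide)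
      refine ⟨ρ u w, fun h => hw0 (rinj ρ u (by rw [h, map_zero])), ?_, ?_, ?_⟩
      · have h := conj_apply (ρ := ρ) hN u (a := 3) (b := 4) (c := 5) d2 w
        rw [hu] at h
        have h' : ρ u (ρ (N 3 4 5) w) = ρ (N 0 1 2) (ρ u w) := h
        rw [← h', h2, map_smul]
        rfl
      · have h := conj_apply (ρ := ρ) hN u (a := 0) (b := 1) (c := 2) d1 w
        rw [hu] at h
        have h' : ρ u (ρ (N 0 1 2) w) = ρ (N 3 4 5) (ρ u w) := h
        rw [← h', h1, map_smul]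
        rfl
      · have h := conj_apply (ρ := ρ) hN u (a := 7) (b := 6) (c := 8) d3.swap w
        rw [hu] at h
        have h' : ρ u (ρ (N 7 6 8) w) = ρ (N 6 7 8) (ρ u w) := h
        rw [← h', hN.inv d3, eigen_inv ρ (exp_neg x3 p.2.2) h3, map_smul]
        rfl
    · -- rotation
      obtain ⟨u, hu⟩ := exists_lift hπ
        (g := Equiv.swap 0 3 * Equiv.swap 3 6 * (Equiv.swap 1 4 * Equiv.swap 4 7) *
          (Equiv.swap 2 5 * Equiv.swap 5 8)) (by decide)
      refine ⟨ρ u w, fun h => hw0 (rinj ρ u (by rw [h, map_zero])), ?_, ?_, ?_⟩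
      · have h := conj_apply (ρ := ρ) hN u (a := 6) (b := 7) (c := 8) d3 w
        rw [hu] at h
        have h' : ρ u (ρ (N 6 7 8) w) = ρ (N 0 1 2) (ρ u w) := h
        rw [← h', h3, map_smul]
        rfl
      · have h := conj_apply (ρ := ρ) hN u (a := 0) (b := 1) (c := 2) d1 w
        rw [hu] at h
        have h' : ρ u (ρ (N 0 1 2) w) = ρ (N 3 4 5) (ρ u w) := h
        rw [← h', h1, map_smul]
        rfl
      · have h := conj_apply (ρ := ρ) hN u (a := 3) (b := 4) (c := 5) d2 w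
        rw [hu] at h
        have h' : ρ u (ρ (N 3 4 5) w) = ρ (N 6 7 8) (ρ u w) := h
        rw [← h', h2, map_smul]
        rfl
  have hEall := orb_closed hEop 4 hE0
  have hcard := orb_card 1 j k (by decide) hj0
  -- the eigenvalue systems
  let toF : ZMod 3 × ZMod 3 × ZMod 3 → (Fin 3 → F) :=
    fun p => ![s ^ p.1.val, s ^ p.2.1.val, s ^ p.2.2.val]
  have hinj : Function.Injective toF := by
    intro p q hpq
    have h1 := congrFun hpq 0
    have h2 := congrFun hpq 1
    have h3 := congrFun hpq 2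
    exact Prod.ext (exp_inj x3 hx h1) (Prod.ext (exp_inj x3 hx h2) (exp_inj x3 hx h3))
  have hle := weights_card (fun i => ρ (tri N i))
    (fun i j => by rw [← map_mul, ← map_mul, hcomm]) ((orb 4 (1, j, k)).image toF) (by
      intro χ' hχ'
      obtain ⟨q, hq, rfl⟩ := Finset.mem_image.mp hχ'
      obtain ⟨w, hw0, h1, h2, h3⟩ := hEall q hq
      refine ⟨w, hw0, ?_⟩
      intro i
      fin_cases i
      · exact h1
      · exact h2
      · exact h3)
  rw [Finset.card_image_of_injective _ hinj] at hle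
  omega

end

end TransDeg.Cent
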