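import Pool.Agent.TransDeg.CentF
import Pool.Agent.TransDeg.Nine

/-!
The step `n → n + 3`: disjoint lifted 3-cycles.
-/

set_option autoImplicit false
set_option linter.unusedSectionVars false

open Subgroup Module
open scoped commutatorElement

namespace TransDeg.Cent

universe u v w

/-- commutators act trivially on small spaces, in degree `n` -/
def P (F : Type u) [Field F] (n : ℕ) : Prop :=
  ∀ (U : Type v) (V : Type w) [Group U] [Finite U] [AddCommGroup V] [Module F V]
    [FiniteDimensional F V] (π : U →* alternatingGroup (Fin n)), Function.Surjective π →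
    π.ker ≤ center U → (Nat.card U : F) ≠ 0 → ∀ ρ : U →* (V →ₗ[F] V),
    finrank F V ≤ n - 2 → ∀ x y : U, ρ ⁅x, y⁆ = 1

section

variable {U : Type v} [Group U] {n : ℕ} (π : U →* alternatingGroup (Fin (n + 3)))

/-- the elements fixing three points -/
def Fx (d e f : Fin (n + 3)) : Subgroup U :=
  ((alternatingGroup.ofSubtype (({d, e, f} : Finset (Fin (n + 3)))ᶜ)).range).comap π

lemma mem_Fx {d e f : Fin (n + 3)} {u : U} :
    u ∈ Fx π d e f ↔ pm π u d = d ∧ pm π u e = e ∧ pm π u f = f := by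
  unfold Fx
  rw [Subgroup.mem_comap, alternatingGroup.mem_range_ofSubtype_iff]
  constructor
  · intro h
    have h1 : ∀ x ∈ ({d, e, f} : Finset (Fin (n + 3))), pm π u x = x := by
      intro x hx
      by_contra hne
      have h2 := h (Equiv.Perm.mem_support.mpr hne)
      rw [Finset.mem_compl] at h2
      exact h2 hx
    exact ⟨h1 d (by simp), h1 e (by simp), h1 f (by simp)⟩
  · rintro ⟨h1, h2, h3⟩ x hx
    rw [Equiv.Perm.mem_support] at hx
    rw [Finset.mem_compl]
    simp only [Finset.mem_insert, Finset.mem_singleton, not_or]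
    refine ⟨?_, ?_, ?_⟩
    · rintro rfl; exact hx h1
    · rintro rfl; exact hx h2
    · rintro rfl; exact hx h3

lemma card_R {d e f : Fin (n + 3)} (hd : Dist d e f) :
    Fintype.card (({d, e, f} : Finset (Fin (n + 3)))ᶜ : Finset (Fin (n + 3))) = n := by
  rw [Fintype.card_coe, Finset.card_compl,
    Finset.card_eq_three.mpr ⟨d, e, f, hd.1, hd.2.2, hd.2.1, rfl⟩, Fintype.card_fin]
  omega

/-- the homomorphism onto the alternating group on the remaining points -/
noncomputable def pr {d e f : Fin (n + 3)} (hd : Dist d e f) :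
    Fx π d e f →* alternatingGroup (Fin n) :=
  ((Equiv.altCongrHom (Fintype.equivFinOfCardEq (card_R hd))).toMonoidHom).comp
    (((MonoidHom.ofInjective (alternatingGroup.ofSubtype_injective
      (s := (({d, e, f} : Finset (Fin (n + 3)))ᶜ)))).symm.toMonoidHom).comp
      (π.subgroupComap _))

lemma pr_surj {d e f : Fin (n + 3)} (hd : Dist d e f) (hπ : Function.Surjective π) :
    Function.Surjective (pr π hd) := by
  unfold pr
  refine (MulEquiv.surjective (Equiv.altCongrHom (Fintype.equivFinOfCardEq (card_R hd)))).comp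
    ((MulEquiv.surjective (MonoidHom.ofInjective (alternatingGroup.ofSubtype_injective
      (s := (({d, e, f} : Finset (Fin (n + 3)))ᶜ)))).symm).comp ?_)
  rintro ⟨g, hg⟩
  obtain ⟨u, hu⟩ := hπ g
  refine ⟨⟨u, ?_⟩, ?_⟩
  · show π u ∈ (alternatingGroup.ofSubtype (({d, e, f} : Finset (Fin (n + 3)))ᶜ)).range
    rw [hu]; exact hg
  · exact Subtype.ext hu

lemma pr_ker {d e f : Fin (n + 3)} (hd : Dist d e f) (hker : π.ker ≤ center U) :
    (pr π hd).ker ≤ center (Fx π d e f) := by
  intro u hu
  rw [MonoidHom.mem_ker] at hu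
  have h1 : π.subgroupComap _ u = 1 := by
    have h2 := (MulEquiv.injective (Equiv.altCongrHom (Fintype.equivFinOfCardEq (card_R hd))))
      (hu.trans (map_one _).symm)
    exact (MulEquiv.injective (MonoidHom.ofInjective (alternatingGroup.ofSubtype_injective
      (s := (({d, e, f} : Finset (Fin (n + 3)))ᶜ)))).symm) (h2.trans (map_one _).symm)
  have h3 : π (u : U) = 1 := congrArg Subtype.val h1
  have h4 : (u : U) ∈ center U := hker (MonoidHom.mem_ker.mpr h3)
  rw [mem_center_iff] at h4 ⊢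
  intro g
  exact Subtype.ext (h4 g)

end

section

variable {F : Type u} [Field F] {U : Type v} {V : Type w} [Group U] [AddCommGroup V] [Module F V]

/-- the restriction of a representation of a subgroup commuting with `g` to an eigenspace -/
def resE (ρ : U →* (V →ₗ[F] V)) (K : Subgroup U) (g : U) (hK : ∀ u ∈ K, u * g = g * u) (z : F) :
    K →* (Module.End.eigenspace (ρ g) z →ₗ[F] Module.End.eigenspace (ρ g) z) where
  toFun u := (ρ (u : U)).restrict (by
    intro v hv
    rw [Module.End.mem_eigenspace_iff] at hv ⊢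
    rw [← rmul, ← hK u u.2, rmul, hv, map_smul])
  map_one' := by
    ext v
    simp [LinearMap.restrict_apply]
  map_mul' := by
    intro a b
    ext v
    simp [LinearMap.restrict_apply]

lemma resE_apply (ρ : U →* (V →ₗ[F] V)) (K : Subgroup U) (g : U)
    (hK : ∀ u ∈ K, u * g = g * u) (z : F) (u : K) (v : Module.End.eigenspace (ρ g) z) :
    ((resE ρ K g hK z u v : Module.End.eigenspace (ρ g) z) : V) = ρ (u : U) (v : V) := rfl

lemma eigen_dim_le [FiniteDimensional F V] (ρ : U →* (V →ₗ[F] V)) {g t : U}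
    (ht : t * g * t⁻¹ = g⁻¹) {z z' : F} (hz : z' * z = 1) :
    finrank F (Module.End.eigenspace (ρ g) z) ≤ finrank F (Module.End.eigenspace (ρ g) z') := by
  have hmaps : ∀ v ∈ Module.End.eigenspace (ρ g) z, ρ t v ∈ Module.End.eigenspace (ρ g) z' := by
    intro v hv
    rw [Module.End.mem_eigenspace_iff] at hv ⊢
    have h1 : g * t = t * g⁻¹ := by
      calc g * t = (g⁻¹)⁻¹ * t := by rw [inv_inv]
        _ = (t * g * t⁻¹)⁻¹ * t := by rw [ht]
        _ = t * g⁻¹ := by group
    have h2 : ρ g⁻¹ v = z' • v := by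
      apply rinj ρ g
      rw [rinv', map_smul, hv, smul_smul, hz, one_smul]
    rw [← rmul, h1, rmul, h2, map_smul]
  exact LinearMap.finrank_le_finrank_of_injective (f := (ρ t).restrict hmaps) (by
    intro v w hvw
    apply Subtype.ext
    apply rinj ρ t
    exact congrArg Subtype.val hvw)

lemma eigen_dim_half [FiniteDimensional F V] (ρ : U →* (V →ₗ[F] V)) {g t : U}
    (ht : t * g * t⁻¹ = g⁻¹) {z z' : F} (hz : z' * z = 1) (hne : z ≠ z') :
    2 * finrank F (Module.End.eigenspace (ρ g) z) ≤ finrank F V := by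
  have h1 := eigen_dim_le ρ ht hz
  have h2 : Disjoint (Module.End.eigenspace (ρ g) z) (Module.End.eigenspace (ρ g) z') := by
    rw [Submodule.disjoint_def]
    intro v hv hv'
    rw [Module.End.mem_eigenspace_iff] at hv hv'
    have h3 : (z - z') • v = 0 := by rw [sub_smul, ← hv, ← hv', sub_self]
    rcases smul_eq_zero.mp h3 with h | h
    · exact absurd (sub_eq_zero.mp h) hne
    · exact h
  have h3 := Submodule.finrank_add_finrank_le_of_disjoint h2
  omega

end

theorem s2_step {F : Type u} [Field F] [IsAlgClosed F] {n : ℕ} (hn : 8 ≤ n)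
    (ih : P.{u, v, w} F n) {U : Type v} {V : Type w} [Group U] [Finite U] [AddCommGroup V]
    [Module F V] [FiniteDimensional F V] (π : U →* alternatingGroup (Fin (n + 3)))
    (hπ : Function.Surjective π) (hker : π.ker ≤ center U) (hU : (Nat.card U : F) ≠ 0)
    (ρ : U →* (V →ₗ[F] V)) (hV : finrank F V ≤ n + 1)
    {N : Fin (n + 3) → Fin (n + 3) → Fin (n + 3) → U} (hN : Sys (pm π) N) :
    ∀ a b c d e f : Fin (n + 3), Dist a b c → Dist d e f →
      Disjoint ({a, b, c} : Finset (Fin (n + 3))) {d, e, f} → ∀ v : V,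
      ρ (N a b c) (ρ (N d e f) v - v) = ρ (N d e f) v - v := by
  intro a b c d e f d1 d2 hdis
  -- distinctness
  have hdis' : ∀ x ∈ ({a, b, c} : Finset (Fin (n + 3))), ∀ y ∈ ({d, e, f} : Finset (Fin (n + 3))),
      x ≠ y := fun x hx y hy => Finset.disjoint_iff_ne.mp hdis x hx y hy
  have had : a ≠ d := hdis' a (by simp) d (by simp)
  have hae : a ≠ e := hdis' a (by simp) e (by simp)
  have haf : a ≠ f := hdis' a (by simp) f (by simp)
  have hbd : b ≠ d := hdis' b (by simp) d (by simp)
  have hbe : b ≠ e := hdis' b (by simp) e (by simp)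
  have hbf : b ≠ f := hdis' b (by simp) f (by simp)
  have hcd : c ≠ d := hdis' c (by simp) d (by simp)
  have hce : c ≠ e := hdis' c (by simp) e (by simp)
  have hcf : c ≠ f := hdis' c (by simp) f (by simp)
  -- the subgroup
  have hcomm : ∀ u ∈ Fx π d e f, u * N d e f = N d e f * u := by
    intro u hu
    rw [mem_Fx] at hu
    have h1 := hN.conj u d2
    rw [hu.1, hu.2.1, hu.2.2] at h1
    calc u * N d e f = (u * N d e f * u⁻¹) * u := by group
      _ = N d e f * u := by rw [h1]
  have hNmem : N a b c ∈ Fx π d e f := by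
    rw [mem_Fx]
    exact ⟨hN.m4 d1 had.symm hbd.symm hcd.symm, hN.m4 d1 hae.symm hbe.symm hce.symm,
      hN.m4 d1 haf.symm hbf.symm hcf.symm⟩
  -- two more points
  have hex : ∀ T : Finset (Fin (n + 3)), T.card ≤ 7 → ∃ x, x ∉ T := by
    intro T hT
    by_contra hcon
    push Not at hcon
    have h4 : (Finset.univ : Finset (Fin (n + 3))) ⊆ T := fun z _ => hcon z
    have h5 := Finset.card_le_card h4
    rw [Finset.card_univ, Fintype.card_fin] at h5
    omega
  obtain ⟨p, hp⟩ := hex {a, b, c, d, e, f} (Finset.card_le_six.trans (by norm_num))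
  obtain ⟨q, hq⟩ := hex (insert p {a, b, c, d, e, f}) ((Finset.card_insert_le _ _).trans (by
    have := Finset.card_le_six (a := a) (b := b) (c := c) (d := d) (e := e) (f := f)
    omega))
  simp only [Finset.mem_insert, Finset.mem_singleton, not_or] at hp hq
  obtain ⟨hpa, hpb, hpc, hpd, hpe, hpf⟩ := hp
  obtain ⟨hqp, hqa, hqb, hqc, hqd, hqe, hqf⟩ := hq
  obtain ⟨t, ht⟩ := exists_lift hπ (g := Equiv.swap a b * Equiv.swap p q) (by
    rw [Equiv.Perm.sign_mul, Equiv.Perm.sign_swap d1.1, Equiv.Perm.sign_swap (Ne.symm hqp)]; rfl)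
  have htx : ∀ x, x ≠ a → x ≠ b → x ≠ p → x ≠ q → pm π t x = x := by
    intro x h1 h2 h3 h4
    rw [ht, Equiv.Perm.mul_apply, Equiv.swap_apply_of_ne_of_ne h3 h4,
      Equiv.swap_apply_of_ne_of_ne h1 h2]
  have hta : pm π t a = b := by
    rw [ht, Equiv.Perm.mul_apply, Equiv.swap_apply_of_ne_of_ne (Ne.symm hpa) (Ne.symm hqa),
      Equiv.swap_apply_left]
  have htb : pm π t b = a := by
    rw [ht, Equiv.Perm.mul_apply, Equiv.swap_apply_of_ne_of_ne (Ne.symm hpb) (Ne.symm hqb),
      Equiv.swap_apply_right]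
  have htc : pm π t c = c := htx c (Ne.symm d1.2.2) (Ne.symm d1.2.1) (Ne.symm hpc) (Ne.symm hqc)
  have htmem : t ∈ Fx π d e f := by
    rw [mem_Fx]
    exact ⟨htx d had.symm hbd.symm (Ne.symm hpd) (Ne.symm hqd),
      htx e hae.symm hbe.symm (Ne.symm hpe) (Ne.symm hqe),
      htx f haf.symm hbf.symm (Ne.symm hpf) (Ne.symm hqf)⟩
  have hNcomm : ⁅t, N a b c⁆ = N a b c := by
    have h1 := hN.conj t d1
    rw [hta, htb, htc, hN.inv d1] at h1
    rw [commutatorElement_def, h1]
    have h2 := hN.cube d1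
    calc (N a b c)⁻¹ * (N a b c)⁻¹ = (N a b c ^ 3)⁻¹ * N a b c := by group
      _ = N a b c := by rw [h2, inv_one, one_mul]
  -- the key fact
  have key : ∀ z : F, z ^ 3 = 1 → z ≠ 1 → ∀ v, ρ (N d e f) v = z • v → ρ (N a b c) v = v := by
    intro z hz3 hz1 v hv
    obtain ⟨s, hs1, hs2, hs3⟩ := hN.trans d2 d2.swap
    have hs : s * N d e f * s⁻¹ = (N d e f)⁻¹ := by
      rw [hN.conj s d2, hs1, hs2, hs3, hN.inv d2]
    have hzz : z ^ 2 * z = 1 := by rw [← pow_succ]; exact hz3
    have hne : z ≠ z ^ 2 := by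
      intro h
      apply hz1
      have h0 : z ≠ 0 := by
        rintro rfl
        simp at hz3
      have h2 : z * 1 = z * z := by rw [mul_one, ← pow_two]; exact h
      exact (mul_left_cancel₀ h0 h2).symm
    have hdim := eigen_dim_half ρ hs hzz hne
    have hfin : finrank F (Module.End.eigenspace (ρ (N d e f)) z) ≤ n - 2 := by omega
    have hcard : (Nat.card (Fx π d e f) : F) ≠ 0 := by
      intro h0
      apply hU
      obtain ⟨k, hk⟩ := Subgroup.card_subgroup_dvd_card (Fx π d e f)
      rw [hk, Nat.cast_mul, h0, zero_mul]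
    have h3 := ih (Fx π d e f) (Module.End.eigenspace (ρ (N d e f)) z) (pr π d2)
      (pr_surj π d2 hπ) (pr_ker π d2 hker) hcard (resE ρ _ _ hcomm z) hfin
      ⟨t, htmem⟩ ⟨N a b c, hNmem⟩
    have h4 := congrArg (fun φ => ((φ ⟨v, Module.End.mem_eigenspace_iff.mpr hv⟩ :
      Module.End.eigenspace (ρ (N d e f)) z) : V)) h3
    have h5 : ρ (⁅t, N a b c⁆) v = v := h4
    rwa [hNcomm] at h5
  -- eigenvector decomposition
  by_contra hcon
  push Not at hcon
  obtain ⟨v0, hv0⟩ := hcon
  have hf : (ρ (N a b c) - 1) * (ρ (N d e f) - 1) ≠ 0 := by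
    intro h0
    apply hv0
    have h1 := congrArg (fun φ : V →ₗ[F] V => φ v0) h0
    have h2 : ρ (N a b c) (ρ (N d e f) v0 - v0) - (ρ (N d e f) v0 - v0) = 0 := h1
    exact sub_eq_zero.mp h2
  obtain ⟨v, χ, hχ, hfv⟩ := exists_joint hU ρ (fun _ : Unit => N d e f) (fun _ _ => rfl) hf
  have h1 := hχ ()
  have h2 : ((ρ (N a b c) - 1) * (ρ (N d e f) - 1)) v =
      (χ () - 1) • (ρ (N a b c) v - v) := by
    show ρ (N a b c) (ρ (N d e f) v - v) - (ρ (N d e f) v - v) = _
    have h3 : ρ (N d e f) v = χ () • v := h1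
    rw [h3, map_sub, map_smul]
    module
  rw [h2] at hfv
  have hv : v ≠ 0 := by
    rintro rfl
    apply hfv
    simp
  have h3 : χ () ^ 3 = 1 := eigen_cube ρ (hN.cube d2) hv h1
  by_cases h4 : χ () = 1
  · apply hfv
    rw [h4, sub_self, zero_smul]
  · apply hfv
    rw [key _ h3 h4 v h1, sub_self, smul_zero]

end TransDeg.Cent
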