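import Pool.Agent.TransDeg.TenA

/-!
Disjoint lifted 3-cycles in degree 10.
-/

set_option autoImplicit false
set_option linter.unusedSectionVars false

open Subgroup Module Equiv
open scoped commutatorElement

namespace TransDeg.Cent

set_option maxRecDepth 100000 in
lemma orb_card10 : ∀ j k : ZMod 3, j ≠ 0 → 9 ≤ (orb 4 (1, j, k)).card ∨
    (8 ≤ (orb 4 (1, j, k)).card ∧ ∀ q ∈ orb 4 (1, j, k), q.1 ≠ 0) := by
  decide

/-- operations on exponents of (5-cycle, 3-cycle) -/
def ops2 (i : Fin 2) (p : ZMod 5 × ZMod 3) : ZMod 5 × ZMod 3 :=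
  match i with
  | 0 => (3 * p.1, p.2)
  | 1 => (p.1, -p.2)

/-- operations on exponents of two 5-cycles -/
def ops3 (i : Fin 2) (p : ZMod 5 × ZMod 5) : ZMod 5 × ZMod 5 :=
  match i with
  | 0 => (-p.1, p.2)
  | 1 => (3 * p.2, p.1)

set_option maxRecDepth 100000 in
lemma orb_card2 : 8 ≤ (orbG ops2 4 (1, 1)).card ∧ ∀ q ∈ orbG ops2 4 (1, 1), q.1 ≠ 0 := by
  decide

set_option maxRecDepth 100000 in
lemma orb_card3 : ∀ j : ZMod 5, j ≠ 0 → 9 ≤ (orbG ops3 5 (1, j)).card := by
  decide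

/-- the 5-cycle -/
def c1 : Perm (Fin 10) := swap 0 1 * swap 1 2 * swap 2 3 * swap 3 4
/-- inversion -/
def nu : Perm (Fin 10) := swap 1 4 * swap 2 3
/-- exchange of the two blocks -/
def sg : Perm (Fin 10) :=
  swap 0 5 * (swap 1 6 * swap 6 2 * swap 2 7 * swap 7 4 * swap 4 9 * swap 9 3 * swap 3 8)
/-- multiplication by 2 on the first block -/
def mu : Perm (Fin 10) := swap 1 2 * swap 2 4 * swap 4 3 * swap 8 9
/-- inverts the 3-cycle `(5 6 7)` -/
def ta : Perm (Fin 10) := swap 5 6 * swap 8 9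

set_option maxRecDepth 100000

lemma p1 : Perm.sign c1 = 1 := by decide
lemma p2 : Perm.sign nu = 1 := by decide
lemma p3 : Perm.sign sg = 1 := by decide
lemma p4 : Perm.sign mu = 1 := by decide
lemma p5 : Perm.sign ta = 1 := by decide
lemma p6 : c1 ^ 5 = 1 := by decide
lemma p7 : nu * c1 * nu⁻¹ * c1 = 1 := by decide
lemma p8 : nu ^ 2 = 1 := by decide
lemma p9 : sg * (sg * c1 * sg⁻¹) * sg⁻¹ = c1 ^ 2 := by decide
lemma p10 : (sg * sg) * nu * (sg * sg)⁻¹ = nu := by decide
lemma p11 : mu * c1 * mu⁻¹ = c1 ^ 2 := by decide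
lemma p12 : mu * nu * mu⁻¹ = nu := by decide
lemma p13 : c1 * (sg * c1 * sg⁻¹) = (sg * c1 * sg⁻¹) * c1 := by decide
lemma p14 : nu * (sg * c1 * sg⁻¹) = (sg * c1 * sg⁻¹) * nu := by decide
lemma p15 : ta ^ 2 = 1 := by decide
lemma p16 : ta * c1 = c1 * ta := by decide
lemma p17 : c1 * cyc 5 6 7 = cyc 5 6 7 * c1 := by decide

section roots

variable {F : Type*} [Field F] {s : F} {p : ℕ} [hp : Fact p.Prime]

lemma expP_neg (h5 : s ^ p = 1) (i : ZMod p) : s ^ (-i).val * s ^ i.val = 1 := by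
  rw [← pow_add]
  have h : ∀ m : ℕ, s ^ (m % p) = s ^ m := by
    intro m
    conv_rhs => rw [← Nat.mod_add_div m p, pow_add, pow_mul, h5, one_pow, mul_one]
  rw [← h, ← ZMod.val_add, neg_add_cancel, ZMod.val_zero, pow_zero]

end roots

section

variable {F V U : Type*} [Field F] [IsAlgClosed F] [AddCommGroup V] [Module F V]
  [FiniteDimensional F V] [Group U] [Finite U]

lemma Sys.pm_eq {Ω : Type*} {π : U →* Equiv.Perm Ω} [Fintype Ω] [DecidableEq Ω]
    {N : Ω → Ω → Ω → U} (hN : Sys π N) {a b c : Ω} (d : Dist a b c) : π (N a b c) = cyc a b c := by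
  ext x
  by_cases ha : x = a
  · rw [ha, cyc_a d, hN.m1 d]
  by_cases hb : x = b
  · rw [hb, cyc_b d, hN.m2 d]
  by_cases hc : x = c
  · rw [hc, cyc_c, hN.m3 d]
  rw [cyc_x ha hb hc, hN.m4 d ha hb hc]

lemma dvd_ne {n m : ℕ} {π : U →* alternatingGroup (Fin n)}
    (hπ : Function.Surjective π) (hU : (Nat.card U : F) ≠ 0)
    (hm : m ∣ Nat.card (alternatingGroup (Fin n))) : (m : F) ≠ 0 := by
  intro h0
  apply hU
  obtain ⟨k, hk⟩ := hm.trans (Subgroup.card_dvd_of_surjective π hπ)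
  rw [hk, Nat.cast_mul, h0, zero_mul]

lemma card10 : Nat.card (alternatingGroup (Fin 10)) = 1814400 := by
  have : Nontrivial (Fin 10) := inferInstance
  rw [nat_card_alternatingGroup, Nat.card_fin]
  rfl

/-- if disjoint 3-cycles interact, a 3-cycle has no fixed vector -/
theorem ten_A (π : U →* alternatingGroup (Fin 10)) (hπ : Function.Surjective π)
    (hU : (Nat.card U : F) ≠ 0)
    (ρ : U →* (V →ₗ[F] V)) (hV : finrank F V ≤ 8) {N : Fin 10 → Fin 10 → Fin 10 → U}
    (hN : Sys (pm π) N) {v : V}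
    (hcon : ρ (N 0 1 2) (ρ (N 3 4 5) v - v) ≠ ρ (N 3 4 5) v - v) (w : V)
    (hw : ρ (N 0 1 2) w = w) : w = 0 := by
  classical
  by_contra hw0
  have d1 : Dist (0 : Fin 10) 1 2 := ⟨by decide, by decide, by decide⟩
  have d2 : Dist (3 : Fin 10) 4 5 := ⟨by decide, by decide, by decide⟩
  have d3 : Dist (6 : Fin 10) 7 8 := ⟨by decide, by decide, by decide⟩
  have c12 : N 0 1 2 * N 3 4 5 = N 3 4 5 * N 0 1 2 := by
    have h := hN.conj (N 0 1 2) d2
    rw [hN.m4 d1 (by decide) (by decide) (by decide), hN.m4 d1 (by decide) (by decide) (by decide),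
      hN.m4 d1 (by decide) (by decide) (by decide)] at h
    calc N 0 1 2 * N 3 4 5 = (N 0 1 2 * N 3 4 5 * (N 0 1 2)⁻¹) * N 0 1 2 := by group
      _ = _ := by rw [h]
  have c13 : N 0 1 2 * N 6 7 8 = N 6 7 8 * N 0 1 2 := by
    have h := hN.conj (N 0 1 2) d3
    rw [hN.m4 d1 (by decide) (by decide) (by decide), hN.m4 d1 (by decide) (by decide) (by decide),
      hN.m4 d1 (by decide) (by decide) (by decide)] at h
    calc N 0 1 2 * N 6 7 8 = (N 0 1 2 * N 6 7 8 * (N 0 1 2)⁻¹) * N 0 1 2 := by group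
      _ = _ := by rw [h]
  have c23 : N 3 4 5 * N 6 7 8 = N 6 7 8 * N 3 4 5 := by
    have h := hN.conj (N 3 4 5) d3
    rw [hN.m4 d2 (by decide) (by decide) (by decide), hN.m4 d2 (by decide) (by decide) (by decide),
      hN.m4 d2 (by decide) (by decide) (by decide)] at h
    calc N 3 4 5 * N 6 7 8 = (N 3 4 5 * N 6 7 8 * (N 3 4 5)⁻¹) * N 3 4 5 := by group
      _ = _ := by rw [h]
  have hcomm : ∀ i j, tri N i * tri N j = tri N j * tri N i := by
    intro i j
    fin_cases i <;> fin_cases j <;>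
      first
        | rfl
        | exact c12
        | exact c12.symm
        | exact c13
        | exact c13.symm
        | exact c23
        | exact c23.symm
  -- the operator
  set f : V →ₗ[F] V := (ρ (N 0 1 2) - 1) * (ρ (N 3 4 5) - 1) with hf
  have hfv : f v ≠ 0 := by
    intro h0
    apply hcon
    have h1 : f v = ρ (N 0 1 2) (ρ (N 3 4 5) v - v) - (ρ (N 3 4 5) v - v) := rfl
    rw [h1, sub_eq_zero] at h0
    exact h0
  have hf0 : f ≠ 0 := by
    intro h0
    rw [h0] at hfv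
    exact hfv rfl
  obtain ⟨v1, χ, hχ, hfv1⟩ := exists_joint hU ρ (tri N) hcomm hf0
  have hv1 : v1 ≠ 0 := by
    rintro rfl
    rw [map_zero] at hfv1
    exact hfv1 rfl
  have e1 : ρ (N 0 1 2) v1 = χ 0 • v1 := hχ 0
  have e2 : ρ (N 3 4 5) v1 = χ 1 • v1 := hχ 1
  have e3 : ρ (N 6 7 8) v1 = χ 2 • v1 := hχ 2
  have hf1 : f v1 = ((χ 0 - 1) * (χ 1 - 1)) • v1 := by
    have h1 : f v1 = ρ (N 0 1 2) (ρ (N 3 4 5) v1 - v1) - (ρ (N 3 4 5) v1 - v1) := rfl
    rw [h1, e2, map_sub, map_smul, e1]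
    module
  have hx : χ 0 ≠ 1 := by
    intro h; rw [hf1, h] at hfv1; simp at hfv1
  have hy : χ 1 ≠ 1 := by
    intro h; rw [hf1, h] at hfv1; simp at hfv1
  have x3 : χ 0 ^ 3 = 1 := eigen_cube ρ (hN.cube d1) hv1 e1
  have y3 : χ 1 ^ 3 = 1 := eigen_cube ρ (hN.cube d2) hv1 e2
  have z3 : χ 2 ^ 3 = 1 := eigen_cube ρ (hN.cube d3) hv1 e3
  set s := χ 0 with hs
  obtain ⟨j, hj⟩ := exists_exp x3 hx y3
  obtain ⟨k, hk⟩ := exists_exp x3 hx z3
  have hj0 : j ≠ 0 := by
    rintro rfl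
    apply hy
    rw [hj]; simp
  let E : ZMod 3 × ZMod 3 × ZMod 3 → Prop := fun p => ∃ v : V, v ≠ 0 ∧
    ρ (N 0 1 2) v = s ^ p.1.val • v ∧ ρ (N 3 4 5) v = s ^ p.2.1.val • v ∧
    ρ (N 6 7 8) v = s ^ p.2.2.val • v
  have hE0 : E (1, j, k) := by
    refine ⟨v1, hv1, ?_, ?_, ?_⟩
    · show ρ (N 0 1 2) v1 = s ^ (1 : ZMod 3).val • v1
      rw [e1, ZMod.val_one, pow_one]
    · show ρ (N 3 4 5) v1 = s ^ j.val • v1
      rw [e2, hj]
    · show ρ (N 6 7 8) v1 = s ^ k.val • v1
      rw [e3, hk]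
  have hEop : ∀ i p, E p → E (op i p) := by
    intro i p
    rintro ⟨w, hw0, h1, h2, h3⟩
    fin_cases i
    · -- inversion of the first two
      obtain ⟨u, hu⟩ := exists_lift hπ (g := Equiv.swap 0 1 * Equiv.swap 3 4) (by decide)
      refine ⟨ρ u w, fun h => hw0 (rinj ρ u (by rw [h, map_zero])), ?_, ?_, ?_⟩
      · have h := conj_apply (ρ := ρ) hN u (a := 1) (b := 0) (c := 2) d1.swap w
        rw [hu] at h
        have h' : ρ u (ρ (N 1 0 2) w) = ρ (N 0 1 2) (ρ u w) := h
        rw [← h', hN.inv d1, eigen_inv ρ (exp_neg x3 p.1) h1, map_smul]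
        rfl
      · have h := conj_apply (ρ := ρ) hN u (a := 4) (b := 3) (c := 5) d2.swap w
        rw [hu] at h
        have h' : ρ u (ρ (N 4 3 5) w) = ρ (N 3 4 5) (ρ u w) := h
        rw [← h', hN.inv d2, eigen_inv ρ (exp_neg x3 p.2.1) h2, map_smul]
        rfl
      · have h := conj_apply (ρ := ρ) hN u (a := 6) (b := 7) (c := 8) d3 w
        rw [hu] at h
        have h' : ρ u (ρ (N 6 7 8) w) = ρ (N 6 7 8) (ρ u w) := h
        rw [← h', h3, map_smul]
        rfl
    · -- exchange of the first two, inversion of the third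
      obtain ⟨u, hu⟩ := exists_lift hπ
        (g := Equiv.swap 0 3 * Equiv.swap 1 4 * Equiv.swap 2 5 * Equiv.swap 6 7) (by decide)
      refine ⟨ρ u w, fun h => hw0 (rinj ρ u (by rw [h, map_zero])), ?_, ?_, ?_⟩
      · have h := conj_apply (ρ := ρ) hN u (a := 3) (b := 4) (c := 5) d2 w
        rw [hu] at h
        have h' : ρ u (ρ (N 3 4 5) w) = ρ (N 0 1 2) (ρ u w) := h
        rw [← h', h2, map_smul]
        rfl
      · have h := conj_apply (ρ := ρ) hN u (a := 0) (b := 1) (c := 2) d1 w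
        rw [hu] at h
        have h' : ρ u (ρ (N 0 1 2) w) = ρ (N 3 4 5) (ρ u w) := h
        rw [← h', h1, map_smul]
        rfl
      · have h := conj_apply (ρ := ρ) hN u (a := 7) (b := 6) (c := 8) d3.swap w
        rw [hu] at h
        have h' : ρ u (ρ (N 7 6 8) w) = ρ (N 6 7 8) (ρ u w) := h
        rw [← h', hN.inv d3, eigen_inv ρ (exp_neg x3 p.2.2) h3, map_smul]
        rfl
    · -- rotation
      obtain ⟨u, hu⟩ := exists_lift hπ
        (g := Equiv.swap 0 3 * Equiv.swap 3 6 * (Equiv.swap 1 4 * Equiv.swap 4 7) *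
          (Equiv.swap 2 5 * Equiv.swap 5 8)) (by decide)
      refine ⟨ρ u w, fun h => hw0 (rinj ρ u (by rw [h, map_zero])), ?_, ?_, ?_⟩
      · have h := conj_apply (ρ := ρ) hN u (a := 6) (b := 7) (c := 8) d3 w
        rw [hu] at h
        have h' : ρ u (ρ (N 6 7 8) w) = ρ (N 0 1 2) (ρ u w) := h
        rw [← h', h3, map_smul]
        rfl
      · have h := conj_apply (ρ := ρ) hN u (a := 0) (b := 1) (c := 2) d1 w
        rw [hu] at h
        have h' : ρ u (ρ (N 0 1 2) w) = ρ (N 3 4 5) (ρ u w) := h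
        rw [← h', h1, map_smul]
        rfl
      · have h := conj_apply (ρ := ρ) hN u (a := 3) (b := 4) (c := 5) d2 w
        rw [hu] at h
        have h' : ρ u (ρ (N 3 4 5) w) = ρ (N 6 7 8) (ρ u w) := h
        rw [← h', h2, map_smul]
        rfl
  have hEall := orb_closed hEop 4 hE0
  -- the eigenvalue systems
  let toF : ZMod 3 × ZMod 3 × ZMod 3 → (Fin 3 → F) :=
    fun p => ![s ^ p.1.val, s ^ p.2.1.val, s ^ p.2.2.val]
  have hinj : Function.Injective toF := by
    intro p q hpq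
    have h1 := congrFun hpq 0
    have h2 := congrFun hpq 1
    have h3 := congrFun hpq 2
    exact Prod.ext (exp_inj x3 hx h1) (Prod.ext (exp_inj x3 hx h2) (exp_inj x3 hx h3))
  have hT : ∀ χ' ∈ (orb 4 (1, j, k)).image toF, ∃ v : V, v ≠ 0 ∧
      ∀ i, ρ (tri N i) v = χ' i • v := by
    intro χ' hχ'
    obtain ⟨q, hq, rfl⟩ := Finset.mem_image.mp hχ'
    obtain ⟨w, hw0, h1, h2, h3⟩ := hEall q hq
    refine ⟨w, hw0, ?_⟩
    intro i
    fin_cases i
    · exact h1
    · exact h2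
    · exact h3
  rcases orb_card10 j k hj0 with hc | ⟨hc, hq0⟩
  · have hle := weights_card (fun i => ρ (tri N i))
      (fun i j => by rw [← map_mul, ← map_mul, hcomm]) ((orb 4 (1, j, k)).image toF) hT
    rw [Finset.card_image_of_injective _ hinj] at hle
    omega
  · obtain ⟨v2, χ2, hv2, hχ2, hχ20⟩ := exists_joint_fixed hU ρ (tri N) hcomm (a := 3)
      (by exact_mod_cast dvd_ne (m := 3) hπ hU (by rw [card10]; norm_num)) (hN.cube d1) hw0 hw
    have hnot : χ2 ∉ (orb 4 (1, j, k)).image toF := by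
      intro hmem
      obtain ⟨q, hq, hqe⟩ := Finset.mem_image.mp hmem
      apply hq0 q hq
      have h1 : s ^ q.1.val = 1 := by
        have := congrFun hqe 0
        rw [hχ20] at this
        exact this
      have h2 : s ^ q.1.val = s ^ (0 : ZMod 3).val := by rw [h1]; simp
      exact exp_inj x3 hx h2
    have hle := weights_card (fun i => ρ (tri N i))
      (fun i j => by rw [← map_mul, ← map_mul, hcomm])
      (insert χ2 ((orb 4 (1, j, k)).image toF)) (by
        intro χ' hχ'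
        rcases Finset.mem_insert.mp hχ' with rfl | h
        · exact ⟨v2, hv2, hχ2⟩
        · exact hT χ' h)
    rw [Finset.card_insert_of_notMem hnot, Finset.card_image_of_injective _ hinj] at hle
    omega

theorem s2_ten (pi : U →* alternatingGroup (Fin 10))
    (hpi : Function.Surjective pi) (hker : pi.ker ≤ Subgroup.center U)
    (hU : (Nat.card U : F) ≠ 0) (rho : U →* (V →ₗ[F] V)) (hV : Module.finrank F V ≤ 8)
    (N : Fin 10 → Fin 10 → Fin 10 → U)
    (hN : Sys (pm pi) N)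
    (hnt : ∃ x y : U, rho ⁅x, y⁆ ≠ 1) (v : V) :
    rho (N 0 1 2) (rho (N 3 4 5) v - v) = rho (N 3 4 5) v - v := by
  classical
  by_contra hcon
  have hfix := ten_A pi hpi hU rho hV hN hcon
  have d1 : Dist (0 : Fin 10) 1 2 := ⟨by decide, by decide, by decide⟩
  have d5 : Dist (5 : Fin 10) 6 7 := ⟨by decide, by decide, by decide⟩
  have F5 : Fact (Nat.Prime 5) := ⟨by norm_num⟩
  have F3 : Fact (Nat.Prime 3) := ⟨by norm_num⟩
  have hsimp : IsSimpleGroup (alternatingGroup (Fin 10)) :=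
    alternatingGroup.isSimpleGroup (by simp)
  set A := N 5 6 7 with hA
  have hfixA : ∀ w, rho A w = w → w = 0 := by
    intro w hw
    obtain ⟨u, hu1, hu2, hu3⟩ := hN.trans d5 d1
    have h1 := conj_apply (ρ := rho) hN u d5 w
    rw [hu1, hu2, hu3, ← hA, hw] at h1
    have h2 := hfix _ h1.symm
    exact rinj rho u (by rw [h2, map_zero])
  -- lifts
  obtain ⟨c, hc⟩ := exists_lift hpi p1
  obtain ⟨n, hn⟩ := exists_lift hpi p2
  obtain ⟨g, hg⟩ := exists_lift hpi p3
  obtain ⟨m, hm⟩ := exists_lift hpi p4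
  obtain ⟨t, ht⟩ := exists_lift hpi p5
  obtain ⟨C, hC, hC5, hCn⟩ := exists_five (c := c) (n := n) hker
    (by rw [map_mul, map_mul, map_mul, map_inv, hc, hn]; exact p7) (by rw [hc]; exact p6)
  rw [hc] at hC
  have hC5c : ∀ w, w * C ^ 5 = C ^ 5 * w := fun w => by rw [hC5, mul_one, one_mul]
  have hA3c : ∀ w, w * A ^ 3 = A ^ 3 * w := fun w => by rw [hN.cube d5, mul_one, one_mul]
  have hC6 : C ^ 6 = C := by
    rw [show 6 = 5 + 1 from rfl, pow_succ, hC5, one_mul]
  have hCA : C * A = A * C := by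
    refine comm_coprime hker ?_ (a := 5) (b := 3) (by norm_num) hC5c hA3c
    rw [hC, hA, hN.pm_eq d5]; exact p17
  -- `C` acts nontrivially
  have hCne : rho C - 1 ≠ 0 := by
    intro h
    obtain ⟨x, y, hxy⟩ := hnt
    apply hxy
    refine TransDeg.Cent8.trivial_on_comm pi hpi hker rho (c := C) (sub_eq_zero.mp h) ?_ x y
    intro h2
    have h4 : pm pi C = 1 := by
      show ((pi C : alternatingGroup (Fin 10)) : Equiv.Perm (Fin 10)) = 1
      rw [h2]; rfl
    rw [hC] at h4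
    revert h4
    decide
  have hcommCA : ∀ i j, (![C, A] : Fin 2 → U) i * (![C, A] : Fin 2 → U) j =
      (![C, A] : Fin 2 → U) j * (![C, A] : Fin 2 → U) i := by
    intro i j
    fin_cases i <;> fin_cases j <;>
      first
        | rfl
        | exact hCA
        | exact hCA.symm
  obtain ⟨v1, χ, hχ, hv1'⟩ := exists_joint hU rho (![C, A] : Fin 2 → U) hcommCA hCne
  have hv1 : v1 ≠ 0 := by
    rintro rfl
    rw [map_zero] at hv1'
    exact hv1' rfl
  have e1 : rho C v1 = χ 0 • v1 := hχ 0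
  have e2 : rho A v1 = χ 1 • v1 := hχ 1
  set s := χ 0 with hs
  set l := χ 1 with hl
  have hs1 : s ≠ 1 := by
    intro h
    apply hv1'
    show rho C v1 - v1 = 0
    rw [e1, h, one_smul, sub_self]
  have hl1 : l ≠ 1 := by
    intro h
    rw [h, one_smul] at e2
    exact hv1 (hfixA v1 e2)
  have s5 : s ^ 5 = 1 := eigen_order rho hC5 hv1 e1
  have l3 : l ^ 3 = 1 := eigen_order rho (hN.cube d5) hv1 e2
  -- the element `m`
  have hmC : m * C * m⁻¹ = C ^ 2 := by
    refine lift_unique hker (w := m * n * m⁻¹) (w' := n) (a := 5) ?_ ?_ ?_ ?_ (by norm_num) ?_ ?_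
    · rw [map_mul, map_mul, map_inv, map_pow, hm, hC]; exact p11
    · rw [map_mul, map_mul, map_inv, hm, hn]; exact p12
    · calc m * n * m⁻¹ * (m * C * m⁻¹) * (m * n * m⁻¹)⁻¹ = m * (n * C * n⁻¹) * m⁻¹ := by group
        _ = _ := by rw [hCn]; group
    · calc n * C ^ 2 * n⁻¹ = (n * C * n⁻¹) ^ 2 := conj_pow.symm
        _ = _ := by rw [hCn, inv_pow]
    · rw [conj_pow, hC5]; group
    · rw [← pow_mul, mul_comm, pow_mul, hC5, one_pow]
  have hmC3 : m * C ^ 3 = C * m := by
    have h1 : m * C ^ 3 * m⁻¹ = C := by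
      rw [← conj_pow, hmC, ← pow_mul]; exact hC6
    calc m * C ^ 3 = (m * C ^ 3 * m⁻¹) * m := by group
      _ = C * m := by rw [h1]
  have hmA : m * A = A * m := by
    have h := hN.conj m d5
    rw [hm] at h
    have h' : m * A * m⁻¹ = A := h
    calc m * A = (m * A * m⁻¹) * m := by group
      _ = _ := by rw [h']
  -- the element `t`
  have htC : t * C = C * t := by
    refine comm_coprime hker ?_ (a := 2) (b := 5) (by norm_num) ?_ hC5c
    · rw [ht, hC]; exact p16
    · intro w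
      apply central_of_pm hker
      rw [map_pow, ht]; exact p15
  have htA : t * A⁻¹ = A * t := by
    have h := hN.conj t d5.swap
    rw [ht, hN.inv d5] at h
    have h' : t * A⁻¹ * t⁻¹ = A := h
    calc t * A⁻¹ = (t * A⁻¹ * t⁻¹) * t := by group
      _ = _ := by rw [h']
  let E2 : ZMod 5 × ZMod 3 → Prop := fun p => ∃ v : V, v ≠ 0 ∧
    rho C v = s ^ p.1.val • v ∧ rho A v = l ^ p.2.val • v
  have hE20 : E2 (1, 1) := by
    refine ⟨v1, hv1, ?_, ?_⟩
    · show rho C v1 = s ^ (1 : ZMod 5).val • v1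
      rw [e1, ZMod.val_one, pow_one]
    · show rho A v1 = l ^ (1 : ZMod 3).val • v1
      rw [e2, ZMod.val_one, pow_one]
  have hE2op : ∀ i p, E2 p → E2 (ops2 i p) := by
    intro i p
    rintro ⟨w, hw0, h1, h2⟩
    fin_cases i
    · refine ⟨rho m w, fun h => hw0 (rinj rho m (by rw [h, map_zero])), ?_, ?_⟩
      · have h3 := eigen_move rho hmC3 (eigen_pow rho h1 3)
        rw [h3]
        congr 1
        exact (expP_mul s5 3 p.1).symm
      · exact eigen_move rho hmA h2
    · refine ⟨rho t w, fun h => hw0 (rinj rho t (by rw [h, map_zero])), ?_, ?_⟩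
      · exact eigen_move rho htC h1
      · exact eigen_move rho htA (eigen_inv rho (expP_neg l3 p.2) h2)
  have hE2all := orbG_closed hE2op 4 hE20
  let toF2 : ZMod 5 × ZMod 3 → (Fin 2 → F) := fun p => ![s ^ p.1.val, l ^ p.2.val]
  have hinj2 : Function.Injective toF2 := by
    intro p q hpq
    have h1 := congrFun hpq 0
    have h2 := congrFun hpq 1
    exact Prod.ext (expP_inj s5 hs1 h1) (expP_inj l3 hl1 h2)
  -- `C` has no fixed vector
  have hfixC : ∀ w, rho C w = w → w = 0 := by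
    intro w hw
    by_contra hw0
    obtain ⟨v2, χ2, hv2, hχ2, hχ20⟩ := exists_joint_fixed hU rho (![C, A] : Fin 2 → U) hcommCA
      (a := 5) (by exact_mod_cast dvd_ne (m := 5) hpi hU (by rw [card10]; norm_num)) hC5 hw0 hw
    have hnot : χ2 ∉ (orbG ops2 4 (1, 1)).image toF2 := by
      intro hmem
      obtain ⟨q, hq, hqe⟩ := Finset.mem_image.mp hmem
      apply orb_card2.2 q hq
      have h1 : s ^ q.1.val = 1 := by
        have := congrFun hqe 0
        rw [hχ20] at this
        exact this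
      have h2 : s ^ q.1.val = s ^ (0 : ZMod 5).val := by rw [h1]; simp
      exact expP_inj s5 hs1 h2
    have hle := weights_card (fun i => rho ((![C, A] : Fin 2 → U) i))
      (fun i j => by rw [← map_mul, ← map_mul, hcommCA])
      (insert χ2 ((orbG ops2 4 (1, 1)).image toF2)) (by
        intro χ' hχ'
        rcases Finset.mem_insert.mp hχ' with rfl | h
        · exact ⟨v2, hv2, hχ2⟩
        · obtain ⟨q, hq, rfl⟩ := Finset.mem_image.mp h
          obtain ⟨w, hw0, h1, h2⟩ := hE2all q hq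
          refine ⟨w, hw0, ?_⟩
          intro i
          fin_cases i
          · exact h1
          · exact h2)
    rw [Finset.card_insert_of_notMem hnot, Finset.card_image_of_injective _ hinj2] at hle
    have := orb_card2.1
    omega
  -- the second 5-cycle
  set C2 := g * C * g⁻¹ with hC2
  have hC25 : C2 ^ 5 = 1 := by rw [hC2, conj_pow, hC5]; group
  have hgC : g * C = C2 * g := by rw [hC2]; group
  have hfixC2 : ∀ w, rho C2 w = w → w = 0 := by
    intro w hw
    have h1 : g⁻¹ * C2 = C * g⁻¹ := by rw [hC2]; group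
    have h2 : rho C (rho g⁻¹ w) = (1 : F) • rho g⁻¹ w :=
      eigen_move rho h1 (by rw [hw, one_smul])
    rw [one_smul] at h2
    have h3 := hfixC _ h2
    exact rinj rho g⁻¹ (by rw [h3, map_zero])
  have hpmC2 : pm pi C2 = sg * c1 * sg⁻¹ := by
    rw [hC2, map_mul, map_mul, map_inv, hg, hC]
  have hgC2 : g * C2 * g⁻¹ = C ^ 2 := by
    refine lift_unique hker (w := (g * g) * n * (g * g)⁻¹) (w' := n) (a := 5) ?_ ?_ ?_ ?_
      (by norm_num) ?_ ?_
    · rw [map_mul, map_mul, map_inv, map_pow, hpmC2, hg, hC]; exact p9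
    · rw [map_mul, map_mul, map_inv, map_mul, hg, hn]; exact p10
    · calc (g * g) * n * (g * g)⁻¹ * (g * C2 * g⁻¹) * ((g * g) * n * (g * g)⁻¹)⁻¹
          = (g * g) * (n * C * n⁻¹) * (g * g)⁻¹ := by
            rw [hC2]; simp only [mul_inv_rev, inv_inv, mul_assoc, inv_mul_cancel_left,
              mul_inv_cancel_left]
        _ = _ := by
            rw [hCn, hC2]; simp only [mul_inv_rev, inv_inv, mul_assoc]
    · calc n * C ^ 2 * n⁻¹ = (n * C * n⁻¹) ^ 2 := conj_pow.symm
        _ = _ := by rw [hCn, inv_pow]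
    · rw [conj_pow, hC25]; group
    · rw [← pow_mul, mul_comm, pow_mul, hC5, one_pow]
  have hgC23 : g * C2 ^ 3 = C * g := by
    have h1 : g * C2 ^ 3 * g⁻¹ = C := by
      rw [← conj_pow, hgC2, ← pow_mul]; exact hC6
    calc g * C2 ^ 3 = (g * C2 ^ 3 * g⁻¹) * g := by group
      _ = C * g := by rw [h1]
  have hCC2 : C * C2 = C2 * C := by
    refine comm_inverted hker (w := n) ?_ ?_ hCn (a := 5) (by norm_num) hC5
    · rw [hpmC2, hC]; exact p13
    · rw [hpmC2, hn]; exact p14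
  have hnC2 : n * C2 = C2 * n := by
    refine comm_coprime hker ?_ (a := 2) (b := 5) (by norm_num) ?_
      (fun w => by rw [hC25, mul_one, one_mul])
    · rw [hpmC2, hn]; exact p14
    · intro w
      apply central_of_pm hker
      rw [map_pow, hn]; exact p8
  have hnC : n * C⁻¹ = C * n := by
    have h1 : n * C⁻¹ * n⁻¹ = C := by
      calc n * C⁻¹ * n⁻¹ = (n * C * n⁻¹)⁻¹ := by group
        _ = C := by rw [hCn, inv_inv]
    calc n * C⁻¹ = (n * C⁻¹ * n⁻¹) * n := by group
      _ = C * n := by rw [h1]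
  have hcommCC : ∀ i j, (![C, C2] : Fin 2 → U) i * (![C, C2] : Fin 2 → U) j =
      (![C, C2] : Fin 2 → U) j * (![C, C2] : Fin 2 → U) i := by
    intro i j
    fin_cases i <;> fin_cases j <;>
      first
        | rfl
        | exact hCC2
        | exact hCC2.symm
  have hone : (1 : V →ₗ[F] V) ≠ 0 := by
    intro h
    have h1 : v1 = (1 : V →ₗ[F] V) v1 := rfl
    rw [h] at h1
    exact hv1 h1
  obtain ⟨v3, χ3, hχ3, hv3'⟩ := exists_joint hU rho (![C, C2] : Fin 2 → U) hcommCC hone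
  have hv3 : v3 ≠ 0 := hv3'
  have f1 : rho C v3 = χ3 0 • v3 := hχ3 0
  have f2 : rho C2 v3 = χ3 1 • v3 := hχ3 1
  have r5 : χ3 0 ^ 5 = 1 := eigen_order rho hC5 hv3 f1
  have q5 : χ3 1 ^ 5 = 1 := eigen_order rho hC25 hv3 f2
  have r1 : χ3 0 ≠ 1 := by
    intro h
    rw [h, one_smul] at f1
    exact hv3 (hfixC v3 f1)
  have q1 : χ3 1 ≠ 1 := by
    intro h
    rw [h, one_smul] at f2
    exact hv3 (hfixC2 v3 f2)
  set r := χ3 0 with hr
  obtain ⟨j, hj⟩ := existsP_exp (p := 5) r5 r1 q5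
  have hj0 : j ≠ 0 := by
    rintro rfl
    apply q1
    rw [hj]; simp
  let E3 : ZMod 5 × ZMod 5 → Prop := fun p => ∃ v : V, v ≠ 0 ∧
    rho C v = r ^ p.1.val • v ∧ rho C2 v = r ^ p.2.val • v
  have hE30 : E3 (1, j) := by
    refine ⟨v3, hv3, ?_, ?_⟩
    · show rho C v3 = r ^ (1 : ZMod 5).val • v3
      rw [f1, ZMod.val_one, pow_one]
    · show rho C2 v3 = r ^ j.val • v3
      rw [f2, hj]
  have hE3op : ∀ i p, E3 p → E3 (ops3 i p) := by
    intro i p
    rintro ⟨w, hw0, h1, h2⟩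
    fin_cases i
    · refine ⟨rho n w, fun h => hw0 (rinj rho n (by rw [h, map_zero])), ?_, ?_⟩
      · exact eigen_move rho hnC (eigen_inv rho (expP_neg r5 p.1) h1)
      · exact eigen_move rho hnC2 h2
    · refine ⟨rho g w, fun h => hw0 (rinj rho g (by rw [h, map_zero])), ?_, ?_⟩
      · have h3 := eigen_move rho hgC23 (eigen_pow rho h2 3)
        rw [h3]
        congr 1
        exact (expP_mul r5 3 p.2).symm
      · exact eigen_move rho hgC h1
  have hE3all := orbG_closed hE3op 5 hE30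
  let toF3 : ZMod 5 × ZMod 5 → (Fin 2 → F) := fun p => ![r ^ p.1.val, r ^ p.2.val]
  have hinj3 : Function.Injective toF3 := by
    intro p q hpq
    have h1 := congrFun hpq 0
    have h2 := congrFun hpq 1
    exact Prod.ext (expP_inj r5 r1 h1) (expP_inj r5 r1 h2)
  have hle := weights_card (fun i => rho ((![C, C2] : Fin 2 → U) i))
    (fun i j => by rw [← map_mul, ← map_mul, hcommCC])
    ((orbG ops3 5 (1, j)).image toF3) (by
      intro χ' hχ'
      obtain ⟨q, hq, rfl⟩ := Finset.mem_image.mp hχ'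
      obtain ⟨w, hw0, h1, h2⟩ := hE3all q hq
      refine ⟨w, hw0, ?_⟩
      intro i
      fin_cases i
      · exact h1
      · exact h2)
  rw [Finset.card_image_of_injective _ hinj3] at hle
  have := orb_card3 j hj0
  omega

end

end TransDeg.Cent
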