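import Pool.Agent.TransDeg.Central0
import Pool.Agent.TransDeg.Case8
import Pool.Agent.TransDeg.Ten
import Pool.Agent.TransDeg.Step3

/-!
The central case: dimension bound for all degrees `n ≥ 8`.
-/

set_option autoImplicit false
set_option linter.unusedSectionVars false

open Subgroup Module
open scoped commutatorElement

namespace TransDeg.Cent

universe u v w

theorem P_eight {F : Type u} [Field F] [IsAlgClosed F] : P.{u, v, w} F 8 := by
  intro U V _ _ _ _ _ π hπ hker hU ρ hV
  exact case8 π hπ hker hU ρ hV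

theorem P_nine {F : Type u} [Field F] [IsAlgClosed F] : P.{u, v, w} F 9 := by
  intro U V _ _ _ _ _ π hπ hker hU ρ hV
  obtain ⟨N, hN⟩ := exists_sys hπ hker (by simp)
  refine closing (by norm_num) π hπ hker hU ρ hV hN ?_
  intro a b c d e f h1 h2 h
  exact s2_move (by norm_num) hπ hN ρ (a := 0) (b := 1) (c := 2) (d := 3) (e := 4) (f := 5)
    ⟨by decide, by decide, by decide⟩ ⟨by decide, by decide, by decide⟩ (by decide)
    (s2_nine π hπ hU ρ hV hN) h1 h2 h

theorem P_ten {F : Type u} [Field F] [IsAlgClosed F] : P.{u, v, w} F 10 := by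
  intro U V _ _ _ _ _ π hπ hker hU ρ hV
  by_contra hcon
  push Not at hcon
  obtain ⟨N, hN⟩ := exists_sys hπ hker (by simp)
  have key : ∀ x y : U, ρ ⁅x, y⁆ = 1 := by
    refine closing (by norm_num) π hπ hker hU ρ hV hN ?_
    intro a b c d e f h1 h2 h
    exact s2_move (by norm_num) hπ hN ρ (a := 0) (b := 1) (c := 2) (d := 3) (e := 4) (f := 5)
      ⟨by decide, by decide, by decide⟩ ⟨by decide, by decide, by decide⟩ (by decide)
      (s2_ten π hπ hker hU ρ hV N hN hcon) h1 h2 h
  obtain ⟨x, y, hxy⟩ := hcon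
  exact hxy (key x y)

theorem P_step {F : Type u} [Field F] [IsAlgClosed F] {n : ℕ} (hn : 8 ≤ n)
    (ih : P.{u, v, w} F n) : P.{u, v, w} F (n + 3) := by
  intro U V _ _ _ _ _ π hπ hker hU ρ hV
  obtain ⟨N, hN⟩ := exists_sys hπ hker (by simp; omega)
  refine closing (by omega) π hπ hker hU ρ hV hN ?_
  exact s2_step hn ih π hπ hker hU ρ (by omega) hN

theorem P_all {F : Type u} [Field F] [IsAlgClosed F] (n : ℕ) (hn : 8 ≤ n) :
    P.{u, v, w} F n := by
  induction n using Nat.strong_induction_on with
  | _ n ih =>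
    by_cases h8 : n = 8
    · subst h8; exact P_eight
    by_cases h9 : n = 9
    · subst h9; exact P_nine
    by_cases h10 : n = 10
    · subst h10; exact P_ten
    obtain ⟨m, rfl⟩ : ∃ m, n = m + 3 := ⟨n - 3, by omega⟩
    exact P_step (by omega) (ih m (by omega) (by omega))

/-- **The central case**: a central extension of `Alt(n)`, `n ≥ 8`, of order prime to the
characteristic has no representation of dimension at most `n - 2` that is nontrivial on
commutators. -/
theorem central_case {n : ℕ} (hn : 8 ≤ n) {F : Type u} {V : Type w} {U : Type v} [Field F]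
    [IsAlgClosed F] [AddCommGroup V] [Module F V] [FiniteDimensional F V] [Group U] [Finite U]
    (π : U →* alternatingGroup (Fin n)) (hπ : Function.Surjective π) (hker : π.ker ≤ center U)
    (hU : (Nat.card U : F) ≠ 0) (ρ : U →* (V →ₗ[F] V)) (hV : finrank F V ≤ n - 2) :
    ∀ x y : U, ρ ⁅x, y⁆ = 1 :=
  P_all n hn U V π hπ hker hU ρ hV

end TransDeg.Cent
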