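import Pool.Agent.TransDeg.Red6

/-!
Reduction of the section problem to (a) central extensions and (b) symplectic actions.
-/

open Subgroup
open scoped commutatorElement

namespace TransDeg.Red

/-- A nontrivial action of `A` on a finite elementary abelian `s`-group `M` (written
multiplicatively), preserving a nondegenerate alternating bimultiplicative form with values in the
field `F`, with `Nat.card M ≤ N`. -/
structure SympData (F A : Type*) [Field F] [Group A] (s N : ℕ) (M : Type*) [CommGroup M] where
  act : A →* MulAut M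
  form : M → M → F
  prime : s.Prime
  pow : ∀ x : M, x ^ s = 1
  act_ne : act ≠ 1
  mul_left : ∀ x y z, form (x * y) z = form x z * form y z
  mul_right : ∀ x y z, form x (y * z) = form x y * form x z
  alt : ∀ x, form x x = 1
  inv : ∀ a x y, form (act a x) (act a y) = form x y
  nondeg : ∀ x, (∀ y, form x y = 1) → x = 1
  card_le : Nat.card M ≤ N

section

universe u

variable {F V A : Type*} {U : Type u} [Field F] [AddCommGroup V] [Module F V] [Group U] [Finite U]
  [Group A] {π : U →* A} {s : ℕ} {D : Subgroup U}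

theorem MinCover.central_or_symp [IsAlgClosed F] [FiniteDimensional F V] [IsSimpleGroup A]
    [Finite A] (hA : ∃ a b : A, a * b ≠ b * a) (h : MinCover π) (hU : (Nat.card U : F) ≠ 0)
    (ρ : U →* (V →ₗ[F] V)) (hρ : Function.Injective ρ)
    (hcard : (Module.finrank F V).factorial < Nat.card A) :
    π.ker ≤ center U ∨ ∃ (s : ℕ) (M : Type u) (_ : CommGroup M) (_ : Finite M),
      Nonempty (SympData F A s ((Module.finrank F V) ^ 2) M) := by
  by_cases hW : π.ker ≤ center U
  · left; exact hW
  right
  obtain ⟨s, hs, D, H⟩ := h.exists_heart hW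
  have hD : ∃ x ∈ D, ∃ y ∈ D, ⁅x, y⁆ ≠ 1 := by
    by_contra hcon
    push Not at hcon
    apply H.not_central
    have := H.normal
    apply h.abelian_normal_le_center hU ρ hρ hcard D
    intro a ha b hb
    rw [← commutatorElement_eq_one_iff_mul_comm]
    exact hcon a ha b hb
  obtain ⟨χ, P, hχ, hne⟩ := exists_cwt hU ρ hρ H hD
  choose r hr hrX using fun X : bar D => cls_surj X
  -- the form in terms of representatives
  have hwd : ∀ {x y : U} (hx : x ∈ D) (hy : y ∈ D),
      χ ⁅r (cls hx), r (cls hy)⁆ = χ ⁅x, y⁆ := by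
    intro x y hx hy
    have h1 := hrX (cls hx)
    have h2 := hrX (cls hy)
    rw [cls_eq] at h1 h2
    have e1 : x = r (cls hx) * ((r (cls hx))⁻¹ * x) := by group
    have e2 : y = r (cls hy) * ((r (cls hy))⁻¹ * y) := by group
    have e3 : ⁅x, y⁆ = ⁅r (cls hx), r (cls hy)⁆ := by
      conv_lhs => rw [e1]
      have c1 : ⁅(r (cls hx))⁻¹ * x, y⁆ = 1 := comm_central_left h1
      rw [comm_mul_left (by rw [c1]; exact one_mem _), c1, mul_one]
      conv_lhs => rw [e2]
      have c2 : ⁅(r (cls hy))⁻¹ * y, r (cls hx)⁆ = 1 := comm_central_left h2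
      rw [comm_mul_right (by rw [c2]; exact one_mem _), comm_inv' ((r (cls hy))⁻¹ * y), c2,
        inv_one, mul_one]
    rw [e3]
  let inst : CommGroup (bar D) := { (inferInstance : Group (bar D)) with mul_comm := H.bar_comm }
  refine ⟨s, bar D, inst, inferInstance, ⟨?_⟩⟩
  refine
    { act := barAct h.surj H
      form := fun X Y => χ ⁅r X, r Y⁆
      prime := hs.out
      pow := H.bar_pow
      act_ne := h.barAct_ne_one hA H
      mul_left := ?_
      mul_right := ?_
      alt := ?_
      inv := ?_
      nondeg := ?_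
      card_le := H.card_le hχ hne }
  · intro X Y Z
    obtain ⟨x, hx, rfl⟩ := cls_surj X
    obtain ⟨y, hy, rfl⟩ := cls_surj Y
    obtain ⟨z, hz, rfl⟩ := cls_surj Z
    have : χ ⁅r (cls (mul_mem hx hy)), r (cls hz)⁆ =
        χ ⁅r (cls hx), r (cls hz)⁆ * χ ⁅r (cls hy), r (cls hz)⁆ := by
      rw [hwd, hwd, hwd, comm_mul_left (H.comm_mem' hy hz),
        hχ.mul _ (H.comm_mem' hx hz) _ (H.comm_mem' hy hz)]
    exact this
  · intro X Y Z
    obtain ⟨x, hx, rfl⟩ := cls_surj X
    obtain ⟨y, hy, rfl⟩ := cls_surj Y
    obtain ⟨z, hz, rfl⟩ := cls_surj Z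
    have : χ ⁅r (cls hx), r (cls (mul_mem hy hz))⁆ =
        χ ⁅r (cls hx), r (cls hy)⁆ * χ ⁅r (cls hx), r (cls hz)⁆ := by
      rw [hwd, hwd, hwd, comm_mul_right (H.comm_mem' hz hx),
        hχ.mul _ (H.comm_mem' hx hy) _ (H.comm_mem' hx hz)]
    exact this
  · intro X
    show χ ⁅r X, r X⁆ = 1
    rw [commutatorElement_self, hχ.one]
  · intro a X Y
    obtain ⟨u, rfl⟩ := h.surj a
    obtain ⟨x, hx, rfl⟩ := cls_surj X
    obtain ⟨y, hy, rfl⟩ := cls_surj Y
    show χ ⁅r (barAct h.surj H (π u) (cls hx)), r (barAct h.surj H (π u) (cls hy))⁆ = _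
    rw [barAct_cls, barAct_cls, hwd, hwd, ← conjugate_commutatorElement,
      mem_center_iff.mp (H.comm_mem' hx hy) u, mul_assoc, mul_inv_cancel, mul_one]
  · intro X hX
    obtain ⟨x, hx, rfl⟩ := cls_surj X
    have hx' : x ∈ center U := by
      apply H.nondeg hχ hne hx
      intro y hy
      rw [← hwd hx hy]
      exact hX (cls hy)
    show cls hx = cls (one_mem D)
    rw [cls_eq, mul_one]
    exact inv_mem hx'

end

section Final

universe u

variable {F V A : Type*} {G : Type u} [Field F] [AddCommGroup V] [Module F V] [Group G] [Finite G]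
  [Group A]

/-- **Reduction of the section problem.**  If the finite simple group `A` is a section of a finite
linear group in coprime characteristic and of small dimension, then either there is such a
section with central kernel, or `A` acts nontrivially on a small symplectic space. -/
theorem reduction [IsAlgClosed F] [FiniteDimensional F V] [IsSimpleGroup A]
    [Finite A] (hA : ∃ a b : A, a * b ≠ b * a) (hchar : (Nat.card A : F) ≠ 0)
    (hcard : (Module.finrank F V).factorial < Nat.card A)
    (ρ : G →* (V →ₗ[F] V)) (π : G →* A) (hπ : Function.Surjective π) (hker : ρ.ker ≤ π.ker) :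
    (∃ (U : Type u) (_ : Group U) (_ : Finite U) (ρ' : U →* (V →ₗ[F] V)) (π' : U →* A),
      Function.Injective ρ' ∧ MinCover π' ∧ (Nat.card U : F) ≠ 0 ∧ π'.ker ≤ center U) ∨
    (∃ (s : ℕ) (M : Type u) (_ : CommGroup M) (_ : Finite M),
      Nonempty (SympData F A s ((Module.finrank F V) ^ 2) M)) := by
  have hπ' : Function.Surjective (QuotientGroup.lift ρ.ker π hker) := by
    intro a
    obtain ⟨g, rfl⟩ := hπ a
    exact ⟨(g : G ⧸ ρ.ker), rfl⟩
  have key : ∀ (Q : Type u) [Group Q] [Finite Q] (ρ1 : Q →* (V →ₗ[F] V)) (π1 : Q →* A),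
      Function.Injective ρ1 → Function.Surjective π1 →
      ((∃ (U : Type u) (_ : Group U) (_ : Finite U) (ρ' : U →* (V →ₗ[F] V)) (π' : U →* A),
      Function.Injective ρ' ∧ MinCover π' ∧ (Nat.card U : F) ≠ 0 ∧ π'.ker ≤ center U) ∨
    (∃ (s : ℕ) (M : Type u) (_ : CommGroup M) (_ : Finite M),
      Nonempty (SympData F A s ((Module.finrank F V) ^ 2) M))) := by
    intro Q _ _ ρ1 π1 hρ1 hπ1
    obtain ⟨U, hU⟩ := exists_minCover π1 hπ1
    have hinj : Function.Injective (ρ1.comp U.subtype) := hρ1.comp Subtype.val_injective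
    have hcU : (Nat.card U : F) ≠ 0 := by
      intro h0
      have h1 : ringChar F ∣ Nat.card U := (ringChar.spec F _).mp h0
      rcases CharP.char_is_prime_or_zero F (ringChar F) with h2 | h2
      · have : Fact (ringChar F).Prime := ⟨h2⟩
        refine hU.not_dvd_card (ringChar F) ?_ h1
        intro h3
        exact hchar ((ringChar.spec F _).mpr h3)
      · rw [h2, zero_dvd_iff] at h1
        exact Nat.card_pos.ne' h1
    rcases hU.central_or_symp hA hcU _ hinj hcard with h1 | h1
    · left
      exact ⟨U, inferInstance, inferInstance, _, _, hinj, hU, hcU, h1⟩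
    · right
      exact h1
  have hinj : Function.Injective (QuotientGroup.lift ρ.ker ρ le_rfl) := by
    intro a b hab
    induction a using QuotientGroup.induction_on with | H x => ?_
    induction b using QuotientGroup.induction_on with | H y => ?_
    rw [QuotientGroup.eq, MonoidHom.mem_ker, map_mul]
    have h1 : ρ x = ρ y := hab
    rw [← h1, ← map_mul, inv_mul_cancel, map_one]
  exact key (G ⧸ ρ.ker) _ _ hinj hπ'

end Final

end TransDeg.Red
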