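import Pool.Agent.TransDeg.Sect
import Pool.Agent.TransDeg.Red7

/-!
Linear groups without alternating sections give groups of given transitivity degree.
-/

set_option autoImplicit false

namespace TransDeg.Link

open Function Pool.Agent.TD TransDeg.Sect TransDeg.Red

lemma alt_noncomm {n : ℕ} (hn : 5 ≤ n) : ∃ a b : Alt n, a * b ≠ b * a := by
  by_contra hcon
  push Not at hcon
  have : IsSimpleGroup (Alt n) := alternatingGroup.isSimpleGroup (by simpa using hn)
  have h1 := alternatingGroup.center_eq_bot (α := Fin n) (by simp; omega)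
  obtain ⟨a, ha⟩ := exists_ne (1 : Alt n)
  have h2 : a ∈ Subgroup.center (Alt n) := by
    rw [Subgroup.mem_center_iff]
    intro g
    exact hcon g a
  rw [h1, Subgroup.mem_bot] at h2
  exact ha h2

/-- From a section of `GL (Fin d) (ZMod p)` to the two alternatives of the reduction. -/
theorem alternatives {n d p : ℕ} [hp : Fact p.Prime] (hn : 5 ≤ n) (hd : d.factorial < n.factorial / 2)
    (hpn : n < p) (h : ¬ NoSect n (GL (Fin d) (ZMod p))) :
    (∃ (U : Type) (_ : Group U) (_ : Finite U)
      (ρ' : U →* ((Fin d → AlgebraicClosure (ZMod p)) →ₗ[AlgebraicClosure (ZMod p)]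
        (Fin d → AlgebraicClosure (ZMod p)))) (π' : U →* Alt n),
      Injective ρ' ∧ MinCover π' ∧ (Nat.card U : AlgebraicClosure (ZMod p)) ≠ 0 ∧
        π'.ker ≤ Subgroup.center U) ∨
    (∃ (s : ℕ) (M : Type) (_ : CommGroup M) (_ : Finite M),
      Nonempty (SympData (AlgebraicClosure (ZMod p)) (Alt n) s (d ^ 2) M)) := by
  unfold NoSect at h
  push Not at h
  obtain ⟨D, f, hf⟩ := h
  set F := AlgebraicClosure (ZMod p) with hF
  have : IsSimpleGroup (Alt n) := alternatingGroup.isSimpleGroup (by simpa using hn)
  have hA : ∃ a b : Alt n, a * b ≠ b * a := alt_noncomm hn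
  have hcardA : Nat.card (Alt n) = n.factorial / 2 := by
    have : Nontrivial (Fin n) := Fin.nontrivial_iff_two_le.mpr (by omega)
    rw [nat_card_alternatingGroup, Nat.card_fin]
  have hchar : (Nat.card (Alt n) : F) ≠ 0 := by
    intro h0
    have : CharP F p := inferInstance
    rw [CharP.cast_eq_zero_iff F p] at h0
    have h1 : p ∣ n.factorial := by
      have h2 : Nat.card (Alt n) ∣ Nat.card (Equiv.Perm (Fin n)) := Subgroup.card_subgroup_dvd_card _
      rw [Nat.card_perm, Nat.card_fin] at h2
      exact h0.trans h2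
    have h2 := (hp.out.dvd_factorial).mp h1
    omega
  -- the representation
  let i : GL (Fin d) (ZMod p) →* GL (Fin d) F :=
    Matrix.GeneralLinearGroup.map (algebraMap (ZMod p) F)
  let j : GL (Fin d) F →* ((Fin d → F) →ₗ[F] (Fin d → F)) :=
    { toFun := fun g => Matrix.toLin' (g : Matrix (Fin d) (Fin d) F)
      map_one' := by simp; rfl
      map_mul' := fun a b => by
        rw [Matrix.GeneralLinearGroup.coe_mul, Matrix.toLin'_mul]; rfl }
  have hj : Injective j := by
    intro a b hab
    have : Matrix.toLin' (a : Matrix (Fin d) (Fin d) F) = Matrix.toLin' (b : Matrix (Fin d) (Fin d) F) := hab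
    exact Units.ext (Matrix.toLin'.injective this)
  have hi : Injective i := by
    intro a b hab
    apply Units.ext
    ext x y
    have h1 : algebraMap (ZMod p) F (a x y) = algebraMap (ZMod p) F (b x y) := by
      have := congrArg (fun g : GL (Fin d) F => g x y) hab
      simpa [i] using this
    exact (algebraMap (ZMod p) F).injective h1
  let ρ : D →* ((Fin d → F) →ₗ[F] (Fin d → F)) := (j.comp i).comp D.subtype
  have hρ : Injective ρ := (hj.comp hi).comp Subtype.val_injective
  have hker : ρ.ker ≤ f.ker := by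
    intro x hx
    rw [MonoidHom.mem_ker] at hx ⊢
    have : x = 1 := hρ (by rw [hx, map_one])
    rw [this, map_one]
  have hfr : Module.finrank F (Fin d → F) = d := by simp
  have hfd : (Module.finrank F (Fin d → F)).factorial < Nat.card (Alt n) := by
    rw [hfr, hcardA]; exact hd
  have key := reduction (G := D) hA hchar hfd ρ f hf hker
  rw [hfr] at key
  exact key

/-- If the linear groups have no `Alt n` sections, there is a group of transitivity degree
`n - 1`. -/
theorem exists_group (n : ℕ) (hn : 5 ≤ n)
    (hkey : ∀ N : ℕ, ∃ p : ℕ, N < p ∧ ∃ _ : Fact p.Prime, NoSect n (GL (Fin (n - 2)) (ZMod p))) :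
    ∃ (G : Type) (_ : Group G), NoSect n G ∧ Infinite G ∧ Countable G ∧
      ∃ (X : Type) (_ : MulAction G X), Infinite X ∧
      (∀ g : G, (∀ x : X, g • x = x) → g = 1) ∧
      (∀ x y : Fin (n - 1) ↪ X, ∃ g : G, ∀ i, g • x i = y i) := by
  have hloc : Local (noAlt n hn) (n - 1) := by
    have h1 : n - 1 = (n - 2) + 1 := by omega
    rw [h1]
    refine local_of_affine _ (n - 2) (by omega) ?_
    intro N
    obtain ⟨p, hp, hpp, hP⟩ := hkey (max N n)
    refine ⟨ZMod p, inferInstance, inferInstance, ?_, ?_⟩
    · rw [Nat.card_zmod]; omega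
    · refine aff_class _ _ _ hP ?_
      -- abelian groups are in the class
      intro D f hf
      obtain ⟨a, b, hab⟩ := alt_noncomm hn
      obtain ⟨x, rfl⟩ := hf a
      obtain ⟨y, rfl⟩ := hf b
      apply hab
      rw [← map_mul, ← map_mul]
      congr 1
      apply Subtype.ext
      exact mul_comm (x : Multiplicative (Fin (n - 2) → ZMod p)) y
  obtain ⟨G, iG, hP, hinf, hcount, X, iX, hX, hfaith, htr⟩ :=
    exists_limit_faithful (noAlt n hn) (n - 1) (by omega) hloc
  exact ⟨G, iG, hP, hinf, hcount, X, iX, hX, hfaith, htr⟩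

end TransDeg.Link
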