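import Pool.Agent.TransDeg.Seven

/-!
`Alt(n)`, `n ≥ 8`, does not act nontrivially on a symplectic space of order `≤ (n-2)^2`.
-/

set_option autoImplicit false

namespace TransDeg.Cyc

open TransDeg.Red

lemma pow_bound (k : ℕ) (hk : 16 ≤ k) : (2 * k + 1) ^ 2 < 2 ^ k := by
  induction k, hk using Nat.le_induction with
  | base => norm_num
  | succ k hk ih =>
    have h1 : 2 ^ (k + 1) = 2 * 2 ^ k := by ring
    rw [h1]
    nlinarith

/-- bound from single cycles for a nontrivial action on an elementary abelian group -/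
theorem cycle_le {n s : ℕ} [hs : Fact s.Prime] (hn5 : 5 ≤ n) {M : Type*} [CommGroup M] [Finite M]
    (hM : ∀ x : M, x ^ s = 1) (act : alternatingGroup (Fin n) →* MulAut M) (hact : act ≠ 1) :
    ∃ d : ℕ, Nat.card M = s ^ d ∧
      (∀ ℓ : ℕ, ℓ.Prime → Odd ℓ → ℓ + 2 ≤ n → ℓ ≠ s → ℓ - 1 ≤ d) ∧
      (10 ≤ n → s ≠ 5 → 8 ≤ d) := by
  have : CharP (AlgebraicClosure (ZMod s)) s := inferInstance
  obtain ⟨d, ρ, hρ, hcard⟩ := exists_rep s (AlgebraicClosure (ZMod s)) hM act hact
  have hfr : Module.finrank (AlgebraicClosure (ZMod s)) (Fin d → AlgebraicClosure (ZMod s)) = d := by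
    simp
  have hchar : ∀ ℓ : ℕ, ℓ.Prime → ℓ ≠ s → (ℓ : AlgebraicClosure (ZMod s)) ≠ 0 := by
    intro ℓ hℓ hne h0
    rw [CharP.cast_eq_zero_iff (AlgebraicClosure (ZMod s)) s] at h0
    exact hne ((Nat.prime_dvd_prime_iff_eq hs.out hℓ).mp h0).symm
  refine ⟨d, hcard, ?_, ?_⟩
  · intro ℓ hℓ hodd hn hne
    have := single_cycle hn5 hℓ hodd hn (hchar ℓ hℓ hne) ρ hρ
    rwa [hfr] at this
  · intro hn hne
    have := pair_bound hn (hchar 5 (by norm_num) (Ne.symm hne)) ρ hρ
    rwa [hfr] at this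

/-- faithful -/
lemma act_injective {A M : Type*} [Group A] [IsSimpleGroup A] [CommGroup M]
    (act : A →* MulAut M) (hact : act ≠ 1) : Function.Injective act := by
  rw [← MonoidHom.ker_eq_bot_iff]
  rcases (inferInstance : act.ker.Normal).eq_bot_or_eq_top with h | h
  · exact h
  · exfalso
    apply hact
    ext a : 1
    have : a ∈ act.ker := by rw [h]; exact Subgroup.mem_top _
    exact this

lemma exists_seven : ∃ c : alternatingGroup (Fin 8), c ≠ 1 ∧ c ^ 7 = 1 := by
  obtain ⟨c, h1, h2, -⟩ := exists_cycle 9 7 (by norm_num) (by decide) (by norm_num)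
  obtain ⟨σ, hσ⟩ := (Equiv.Perm.exists_with_cycleType_iff (Fin 8) (m := {7})).mpr
    ⟨by simp, by simp⟩
  have hcyc : σ.IsCycle := by
    rw [← Equiv.Perm.card_cycleType_eq_one, hσ]; rfl
  have hord : orderOf σ = 7 := by
    rw [← Equiv.Perm.lcm_cycleType, hσ]; simp
  have hsign : σ ∈ alternatingGroup (Fin 8) := by
    rw [Equiv.Perm.mem_alternatingGroup, hcyc.sign, ← hcyc.orderOf, hord]
    decide
  refine ⟨⟨σ, hsign⟩, ?_, ?_⟩
  · intro h
    have h1 : σ = 1 := congrArg Subtype.val h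
    rw [h1, orderOf_one] at hord
    norm_num at hord
  · apply Subtype.ext
    show σ ^ 7 = 1
    rw [← hord, pow_orderOf_eq_one]

theorem no_symp {F : Type*} [Field F] {n : ℕ} (hn : 8 ≤ n) {s : ℕ} {M : Type*} [CommGroup M]
    [Finite M] (D : SympData F (alternatingGroup (Fin n)) s ((n - 2) ^ 2) M) : False := by
  have hs : Fact s.Prime := ⟨D.prime⟩
  have hs2 : 2 ≤ s := D.prime.two_le
  obtain ⟨d, hcard, hcyc, hpair⟩ := cycle_le (by omega) D.pow D.act D.act_ne
  have hle : s ^ d ≤ (n - 2) ^ 2 := by rw [← hcard]; exact D.card_le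
  have lower : ∀ a b : ℕ, b ≤ s → a ≤ d → b ^ a ≤ (n - 2) ^ 2 := by
    intro a b hb ha
    calc b ^ a ≤ s ^ a := Nat.pow_le_pow_left hb a
      _ ≤ s ^ d := Nat.pow_le_pow_right (by omega) ha
      _ ≤ _ := hle
  have h5 : s ≠ 5 → 4 ≤ d := fun h => by
    have := hcyc 5 (by norm_num) (by decide) (by omega) (Ne.symm h)
    omega
  have h7 : 9 ≤ n → s ≠ 7 → 6 ≤ d := fun h9 h => by
    have := hcyc 7 (by norm_num) (by decide) (by omega) (Ne.symm h)
    omega
  have h11 : 13 ≤ n → s ≠ 11 → 10 ≤ d := fun h9 h => by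
    have := hcyc 11 (by norm_num) (by decide) (by omega) (Ne.symm h)
    omega
  have hcases : n = 8 ∨ n = 9 ∨ (10 ≤ n ∧ n ≤ 12) ∨ (13 ≤ n ∧ n ≤ 33) ∨ 34 ≤ n := by omega
  rcases hcases with rfl | rfl | ⟨hn1, hn2⟩ | ⟨hn1, hn2⟩ | hn1
  · -- n = 8
    have : IsSimpleGroup (alternatingGroup (Fin 8)) := alternatingGroup.isSimpleGroup (by simp)
    obtain ⟨c, hc1, hc7⟩ := exists_seven
    have hg1 : D.act c ≠ 1 := by
      intro h
      exact hc1 (act_injective D.act D.act_ne (by rw [h, map_one]))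
    have hg7 : D.act c ^ 7 = 1 := by rw [← map_pow, hc7, map_one]
    have h36 : s ^ d ≤ 36 := by simpa using hle
    by_cases hs5 : s = 5
    · subst hs5
      exact five_impossible (D.act c) hg7 hg1 d hcard h36
    · by_cases hs2' : s = 2
      · subst hs2'
        exact two_impossible (D.act c) hg7 hg1 d hcard h36 D.pow D.form D.mul_left D.mul_right
          D.alt (D.inv c) D.nondeg
      · have := lower 4 3 (by omega) (h5 hs5)
        norm_num at this
  · -- n = 9
    by_cases hs7 : s = 7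
    · have := lower 4 7 (by omega) (h5 (by omega))
      norm_num at this
    · have := lower 6 2 (by omega) (h7 (by omega) hs7)
      norm_num at this
  · -- 10 ≤ n ≤ 12
    have hb : (n - 2) ^ 2 ≤ 100 := by
      calc (n - 2) ^ 2 ≤ 10 ^ 2 := Nat.pow_le_pow_left (by omega) 2
        _ = 100 := by norm_num
    by_cases hs7 : s = 7
    · have := (lower 4 7 (by omega) (h5 (by omega))).trans hb
      norm_num at this
    · by_cases hs2' : s = 2
      · have := (lower 8 2 (by omega) (hpair hn1 (by omega))).trans hb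
        norm_num at this
      · have := (lower 6 3 (by omega) (h7 (by omega) hs7)).trans hb
        norm_num at this
  · -- 13 ≤ n ≤ 33
    have hb : (n - 2) ^ 2 ≤ 961 := by
      calc (n - 2) ^ 2 ≤ 31 ^ 2 := Nat.pow_le_pow_left (by omega) 2
        _ = 961 := by norm_num
    by_cases hs11 : s = 11
    · have := (lower 4 11 (by omega) (h5 (by omega))).trans hb
      norm_num at this
    · have := (lower 10 2 (by omega) (h11 hn1 hs11)).trans hb
      norm_num at this
  · -- n ≥ 34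
    obtain ⟨k, hk⟩ : ∃ k, k = (n - 2) / 2 := ⟨_, rfl⟩
    have hk16 : 16 ≤ k := by omega
    have hnk : n - 2 ≤ 2 * k + 1 := by omega
    obtain ⟨ℓ, hℓ, hℓk, hℓ2⟩ := Nat.exists_prime_lt_and_le_two_mul k (by omega)
    have hb : (n - 2) ^ 2 ≤ (2 * k + 1) ^ 2 := Nat.pow_le_pow_left hnk 2
    have hodd : Odd ℓ := hℓ.odd_of_ne_two (by omega)
    by_cases hsℓ : s = ℓ
    · have h1 := (lower 4 k (by omega) (h5 (by omega))).trans hb
      have h2 : (2 * k + 1) < k ^ 2 := by nlinarith
      have h3 : (2 * k + 1) ^ 2 < (k ^ 2) ^ 2 := Nat.pow_lt_pow_left h2 (by norm_num)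
      have h4 : (k ^ 2) ^ 2 = k ^ 4 := by ring
      omega
    · have h1 := hcyc ℓ hℓ hodd (by omega) (Ne.symm hsℓ)
      have h2 := (lower k 2 (by omega) (by omega)).trans hb
      have h3 := pow_bound k hk16
      omega

end TransDeg.Cyc
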