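import Pool.Agent.TransDeg.SingleCycle

/-!
From an action on an elementary abelian group to a representation over an algebraically closed
field.
-/

set_option autoImplicit false

namespace TransDeg.Cyc

open TransDeg.Red

/-- A nontrivial linear action over `K` gives a nontrivial representation over `F ⊇ K`. -/
theorem exists_rep_of_linear {A N K F : Type*} [Group A] [Field K] [Field F] [Algebra K F]
    [AddCommGroup N] [Module K N] [FiniteDimensional K N]
    (φ : A →* (N →ₗ[K] N)) (hφ : φ ≠ 1) :
    ∃ ρ : A →* ((Fin (Module.finrank K N) → F) →ₗ[F] (Fin (Module.finrank K N) → F)), ρ ≠ 1 := by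
  classical
  let b := Module.finBasis K N
  let e1 : (N →ₗ[K] N) →* Matrix (Fin (Module.finrank K N)) (Fin (Module.finrank K N)) K :=
    MonoidHomClass.toMonoidHom (LinearMap.toMatrixAlgEquiv b)
  let e2 : Matrix (Fin (Module.finrank K N)) (Fin (Module.finrank K N)) K →*
      Matrix (Fin (Module.finrank K N)) (Fin (Module.finrank K N)) F :=
    MonoidHomClass.toMonoidHom ((algebraMap K F).mapMatrix)
  let e3 : Matrix (Fin (Module.finrank K N)) (Fin (Module.finrank K N)) F →*
      ((Fin (Module.finrank K N) → F) →ₗ[F] (Fin (Module.finrank K N) → F)) :=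
    MonoidHomClass.toMonoidHom (Matrix.toLinAlgEquiv' (R := F))
  have h1 : Function.Injective e1 := (LinearMap.toMatrixAlgEquiv b).injective
  have h2 : Function.Injective e2 := by
    intro x y hxy
    ext i j
    have h3 : algebraMap K F (x i j) = algebraMap K F (y i j) := by
      have h4 := congrFun (congrFun hxy i) j
      simpa [e2] using h4
    exact (algebraMap K F).injective h3
  have h3 : Function.Injective e3 := (Matrix.toLinAlgEquiv' (R := F)).injective
  refine ⟨((e3.comp e2).comp e1).comp φ, ?_⟩
  intro h
  apply hφ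
  ext a : 1
  have h4 : e3 (e2 (e1 (φ a))) = e3 (e2 (e1 1)) := by
    rw [map_one, map_one, map_one]
    exact DFunLike.congr_fun h a
  exact h1 (h2 (h3 h4))

/-- A nontrivial action on an elementary abelian group gives a nontrivial representation
(additive version). -/
theorem exists_rep_add {A N : Type*} [Group A] [AddCommGroup N] [Finite N] (s : ℕ)
    [hs : Fact s.Prime] (F : Type*) [Field F] [CharP F s]
    (hN : ∀ x : N, s • x = 0) (φ0 : A → (N →+ N)) (h1 : ∀ x, φ0 1 x = x)
    (hm : ∀ a b x, φ0 (a * b) x = φ0 a (φ0 b x)) (hne : ∃ a x, φ0 a x ≠ x) :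
    ∃ (d : ℕ) (ρ : A →* ((Fin d → F) →ₗ[F] (Fin d → F))), ρ ≠ 1 ∧ Nat.card N = s ^ d := by
  have inst : Module (ZMod s) N := AddCommGroup.zmodModule hN
  have hfd : Module.Finite (ZMod s) N := Module.Finite.of_finite
  have alg : Algebra (ZMod s) F := ZMod.algebra F s
  let φ : A →* (N →ₗ[ZMod s] N) :=
    { toFun := fun a => (φ0 a).toZModLinearMap s
      map_one' := by
        apply LinearMap.ext
        intro x
        rw [AddMonoidHom.coe_toZModLinearMap, h1, Module.End.one_apply]
      map_mul' := by
        intro a b
        apply LinearMap.ext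
        intro x
        rw [Module.End.mul_apply, AddMonoidHom.coe_toZModLinearMap,
          AddMonoidHom.coe_toZModLinearMap, AddMonoidHom.coe_toZModLinearMap, hm] }
  have hφ : φ ≠ 1 := by
    intro h
    obtain ⟨a, x, hx⟩ := hne
    apply hx
    have h3 : φ a = 1 := by rw [h]; rfl
    exact LinearMap.congr_fun h3 x
  obtain ⟨ρ, hρ⟩ := exists_rep_of_linear (F := F) φ hφ
  refine ⟨_, ρ, hρ, ?_⟩
  have := Module.natCard_eq_pow_finrank (K := ZMod s) (V := N)
  rw [Nat.card_zmod] at this
  exact this

/-- A nontrivial action on an elementary abelian group gives a nontrivial representation. -/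
theorem exists_rep {A M : Type*} [Group A] [CommGroup M] [Finite M] (s : ℕ)
    [hs : Fact s.Prime] (F : Type*) [Field F] [CharP F s]
    (hM : ∀ x : M, x ^ s = 1) (act : A →* MulAut M) (hact : act ≠ 1) :
    ∃ (d : ℕ) (ρ : A →* ((Fin d → F) →ₗ[F] (Fin d → F))), ρ ≠ 1 ∧ Nat.card M = s ^ d := by
  have key := exists_rep_add (A := A) (N := Additive M) s F (fun x => hM x.toMul)
    (fun a => MonoidHom.toAdditive (act a).toMonoidHom)
    (fun x => by
      have : act 1 x.toMul = x.toMul := by rw [map_one]; rfl
      exact this)
    (fun a b x => by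
      have : act (a * b) x.toMul = act a (act b x.toMul) := by rw [map_mul]; rfl
      exact this)
    (by
      by_contra hcon
      push Not at hcon
      apply hact
      ext a x
      exact hcon a (Additive.ofMul x))
  exact key

end TransDeg.Cyc
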