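import Pool.Agent.TransDeg.PairCycle

/-!
Central extensions of `Alt(n)`, `n ≥ 8`: the bound `7` from the affine group of `F_2^3`.
-/

set_option autoImplicit false

open Subgroup
open scoped commutatorElement

namespace TransDeg.Cent8

open TransDeg.Red

section Abstract

variable {F V U : Type*} [Field F] [AddCommGroup V] [Module F V] [Group U]

/-- the conjugates `g ^ i * a * g ^ (-i)` -/
def cj (g a : U) (i : ℕ) : U := g ^ i * a * (g ^ i)⁻¹

lemma cj_zero (g a : U) : cj g a 0 = a := by simp [cj]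

lemma cj_add (g a : U) (i j : ℕ) : cj g a (i + j) = g ^ i * cj g a j * (g ^ i)⁻¹ := by
  simp only [cj, pow_add, mul_inv_rev, mul_assoc]

lemma cj_seven {g a : U} (hg7 : g ^ 7 ∈ center U) (i : ℕ) : cj g a (i + 7) = cj g a i := by
  rw [add_comm, cj_add, ← mem_center_iff.mp hg7 (cj g a i), mul_assoc, mul_inv_cancel, mul_one]

lemma cj_period {g a : U} (hg7 : g ^ 7 ∈ center U) (i m : ℕ) :
    cj g a (i + 7 * m) = cj g a i := by
  induction m with
  | zero => simp
  | succ m ih => rw [Nat.mul_succ, ← add_assoc, cj_seven hg7, ih]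

lemma comm_inv_c {x y : U} : ⁅y, x⁆ = ⁅x, y⁆⁻¹ := (commutatorElement_inv x y).symm

variable {g a : U}

/-- all commutators of the conjugates are trivial -/
theorem comm_trivial (hg7 : g ^ 7 ∈ center U) (ha2 : a ^ 2 ∈ center U)
    (hrel : a * cj g a 1 * (cj g a 3)⁻¹ ∈ center U)
    (hcomm : ∀ i : ℕ, ⁅a, cj g a i⁆ ∈ center U) (i : ℕ) : ⁅a, cj g a i⁆ = 1 := by
  set c : ℕ → U := fun i => ⁅a, cj g a i⁆ with hc
  have hcen : ∀ i, ∀ x : U, c i * x = x * c i := fun i x => (mem_center_iff.mp (hcomm i) x).symm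
  have hconj : ∀ i j : ℕ, ⁅cj g a j, cj g a (j + i)⁆ = c i := by
    intro i j
    have h1 : cj g a j = g ^ j * a * (g ^ j)⁻¹ := rfl
    rw [h1, cj_add, ← conjugate_commutatorElement]
    show g ^ j * c i * (g ^ j)⁻¹ = c i
    rw [← hcen, mul_assoc, mul_inv_cancel, mul_one]
  have hsq : ∀ i, c i * c i = 1 := by
    intro i
    have h1 : ⁅a * a, cj g a i⁆ = ⁅a, cj g a i⁆ * ⁅a, cj g a i⁆ := comm_mul_left (hcomm i)
    show ⁅a, cj g a i⁆ * ⁅a, cj g a i⁆ = 1
    rw [← h1, ← sq]
    exact comm_central_left ha2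
  have hc0 : c 0 = 1 := by
    show ⁅a, cj g a 0⁆ = 1
    rw [cj_zero, commutatorElement_self]
  have hper : ∀ i, c (i + 7) = c i := by
    intro i
    show ⁅a, cj g a (i + 7)⁆ = ⁅a, cj g a i⁆
    rw [cj_seven hg7]
  have hsym : ∀ i, i ≤ 7 → c (7 - i) = c i := by
    intro i hi
    have h1 := hconj (7 - i) i
    rw [Nat.add_sub_cancel' hi] at h1
    have h2 : cj g a 7 = a := by
      have := cj_seven (a := a) hg7 0
      rw [zero_add, cj_zero] at this
      exact this
    rw [h2, comm_inv_c] at h1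
    rw [← h1]
    exact (eq_inv_of_mul_eq_one_left (hsq i)).symm
  have hmul : ∀ i, c (i + 3) = c i * c (i + 1) := by
    intro i
    -- conj of `hrel` by `g ^ i`
    have h1 : cj g a i * cj g a (i + 1) * (cj g a (i + 3))⁻¹ ∈ center U := by
      have h2 : cj g a i * cj g a (i + 1) * (cj g a (i + 3))⁻¹ =
          g ^ i * (a * cj g a 1 * (cj g a 3)⁻¹) * (g ^ i)⁻¹ := by
        have h3 : cj g a i = g ^ i * a * (g ^ i)⁻¹ := rfl
        rw [cj_add g a i 1, cj_add g a i 3, h3]
        group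
      rw [h2]
      exact (inferInstance : (center U).Normal).conj_mem _ hrel _
    have h4 : cj g a (i + 3) = (cj g a i * cj g a (i + 1) * (cj g a (i + 3))⁻¹)⁻¹ *
        (cj g a i * cj g a (i + 1)) := by group
    have h5 : ∀ z ∈ center U, ∀ x y : U, ⁅x, z * y⁆ = ⁅x, y⁆ := by
      intro z hz x y
      rw [commutatorElement_def, commutatorElement_def, mul_inv_rev]
      have h6 := mem_center_iff.mp hz
      have h7 : x * (z * y) = z * (x * y) := by rw [← mul_assoc, h6, mul_assoc]
      rw [h7]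
      have h8 : z * (x * y) * x⁻¹ * (y⁻¹ * z⁻¹) = z * (x * y * x⁻¹ * y⁻¹) * z⁻¹ := by group
      rw [h8, ← h6, mul_assoc, mul_inv_cancel, mul_one]
    show ⁅a, cj g a (i + 3)⁆ = ⁅a, cj g a i⁆ * ⁅a, cj g a (i + 1)⁆
    conv_lhs => rw [h4]
    rw [h5 _ (inv_mem h1)]
    apply comm_mul_right
    rw [comm_inv_c]
    exact inv_mem (hcomm (i + 1))
  have s3 : c 4 = c 3 := hsym 3 (by norm_num)
  have s2 : c 5 = c 2 := hsym 2 (by norm_num)
  have s1 : c 6 = c 1 := hsym 1 (by norm_num)
  have m0 : c 3 = c 1 := by rw [hmul 0, hc0, one_mul]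
  have m1 : c 4 = c 1 * c 2 := hmul 1
  have m2 : c 5 = c 2 * c 3 := hmul 2
  have e2 : c 2 = 1 := by
    have : c 1 * c 2 = c 1 * 1 := by rw [mul_one, ← m1, s3, m0]
    exact mul_left_cancel this
  have e3 : c 3 = 1 := by
    have : c 2 * c 3 = c 2 * 1 := by rw [mul_one, ← m2, s2]
    exact mul_left_cancel this
  have e1 : c 1 = 1 := by rw [← m0, e3]
  show c i = 1
  have hall : ∀ i, i < 7 → c i = 1 := by
    intro i hi
    interval_cases i
    · exact hc0
    · exact e1
    · exact e2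
    · exact e3
    · rw [s3, e3]
    · rw [s2, e2]
    · rw [s1, e1]
  have hper' : ∀ m j, c (j + 7 * m) = c j := by
    intro m j
    induction m with
    | zero => simp
    | succ m ih => rw [Nat.mul_succ, ← add_assoc, hper, ih]
  rw [← Nat.mod_add_div i 7, hper']
  exact hall _ (Nat.mod_lt _ (by norm_num))

theorem seven_le [Finite U] [IsAlgClosed F] [FiniteDimensional F V] (hU : (Nat.card U : F) ≠ 0)
    (ρ : U →* (V →ₗ[F] V)) (hg7 : g ^ 7 ∈ center U) (ha2 : a ^ 2 ∈ center U)
    (hrel : a * cj g a 1 * (cj g a 3)⁻¹ ∈ center U)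
    (hcomm : ∀ i : ℕ, ⁅a, cj g a i⁆ ∈ center U) :
    7 ≤ Module.finrank F V ∨ ρ ⁅g, a⁆ = 1 := by
  have htriv := comm_trivial hg7 ha2 hrel hcomm
  -- the conjugates commute
  have hcj : ∀ i j : ℕ, cj g a i * cj g a j = cj g a j * cj g a i := by
    have key : ∀ i k : ℕ, cj g a i * cj g a (i + k) = cj g a (i + k) * cj g a i := by
      intro i k
      rw [← commutatorElement_eq_one_iff_mul_comm]
      have h1 : cj g a i = g ^ i * a * (g ^ i)⁻¹ := rfl
      rw [h1, cj_add, ← conjugate_commutatorElement, htriv k, mul_one, mul_inv_cancel]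
    intro i j
    rcases le_total i j with h | h
    · obtain ⟨k, rfl⟩ := Nat.exists_eq_add_of_le h
      exact key i k
    · obtain ⟨k, rfl⟩ := Nat.exists_eq_add_of_le h
      exact (key j k).symm
  have hmt : ∀ (i j : ℕ) (φ : F), Set.MapsTo (ρ (cj g a i))
      (Module.End.maxGenEigenspace (ρ (cj g a j)) φ)
      (Module.End.maxGenEigenspace (ρ (cj g a j)) φ) := fun i j φ =>
    Module.End.mapsTo_maxGenEigenspace_of_comm
      (by show ρ _ * ρ _ = ρ _ * ρ _; rw [← map_mul, ← map_mul, hcj]) φ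
  have hind := Module.End.independent_iInf_maxGenEigenspace_of_forall_mapsTo
    (fun i : ℕ => ρ (cj g a i)) hmt
  have htop := Module.End.iSup_iInf_maxGenEigenspace_eq_top_of_forall_mapsTo
    (fun i : ℕ => ρ (cj g a i)) hmt (fun i => Module.End.iSup_maxGenEigenspace_eq_top _)
  have hmem : ∀ (χ : ℕ → F) (v : V),
      v ∈ (⨅ i : ℕ, Module.End.maxGenEigenspace (ρ (cj g a i)) (χ i)) ↔
        ∀ i, ρ (cj g a i) v = χ i • v := by
    intro χ v
    rw [Submodule.mem_iInf]
    refine forall_congr' fun i => ?_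
    rw [maxGen_eq _ _ hU (rho_pow ρ _), Module.End.mem_eigenspace_iff]
  by_cases hcase : ∀ (χ : ℕ → F) (v : V), v ≠ 0 → (∀ i, ρ (cj g a i) v = χ i • v) → χ 0 = χ 1
  · right
    have h1 : ρ (cj g a 1) = ρ (cj g a 0) := by
      have h2 : (⊤ : Submodule F V) ≤ LinearMap.eqLocus (ρ (cj g a 1)) (ρ (cj g a 0)) := by
        rw [← htop]
        refine iSup_le fun χ => ?_
        intro v hv
        rw [hmem] at hv
        show ρ (cj g a 1) v = ρ (cj g a 0) v
        by_cases hv0 : v = 0
        · rw [hv0, map_zero, map_zero]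
        · rw [hv 1, hv 0, hcase χ v hv0 hv]
      exact LinearMap.ext fun v => h2 Submodule.mem_top
    have h3 : ⁅g, a⁆ = cj g a 1 * (cj g a 0)⁻¹ := by
      rw [cj_zero, cj, pow_one, commutatorElement_def]
    rw [h3, map_mul, h1, ← map_mul, mul_inv_cancel, map_one]
  · left
    push Not at hcase
    obtain ⟨χ, v, hv0, hv, hχ⟩ := hcase
    -- periodicity of the weight
    have hper : ∀ i m, χ (i + 7 * m) = χ i := by
      intro i m
      have h1 := hv (i + 7 * m)
      rw [cj_period hg7, hv i] at h1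
      have h2 : (χ i - χ (i + 7 * m)) • v = 0 := by rw [sub_smul, h1, sub_self]
      rcases smul_eq_zero.mp h2 with h3 | h3
      · exact (sub_eq_zero.mp h3).symm
      · exact absurd h3 hv0
    have hvk : ∀ (k i : ℕ), ρ (cj g a i) (ρ (g ^ k) v) = χ (i + 6 * k) • ρ (g ^ k) v := by
      intro k i
      have h1 : cj g a i * g ^ k = g ^ k * cj g a (i + 6 * k) := by
        have h2 : cj g a i = cj g a (k + (i + 6 * k)) := by
          rw [show k + (i + 6 * k) = i + 7 * k by ring, cj_period hg7]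
        rw [h2, cj_add]
        group
      rw [← rho_mul, h1, rho_mul, hv, map_smul]
    have hne : ∀ k, ρ (g ^ k) v ≠ 0 := by
      intro k h
      apply hv0
      rw [← rho_inv ρ (g ^ k) v, h, map_zero]
    have hinj : Function.Injective (fun (k : Fin 7) (i : ℕ) => χ (i + 6 * (k : ℕ))) := by
      have key : ∀ j k : ℕ, j < k → k < 7 →
          (fun i : ℕ => χ (i + 6 * j)) ≠ (fun i : ℕ => χ (i + 6 * k)) := by
        intro j k hjk hk7 h
        have h1 : ∀ i, χ (i + 6 * j) = χ (i + 6 * k) := fun i => congrFun h i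
        -- period `m = k - j`
        obtain ⟨m, hm⟩ : ∃ m, k = j + m := Nat.exists_eq_add_of_le hjk.le
        have h2 : ∀ i, χ (i + m) = χ i := by
          intro i
          have h3 := h1 (i + m + j)
          have e1 : i + m + j + 6 * j = i + m + 7 * j := by ring
          have e2 : i + m + j + 6 * k = i + 7 * (m + j) := by rw [hm]; ring
          rw [e1, e2, hper, hper] at h3
          exact h3
        have h3 : ∀ u i, χ (i + m * u) = χ i := by
          intro u i
          induction u with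
          | zero => simp
          | succ u ih => rw [Nat.mul_succ, ← add_assoc, h2, ih]
        have h5 : ∃ u w : ℕ, m * u = 7 * w + 1 := by
          have hm0 : 0 < m := by omega
          have hm7 : m < 7 := by omega
          interval_cases m
          · exact ⟨1, 0, rfl⟩
          · exact ⟨4, 1, rfl⟩
          · exact ⟨5, 2, rfl⟩
          · exact ⟨2, 1, rfl⟩
          · exact ⟨3, 2, rfl⟩
          · exact ⟨6, 5, rfl⟩
        obtain ⟨u, w, huw⟩ := h5
        apply hχ
        have h6 := h3 u 0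
        rw [huw, show 0 + (7 * w + 1) = 1 + 7 * w by ring, hper] at h6
        exact h6.symm
      intro j k hjk
      by_contra hne
      rcases lt_or_gt_of_ne (fun h => hne (Fin.ext h) : (j : ℕ) ≠ k) with h | h
      · exact key j k h k.2 hjk
      · exact key k j h j.2 hjk.symm
    have hLI : LinearIndependent F (fun k : Fin 7 => ρ (g ^ (k : ℕ)) v) :=
      iSupIndep.linearIndependent _ (hind.comp hinj)
        (fun k => (hmem _ _).mpr (fun i => hvk k i)) (fun k => hne k)
    simpa using hLI.fintype_card_le_finrank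

lemma map_cj {U' : Type*} [Group U'] (f : U →* U') (g a : U) (i : ℕ) :
    f (cj g a i) = cj (f g) (f a) i := by
  simp [cj]

end Abstract

section Triv

variable {F V U A : Type*} [Field F] [AddCommGroup V] [Module F V] [Group U] [Group A]

/-- If the kernel of `ρ` is not contained in the kernel of `π`, then `ρ` kills commutators. -/
theorem trivial_on_comm [IsSimpleGroup A] (π : U →* A) (hπ : Function.Surjective π)
    (hker : π.ker ≤ center U) (ρ : U →* (V →ₗ[F] V)) {c : U} (hc : ρ c = 1) (hc' : π c ≠ 1)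
    (x y : U) : ρ ⁅x, y⁆ = 1 := by
  have h1 : (ρ.ker.map π).Normal := (inferInstance : ρ.ker.Normal).map π hπ
  have h2 : ρ.ker.map π = ⊤ := by
    rcases h1.eq_bot_or_eq_top with h | h
    · exfalso
      apply hc'
      have : π c ∈ ρ.ker.map π := ⟨c, hc, rfl⟩
      rw [h] at this
      exact this
    · exact h
  have h3 : ∀ x : U, ∃ z ∈ center U, ∃ k ∈ ρ.ker, x = k * z := by
    intro x
    have : π x ∈ ρ.ker.map π := by rw [h2]; exact mem_top _
    obtain ⟨k, hk, hkx⟩ := this
    refine ⟨k⁻¹ * x, hker ?_, k, hk, by group⟩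
    rw [MonoidHom.mem_ker, map_mul, map_inv, hkx, inv_mul_cancel]
  obtain ⟨z, hz, k, hk, rfl⟩ := h3 x
  obtain ⟨w, hw, l, hl, rfl⟩ := h3 y
  have h4 : ⁅k * z, l * w⁆ = ⁅k, l⁆ := by
    rw [commutatorElement_def, commutatorElement_def, mul_inv_rev, mul_inv_rev]
    have hz' := mem_center_iff.mp hz
    have hw' := mem_center_iff.mp hw
    calc k * z * (l * w) * (z⁻¹ * k⁻¹) * (w⁻¹ * l⁻¹)
        = k * (z * l) * (w * z⁻¹) * (k⁻¹ * w⁻¹) * l⁻¹ := by group
      _ = k * (l * z) * (z⁻¹ * w) * (k⁻¹ * w⁻¹) * l⁻¹ := by rw [← hz' l, hw' z⁻¹]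
      _ = k * l * (w * k⁻¹) * w⁻¹ * l⁻¹ := by group
      _ = k * l * (k⁻¹ * w) * w⁻¹ * l⁻¹ := by rw [hw' k⁻¹]
      _ = k * l * k⁻¹ * l⁻¹ := by group
  have hkl : ⁅k, l⁆ ∈ ρ.ker := by
    rw [commutatorElement_def]
    exact mul_mem (mul_mem (mul_mem hk hl) (inv_mem hk)) (inv_mem hl)
  rw [h4]
  exact hkl

end Triv

section Alt

open Equiv TransDeg.Cyc

abbrev E8 : Type := ZMod 2 × ZMod 2 × ZMod 2

def tr : Perm E8 := ⟨fun x => (x.1 + 1, x.2.1, x.2.2), fun x => (x.1 + 1, x.2.1, x.2.2),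
  by decide, by decide⟩
def fr : Perm E8 := ⟨fun x => (x.2.2, x.1 + x.2.2, x.2.1), fun x => (x.2.1 + x.1, x.2.2, x.1),
  by decide, by decide⟩

def TA : alternatingGroup E8 := ⟨tr, by rw [Perm.mem_alternatingGroup]; decide +kernel⟩
def GA : alternatingGroup E8 := ⟨fr, by rw [Perm.mem_alternatingGroup]; decide +kernel⟩

lemma q1 : GA ^ 7 = 1 := by decide +kernel
lemma q2 : TA ^ 2 = 1 := by decide +kernel
lemma q3 : TA * cj GA TA 1 * (cj GA TA 3)⁻¹ = 1 := by decide +kernel
lemma q4 : ∀ i : Fin 7, ⁅TA, cj GA TA i⁆ = 1 := by decide +kernel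
lemma q5 : ⁅GA, TA⁆ ≠ 1 := by decide +kernel

/-- **The bound 7**: a finite group `U` which is a central extension of `Alt(n)`, `n ≥ 8`, has no
representation of dimension `< 7` that is nontrivial on commutators. -/
theorem seven_le_alt {F V U : Type*} [Field F] [AddCommGroup V] [Module F V] [Group U] [Finite U]
    [IsAlgClosed F] [FiniteDimensional F V] {n : ℕ} (hn : 8 ≤ n)
    (π : U →* alternatingGroup (Fin n)) (hπ : Function.Surjective π) (hker : π.ker ≤ center U)
    (hU : (Nat.card U : F) ≠ 0) (ρ : U →* (V →ₗ[F] V)) :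
    7 ≤ Module.finrank F V ∨ ∀ x y : U, ρ ⁅x, y⁆ = 1 := by
  have : IsSimpleGroup (alternatingGroup (Fin n)) :=
    alternatingGroup.isSimpleGroup (by simp; omega)
  obtain ⟨f, hf⟩ := exists_altEmb (α := E8) n (by
    have : Fintype.card E8 = 8 := rfl
    omega)
  obtain ⟨g, hg⟩ := hπ (f GA)
  obtain ⟨a, ha⟩ := hπ (f TA)
  have hcen : ∀ x : U, π x = 1 → x ∈ center U := fun x hx => hker hx
  have hg7 : g ^ 7 ∈ center U := by
    apply hcen; rw [map_pow, hg, ← map_pow, q1, map_one]
  have hGA7 : GA ^ 7 ∈ center (alternatingGroup E8) := by rw [q1]; exact one_mem _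
  have ha2 : a ^ 2 ∈ center U := by
    apply hcen; rw [map_pow, ha, ← map_pow, q2, map_one]
  have hrel : a * cj g a 1 * (cj g a 3)⁻¹ ∈ center U := by
    apply hcen
    rw [map_mul, map_mul, map_inv, map_cj, map_cj, hg, ha, ← map_cj, ← map_cj, ← map_inv,
      ← map_mul, ← map_mul, q3, map_one]
  have hcomm : ∀ i : ℕ, ⁅a, cj g a i⁆ ∈ center U := by
    intro i
    apply hcen
    rw [map_commutatorElement, map_cj, hg, ha, ← map_cj, ← map_commutatorElement]
    have h1 : ⁅TA, cj GA TA i⁆ = 1 := by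
      rw [← Nat.mod_add_div i 7, cj_period hGA7]
      exact q4 ⟨i % 7, Nat.mod_lt _ (by norm_num)⟩
    rw [h1, map_one]
  rcases seven_le (F := F) (V := V) (g := g) (a := a) hU ρ hg7 ha2 hrel hcomm with h | h
  · left; exact h
  · right
    intro x y
    refine trivial_on_comm π hπ hker ρ h ?_ x y
    rw [map_commutatorElement, hg, ha, ← map_commutatorElement]
    intro h1
    exact q5 (hf (by rw [h1, map_one]))

end Alt

end TransDeg.Cent8
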