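import Mathlib

/-!
Systems of lifts of 3-cycles in a central extension of an alternating group: the interface.
-/

set_option autoImplicit false

open Subgroup
open scoped commutatorElement

namespace TransDeg.Cent

/-- pairwise distinct points -/
def Dist {Ω : Type*} (a b c : Ω) : Prop := a ≠ b ∧ b ≠ c ∧ a ≠ c

lemma Dist.rot {Ω : Type*} {a b c : Ω} (h : Dist a b c) : Dist b c a :=
  ⟨h.2.1, h.2.2.symm, h.1.symm⟩

lemma Dist.swap {Ω : Type*} {a b c : Ω} (h : Dist a b c) : Dist b a c :=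
  ⟨h.1.symm, h.2.2, h.2.1⟩

lemma Dist.map {Ω : Type*} {a b c : Ω} (h : Dist a b c) (g : Equiv.Perm Ω) :
    Dist (g a) (g b) (g c) :=
  ⟨fun e => h.1 (g.injective e), fun e => h.2.1 (g.injective e), fun e => h.2.2 (g.injective e)⟩

/-- `N a b c` is a lift of the 3-cycle `(a b c)` of order dividing 3, compatible with conjugation,
and conjugate to its inverse. -/
structure Sys {Ω U : Type*} [Group U] (π : U →* Equiv.Perm Ω) (N : Ω → Ω → Ω → U) : Prop where
  m1 : ∀ {a b c}, Dist a b c → π (N a b c) a = b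
  m2 : ∀ {a b c}, Dist a b c → π (N a b c) b = c
  m3 : ∀ {a b c}, Dist a b c → π (N a b c) c = a
  m4 : ∀ {a b c x}, Dist a b c → x ≠ a → x ≠ b → x ≠ c → π (N a b c) x = x
  cube : ∀ {a b c}, Dist a b c → N a b c ^ 3 = 1
  conj : ∀ {a b c} (u : U), Dist a b c → u * N a b c * u⁻¹ = N (π u a) (π u b) (π u c)
  inv : ∀ {a b c}, Dist a b c → N b a c = (N a b c)⁻¹
  trans : ∀ {a b c a' b' c'}, Dist a b c → Dist a' b' c' →
    ∃ u, π u a = a' ∧ π u b = b' ∧ π u c = c'

section

variable {Ω U : Type*} [Group U] {π : U →* Equiv.Perm Ω} {N : Ω → Ω → Ω → U}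

lemma Sys.rot (h : Sys π N) {a b c : Ω} (d : Dist a b c) : N b c a = N a b c := by
  have h1 := h.conj (N a b c) d
  rw [h.m1 d, h.m2 d, h.m3 d] at h1
  rw [← h1]
  group

end

end TransDeg.Cent
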