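import Pool.Agent.TransDeg.CentA

/-!
Linear algebra of the lifted 3-cycles: the moved space `X S` and the fixed space `Y S`.
-/

set_option autoImplicit false
set_option linter.unusedSectionVars false

open Subgroup
open scoped commutatorElement

namespace TransDeg.Cent

/-- all the elements `N a b c` with `a, b, c ∈ S` lie in `K` -/
def Good {Ω U : Type*} [Group U] (N : Ω → Ω → Ω → U) (K : Subgroup U) (S : Finset Ω) : Prop :=
  ∀ a ∈ S, ∀ b ∈ S, ∀ c ∈ S, Dist a b c → N a b c ∈ K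

section gen

variable {Ω U : Type*} [DecidableEq Ω] [Group U] {π : U →* Equiv.Perm Ω} {N : Ω → Ω → Ω → U}

lemma Good.mono {K : Subgroup U} {S T : Finset Ω} (h : Good N K T) (hST : S ⊆ T) : Good N K S :=
  fun a ha b hb c hc d => h a (hST ha) b (hST hb) c (hST hc) d

lemma Good.union_aux (hN : Sys π N) {K : Subgroup U} {S T : Finset Ω} (hS : Good N K S)
    (hT : Good N K T) (hI : 3 ≤ (S ∩ T).card) {a b c : Ω} (ha : a ∈ S) (hb : b ∈ S) (hc : c ∈ T)
    (d : Dist a b c) : N a b c ∈ K := by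
  by_cases hcS : c ∈ S
  · exact hS a ha b hb c hcS d
  by_cases hab : a ∈ T ∧ b ∈ T
  · exact hT a hab.1 b hab.2 c hc d
  -- two further points of the intersection
  have h1 : 2 ≤ ((S ∩ T) \ {a, b}).card := by
    have h2 : ((S ∩ T) ∩ {a, b}).card ≤ 1 := by
      rw [Finset.card_le_one]
      intro x hx y hy
      simp only [Finset.mem_inter, Finset.mem_insert, Finset.mem_singleton] at hx hy
      rcases hx with ⟨⟨_, hx1⟩, rfl | rfl⟩ <;> rcases hy with ⟨⟨_, hy1⟩, rfl | rfl⟩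
      · rfl
      · exact absurd ⟨hx1, hy1⟩ hab
      · exact absurd ⟨hy1, hx1⟩ hab
      · rfl
    have h3 := Finset.card_sdiff_add_card_inter (S ∩ T) {a, b}
    omega
  obtain ⟨p, hp, q, hq, hpq⟩ := Finset.one_lt_card.mp h1
  simp only [Finset.mem_sdiff, Finset.mem_inter, Finset.mem_insert, Finset.mem_singleton,
    not_or] at hp hq
  obtain ⟨⟨hpS, hpT⟩, hpa, hpb⟩ := hp
  obtain ⟨⟨hqS, hqT⟩, hqa, hqb⟩ := hq
  replace hpa : p ≠ a := hpa
  replace hpb : p ≠ b := hpb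
  replace hqa : q ≠ a := hqa
  replace hqb : q ≠ b := hqb
  have hpc : p ≠ c := fun e => hcS (e ▸ hpS)
  have hqc : q ≠ c := fun e => hcS (e ▸ hqS)
  have d1 : Dist p c q := ⟨hpc, hqc.symm, hpq⟩
  have d2 : Dist a b p := ⟨d.1, hpb.symm, hpa.symm⟩
  have g1 : N p c q ∈ K := hT p hpT c hc q hqT d1
  have g2 : N a b p ∈ K := hS a ha b hb p hpS d2
  have h2 := hN.conj (N p c q) d2
  rw [hN.m4 d1 hpa.symm d.2.2 hqa.symm, hN.m4 d1 hpb.symm d.2.1 hqb.symm, hN.m1 d1] at h2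
  rw [← h2]
  exact K.mul_mem (K.mul_mem g1 g2) (K.inv_mem g1)

lemma Good.union (hN : Sys π N) {K : Subgroup U} {S T : Finset Ω} (hS : Good N K S)
    (hT : Good N K T) (hI : 3 ≤ (S ∩ T).card) : Good N K (S ∪ T) := by
  have hI' : 3 ≤ (T ∩ S).card := by rwa [Finset.inter_comm]
  intro a ha b hb c hc d
  rw [Finset.mem_union] at ha hb hc
  have r1 : N b c a = N a b c := hN.rot d
  have r2 : N c a b = N a b c := by rw [hN.rot d.rot, r1]
  rcases ha with ha | ha <;> rcases hb with hb | hb <;> rcases hc with hc | hc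
  · exact hS a ha b hb c hc d
  · exact hS.union_aux hN hT hI ha hb hc d
  · rw [← r2]; exact hS.union_aux hN hT hI hc ha hb d.rot.rot
  · rw [← r1]; exact hT.union_aux hN hS hI' hb hc ha d.rot
  · rw [← r1]; exact hS.union_aux hN hT hI hb hc ha d.rot
  · rw [← r2]; exact hT.union_aux hN hS hI' hc ha hb d.rot.rot
  · exact hT.union_aux hN hS hI' ha hb hc d
  · exact hT a ha b hb c hc d

end gen

section lin

variable {Ω U F V : Type*} [DecidableEq Ω] [Group U] {π : U →* Equiv.Perm Ω}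
  {N : Ω → Ω → Ω → U} [Field F] [AddCommGroup V] [Module F V]

lemma rmul (ρ : U →* (V →ₗ[F] V)) (u w : U) (v : V) : ρ (u * w) v = ρ u (ρ w v) := by
  rw [map_mul]; rfl

lemma rinv (ρ : U →* (V →ₗ[F] V)) (u : U) (v : V) : ρ u⁻¹ (ρ u v) = v := by
  rw [← rmul, inv_mul_cancel, map_one]; rfl

lemma rinv' (ρ : U →* (V →ₗ[F] V)) (u : U) (v : V) : ρ u (ρ u⁻¹ v) = v := by
  rw [← rmul, mul_inv_cancel, map_one]; rfl

lemma rinj (ρ : U →* (V →ₗ[F] V)) (u : U) {v w : V} (h : ρ u v = ρ u w) : v = w := by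
  rw [← rinv ρ u v, h, rinv]

/-- the elements acting trivially modulo `M` -/
def modK (ρ : U →* (V →ₗ[F] V)) (M : Submodule F V) : Subgroup U where
  carrier := {u | ∀ v, ρ u v - v ∈ M}
  one_mem' := by intro v; simp
  mul_mem' := by
    intro u w hu hw v
    have h : ρ (u * w) v - v = (ρ u (ρ w v) - ρ w v) + (ρ w v - v) := by rw [rmul]; abel
    rw [h]
    exact M.add_mem (hu _) (hw _)
  inv_mem' := by
    intro u hu v
    have h : ρ u⁻¹ v - v = -(ρ u (ρ u⁻¹ v) - ρ u⁻¹ v) := by rw [rinv']; abel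
    rw [h]
    exact M.neg_mem (hu _)

lemma mem_modK {ρ : U →* (V →ₗ[F] V)} {M : Submodule F V} {u : U} :
    u ∈ modK ρ M ↔ ∀ v, ρ u v - v ∈ M := Iff.rfl

/-- the elements fixing all vectors of `M` -/
def fixK (ρ : U →* (V →ₗ[F] V)) (M : Submodule F V) : Subgroup U where
  carrier := {u | ∀ v ∈ M, ρ u v = v}
  one_mem' := by intro v _; simp
  mul_mem' := by
    intro u w hu hw v hv
    rw [rmul, hw v hv, hu v hv]
  inv_mem' := by
    intro u hu v hv
    have := hu v hv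
    conv_lhs => rw [← this]
    rw [rinv]

lemma mem_fixK {ρ : U →* (V →ₗ[F] V)} {M : Submodule F V} {u : U} :
    u ∈ fixK ρ M ↔ ∀ v ∈ M, ρ u v = v := Iff.rfl

/-- the space moved by the lifted 3-cycles in `S` -/
def X (N : Ω → Ω → Ω → U) (ρ : U →* (V →ₗ[F] V)) (S : Finset Ω) : Submodule F V :=
  Submodule.span F {w | ∃ a ∈ S, ∃ b ∈ S, ∃ c ∈ S, Dist a b c ∧ ∃ v, w = ρ (N a b c) v - v}

/-- the space fixed by the lifted 3-cycles in `S` -/
def Y (N : Ω → Ω → Ω → U) (ρ : U →* (V →ₗ[F] V)) (S : Finset Ω) : Submodule F V where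
  carrier := {v | ∀ a ∈ S, ∀ b ∈ S, ∀ c ∈ S, Dist a b c → ρ (N a b c) v = v}
  zero_mem' := by intro a _ b _ c _ _; simp
  add_mem' := by
    intro v w hv hw a ha b hb c hc d
    rw [map_add, hv a ha b hb c hc d, hw a ha b hb c hc d]
  smul_mem' := by
    intro r v hv a ha b hb c hc d
    rw [map_smul, hv a ha b hb c hc d]

variable {ρ : U →* (V →ₗ[F] V)}

lemma mem_Y {S : Finset Ω} {v : V} :
    v ∈ Y N ρ S ↔ ∀ a ∈ S, ∀ b ∈ S, ∀ c ∈ S, Dist a b c → ρ (N a b c) v = v := Iff.rfl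

lemma sub_mem_X {S : Finset Ω} {a b c : Ω} (ha : a ∈ S) (hb : b ∈ S) (hc : c ∈ S)
    (d : Dist a b c) (v : V) : ρ (N a b c) v - v ∈ X N ρ S :=
  Submodule.subset_span ⟨a, ha, b, hb, c, hc, d, v, rfl⟩

lemma X_le_iff {S : Finset Ω} {M : Submodule F V} : X N ρ S ≤ M ↔ Good N (modK ρ M) S := by
  constructor
  · intro h a ha b hb c hc d v
    exact h (sub_mem_X ha hb hc d v)
  · intro h
    unfold X
    rw [Submodule.span_le]
    rintro _ ⟨a, ha, b, hb, c, hc, d, v, rfl⟩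
    exact h a ha b hb c hc d v

lemma le_Y_iff {S : Finset Ω} {M : Submodule F V} : M ≤ Y N ρ S ↔ Good N (fixK ρ M) S := by
  constructor
  · intro h a ha b hb c hc d v hv
    exact h hv a ha b hb c hc d
  · intro h v hv a ha b hb c hc d
    exact h a ha b hb c hc d v hv

lemma X_mono {S T : Finset Ω} (h : S ⊆ T) : X N ρ S ≤ X N ρ T :=
  X_le_iff.mpr ((X_le_iff.mp le_rfl).mono h)

lemma Y_anti {S T : Finset Ω} (h : S ⊆ T) : Y N ρ T ≤ Y N ρ S :=
  le_Y_iff.mpr ((le_Y_iff.mp le_rfl).mono h)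

lemma X_union (hN : Sys π N) {S T : Finset Ω} (hI : 3 ≤ (S ∩ T).card) {M : Submodule F V}
    (h1 : X N ρ S ≤ M) (h2 : X N ρ T ≤ M) : X N ρ (S ∪ T) ≤ M :=
  X_le_iff.mpr ((X_le_iff.mp h1).union hN (X_le_iff.mp h2) hI)

lemma Y_union (hN : Sys π N) {S T : Finset Ω} (hI : 3 ≤ (S ∩ T).card) {M : Submodule F V}
    (h1 : M ≤ Y N ρ S) (h2 : M ≤ Y N ρ T) : M ≤ Y N ρ (S ∪ T) :=
  le_Y_iff.mpr ((le_Y_iff.mp h1).union hN (le_Y_iff.mp h2) hI)

lemma conj_apply (hN : Sys π N) (u : U) {a b c : Ω} (d : Dist a b c) (v : V) :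
    ρ u (ρ (N a b c) v) = ρ (N (π u a) (π u b) (π u c)) (ρ u v) := by
  rw [← hN.conj u d, ← rmul, ← rmul]
  congr 2
  group

lemma map_X (hN : Sys π N) (u : U) {S : Finset Ω} {v : V} (hv : v ∈ X N ρ S) :
    ρ u v ∈ X N ρ (S.image (π u)) := by
  have h : X N ρ S ≤ (X N ρ (S.image (π u))).comap (ρ u) := by
    conv_lhs => unfold X
    rw [Submodule.span_le]
    rintro _ ⟨a, ha, b, hb, c, hc, d, v, rfl⟩
    show ρ u (ρ (N a b c) v - v) ∈ X N ρ (S.image (π u))
    rw [map_sub, conj_apply hN u d]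
    exact sub_mem_X (Finset.mem_image_of_mem _ ha) (Finset.mem_image_of_mem _ hb)
      (Finset.mem_image_of_mem _ hc) (d.map _) _
  exact h hv

lemma map_Y (hN : Sys π N) (u : U) {S : Finset Ω} {v : V} (hv : v ∈ Y N ρ S) :
    ρ u v ∈ Y N ρ (S.image (π u)) := by
  intro a1 ha1 b1 hb1 c1 hc1 d
  obtain ⟨a, ha, rfl⟩ := Finset.mem_image.mp ha1
  obtain ⟨b, hb, rfl⟩ := Finset.mem_image.mp hb1
  obtain ⟨c, hc, rfl⟩ := Finset.mem_image.mp hc1
  have d' : Dist a b c := ⟨fun e => d.1 (by rw [e]), fun e => d.2.1 (by rw [e]),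
    fun e => d.2.2 (by rw [e])⟩
  rw [← conj_apply hN u d', hv a ha b hb c hc d']

/-- averaging -/
theorem X_Y_compl [Finite U] (hU : (Nat.card U : F) ≠ 0) (S : Finset Ω) :
    IsCompl (X N ρ S) (Y N ρ S) := by
  classical
  set H : Subgroup U := Subgroup.closure {u | ∃ a ∈ S, ∃ b ∈ S, ∃ c ∈ S, Dist a b c ∧ u = N a b c}
    with hH
  have : Fintype H := Fintype.ofFinite _
  have hcard : (Fintype.card H : F) ≠ 0 := by
    intro h0
    apply hU
    obtain ⟨k, hk⟩ := Subgroup.card_subgroup_dvd_card H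
    rw [hk, Nat.card_eq_fintype_card, Nat.cast_mul, h0, zero_mul]
  have h1 : ∀ h ∈ H, ∀ v, ρ h v - v ∈ X N ρ S := by
    have : H ≤ modK ρ (X N ρ S) := by
      rw [hH, Subgroup.closure_le]
      rintro _ ⟨a, ha, b, hb, c, hc, d, rfl⟩
      exact fun v => sub_mem_X ha hb hc d v
    exact fun h hh v => this hh v
  have h2 : ∀ h ∈ H, ∀ v ∈ Y N ρ S, ρ h v = v := by
    have : H ≤ fixK ρ (Y N ρ S) := by
      rw [hH, Subgroup.closure_le]
      rintro _ ⟨a, ha, b, hb, c, hc, d, rfl⟩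
      exact fun v hv => hv a ha b hb c hc d
    exact fun h hh v hv => this hh v hv
  let S0 : V →ₗ[F] V := ∑ h : H, ρ (h : U)
  have hS0 : ∀ v, S0 v = ∑ h : H, ρ (h : U) v := fun v => by
    simp [S0, LinearMap.sum_apply]
  have h3 : ∀ (k : H) (v : V), ρ (k : U) (S0 v) = S0 v := by
    intro k v
    rw [hS0, map_sum]
    refine Eq.trans ?_ (Equiv.sum_comp (Equiv.mulLeft k) (fun x : H => ρ (x : U) v))
    apply Finset.sum_congr rfl
    intro x _
    show ρ (k : U) (ρ (x : U) v) = ρ ((k * x : H) : U) v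
    rw [Subgroup.coe_mul, rmul]
  have h4 : ∀ (k : H) (v : V), S0 (ρ (k : U) v) = S0 v := by
    intro k v
    rw [hS0, hS0]
    refine Eq.trans ?_ (Equiv.sum_comp (Equiv.mulRight k) (fun x : H => ρ (x : U) v))
    apply Finset.sum_congr rfl
    intro x _
    show ρ (x : U) (ρ (k : U) v) = ρ ((x * k : H) : U) v
    rw [Subgroup.coe_mul, rmul]
  have hmemH : ∀ {a b c : Ω}, a ∈ S → b ∈ S → c ∈ S → Dist a b c → N a b c ∈ H := by
    intro a b c ha hb hc d
    exact Subgroup.subset_closure ⟨a, ha, b, hb, c, hc, d, rfl⟩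
  have h5 : ∀ v, S0 v ∈ Y N ρ S := by
    intro v a ha b hb c hc d
    exact h3 ⟨_, hmemH ha hb hc d⟩ v
  have h6 : ∀ v ∈ X N ρ S, S0 v = 0 := by
    have : X N ρ S ≤ LinearMap.ker S0 := by
      unfold X
      rw [Submodule.span_le]
      rintro _ ⟨a, ha, b, hb, c, hc, d, v, rfl⟩
      show _ ∈ LinearMap.ker S0
      rw [LinearMap.mem_ker, map_sub, h4 ⟨_, hmemH ha hb hc d⟩ v, sub_self]
    intro v hv
    exact this hv
  have h7 : ∀ v ∈ Y N ρ S, S0 v = (Fintype.card H : F) • v := by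
    intro v hv
    rw [hS0, Finset.sum_congr rfl (fun (h : H) _ => h2 h h.2 v hv), Finset.sum_const,
      Finset.card_univ, Nat.cast_smul_eq_nsmul]
  have h8 : ∀ v, v - (Fintype.card H : F)⁻¹ • S0 v ∈ X N ρ S := by
    intro v
    have e : v - (Fintype.card H : F)⁻¹ • S0 v =
        (Fintype.card H : F)⁻¹ • ∑ h : H, -(ρ (h : U) v - v) := by
      rw [Finset.sum_neg_distrib, Finset.sum_sub_distrib, Finset.sum_const, Finset.card_univ,
        hS0, ← Nat.cast_smul_eq_nsmul F, neg_sub, smul_sub, smul_smul, inv_mul_cancel₀ hcard,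
        one_smul]
    rw [e]
    exact Submodule.smul_mem _ _ (Submodule.sum_mem _ fun h _ => Submodule.neg_mem _ (h1 h h.2 v))
  constructor
  · rw [Submodule.disjoint_def]
    intro v hx hy
    have := h7 v hy
    rw [h6 v hx] at this
    rcases smul_eq_zero.mp this.symm with h | h
    · exact absurd h hcard
    · exact h
  · rw [codisjoint_iff, eq_top_iff]
    rintro v -
    have e : v = (v - (Fintype.card H : F)⁻¹ • S0 v) + (Fintype.card H : F)⁻¹ • S0 v := by abel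
    rw [e]
    exact Submodule.add_mem_sup (h8 v) (Submodule.smul_mem _ _ (h5 v))

end lin

end TransDeg.Cent
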