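import Pool.Agent.TransDeg.CentB

/-!
Dimension counts for the moved spaces of the lifted 3-cycles.
-/

set_option autoImplicit false
set_option linter.unusedSectionVars false

open Subgroup Module
open scoped commutatorElement

namespace TransDeg.Cent

section

variable {Ω U F V : Type*} [Fintype Ω] [DecidableEq Ω] [Group U] [Finite U] {π : U →* Equiv.Perm Ω}
  {N : Ω → Ω → Ω → U} [Field F] [AddCommGroup V] [Module F V] {ρ : U →* (V →ₗ[F] V)}

lemma mem_Y_triple (hN : Sys π N) {a b c : Ω} (d : Dist a b c) {v : V} :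
    v ∈ Y N ρ {a, b, c} ↔ ρ (N a b c) v = v := by
  constructor
  · intro h
    exact h a (by simp) b (by simp) c (by simp) d
  · intro h x hx y hy z hz dd
    have r1 : N b c a = N a b c := hN.rot d
    have r2 : N c a b = N a b c := by rw [hN.rot d.rot, r1]
    have i1 : N b a c = (N a b c)⁻¹ := hN.inv d
    have i2 : N a c b = (N a b c)⁻¹ := by rw [hN.rot d.swap, i1]
    have i3 : N c b a = (N a b c)⁻¹ := by rw [hN.rot d.swap.rot, i2]
    have hi : ρ (N a b c)⁻¹ v = v := by
      conv_lhs => rw [← h]
      rw [rinv]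
    simp only [Finset.mem_insert, Finset.mem_singleton] at hx hy hz
    rcases hx with rfl | rfl | rfl <;> rcases hy with rfl | rfl | rfl <;>
      rcases hz with rfl | rfl | rfl <;>
      first
        | exact absurd rfl dd.1
        | exact absurd rfl dd.2.1
        | exact absurd rfl dd.2.2
        | exact h
        | (rw [r1]; exact h)
        | (rw [r2]; exact h)
        | (rw [i1]; exact hi)
        | (rw [i2]; exact hi)
        | (rw [i3]; exact hi)

lemma X_inv {S : Finset Ω} {a b c : Ω} (ha : a ∈ S) (hb : b ∈ S) (hc : c ∈ S)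
    (d : Dist a b c) {v : V} (hv : v ∈ X N ρ S) : ρ (N a b c) v ∈ X N ρ S := by
  have := (X N ρ S).add_mem (sub_mem_X (N := N) (ρ := ρ) ha hb hc d v) hv
  rwa [sub_add_cancel] at this

lemma X_bot_one (hN : Sys π N) {a b c : Ω} (d : Dist a b c) (h : X N ρ {a, b, c} = ⊥) :
    ρ (N a b c) = 1 := by
  apply LinearMap.ext
  intro v
  have h1 := sub_mem_X (N := N) (ρ := ρ) (S := {a, b, c}) (by simp) (by simp) (by simp) d v
  rw [h, Submodule.mem_bot, sub_eq_zero] at h1
  exact h1

theorem two_le [FiniteDimensional F V] (hN : Sys π N) (hU : (Nat.card U : F) ≠ 0) {a b c : Ω}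
    (d : Dist a b c) (hne : ρ (N a b c) ≠ 1) : 2 ≤ finrank F (X N ρ {a, b, c}) := by
  by_contra hcon
  have h1 : finrank F (X N ρ {a, b, c}) ≤ 1 := by omega
  rw [Submodule.finrank_le_one_iff_isPrincipal] at h1
  obtain ⟨x0, hx0⟩ := h1
  have hcompl := X_Y_compl (N := N) (ρ := ρ) hU {a, b, c}
  have hx0X : x0 ∈ X N ρ {a, b, c} := by rw [hx0]; exact Submodule.mem_span_singleton_self x0
  obtain ⟨u, hu1, hu2, hu3⟩ := hN.trans d d.swap
  have huX : ρ u x0 ∈ X N ρ {a, b, c} := by
    have h2 := map_X hN u hx0X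
    have h3 : ({a, b, c} : Finset Ω).image (π u) = {a, b, c} := by
      rw [Finset.image_insert, Finset.image_insert, Finset.image_singleton, hu1, hu2, hu3]
      exact Finset.insert_comm b a {c}
    rwa [h3] at h2
  have hNX : ρ (N a b c) x0 ∈ X N ρ {a, b, c} := X_inv (by simp) (by simp) (by simp) d hx0X
  have hX0 : X N ρ {a, b, c} = ⊥ := by
    by_cases hx00 : x0 = 0
    · rw [hx0, hx00]; simp
    rw [hx0, Submodule.mem_span_singleton] at huX hNX
    obtain ⟨μ, hμ⟩ := huX
    obtain ⟨l, hl⟩ := hNX
    have hμ0 : μ ≠ 0 := by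
      rintro rfl
      rw [zero_smul] at hμ
      apply hx00
      apply rinj ρ u
      rw [← hμ, map_zero]
    have h3 : l ^ 3 = 1 := by
      have h4 : ρ (N a b c ^ 3) x0 = l ^ 3 • x0 := by
        rw [pow_succ, pow_two, rmul, rmul, ← hl, map_smul, map_smul, ← hl, map_smul, ← hl,
          smul_smul, smul_smul]
        congr 1
        ring
      rw [hN.cube d, map_one] at h4
      have h5 : (l ^ 3 - 1) • x0 = 0 := by
        rw [sub_smul, one_smul, ← h4]
        simp
      rcases smul_eq_zero.mp h5 with h6 | h6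
      · exact sub_eq_zero.mp h6
      · exact absurd h6 hx00
    have h4 : l ^ 2 = 1 := by
      have h5 := conj_apply (ρ := ρ) hN u d x0
      rw [hu1, hu2, hu3, hN.inv d, ← hl, ← hμ, map_smul, ← hμ] at h5
      have h6 := congrArg (ρ (N a b c)) h5
      rw [rinv', map_smul, map_smul, ← hl, smul_smul, smul_smul] at h6
      have h7 : (l * (μ * l) - μ) • x0 = 0 := by
        rw [sub_smul, sub_eq_zero, ← h6]
        congr 1
        ring
      rcases smul_eq_zero.mp h7 with h8 | h8
      · have h9 : μ * (l ^ 2 - 1) = 0 := by linear_combination h8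
        rcases mul_eq_zero.mp h9 with h10 | h10
        · exact absurd h10 hμ0
        · exact sub_eq_zero.mp h10
      · exact absurd h8 hx00
    have h5 : l = 1 := by
      have : l ^ 3 = l ^ 2 * l := by ring
      rw [h3, h4, one_mul] at this
      exact this.symm
    have h6 : x0 ∈ Y N ρ {a, b, c} := by
      rw [mem_Y_triple hN d, ← hl, h5, one_smul]
    exact absurd (Submodule.disjoint_def.mp hcompl.disjoint x0 hx0X h6) hx00
  exact hne (X_bot_one hN d hX0)

variable (π N ρ) in
/-- the standing hypotheses of the dimension argument -/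
structure Ctx : Prop where
  sys : Sys π N
  hU : (Nat.card U : F) ≠ 0
  n8 : 8 ≤ Fintype.card Ω
  s2 : ∀ S T : Finset Ω, Disjoint S T → X N ρ S ≤ Y N ρ T
  ne : ∀ a b c, Dist a b c → ρ (N a b c) ≠ 1
  dim : finrank F V ≤ Fintype.card Ω - 2

lemma exists_triple {S : Finset Ω} (h : 3 ≤ S.card) : ∃ a ∈ S, ∃ b ∈ S, ∃ c ∈ S, Dist a b c := by
  obtain ⟨a, ha, b, hb, c, hc, h1, h2, h3⟩ := Finset.two_lt_card.mp h
  exact ⟨a, ha, b, hb, c, hc, h1, h3, h2⟩

/-- the moved space grows strictly -/
theorem Ctx.incr (H : Ctx (F := F) (V := V) π N ρ) {S : Finset Ω} (h3 : 3 ≤ S.card)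
    (hn : S.card + 3 ≤ Fintype.card Ω) {x : Ω} (hx : x ∉ S) :
    ¬ X N ρ (insert x S) ≤ X N ρ S := by
  intro hle
  -- every further point
  have h1 : ∀ y, y ∉ S → X N ρ (insert y S) ≤ X N ρ S := by
    intro y hy
    by_cases hxy : x = y
    · rw [← hxy]; exact hle
    obtain ⟨z, hz⟩ : ∃ z, z ∉ insert x (insert y S) := by
      by_contra hcon
      push Not at hcon
      have h4 : (Finset.univ : Finset Ω) ⊆ insert x (insert y S) := fun z _ => hcon z
      have h5 := Finset.card_le_card h4
      have h6 := Finset.card_insert_le x (insert y S)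
      have h7 := Finset.card_insert_le y S
      rw [Finset.card_univ] at h5
      omega
    simp only [Finset.mem_insert, not_or] at hz
    obtain ⟨hzx, hzy, hzS⟩ := hz
    have d : Dist x y z := ⟨hxy, fun e => hzy e.symm, fun e => hzx e.symm⟩
    have himS : S.image (π (N x y z)) = S := by
      ext w
      constructor
      · intro hw
        obtain ⟨w', hw', rfl⟩ := Finset.mem_image.mp hw
        rw [H.sys.m4 d (fun e => hx (e ▸ hw')) (fun e => hy (e ▸ hw')) (fun e => hzS (e ▸ hw'))]
        exact hw'
      · intro hw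
        refine Finset.mem_image.mpr ⟨w, hw, ?_⟩
        exact H.sys.m4 d (fun e => hx (e ▸ hw)) (fun e => hy (e ▸ hw)) (fun e => hzS (e ▸ hw))
    have himS' : (insert x S).image (π (N x y z)) = insert y S := by
      rw [Finset.image_insert, himS, H.sys.m1 d]
    have himS'' : (insert y S).image (π (N x y z)⁻¹) = insert x S := by
      rw [← himS', Finset.image_image]
      have : (⇑(π (N x y z)⁻¹) ∘ ⇑(π (N x y z))) = id := by
        funext w
        simp
      rw [this, Finset.image_id]
    intro v hv
    have h4 := map_X H.sys (N x y z)⁻¹ hv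
    rw [himS''] at h4
    have h5 := map_X H.sys (N x y z) (hle h4)
    rwa [himS, rinv'] at h5
  -- hence everything
  have h2 : ∀ T : Finset Ω, X N ρ (S ∪ T) ≤ X N ρ S := by
    intro T
    induction T using Finset.induction_on with
    | empty => rw [Finset.union_empty]
    | insert y T _ ih =>
      by_cases hy : y ∈ S
      · have : S ∪ insert y T = S ∪ T := by
          rw [Finset.union_insert]
          exact Finset.insert_eq_of_mem (Finset.mem_union_left _ hy)
        rw [this]; exact ih
      · have : S ∪ insert y T = (S ∪ T) ∪ insert y S := by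
          ext w
          simp only [Finset.mem_union, Finset.mem_insert]
          tauto
        rw [this]
        refine X_union H.sys (h3.trans (Finset.card_le_card ?_)) ih (h1 y hy)
        intro w hw
        simp [hw]
  have h3' : X N ρ Sᶜ ≤ X N ρ S := by
    refine le_trans (X_mono ?_) (h2 Sᶜ)
    exact Finset.subset_union_right
  have h4 : 3 ≤ Sᶜ.card := by
    rw [Finset.card_compl]; omega
  obtain ⟨a, ha, b, hb, c, hc, d⟩ := exists_triple h4
  apply H.ne a b c d
  apply X_bot_one H.sys d
  rw [eq_bot_iff]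
  have hsub : ({a, b, c} : Finset Ω) ⊆ Sᶜ := by
    intro w hw
    simp only [Finset.mem_insert, Finset.mem_singleton] at hw
    rcases hw with rfl | rfl | rfl <;> assumption
  have h5 : X N ρ {a, b, c} ≤ Y N ρ {a, b, c} :=
    ((X_mono hsub).trans h3').trans ((H.s2 S Sᶜ disjoint_compl_right).trans (Y_anti hsub))
  intro v hv
  have := Submodule.disjoint_def.mp (X_Y_compl (N := N) (ρ := ρ) H.hU {a, b, c}).disjoint v hv (h5 hv)
  rw [this]
  exact Submodule.zero_mem _

theorem Ctx.card_le [FiniteDimensional F V] (H : Ctx (F := F) (V := V) π N ρ) :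
    ∀ (k : ℕ) (S : Finset Ω), S.card = k → 3 ≤ k → k + 2 ≤ Fintype.card Ω →
      k - 1 ≤ finrank F (X N ρ S) := by
  intro k
  induction k with
  | zero => intro S _ h _; omega
  | succ k ih =>
    intro S hS h3 hn
    by_cases hk : k + 1 = 3
    · obtain ⟨a, ha, b, hb, c, hc, d⟩ := exists_triple (S := S) (by omega)
      have hsub : ({a, b, c} : Finset Ω) ⊆ S := by
        intro w hw
        simp only [Finset.mem_insert, Finset.mem_singleton] at hw
        rcases hw with rfl | rfl | rfl <;> assumption
      have h4 := two_le H.sys H.hU d (H.ne a b c d)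
      have h5 : finrank F (X N ρ {a, b, c}) ≤ finrank F (X N ρ S) :=
        Submodule.finrank_mono (X_mono hsub)
      omega
    · obtain ⟨x, hx⟩ : S.Nonempty := Finset.card_pos.mp (by omega)
      have hc : (S.erase x).card = k := by rw [Finset.card_erase_of_mem hx]; omega
      have h4 := ih (S.erase x) hc (by omega) (by omega)
      have h5 := H.incr (S := S.erase x) (by omega) (by omega) (Finset.notMem_erase x S)
      rw [Finset.insert_erase hx] at h5
      have h6 : X N ρ (S.erase x) < X N ρ S :=
        lt_of_le_not_ge (X_mono (Finset.erase_subset x S)) h5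
      have h7 := Submodule.finrank_lt_finrank_of_lt h6
      omega

lemma finrank_X_add_Y [FiniteDimensional F V] (hU : (Nat.card U : F) ≠ 0) (S : Finset Ω) :
    finrank F (X N ρ S) + finrank F (Y N ρ S) = finrank F V :=
  Submodule.finrank_add_eq_of_isCompl (X_Y_compl (N := N) (ρ := ρ) hU S)

/-- exact dimensions -/
theorem Ctx.exact [FiniteDimensional F V] (H : Ctx (F := F) (V := V) π N ρ) {S : Finset Ω}
    (h3 : 3 ≤ S.card) (hn : S.card + 3 ≤ Fintype.card Ω) :
    finrank F (X N ρ S) = S.card - 1 ∧ Y N ρ Sᶜ = X N ρ S := by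
  have hc : Sᶜ.card = Fintype.card Ω - S.card := Finset.card_compl S
  have h1 := H.card_le _ S rfl h3 (by omega)
  have h2 := H.card_le _ Sᶜ rfl (by omega) (by omega)
  have h4 := finrank_X_add_Y (N := N) (ρ := ρ) H.hU Sᶜ
  have h5 : X N ρ S ≤ Y N ρ Sᶜ := H.s2 S Sᶜ disjoint_compl_right
  have h6 := Submodule.finrank_mono h5
  have h7 := H.dim
  have h8 := H.n8
  refine ⟨by omega, ?_⟩
  exact (Submodule.eq_of_le_of_finrank_le h5 (by omega)).symm

theorem Ctx.finrank_V [FiniteDimensional F V] (H : Ctx (F := F) (V := V) π N ρ) :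
    finrank F V = Fintype.card Ω - 2 := by
  have h8 := H.n8
  obtain ⟨S, hS, hc⟩ := Finset.exists_subset_card_eq (s := (Finset.univ : Finset Ω)) (n := 3)
    (by rw [Finset.card_univ]; omega)
  have hcc : Sᶜ.card = Fintype.card Ω - S.card := Finset.card_compl S
  have h1 := (H.exact (S := S) (by omega) (by omega)).1
  have h2 := (H.exact (S := Sᶜ) (by omega) (by omega))
  rw [compl_compl] at h2
  have h3 := finrank_X_add_Y (N := N) (ρ := ρ) H.hU S
  rw [h2.2] at h3
  omega

theorem Ctx.X_univ [FiniteDimensional F V] (H : Ctx (F := F) (V := V) π N ρ) :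
    X N ρ Finset.univ = ⊤ := by
  have h8 := H.n8
  obtain ⟨S, hS, hc⟩ := Finset.exists_subset_card_eq (s := (Finset.univ : Finset Ω)) (n := 3)
    (by rw [Finset.card_univ]; omega)
  have hcc : Sᶜ.card = Fintype.card Ω - S.card := Finset.card_compl S
  have h2 := (H.exact (S := Sᶜ) (by omega) (by omega))
  rw [compl_compl] at h2
  have h3 := (X_Y_compl (N := N) (ρ := ρ) H.hU S).sup_eq_top
  rw [eq_top_iff, ← h3, h2.2]
  exact sup_le (X_mono (Finset.subset_univ _)) (X_mono (Finset.subset_univ _))

theorem Ctx.Y_univ [FiniteDimensional F V] (H : Ctx (F := F) (V := V) π N ρ) :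
    Y N ρ Finset.univ = ⊥ := by
  have h := (X_Y_compl (N := N) (ρ := ρ) H.hU Finset.univ).inf_eq_bot
  rwa [H.X_univ, top_inf_eq] at h

end

end TransDeg.Cent
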