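import Pool.Agent.TransDeg.CentC

/-!
The lines `L a b` and the final contradiction.
-/

set_option autoImplicit false
set_option linter.unusedSectionVars false

open Subgroup Module
open scoped commutatorElement

namespace TransDeg.Cent

section

variable {Ω U F V : Type*} [Fintype Ω] [DecidableEq Ω] [Group U] [Finite U] {π : U →* Equiv.Perm Ω}
  {N : Ω → Ω → Ω → U} [Field F] [AddCommGroup V] [Module F V] {ρ : U →* (V →ₗ[F] V)}

variable (N ρ) in
/-- vectors fixed by all lifted 3-cycles avoiding `a` and `b` -/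
def L (a b : Ω) : Submodule F V := Y N ρ ({a, b} : Finset Ω)ᶜ

lemma L_comm (a b : Ω) : L N ρ a b = L N ρ b a := by
  unfold L
  rw [Finset.pair_comm]

lemma map_L (hN : Sys π N) (u : U) {a b : Ω} {v : V} (hv : v ∈ L N ρ a b) :
    ρ u v ∈ L N ρ (π u a) (π u b) := by
  have h := map_Y hN u hv
  have h2 : (({a, b} : Finset Ω)ᶜ).image (π u) = ({π u a, π u b} : Finset Ω)ᶜ := by
    ext w
    simp only [Finset.mem_image, Finset.mem_compl, Finset.mem_insert, Finset.mem_singleton, not_or]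
    constructor
    · rintro ⟨x, ⟨h1, h2⟩, rfl⟩
      exact ⟨fun e => h1 ((π u).injective e), fun e => h2 ((π u).injective e)⟩
    · rintro ⟨h1, h2⟩
      refine ⟨(π u).symm w, ⟨?_, ?_⟩, by simp⟩
      · rintro rfl; exact h1 (by simp)
      · rintro rfl; exact h2 (by simp)
  rw [h2] at h
  exact h

lemma fix_L {a b x y z : Ω} (d : Dist x y z) (hx : x ≠ a ∧ x ≠ b) (hy : y ≠ a ∧ y ≠ b)
    (hz : z ≠ a ∧ z ≠ b) {v : V} (hv : v ∈ L N ρ a b) : ρ (N x y z) v = v :=
  hv x (by simp [hx.1, hx.2]) y (by simp [hy.1, hy.2]) z (by simp [hz.1, hz.2]) d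

lemma exists_not_mem (h8 : 8 ≤ Fintype.card Ω) (T : Finset Ω) (hT : T.card ≤ 7) :
    ∃ x, x ∉ T := by
  by_contra hcon
  push Not at hcon
  have h4 : (Finset.univ : Finset Ω) ⊆ T := fun z _ => hcon z
  have h5 := Finset.card_le_card h4
  rw [Finset.card_univ] at h5
  omega

lemma card3 {a b c : Ω} (d : Dist a b c) : ({a, b, c} : Finset Ω).card = 3 :=
  Finset.card_eq_three.mpr ⟨a, b, c, d.1, d.2.2, d.2.1, rfl⟩

lemma Ctx.X_eq [FiniteDimensional F V] (H : Ctx (F := F) (V := V) π N ρ) {a b c : Ω}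
    (d : Dist a b c) : Y N ρ ({a, b, c} : Finset Ω)ᶜ = X N ρ {a, b, c} :=
  (H.exact (S := {a, b, c}) (by rw [card3 d]) (by rw [card3 d]; have := H.n8; omega)).2

lemma Ctx.X_dim [FiniteDimensional F V] (H : Ctx (F := F) (V := V) π N ρ) {a b c : Ω}
    (d : Dist a b c) : finrank F (X N ρ {a, b, c}) = 2 := by
  rw [(H.exact (S := {a, b, c}) (by rw [card3 d]) (by rw [card3 d]; have := H.n8; omega)).1,
    card3 d]

lemma Ctx.L_le_X [FiniteDimensional F V] (H : Ctx (F := F) (V := V) π N ρ) {a b c : Ω}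
    (d : Dist a b c) : L N ρ a b ≤ X N ρ {a, b, c} := by
  rw [← H.X_eq d]
  apply Y_anti
  intro x
  simp only [Finset.mem_compl, Finset.mem_insert, Finset.mem_singleton]
  tauto

lemma Ctx.inf_le_L [FiniteDimensional F V] (H : Ctx (F := F) (V := V) π N ρ) {a b c e : Ω}
    (d : Dist a b c) (d' : Dist a b e) (hce : c ≠ e) :
    X N ρ {a, b, c} ⊓ X N ρ {a, b, e} ≤ L N ρ a b := by
  have h1 : X N ρ {a, b, c} ⊓ X N ρ {a, b, e} ≤ Y N ρ (({a, b, c} : Finset Ω)ᶜ ∪ {a, b, e}ᶜ) := by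
    apply Y_union H.sys
    · rw [← Finset.compl_union, Finset.card_compl]
      have h2 : (({a, b, c} : Finset Ω) ∪ {a, b, e}).card ≤ 4 := by
        have : (({a, b, c} : Finset Ω) ∪ {a, b, e}) = {a, b, c, e} := by
          ext x
          simp only [Finset.mem_union, Finset.mem_insert, Finset.mem_singleton]
          tauto
        rw [this]
        exact Finset.card_le_four
      have := H.n8
      omega
    · rw [H.X_eq d]; exact inf_le_left
    · rw [H.X_eq d']; exact inf_le_right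
  refine h1.trans (Y_anti ?_)
  intro x
  simp only [Finset.mem_compl, Finset.mem_insert, Finset.mem_singleton, Finset.mem_union, not_or]
  rintro ⟨h2, h3⟩
  by_cases h4 : x = c
  · right
    exact ⟨h2, h3, fun e => hce (h4 ▸ e)⟩
  · left; exact ⟨h2, h3, h4⟩

lemma Ctx.fix_univ [FiniteDimensional F V] (H : Ctx (F := F) (V := V) π N ρ) {a b c : Ω}
    (d : Dist a b c) {v : V} (h1 : v ∈ L N ρ a b) (h2 : v ∈ L N ρ b c) (h3 : v ∈ L N ρ c a) :
    v = 0 := by
  have n8 := H.n8
  have e1 : Submodule.span F {v} ≤ Y N ρ ({a, b} : Finset Ω)ᶜ := by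
    rw [Submodule.span_singleton_le_iff_mem]; exact h1
  have e2 : Submodule.span F {v} ≤ Y N ρ ({b, c} : Finset Ω)ᶜ := by
    rw [Submodule.span_singleton_le_iff_mem]; exact h2
  have e3 : Submodule.span F {v} ≤ Y N ρ ({c, a} : Finset Ω)ᶜ := by
    rw [Submodule.span_singleton_le_iff_mem]; exact h3
  have hc : 5 ≤ (({a, b, c} : Finset Ω)ᶜ).card := by
    rw [Finset.card_compl, card3 d]; omega
  have e4 : Submodule.span F {v} ≤ Y N ρ (({a, b} : Finset Ω)ᶜ ∪ {b, c}ᶜ) := by
    apply Y_union H.sys _ e1 e2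
    refine le_trans (by omega : 3 ≤ (({a, b, c} : Finset Ω)ᶜ).card) (Finset.card_le_card ?_)
    intro x
    simp only [Finset.mem_compl, Finset.mem_insert, Finset.mem_singleton, Finset.mem_inter]
    tauto
  have e5 : Submodule.span F {v} ≤ Y N ρ ((({a, b} : Finset Ω)ᶜ ∪ {b, c}ᶜ) ∪ {c, a}ᶜ) := by
    apply Y_union H.sys _ e4 e3
    refine le_trans (by omega : 3 ≤ (({a, b, c} : Finset Ω)ᶜ).card) (Finset.card_le_card ?_)
    intro x
    simp only [Finset.mem_compl, Finset.mem_insert, Finset.mem_singleton, Finset.mem_inter,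
      Finset.mem_union]
    tauto
  have e6 : ((({a, b} : Finset Ω)ᶜ ∪ {b, c}ᶜ) ∪ {c, a}ᶜ) = Finset.univ := by
    ext x
    simp only [Finset.mem_compl, Finset.mem_insert, Finset.mem_singleton,
      Finset.mem_union, Finset.mem_univ, iff_true, not_or]
    by_cases hb : x = b
    · subst hb
      right
      exact ⟨d.2.1, d.1.symm⟩
    · left
      by_cases ha : x = a
      · subst ha
        right
        exact ⟨hb, d.2.2⟩
      · left
        exact ⟨ha, hb⟩
  rw [e6, H.Y_univ, Submodule.span_singleton_le_iff_mem] at e5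
  exact e5

theorem Ctx.finrank_L [FiniteDimensional F V] (H : Ctx (F := F) (V := V) π N ρ) {a b : Ω}
    (hab : a ≠ b) : finrank F (L N ρ a b) = 1 := by
  have n8 := H.n8
  obtain ⟨c, hc⟩ := exists_not_mem n8 {a, b} (Finset.card_le_two.trans (by norm_num))
  simp only [Finset.mem_insert, Finset.mem_singleton, not_or] at hc
  obtain ⟨e, he⟩ := exists_not_mem n8 {a, b, c} (Finset.card_le_three.trans (by norm_num))
  simp only [Finset.mem_insert, Finset.mem_singleton, not_or] at he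
  have d : Dist a b c := ⟨hab, fun h => hc.2 h.symm, fun h => hc.1 h.symm⟩
  have d' : Dist a b e := ⟨hab, fun h => he.2.1 h.symm, fun h => he.1 h.symm⟩
  have hce : c ≠ e := fun h => he.2.2 h.symm
  have h1 : L N ρ a b = X N ρ {a, b, c} ⊓ X N ρ {a, b, e} :=
    le_antisymm (le_inf (H.L_le_X d) (H.L_le_X d')) (H.inf_le_L d d' hce)
  have h2 := Submodule.finrank_sup_add_finrank_inf_eq (X N ρ {a, b, c}) (X N ρ {a, b, e})
  rw [H.X_dim d, H.X_dim d', ← h1] at h2
  have hcard4 : ({a, b, c, e} : Finset Ω).card = 4 :=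
    Finset.card_eq_four.mpr ⟨a, b, c, e, d.1, d.2.2, d'.2.2, d.2.1, d'.2.1, hce, rfl⟩
  have h3 : X N ρ {a, b, c} ⊔ X N ρ {a, b, e} ≤ X N ρ {a, b, c, e} := by
    apply sup_le
    · apply X_mono
      intro x
      simp only [Finset.mem_insert, Finset.mem_singleton]
      tauto
    · apply X_mono
      intro x
      simp only [Finset.mem_insert, Finset.mem_singleton]
      tauto
  have h4 := Submodule.finrank_mono h3
  rw [(H.exact (S := {a, b, c, e}) (by omega) (by omega)).1, hcard4] at h4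
  have h5 : 1 ≤ finrank F (L N ρ a b) := by omega
  by_contra hcon
  have h6 : L N ρ a b = X N ρ {a, b, c} := by
    apply Submodule.eq_of_le_of_finrank_le (H.L_le_X d)
    rw [H.X_dim d]; omega
  -- then `X {a,b,c}` is fixed by everything
  have key : ∀ v ∈ X N ρ {a, b, c}, v = 0 := by
    intro v hv
    have g : ∀ v ∈ X N ρ {a, b, c}, ρ (N a b c) v ∈ X N ρ {a, b, c} := fun v hv =>
      X_inv (by simp) (by simp) (by simp) d hv
    -- pull back
    have s1 : ∀ v ∈ X N ρ {a, b, c}, v ∈ L N ρ a b := fun v hv => h6 ▸ hv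
    have hcube : ∀ v, ρ (N a b c) (ρ (N a b c) (ρ (N a b c) v)) = v := by
      intro v
      rw [← rmul, ← rmul]
      have : N a b c * N a b c * N a b c = 1 := by
        rw [← H.sys.cube d, pow_three']
      rw [this, map_one]; rfl
    have s2 : ∀ v ∈ X N ρ {a, b, c}, v ∈ L N ρ b c := by
      intro v hv
      have h7 := map_L H.sys (N a b c) (s1 _ (g _ (g _ hv)))
      rwa [H.sys.m1 d, H.sys.m2 d, hcube] at h7
    have s3 : ∀ v ∈ X N ρ {a, b, c}, v ∈ L N ρ c a := by
      intro v hv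
      have h7 := map_L H.sys (N a b c) (s2 _ (g _ (g _ hv)))
      rwa [H.sys.m2 d, H.sys.m3 d, hcube] at h7
    exact H.fix_univ d (s1 v hv) (s2 v hv) (s3 v hv)
  have h8 : X N ρ {a, b, c} = ⊥ := by
    rw [eq_bot_iff]
    intro v hv
    rw [key v hv]; exact Submodule.zero_mem _
  exact H.ne a b c d (X_bot_one H.sys d h8)

lemma Ctx.mul_of_mem [FiniteDimensional F V] (H : Ctx (F := F) (V := V) π N ρ) {a b : Ω}
    (hab : a ≠ b) {v w : V} (hv : v ∈ L N ρ a b) (hv0 : v ≠ 0) (hw : w ∈ L N ρ a b) :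
    ∃ r : F, w = r • v := by
  have h1 := H.finrank_L hab
  have h2 := (finrank_eq_one_iff_of_nonzero' (⟨v, hv⟩ : L N ρ a b)
    (fun h => hv0 (congrArg Subtype.val h))).mp h1 ⟨w, hw⟩
  obtain ⟨r, hr⟩ := h2
  exact ⟨r, (congrArg Subtype.val hr).symm⟩

theorem Ctx.L_inf [FiniteDimensional F V] (H : Ctx (F := F) (V := V) π N ρ) {a b c : Ω}
    (d : Dist a b c) {v : V} (h1 : v ∈ L N ρ a b) (h2 : v ∈ L N ρ b c) : v = 0 := by
  by_contra hv0
  have hg : ρ (N a b c) v ∈ L N ρ b c := by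
    have := map_L H.sys (N a b c) h1
    rwa [H.sys.m1 d, H.sys.m2 d] at this
  obtain ⟨r, hr⟩ := H.mul_of_mem d.2.1 h2 hv0 hg
  have hr0 : r ≠ 0 := by
    rintro rfl
    rw [zero_smul] at hr
    exact hv0 (rinj ρ (N a b c) (by rw [hr, map_zero]))
  have hg2 : ρ (N a b c) v ∈ L N ρ c a := by
    have := map_L H.sys (N a b c) h2
    rwa [H.sys.m2 d, H.sys.m3 d] at this
  have h3 : v ∈ L N ρ c a := by
    rw [hr] at hg2
    have := (L N ρ c a).smul_mem r⁻¹ hg2
    rwa [smul_smul, inv_mul_cancel₀ hr0, one_smul] at this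
  exact hv0 (H.fix_univ d h1 h2 h3)

/-- three lines through `o` are independent -/
lemma Ctx.indep3 [FiniteDimensional F V] (H : Ctx (F := F) (V := V) π N ρ) {o a b e : Ω}
    (hoa : o ≠ a) (hob : o ≠ b) (hoe : o ≠ e) (d : Dist a b e) {wa wb we : V}
    (ha : wa ∈ L N ρ o a) (hb : wb ∈ L N ρ o b) (he : we ∈ L N ρ o e) (he0 : we ≠ 0)
    {α β γ : F} (h : α • wa + β • wb + γ • we = 0) : γ = 0 := by
  by_contra hγ
  have d1 : Dist o a b := ⟨hoa, d.1, hob⟩
  have d2 : Dist o a e := ⟨hoa, d.2.2, hoe⟩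
  have h1 : we ∈ X N ρ {o, a, b} := by
    have e1 : we = (-(γ⁻¹ * α)) • wa + (-(γ⁻¹ * β)) • wb := by
      have h2 : γ • we = -(α • wa) - β • wb := by
        rw [← sub_eq_zero, ← h]; abel
      have h3 : we = γ⁻¹ • (γ • we) := by rw [smul_smul, inv_mul_cancel₀ hγ, one_smul]
      rw [h3, h2, smul_sub, smul_neg, smul_smul, smul_smul, neg_smul, neg_smul]
      abel
    rw [e1]
    apply Submodule.add_mem
    · exact Submodule.smul_mem _ _ (H.L_le_X d1 ha)
    · apply Submodule.smul_mem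
      have d3 : Dist o b a := ⟨hob, d.1.symm, hoa⟩
      have h4 := H.L_le_X d3 hb
      have h5 : ({o, b, a} : Finset Ω) = {o, a, b} := by
        rw [Finset.pair_comm]
      rwa [h5] at h4
  have h2 : we ∈ X N ρ {o, a, e} := by
    have d3 : Dist o e a := ⟨hoe, d.2.2.symm, hoa⟩
    have h4 := H.L_le_X d3 he
    have h5 : ({o, e, a} : Finset Ω) = {o, a, e} := by
      rw [Finset.pair_comm]
    rwa [h5] at h4
  have h3 : we ∈ L N ρ o a := H.inf_le_L d1 d2 d.2.1 ⟨h1, h2⟩
  have h4 : we ∈ L N ρ a o := by rwa [L_comm]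
  have d5 : Dist a o e := ⟨hoa.symm, hoe, d.2.2⟩
  exact he0 (H.L_inf d5 h4 he)

/-- a relation between the lines through `o` with a zero coefficient is trivial -/
lemma Ctx.rel_zero [FiniteDimensional F V] (H : Ctx (F := F) (V := V) π N ρ) {o : Ω} {w : Ω → V}
    (hw : ∀ x, x ≠ o → w x ∈ L N ρ o x ∧ w x ≠ 0) {c : Ω → F}
    (hc : ∑ x ∈ Finset.univ.erase o, c x • w x = 0) {b : Ω} (hb : b ≠ o) (hcb : c b = 0) :
    ∀ a, a ≠ o → c a = 0 := by
  intro a ha
  by_contra hca
  have hab : a ≠ b := by rintro rfl; exact hca hcb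
  obtain ⟨e, he⟩ := exists_not_mem H.n8 {o, a, b} (Finset.card_le_three.trans (by norm_num))
  simp only [Finset.mem_insert, Finset.mem_singleton, not_or] at he
  obtain ⟨heo, hea, heb⟩ := he
  have d : Dist a b e := ⟨hab, fun h => heb h.symm, fun h => hea h.symm⟩
  set g := N a b e with hg
  have h1 : ∑ x ∈ Finset.univ.erase o, c x • (ρ g (w x) - w x) = 0 := by
    have h2 : ∑ x ∈ Finset.univ.erase o, c x • (ρ g (w x) - w x) =
        ρ g (∑ x ∈ Finset.univ.erase o, c x • w x) - ∑ x ∈ Finset.univ.erase o, c x • w x := by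
      rw [map_sum, ← Finset.sum_sub_distrib]
      apply Finset.sum_congr rfl
      intro x _
      rw [smul_sub, map_smul]
    rw [h2, hc, map_zero, sub_zero]
  have h2 : ∑ x ∈ ({a, b, e} : Finset Ω), c x • (ρ g (w x) - w x) =
      ∑ x ∈ Finset.univ.erase o, c x • (ρ g (w x) - w x) := by
    apply Finset.sum_subset
    · intro x
      simp only [Finset.mem_insert, Finset.mem_singleton, Finset.mem_erase, Finset.mem_univ,
        and_true]
      rintro (rfl | rfl | rfl) <;> assumption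
    · intro x hx hx'
      simp only [Finset.mem_erase, Finset.mem_univ, and_true] at hx
      simp only [Finset.mem_insert, Finset.mem_singleton, not_or] at hx'
      rw [fix_L d ⟨ha, fun h => hx'.1 h.symm⟩ ⟨hb, fun h => hx'.2.1 h.symm⟩
        ⟨heo, fun h => hx'.2.2 h.symm⟩ (hw x hx).1, sub_self, smul_zero]
  rw [h1, Finset.sum_insert (by simp [d.1, d.2.2]), Finset.sum_insert (by simp [d.2.1]),
    Finset.sum_singleton, hcb, zero_smul, zero_add] at h2
  have e1 : ρ g (w a) ∈ L N ρ o b := by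
    have := map_L H.sys g (hw a ha).1
    rwa [hg, H.sys.m4 d ha.symm hb.symm (fun h => heo h.symm), H.sys.m1 d] at this
  have e2 : ρ g (w e) ∈ L N ρ o a := by
    have := map_L H.sys g (hw e heo).1
    rwa [hg, H.sys.m4 d ha.symm hb.symm (fun h => heo h.symm), H.sys.m3 d] at this
  obtain ⟨l, hl⟩ := H.mul_of_mem hb.symm (hw b hb).1 (hw b hb).2 e1
  obtain ⟨μ, hμ⟩ := H.mul_of_mem ha.symm (hw a ha).1 (hw a ha).2 e2
  have hl0 : l ≠ 0 := by
    rintro rfl
    rw [zero_smul] at hl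
    exact (hw a ha).2 (rinj ρ g (by rw [hl, map_zero]))
  rw [hl, hμ] at h2
  have h3 : (c e * μ - c a) • w a + (-c e) • w e + (c a * l) • w b = 0 := by
    rw [← h2]
    module
  have d' : Dist a e b := ⟨d.2.2, d.2.1.symm, d.1⟩
  have h4 := H.indep3 ha.symm (fun h => heo h.symm) hb.symm d' (hw a ha).1 (hw e heo).1
    (hw b hb).1 (hw b hb).2 h3
  rcases mul_eq_zero.mp h4 with h5 | h5
  · exact hca h5
  · exact hl0 h5

lemma Ctx.exists_w [FiniteDimensional F V] (H : Ctx (F := F) (V := V) π N ρ) (o : Ω) :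
    ∃ w : Ω → V, (∀ x, x ≠ o → w x ∈ L N ρ o x ∧ w x ≠ 0) ∧
      ∑ x ∈ Finset.univ.erase o, w x = 0 := by
  have n8 := H.n8
  have h1 : ∀ x, ∃ v : V, x ≠ o → v ∈ L N ρ o x ∧ v ≠ 0 := by
    intro x
    by_cases hx : x = o
    · exact ⟨0, fun h => absurd hx h⟩
    · have h2 := H.finrank_L (a := o) (b := x) (fun h => hx h.symm)
      have h3 : L N ρ o x ≠ ⊥ := by
        intro h4
        rw [h4, finrank_bot] at h2
        exact absurd h2 (by norm_num)
      obtain ⟨v, hv, hv0⟩ := (Submodule.ne_bot_iff _).mp h3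
      exact ⟨v, fun _ => ⟨hv, hv0⟩⟩
  choose w hw using h1
  have h2 : ¬ LinearIndependent F (fun x : {x // x ≠ o} => w x) := by
    intro h3
    have h4 := h3.fintype_card_le_finrank
    rw [Fintype.card_subtype_compl, Fintype.card_subtype_eq, H.finrank_V] at h4
    omega
  rw [Fintype.not_linearIndependent_iff] at h2
  obtain ⟨g, hg, i, hi⟩ := h2
  let c : Ω → F := fun x => if h : x ≠ o then g ⟨x, h⟩ else 0
  have hcg : ∀ x : {x // x ≠ o}, c x = g x := fun x => by
    simp only [c, dif_pos x.2]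
  have hsum : ∑ x ∈ Finset.univ.erase o, c x • w x = 0 := by
    rw [← hg, Finset.sum_subtype (Finset.univ.erase o) (p := fun x => x ≠ o) (by simp)]
    apply Finset.sum_congr rfl
    intro x _
    rw [hcg]
  have hne : ∀ x, x ≠ o → c x ≠ 0 := by
    intro x hx h0
    have h5 := H.rel_zero hw hsum hx h0 i i.2
    rw [hcg] at h5
    exact hi h5
  refine ⟨fun x => c x • w x, ?_, hsum⟩
  intro x hx
  exact ⟨Submodule.smul_mem _ _ (hw x hx).1, smul_ne_zero (hne x hx) (hw x hx).2⟩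

lemma Ctx.rel_eq [FiniteDimensional F V] (H : Ctx (F := F) (V := V) π N ρ) {o : Ω} {w : Ω → V}
    (hw : ∀ x, x ≠ o → w x ∈ L N ρ o x ∧ w x ≠ 0) (hsum : ∑ x ∈ Finset.univ.erase o, w x = 0)
    {c : Ω → F} (hc : ∑ x ∈ Finset.univ.erase o, c x • w x = 0) {a b : Ω} (ha : a ≠ o)
    (hb : b ≠ o) : c a = c b := by
  have h1 : ∑ x ∈ Finset.univ.erase o, (c x - c b) • w x = 0 := by
    have : ∑ x ∈ Finset.univ.erase o, (c x - c b) • w x =
        ∑ x ∈ Finset.univ.erase o, c x • w x - c b • ∑ x ∈ Finset.univ.erase o, w x := by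
      rw [Finset.smul_sum, ← Finset.sum_sub_distrib]
      apply Finset.sum_congr rfl
      intro x _
      rw [sub_smul]
    rw [this, hc, hsum, smul_zero, sub_zero]
  have h2 := H.rel_zero (c := fun x => c x - c b) hw h1 hb (by simp) a ha
  exact sub_eq_zero.mp h2

/-- the action of `N o a b` on the vectors `w x` -/
lemma Ctx.act [FiniteDimensional F V] (H : Ctx (F := F) (V := V) π N ρ) {o : Ω} {w : Ω → V}
    (hw : ∀ x, x ≠ o → w x ∈ L N ρ o x ∧ w x ≠ 0) (hsum : ∑ x ∈ Finset.univ.erase o, w x = 0)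
    {a b : Ω} (ha : a ≠ o) (hb : b ≠ o) (hab : a ≠ b) :
    ∃ γ : Ω → F, ρ (N o a b) (w a) = w b - w a ∧
      (∀ x, x ≠ o → x ≠ a → x ≠ b → ρ (N o a b) (w x) = w x + γ x • w a) ∧
      ∑ x ∈ (Finset.univ.erase o) \ {a, b}, γ x = 3 := by
  have d : Dist o a b := ⟨ha.symm, hab, hb.symm⟩
  set g := N o a b with hg
  have hcube : ∀ v, ρ g (ρ g (ρ g v)) = v := by
    intro v
    rw [← rmul, ← rmul]
    have : g * g * g = 1 := by
      rw [← H.sys.cube d, hg, pow_three']
    rw [this, map_one]; rfl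
  -- the image of `w b`
  have e1 : ρ g (w b) ∈ L N ρ o a := by
    have := map_L H.sys g (hw b hb).1
    rwa [hg, H.sys.m1 d, H.sys.m3 d, L_comm] at this
  obtain ⟨β, hβ⟩ := H.mul_of_mem ha.symm (hw a ha).1 (hw a ha).2 e1
  have hβ0 : β ≠ 0 := by
    rintro rfl
    rw [zero_smul] at hβ
    exact (hw b hb).2 (rinj ρ g (by rw [hβ, map_zero]))
  -- the image of `w a`
  have e2 : ρ g (ρ g (w a)) = β⁻¹ • w b := by
    apply rinj ρ g
    rw [hcube, map_smul, hβ, smul_smul, inv_mul_cancel₀ hβ0, one_smul]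
  have e3 : w a + ρ g (w a) + ρ g (ρ g (w a)) = 0 := by
    have h1 : w a ∈ X N ρ {o, a, b} := H.L_le_X d (hw a ha).1
    have h2 : ρ g (w a) ∈ X N ρ {o, a, b} := X_inv (by simp) (by simp) (by simp) d h1
    have h3 : ρ g (ρ g (w a)) ∈ X N ρ {o, a, b} := X_inv (by simp) (by simp) (by simp) d h2
    have h4 : w a + ρ g (w a) + ρ g (ρ g (w a)) ∈ Y N ρ {o, a, b} := by
      rw [mem_Y_triple H.sys d, ← hg, map_add, map_add, hcube]
      abel
    exact Submodule.disjoint_def.mp (X_Y_compl (N := N) (ρ := ρ) H.hU {o, a, b}).disjoint _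
      (Submodule.add_mem _ (Submodule.add_mem _ h1 h2) h3) h4
  have e4 : ρ g (w a) = -w a - β⁻¹ • w b := by
    rw [e2] at e3
    rw [← sub_eq_zero, ← e3]; abel
  -- the image of the others
  have e5 : ∀ x, ∃ γ : F, x ≠ o → x ≠ a → x ≠ b → ρ g (w x) = w x + γ • w a := by
    intro x
    by_cases hx : x ≠ o ∧ x ≠ a ∧ x ≠ b
    · obtain ⟨hxo, hxa, hxb⟩ := hx
      have dx : Dist o a x := ⟨ha.symm, fun h => hxa h.symm, fun h => hxo h.symm⟩
      have h1 : ρ g (w x) - w x ∈ X N ρ {o, a, b} :=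
        sub_mem_X (by simp) (by simp) (by simp) d _
      have h2 : ρ g (w x) ∈ X N ρ {o, a, x} := by
        have h3 := map_L H.sys g (hw x hxo).1
        rw [hg, H.sys.m1 d, H.sys.m4 d hxo hxa hxb] at h3
        have dd : Dist a x o := ⟨fun h => hxa h.symm, hxo, ha⟩
        have h4 := H.L_le_X dd h3
        have h5 : ({a, x, o} : Finset Ω) = {o, a, x} := by
          ext y; simp only [Finset.mem_insert, Finset.mem_singleton]; tauto
        rwa [h5] at h4
      have h3 : w x ∈ X N ρ {o, a, x} := by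
        have dd : Dist o x a := ⟨fun h => hxo h.symm, hxa, ha.symm⟩
        have h4 := H.L_le_X dd (hw x hxo).1
        have h5 : ({o, x, a} : Finset Ω) = {o, a, x} := by
          rw [Finset.pair_comm]
        rwa [h5] at h4
      have h4 : ρ g (w x) - w x ∈ L N ρ o a :=
        H.inf_le_L d dx (fun h => hxb h.symm) ⟨h1, Submodule.sub_mem _ h2 h3⟩
      obtain ⟨γ, hγ⟩ := H.mul_of_mem ha.symm (hw a ha).1 (hw a ha).2 h4
      refine ⟨γ, fun _ _ _ => ?_⟩
      rw [← hγ]; abel
    · refine ⟨0, fun h1 h2 h3 => absurd ⟨h1, h2, h3⟩ hx⟩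
  choose γ hγ using e5
  -- the relation
  have hsub : ({a, b} : Finset Ω) ⊆ Finset.univ.erase o := by
    intro x
    simp only [Finset.mem_insert, Finset.mem_singleton, Finset.mem_erase, Finset.mem_univ,
      and_true]
    rintro (rfl | rfl) <;> assumption
  set R := (Finset.univ.erase o) \ ({a, b} : Finset Ω) with hR
  have hRmem : ∀ x, x ∈ R ↔ x ≠ o ∧ x ≠ a ∧ x ≠ b := by
    intro x
    simp [hR]
  let c : Ω → F := fun x => if x = a then β - 1 + ∑ x ∈ R, γ x else if x = b then -β⁻¹ else 1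
  have hca : c a = β - 1 + ∑ x ∈ R, γ x := by simp [c]
  have hcb : c b = -β⁻¹ := by simp [c, hab.symm]
  have hcx : ∀ x, x ∈ R → c x = 1 := by
    intro x hx
    rw [hRmem] at hx
    simp [c, hx.2.1, hx.2.2]
  have hrel : ∑ x ∈ Finset.univ.erase o, c x • w x = 0 := by
    have h1 : ρ g (∑ x ∈ Finset.univ.erase o, w x) = 0 := by rw [hsum, map_zero]
    rw [map_sum, ← Finset.sum_sdiff hsub, ← hR, Finset.sum_pair hab] at h1
    have h2 : ∑ x ∈ R, ρ g (w x) = ∑ x ∈ R, w x + (∑ x ∈ R, γ x) • w a := by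
      rw [Finset.sum_smul, ← Finset.sum_add_distrib]
      apply Finset.sum_congr rfl
      intro x hx
      rw [hRmem] at hx
      exact hγ x hx.1 hx.2.1 hx.2.2
    rw [h2, e4, hβ] at h1
    rw [← Finset.sum_sdiff hsub, ← hR, Finset.sum_pair hab, hca, hcb]
    have h3 : ∑ x ∈ R, c x • w x = ∑ x ∈ R, w x := by
      apply Finset.sum_congr rfl
      intro x hx
      rw [hcx x hx, one_smul]
    rw [h3, ← h1]
    module
  obtain ⟨x0, hx0⟩ := exists_not_mem H.n8 {o, a, b} (Finset.card_le_three.trans (by norm_num))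
  simp only [Finset.mem_insert, Finset.mem_singleton, not_or] at hx0
  have hx0R : x0 ∈ R := (hRmem x0).mpr hx0
  have h1 := H.rel_eq hw hsum hrel hb hx0.1
  have h2 := H.rel_eq hw hsum hrel ha hx0.1
  rw [hcb, hcx x0 hx0R] at h1
  rw [hca, hcx x0 hx0R] at h2
  have hβ1 : β⁻¹ = -1 := by linear_combination -h1
  have hβ2 : β = -1 := by
    have := congrArg (fun t : F => t⁻¹) hβ1
    simpa using this
  refine ⟨γ, ?_, hγ, ?_⟩
  · rw [e4, hβ1]; module
  · rw [hβ2] at h2
    linear_combination h2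

/-- **The contradiction.** -/
theorem Ctx.char [FiniteDimensional F V] (H : Ctx (F := F) (V := V) π N ρ) :
    (Fintype.card Ω : F) = 0 := by
  have n8 := H.n8
  obtain ⟨o, -⟩ := exists_not_mem n8 ∅ (by simp)
  obtain ⟨a, ha⟩ := exists_not_mem n8 {o} (by simp)
  obtain ⟨b, hb⟩ := exists_not_mem n8 {o, a} (Finset.card_le_two.trans (by norm_num))
  simp only [Finset.mem_insert, Finset.mem_singleton, not_or] at ha hb
  obtain ⟨hbo, hba⟩ := hb
  obtain ⟨w, hw, hsum⟩ := H.exists_w o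
  obtain ⟨γ, -, h2, h3⟩ := H.act hw hsum ha hbo (fun h => hba h.symm)
  have h4 : ∀ x, x ≠ o → x ≠ a → x ≠ b → γ x = -1 := by
    intro x hxo hxa hxb
    obtain ⟨γ', h1', -, -⟩ := H.act hw hsum ha hxo (fun h => hxa h.symm)
    have d : Dist o a b := ⟨fun h => ha h.symm, fun h => hba h.symm, fun h => hbo h.symm⟩
    have dx : Dist o a x := ⟨fun h => ha h.symm, fun h => hxa h.symm, fun h => hxo h.symm⟩
    have e1 : w x - w a ∈ L N ρ a x := by
      have := map_L H.sys (N o a x) (hw a ha).1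
      rwa [h1', H.sys.m1 dx, H.sys.m2 dx] at this
    have e2 : w x + γ x • w a ∈ L N ρ a x := by
      have := map_L H.sys (N o a b) (hw x hxo).1
      rwa [h2 x hxo hxa hxb, H.sys.m1 d, H.sys.m4 d hxo hxa hxb] at this
    have e3 : (γ x + 1) • w a ∈ L N ρ a x := by
      have := Submodule.sub_mem _ e2 e1
      have h5 : w x + γ x • w a - (w x - w a) = (γ x + 1) • w a := by module
      rwa [h5] at this
    have e4 : (γ x + 1) • w a ∈ L N ρ o a := Submodule.smul_mem _ _ (hw a ha).1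
    have e5 := H.L_inf dx e4 e3
    rcases smul_eq_zero.mp e5 with h6 | h6
    · linear_combination h6
    · exact absurd h6 (hw a ha).2
  have h5 : ∑ x ∈ (Finset.univ.erase o) \ ({a, b} : Finset Ω), γ x =
      ∑ x ∈ (Finset.univ.erase o) \ ({a, b} : Finset Ω), (-1 : F) := by
    apply Finset.sum_congr rfl
    intro x hx
    simp only [Finset.mem_sdiff, Finset.mem_erase, Finset.mem_univ, and_true, Finset.mem_insert,
      Finset.mem_singleton, not_or] at hx
    exact h4 x hx.1 hx.2.1 hx.2.2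
  have hsub : ({a, b} : Finset Ω) ⊆ Finset.univ.erase o := by
    intro x
    simp only [Finset.mem_insert, Finset.mem_singleton, Finset.mem_erase, Finset.mem_univ,
      and_true]
    rintro (rfl | rfl) <;> assumption
  have h6 : ((Finset.univ.erase o) \ ({a, b} : Finset Ω)).card = Fintype.card Ω - 3 := by
    rw [Finset.card_sdiff_of_subset hsub, Finset.card_erase_of_mem (Finset.mem_univ _),
      Finset.card_univ, Finset.card_pair (fun h => hba h.symm)]
    omega
  rw [h5, Finset.sum_const, h6, nsmul_eq_mul, Nat.cast_sub (by omega)] at h3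
  push_cast at h3
  linear_combination -h3

end

end TransDeg.Cent
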