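import Pool.Agent.TransDeg.CentA

/-!
Existence of the system of lifted 3-cycles.
-/

set_option autoImplicit false
set_option linter.unusedSectionVars false

open Subgroup
open scoped commutatorElement

namespace TransDeg.Cent

section perm

variable {Ω : Type*} [Fintype Ω] [DecidableEq Ω]

/-- the 3-cycle `a → b → c → a` -/
def cyc (a b c : Ω) : Equiv.Perm Ω := Equiv.swap a b * Equiv.swap b c

lemma cyc_a {a b c : Ω} (d : Dist a b c) : cyc a b c a = b := by
  unfold cyc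
  rw [Equiv.Perm.mul_apply, Equiv.swap_apply_of_ne_of_ne d.1 d.2.2, Equiv.swap_apply_left]

lemma cyc_b {a b c : Ω} (d : Dist a b c) : cyc a b c b = c := by
  unfold cyc
  rw [Equiv.Perm.mul_apply, Equiv.swap_apply_left,
    Equiv.swap_apply_of_ne_of_ne d.2.2.symm d.2.1.symm]

lemma cyc_c {a b c : Ω} : cyc a b c c = a := by
  unfold cyc
  rw [Equiv.Perm.mul_apply, Equiv.swap_apply_right, Equiv.swap_apply_right]

lemma cyc_x {a b c x : Ω} (ha : x ≠ a) (hb : x ≠ b) (hc : x ≠ c) : cyc a b c x = x := by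
  unfold cyc
  rw [Equiv.Perm.mul_apply, Equiv.swap_apply_of_ne_of_ne hb hc, Equiv.swap_apply_of_ne_of_ne ha hb]

lemma sign_cyc {a b c : Ω} (d : Dist a b c) : Equiv.Perm.sign (cyc a b c) = 1 := by
  unfold cyc
  rw [Equiv.Perm.sign_mul, Equiv.Perm.sign_swap d.1, Equiv.Perm.sign_swap d.2.1]
  rfl

lemma cyc_cube {a b c : Ω} (d : Dist a b c) : cyc a b c ^ 3 = 1 := by
  ext x
  rw [pow_three', Equiv.Perm.mul_apply, Equiv.Perm.mul_apply, Equiv.Perm.one_apply]
  by_cases ha : x = a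
  · rw [ha, cyc_a d, cyc_b d, cyc_c]
  by_cases hb : x = b
  · rw [hb, cyc_b d, cyc_c, cyc_a d]
  by_cases hc : x = c
  · rw [hc, cyc_c, cyc_a d, cyc_b d]
  rw [cyc_x ha hb hc, cyc_x ha hb hc, cyc_x ha hb hc]

lemma exists_perm {a b c a' b' c' : Ω} (d : Dist a b c) (d' : Dist a' b' c') :
    ∃ g : Equiv.Perm Ω, g a = a' ∧ g b = b' ∧ g c = c' := by
  have h1 : (Equiv.swap a a') a = a' := Equiv.swap_apply_left a a'
  set g1 := Equiv.swap a a'
  set b1 := g1 b with hb1
  have hb1a : b1 ≠ a' := fun e => d.1 (g1.injective (by rw [h1, ← e]))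
  set g2 := Equiv.swap b1 b' with hg2
  have h2 : g2 a' = a' := Equiv.swap_apply_of_ne_of_ne hb1a.symm d'.1
  have h3 : g2 b1 = b' := Equiv.swap_apply_left _ _
  set c1 := g2 (g1 c) with hc1
  have hc1a : c1 ≠ a' := by
    intro e
    have : g2 (g1 c) = g2 (g1 a) := by rw [h1, h2, ← e]
    exact d.2.2 (g1.injective (g2.injective this)).symm
  have hc1b : c1 ≠ b' := by
    intro e
    have : g2 (g1 c) = g2 (g1 b) := by rw [← hb1, h3, ← e]
    exact d.2.1 (g1.injective (g2.injective this)).symm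
  refine ⟨Equiv.swap c1 c' * g2 * g1, ?_, ?_, ?_⟩
  · rw [Equiv.Perm.mul_apply, Equiv.Perm.mul_apply, h1, h2,
      Equiv.swap_apply_of_ne_of_ne hc1a.symm d'.2.2]
  · rw [Equiv.Perm.mul_apply, Equiv.Perm.mul_apply, ← hb1, h3,
      Equiv.swap_apply_of_ne_of_ne hc1b.symm d'.2.1]
  · rw [Equiv.Perm.mul_apply, Equiv.Perm.mul_apply, ← hc1, Equiv.swap_apply_left]

lemma exists_even {a b c a' b' c' p q : Ω} (d : Dist a b c) (d' : Dist a' b' c')
    (hpq : p ≠ q) (hp : p ≠ a ∧ p ≠ b ∧ p ≠ c) (hq : q ≠ a ∧ q ≠ b ∧ q ≠ c) :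
    ∃ g : Equiv.Perm Ω, Equiv.Perm.sign g = 1 ∧ g a = a' ∧ g b = b' ∧ g c = c' := by
  obtain ⟨g, h1, h2, h3⟩ := exists_perm d d'
  rcases Int.units_eq_one_or (Equiv.Perm.sign g) with h | h
  · exact ⟨g, h, h1, h2, h3⟩
  · refine ⟨g * Equiv.swap p q, ?_, ?_, ?_, ?_⟩
    · rw [Equiv.Perm.sign_mul, h, Equiv.Perm.sign_swap hpq]
      rfl
    · rw [Equiv.Perm.mul_apply, Equiv.swap_apply_of_ne_of_ne hp.1.symm hq.1.symm, h1]
    · rw [Equiv.Perm.mul_apply, Equiv.swap_apply_of_ne_of_ne hp.2.1.symm hq.2.1.symm, h2]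
    · rw [Equiv.Perm.mul_apply, Equiv.swap_apply_of_ne_of_ne hp.2.2.symm hq.2.2.symm, h3]

end perm

section

variable {Ω U : Type*} [Fintype Ω] [DecidableEq Ω] [Group U] (π : U →* alternatingGroup Ω)

/-- the action on points -/
abbrev pm : U →* Equiv.Perm Ω := (alternatingGroup Ω).subtype.comp π

variable {π}

lemma exists_lift (hπ : Function.Surjective π) {g : Equiv.Perm Ω} (hg : Equiv.Perm.sign g = 1) :
    ∃ u, pm π u = g := by
  obtain ⟨u, hu⟩ := hπ ⟨g, hg⟩
  exact ⟨u, by show ((π u : alternatingGroup Ω) : Equiv.Perm Ω) = g; rw [hu]⟩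

lemma central_of_pm (hker : π.ker ≤ center U) {u : U} (hu : pm π u = 1) (w : U) :
    w * u = u * w := by
  have h1 : u ∈ π.ker := by
    rw [MonoidHom.mem_ker]
    exact Subtype.ext hu
  exact mem_center_iff.mp (hker h1) w

/-- homomorphisms from the alternating group to central elements are trivial -/
lemma hom_trivial {A : Type*} [Group A] {R : Type*} [Fintype R] [DecidableEq R]
    (h5 : 5 ≤ Fintype.card R) (φ : alternatingGroup R →* A)
    (hφ : ∀ x y, φ x * φ y = φ y * φ x) (x : alternatingGroup R) : φ x = 1 := by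
  have h5' : 5 ≤ Nat.card R := by rw [Nat.card_eq_fintype_card]; exact h5
  have hs : IsSimpleGroup (alternatingGroup R) := alternatingGroup.isSimpleGroup h5'
  rcases (inferInstance : φ.ker.Normal).eq_bot_or_eq_top with h | h
  · exfalso
    have hinj : Function.Injective φ := (MonoidHom.ker_eq_bot_iff φ).mp h
    have hc := alternatingGroup.center_eq_bot (α := R) (by omega)
    obtain ⟨a, ha⟩ := exists_ne (1 : alternatingGroup R)
    have h2 : a ∈ center (alternatingGroup R) := by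
      rw [mem_center_iff]
      intro g
      apply hinj
      rw [map_mul, map_mul, hφ]
    rw [hc, mem_bot] at h2
    exact ha h2
  · rw [← MonoidHom.mem_ker, h]
    exact mem_top x

lemma comm_triv (hπ : Function.Surjective π) (hker : π.ker ≤ center U) {a b c : Ω}
    (d : Dist a b c) (h8 : 8 ≤ Fintype.card Ω) {m : U} (hm : pm π m = cyc a b c) {k : U}
    (ha : pm π k a = a) (hb : pm π k b = b) (hc : pm π k c = c) : k * m = m * k := by
  classical
  set R : Finset Ω := ({a, b, c} : Finset Ω)ᶜ with hR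
  have hRcard : R.card = Fintype.card Ω - 3 := by
    rw [hR, Finset.card_compl, Finset.card_eq_three.mpr ⟨a, b, c, d.1, d.2.2, d.2.1, rfl⟩]
  have h5 : 5 ≤ Fintype.card R := by
    rw [Fintype.card_coe, hRcard]; omega
  choose f hf using fun p : alternatingGroup R => hπ (alternatingGroup.ofSubtype R p)
  -- elements over `R` commute with `m` modulo the centre
  have hfix : ∀ p : alternatingGroup R, ∀ x, x ∉ R → pm π (f p) x = x := by
    intro p x hx
    show ((π (f p) : alternatingGroup Ω) : Equiv.Perm Ω) x = x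
    rw [hf, alternatingGroup.coe_ofSubtype]
    exact Equiv.Perm.ofSubtype_apply_of_not_mem _ hx
  have hab : a ∉ R ∧ b ∉ R ∧ c ∉ R := by
    simp [hR]
  have hcomm : ∀ k : U, pm π k a = a → pm π k b = b → pm π k c = c →
      pm π (k * m * k⁻¹ * m⁻¹) = 1 := by
    intro k ha hb hc
    have h1 : pm π k * cyc a b c = cyc a b c * pm π k := by
      ext x
      rw [Equiv.Perm.mul_apply, Equiv.Perm.mul_apply]
      by_cases hxa : x = a
      · rw [hxa, ha, cyc_a d, hb]
      by_cases hxb : x = b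
      · rw [hxb, hb, cyc_b d, hc]
      by_cases hxc : x = c
      · rw [hxc, hc, cyc_c, ha]
      rw [cyc_x hxa hxb hxc, cyc_x]
      · intro e; exact hxa ((pm π k).injective (by rw [e, ha]))
      · intro e; exact hxb ((pm π k).injective (by rw [e, hb]))
      · intro e; exact hxc ((pm π k).injective (by rw [e, hc]))
    rw [map_mul, map_mul, map_mul, map_inv, map_inv, hm, h1]
    group
  have hcen : ∀ p, ∀ w, w * (f p * m * (f p)⁻¹ * m⁻¹) = (f p * m * (f p)⁻¹ * m⁻¹) * w := by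
    intro p w
    exact central_of_pm hker (hcomm (f p) (hfix p a hab.1) (hfix p b hab.2.1)
      (hfix p c hab.2.2)) w
  have hkey : ∀ (k k' : U), pm π k = pm π k' → k * m * k⁻¹ * m⁻¹ = k' * m * k'⁻¹ * m⁻¹ := by
    intro k k' h
    have h1 : pm π (k'⁻¹ * k) = 1 := by rw [map_mul, map_inv, h, inv_mul_cancel]
    have h2 := central_of_pm hker h1 m
    have h3 : k * m * k⁻¹ = k' * m * k'⁻¹ := by
      have e : k = k' * (k'⁻¹ * k) := by group
      calc k * m * k⁻¹ = k' * ((k'⁻¹ * k) * m) * (k'⁻¹ * k)⁻¹ * k'⁻¹ := by group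
        _ = k' * (m * (k'⁻¹ * k)) * (k'⁻¹ * k)⁻¹ * k'⁻¹ := by rw [h2]
        _ = k' * m * k'⁻¹ := by group
    rw [h3]
  let φ : alternatingGroup R →* U :=
    MonoidHom.mk' (fun p => f p * m * (f p)⁻¹ * m⁻¹) (by
      intro p q
      have h1 : pm π (f (p * q)) = pm π (f p * f q) := by
        show ((π (f (p * q)) : alternatingGroup Ω) : Equiv.Perm Ω) =
          ((π (f p * f q) : alternatingGroup Ω) : Equiv.Perm Ω)
        rw [hf, map_mul, map_mul, hf, hf]
      rw [hkey _ _ h1]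
      have h2 := hcen q (f p)
      calc f p * f q * m * (f p * f q)⁻¹ * m⁻¹
          = f p * (f q * m * (f q)⁻¹ * m⁻¹) * (m * (f p)⁻¹ * m⁻¹) := by group
        _ = (f q * m * (f q)⁻¹ * m⁻¹) * f p * (m * (f p)⁻¹ * m⁻¹) := by rw [h2]
        _ = (f q * m * (f q)⁻¹ * m⁻¹) * (f p * m * (f p)⁻¹ * m⁻¹) := by group
        _ = (f p * m * (f p)⁻¹ * m⁻¹) * (f q * m * (f q)⁻¹ * m⁻¹) := by
            rw [hcen p (f q * m * (f q)⁻¹ * m⁻¹)])
  have hφ := hom_trivial h5 φ (fun x y => hcen y (φ x))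
  -- `k` lies over `R`
  have hk : (π k) ∈ (alternatingGroup.ofSubtype R).range := by
    rw [alternatingGroup.mem_range_ofSubtype_iff]
    intro x hx
    rw [Equiv.Perm.mem_support] at hx
    rw [hR, Finset.mem_compl]
    simp only [Finset.mem_insert, Finset.mem_singleton, not_or]
    refine ⟨?_, ?_, ?_⟩
    · rintro rfl; exact hx ha
    · rintro rfl; exact hx hb
    · rintro rfl; exact hx hc
  obtain ⟨p, hp⟩ := hk
  have h1 : pm π k = pm π (f p) := by
    show ((π k : alternatingGroup Ω) : Equiv.Perm Ω) =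
          ((π (f p) : alternatingGroup Ω) : Equiv.Perm Ω)
    rw [hf, hp]
  have h2 : k * m * k⁻¹ * m⁻¹ = 1 := by
    rw [hkey _ _ h1]
    exact hφ p
  calc k * m = (k * m * k⁻¹ * m⁻¹) * m * k := by group
    _ = m * k := by rw [h2, one_mul]

theorem exists_sys (hπ : Function.Surjective π) (hker : π.ker ≤ center U)
    (h8 : 8 ≤ Fintype.card Ω) : ∃ N : Ω → Ω → Ω → U, Sys (pm π) N := by
  classical
  have hex : ∀ T : Finset Ω, T.card ≤ 7 → ∃ x, x ∉ T := by
    intro T hT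
    by_contra hcon
    push Not at hcon
    have h4 : (Finset.univ : Finset Ω) ⊆ T := fun z _ => hcon z
    have h5 := Finset.card_le_card h4
    rw [Finset.card_univ] at h5
    omega
  obtain ⟨a0, -⟩ := hex ∅ (by simp)
  obtain ⟨b0, hb0⟩ := hex {a0} (by simp)
  obtain ⟨c0, hc0⟩ := hex {a0, b0} (Finset.card_le_two.trans (by norm_num))
  obtain ⟨p0, hp0⟩ := hex {a0, b0, c0} (Finset.card_le_three.trans (by norm_num))
  obtain ⟨q0, hq0⟩ := hex {a0, b0, c0, p0} (Finset.card_le_four.trans (by norm_num))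
  simp only [Finset.mem_insert, Finset.mem_singleton, not_or] at hb0 hc0 hp0 hq0
  have d0 : Dist a0 b0 c0 := ⟨fun e => hb0 e.symm, fun e => hc0.2 e.symm, fun e => hc0.1 e.symm⟩
  have hpq : p0 ≠ q0 := fun e => hq0.2.2.2 e.symm
  -- the base elements
  obtain ⟨s, hs⟩ := exists_lift hπ (sign_cyc d0)
  obtain ⟨t, ht⟩ := exists_lift hπ (g := Equiv.swap a0 b0 * Equiv.swap p0 q0) (by
    rw [Equiv.Perm.sign_mul, Equiv.Perm.sign_swap d0.1, Equiv.Perm.sign_swap hpq]; rfl)
  have hta : pm π t a0 = b0 := by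
    rw [ht, Equiv.Perm.mul_apply, Equiv.swap_apply_of_ne_of_ne (fun e => hp0.1 e.symm)
      (fun e => hq0.1 e.symm), Equiv.swap_apply_left]
  have htb : pm π t b0 = a0 := by
    rw [ht, Equiv.Perm.mul_apply, Equiv.swap_apply_of_ne_of_ne (fun e => hp0.2.1 e.symm)
      (fun e => hq0.2.1 e.symm), Equiv.swap_apply_right]
  have htc : pm π t c0 = c0 := by
    rw [ht, Equiv.Perm.mul_apply, Equiv.swap_apply_of_ne_of_ne (fun e => hp0.2.2 e.symm)
      (fun e => hq0.2.2.1 e.symm), Equiv.swap_apply_of_ne_of_ne d0.2.2.symm d0.2.1.symm]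
  have hinvp : pm π (t * s * t⁻¹ * s) = 1 := by
    have h1 : pm π t * cyc a0 b0 c0 = (cyc a0 b0 c0)⁻¹ * pm π t := by
      ext x
      rw [Equiv.Perm.mul_apply, Equiv.Perm.mul_apply, eq_comm, Equiv.Perm.inv_eq_iff_eq]
      by_cases hxa : x = a0
      · rw [hxa, hta, cyc_a d0, htb, cyc_a d0]
      by_cases hxb : x = b0
      · rw [hxb, htb, cyc_b d0, htc, cyc_c]
      by_cases hxc : x = c0
      · rw [hxc, htc, cyc_c, hta, cyc_b d0]
      rw [cyc_x hxa hxb hxc, cyc_x]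
      · intro e; exact hxb ((pm π t).injective (by rw [e, htb]))
      · intro e; exact hxa ((pm π t).injective (by rw [e, hta]))
      · intro e; exact hxc ((pm π t).injective (by rw [e, htc]))
    rw [map_mul, map_mul, map_mul, map_inv, hs, h1]
    group
  set y := t * s * t⁻¹ * s with hy
  have hyc : ∀ w, w * y = y * w := fun w => central_of_pm hker hinvp w
  set M := s * s * y⁻¹ with hM
  have hyc' : ∀ w, w * y⁻¹ = y⁻¹ * w := by
    intro w
    have := hyc w
    calc w * y⁻¹ = y⁻¹ * (y * w) * y⁻¹ := by group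
      _ = y⁻¹ * (w * y) * y⁻¹ := by rw [this]
      _ = y⁻¹ * w := by group
  have htst : t * s * t⁻¹ = y * s⁻¹ := by rw [hy]; group
  have htM : t * M * t⁻¹ = M⁻¹ := by
    calc t * M * t⁻¹ = (t * s * t⁻¹) * (t * s * t⁻¹) * (t * y⁻¹) * t⁻¹ := by rw [hM]; group
      _ = (y * s⁻¹) * (y * s⁻¹) * (y⁻¹ * t) * t⁻¹ := by rw [htst, hyc']
      _ = y * (s⁻¹ * y) * (s⁻¹ * y⁻¹) := by group
      _ = y * (y * s⁻¹) * (y⁻¹ * s⁻¹) := by rw [hyc, hyc']
      _ = y * (y * (s⁻¹ * y⁻¹)) * s⁻¹ := by group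
      _ = y * (y * (y⁻¹ * s⁻¹)) * s⁻¹ := by rw [hyc']
      _ = M⁻¹ := by rw [hM]; group
  have hpmM : pm π M = cyc a0 b0 c0 * cyc a0 b0 c0 := by
    rw [hM, map_mul, map_mul, map_inv, hinvp, hs, inv_one, mul_one]
  have hM3 : ∀ w, w * M ^ 3 = M ^ 3 * w := by
    intro w
    apply central_of_pm hker
    rw [map_pow, hpmM]
    calc (cyc a0 b0 c0 * cyc a0 b0 c0) ^ 3 = (cyc a0 b0 c0 ^ 3) * (cyc a0 b0 c0 ^ 3) := by
          rw [← pow_two, ← pow_mul, ← pow_add]
      _ = 1 := by rw [cyc_cube d0, mul_one]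
  have hM6 : M ^ 6 = 1 := by
    have h1 : t * M ^ 3 * t⁻¹ = (M ^ 3)⁻¹ := by
      have : t * M ^ 3 * t⁻¹ = (t * M * t⁻¹) ^ 3 := conj_pow.symm
      rw [this, htM, inv_pow]
    rw [hM3 t, mul_assoc, mul_inv_cancel, mul_one] at h1
    calc M ^ 6 = M ^ 3 * M ^ 3 := by rw [← pow_add]
      _ = (M ^ 3)⁻¹ * M ^ 3 := by rw [← h1]
      _ = 1 := inv_mul_cancel _
  set N0 := M ^ 2 with hN0
  have hN3 : N0 ^ 3 = 1 := by rw [hN0, ← pow_mul]; exact hM6
  have htN : t * N0 * t⁻¹ = N0⁻¹ := by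
    have : t * M ^ 2 * t⁻¹ = (t * M * t⁻¹) ^ 2 := conj_pow.symm
    rw [hN0, this, htM, inv_pow]
  have hpmN : pm π N0 = cyc a0 b0 c0 := by
    rw [hN0, map_pow, hpmM]
    calc (cyc a0 b0 c0 * cyc a0 b0 c0) ^ 2 = (cyc a0 b0 c0 ^ 3) * cyc a0 b0 c0 := by
          rw [← pow_two, ← pow_mul, ← pow_succ]
      _ = cyc a0 b0 c0 := by rw [cyc_cube d0, one_mul]
  have hfixN : ∀ k : U, pm π k a0 = a0 → pm π k b0 = b0 → pm π k c0 = c0 → k * N0 = N0 * k :=
    fun k ha hb hc => comm_triv hπ hker d0 h8 hpmN ha hb hc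
  -- transitivity
  have htr : ∀ a b c a' b' c' : Ω, Dist a b c → Dist a' b' c' →
      ∃ u, pm π u a = a' ∧ pm π u b = b' ∧ pm π u c = c' := by
    intro a b c a' b' c' d d'
    obtain ⟨p, hp⟩ := hex {a, b, c} (Finset.card_le_three.trans (by norm_num))
    obtain ⟨q, hq⟩ := hex {a, b, c, p} (Finset.card_le_four.trans (by norm_num))
    simp only [Finset.mem_insert, Finset.mem_singleton, not_or] at hp hq
    obtain ⟨g, h1, h2, h3, h4⟩ := exists_even d d' (p := p) (q := q)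
      (fun e => hq.2.2.2 e.symm) hp ⟨hq.1, hq.2.1, hq.2.2.1⟩
    obtain ⟨u, hu⟩ := exists_lift hπ h1
    exact ⟨u, by rw [hu, h2], by rw [hu, h3], by rw [hu, h4]⟩
  have hch : ∀ a b c : Ω, ∃ u : U, Dist a b c → pm π u a0 = a ∧ pm π u b0 = b ∧ pm π u c0 = c := by
    intro a b c
    by_cases d : Dist a b c
    · obtain ⟨u, hu⟩ := htr a0 b0 c0 a b c d0 d
      exact ⟨u, fun _ => hu⟩
    · exact ⟨1, fun h => absurd h d⟩
  choose u hu using hch
  have hwd : ∀ w w' : U, pm π w a0 = pm π w' a0 → pm π w b0 = pm π w' b0 →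
      pm π w c0 = pm π w' c0 → w * N0 * w⁻¹ = w' * N0 * w'⁻¹ := by
    intro w w' h1 h2 h3
    have h4 := hfixN (w'⁻¹ * w) (by rw [map_mul, Equiv.Perm.mul_apply, h1, map_inv]; simp)
      (by rw [map_mul, Equiv.Perm.mul_apply, h2, map_inv]; simp)
      (by rw [map_mul, Equiv.Perm.mul_apply, h3, map_inv]; simp)
    calc w * N0 * w⁻¹ = w' * ((w'⁻¹ * w) * N0) * (w'⁻¹ * w)⁻¹ * w'⁻¹ := by group
      _ = w' * (N0 * (w'⁻¹ * w)) * (w'⁻¹ * w)⁻¹ * w'⁻¹ := by rw [h4]
      _ = w' * N0 * w'⁻¹ := by group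
  refine ⟨fun a b c => u a b c * N0 * (u a b c)⁻¹, ?_⟩
  have happ : ∀ {a b c : Ω} (_ : Dist a b c) (x : Ω),
      pm π (u a b c * N0 * (u a b c)⁻¹) (pm π (u a b c) x) = pm π (u a b c) (cyc a0 b0 c0 x) := by
    intro a b c d x
    rw [map_mul, map_mul, map_inv, hpmN]
    simp
  constructor
  · intro a b c d
    have h := happ d a0
    rw [(hu a b c d).1, cyc_a d0, (hu a b c d).2.1] at h
    exact h
  · intro a b c d
    have h := happ d b0
    rw [(hu a b c d).2.1, cyc_b d0, (hu a b c d).2.2] at h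
    exact h
  · intro a b c d
    have h := happ d c0
    rw [(hu a b c d).2.2, cyc_c, (hu a b c d).1] at h
    exact h
  · intro a b c x d hxa hxb hxc
    have h := happ d ((pm π (u a b c)).symm x)
    have h1 : pm π (u a b c) ((pm π (u a b c)).symm x) = x := Equiv.apply_symm_apply _ _
    rw [h1, cyc_x, h1] at h
    · exact h
    · intro e; rw [Equiv.symm_apply_eq, (hu a b c d).1] at e; exact hxa e
    · intro e; rw [Equiv.symm_apply_eq, (hu a b c d).2.1] at e; exact hxb e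
    · intro e; rw [Equiv.symm_apply_eq, (hu a b c d).2.2] at e; exact hxc e
  · intro a b c d
    show (u a b c * N0 * (u a b c)⁻¹) ^ 3 = 1
    rw [conj_pow, hN3]
    group
  · intro a b c w d
    show w * (u a b c * N0 * (u a b c)⁻¹) * w⁻¹ = _
    have h1 := hu a b c d
    have h2 := hu _ _ _ (d.map (pm π w))
    have h3 := hwd (w * u a b c) (u (pm π w a) (pm π w b) (pm π w c))
      (by rw [h2.1, map_mul, Equiv.Perm.mul_apply, h1.1])
      (by rw [h2.2.1, map_mul, Equiv.Perm.mul_apply, h1.2.1])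
      (by rw [h2.2.2, map_mul, Equiv.Perm.mul_apply, h1.2.2])
    rw [← h3]
    group
  · intro a b c d
    have h1 := hu a b c d
    have h2 := hu b a c d.swap
    have h3 := hwd (u b a c) (u a b c * t)
      (by rw [h2.1, map_mul, Equiv.Perm.mul_apply, hta, h1.2.1])
      (by rw [h2.2.1, map_mul, Equiv.Perm.mul_apply, htb, h1.1])
      (by rw [h2.2.2, map_mul, Equiv.Perm.mul_apply, htc, h1.2.2])
    show u b a c * N0 * (u b a c)⁻¹ = (u a b c * N0 * (u a b c)⁻¹)⁻¹
    rw [h3]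
    calc u a b c * t * N0 * (u a b c * t)⁻¹ = u a b c * (t * N0 * t⁻¹) * (u a b c)⁻¹ := by group
      _ = _ := by rw [htN]; group
  · intro a b c a' b' c' d d'
    exact htr a b c a' b' c' d d'

end

end TransDeg.Cent
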