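import Pool.Agent.TransDeg.Red1

/-!
Simultaneous weight spaces of commuting operators of finite order.
-/

open Subgroup
open scoped commutatorElement

namespace TransDeg.Red

section Lin

variable {F V U : Type*} [Field F] [AddCommGroup V] [Module F V] [Group U]

/-- the weight space of a family of group elements for the weight `χ` -/
def wt (ρ : U →* (V →ₗ[F] V)) (S : Subgroup U) (χ : S → F) : Submodule F V :=
  ⨅ a : S, Module.End.eigenspace (ρ (a : U)) (χ a)

lemma mem_wt {ρ : U →* (V →ₗ[F] V)} {S : Subgroup U} {χ : S → F} {v : V} :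
    v ∈ wt ρ S χ ↔ ∀ a : S, ρ (a : U) v = χ a • v := by
  simp [wt, Module.End.mem_eigenspace_iff]

lemma maxGen_eq (f : V →ₗ[F] V) (n : ℕ) (hn : (n : F) ≠ 0) (hf : f ^ n = 1) (μ : F) :
    Module.End.maxGenEigenspace f μ = Module.End.eigenspace f μ := by
  have h1 : Module.End.IsSemisimple f := by
    apply Module.End.isSemisimple_of_squarefree_aeval_eq_zero (p := Polynomial.X ^ n - 1)
    · exact (Polynomial.X_pow_sub_one_separable_iff.mpr hn).squarefree
    · simp [hf]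
  exact h1.isFinitelySemisimple.maxGenEigenspace_eq_eigenspace μ

variable [Finite U]

lemma rho_pow (ρ : U →* (V →ₗ[F] V)) (a : U) : ρ a ^ Nat.card U = 1 := by
  rw [← map_pow, pow_card_eq_one', map_one]

lemma wt_eq_maxGen (hU : (Nat.card U : F) ≠ 0) (ρ : U →* (V →ₗ[F] V)) (S : Subgroup U)
    (χ : S → F) : wt ρ S χ = ⨅ a : S, Module.End.maxGenEigenspace (ρ (a : U)) (χ a) := by
  unfold wt
  congr 1
  funext a
  rw [maxGen_eq _ _ hU (rho_pow ρ _)]

lemma indep_wt (hU : (Nat.card U : F) ≠ 0) (ρ : U →* (V →ₗ[F] V)) (S : Subgroup U)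
    (hS : ∀ a ∈ S, ∀ b ∈ S, a * b = b * a) : iSupIndep (wt ρ S) := by
  have h := Module.End.independent_iInf_maxGenEigenspace_of_forall_mapsTo
    (fun a : S => ρ (a : U)) (fun i j φ => Module.End.mapsTo_maxGenEigenspace_of_comm
      (by show ρ _ * ρ _ = ρ _ * ρ _; rw [← map_mul, ← map_mul, hS _ j.2 _ i.2]) φ)
  have : wt ρ S = fun χ : S → F => ⨅ a : S, Module.End.maxGenEigenspace (ρ (a : U)) (χ a) := by
    funext χ
    exact wt_eq_maxGen hU ρ S χ
  rw [this]
  exact h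

lemma iSup_wt [IsAlgClosed F] [FiniteDimensional F V] (hU : (Nat.card U : F) ≠ 0)
    (ρ : U →* (V →ₗ[F] V)) (S : Subgroup U)
    (hS : ∀ a ∈ S, ∀ b ∈ S, a * b = b * a) : ⨆ χ, wt ρ S χ = ⊤ := by
  have h := Module.End.iSup_iInf_maxGenEigenspace_eq_top_of_forall_mapsTo
    (fun a : S => ρ (a : U)) (fun i j φ => Module.End.mapsTo_maxGenEigenspace_of_comm
      (by show ρ _ * ρ _ = ρ _ * ρ _; rw [← map_mul, ← map_mul, hS _ j.2 _ i.2]) φ)
      (fun i => Module.End.iSup_maxGenEigenspace_eq_top _)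
  have : wt ρ S = fun χ : S → F => ⨅ a : S, Module.End.maxGenEigenspace (ρ (a : U)) (χ a) := by
    funext χ
    exact wt_eq_maxGen hU ρ S χ
  rw [this]
  exact h

lemma finite_wts [FiniteDimensional F V] (hU : (Nat.card U : F) ≠ 0) (ρ : U →* (V →ₗ[F] V))
    (S : Subgroup U) (hS : ∀ a ∈ S, ∀ b ∈ S, a * b = b * a) :
    Finite {χ : S → F // wt ρ S χ ≠ ⊥} ∧
      Nat.card {χ : S → F // wt ρ S χ ≠ ⊥} ≤ Module.finrank F V := by
  have h := indep_wt hU ρ S hS
  have hfin : Finite {χ : S → F // wt ρ S χ ≠ ⊥} := by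
    have := WellFoundedGT.finite_ne_bot_of_iSupIndep h
    exact this
  haveI := Fintype.ofFinite {χ : S → F // wt ρ S χ ≠ ⊥}
  refine ⟨hfin, ?_⟩
  rw [Nat.card_eq_fintype_card]
  exact h.subtype_ne_bot_le_finrank

/-- two operators which agree on all weight spaces agree -/
lemma ext_wt [IsAlgClosed F] [FiniteDimensional F V] (hU : (Nat.card U : F) ≠ 0)
    (ρ : U →* (V →ₗ[F] V)) (S : Subgroup U)
    (hS : ∀ a ∈ S, ∀ b ∈ S, a * b = b * a) {f g : V →ₗ[F] V}
    (h : ∀ χ, wt ρ S χ ≠ ⊥ → ∀ v ∈ wt ρ S χ, f v = g v) : f = g := by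
  have h1 : (⊤ : Submodule F V) ≤ LinearMap.eqLocus f g := by
    rw [← iSup_wt hU ρ S hS]
    refine iSup_le fun χ => ?_
    by_cases h2 : wt ρ S χ = ⊥
    · rw [h2]; exact bot_le
    · intro v hv
      exact h χ h2 v hv
  apply LinearMap.ext
  intro v
  exact h1 (Submodule.mem_top)

end Lin

end TransDeg.Red
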