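import Pool.Agent.TransDeg.CentB
import Pool.Agent.TransDeg.CentE
import Pool.Agent.TransDeg.Red2

/-!
Joint eigenvectors; disjoint 3-cycles in degree 9.
-/

set_option autoImplicit false
set_option linter.unusedSectionVars false

open Subgroup Module
open scoped commutatorElement

namespace TransDeg.Cent

section

variable {F V U : Type*} [Field F] [AddCommGroup V] [Module F V] [Group U]

/-- the number of joint eigenvalue systems is at most the dimension -/
theorem weights_card [FiniteDimensional F V] {ι : Type*} [Fintype ι] (f : ι → V →ₗ[F] V)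
    (hf : ∀ i j, f i * f j = f j * f i) (T : Finset (ι → F))
    (hT : ∀ χ ∈ T, ∃ v : V, v ≠ 0 ∧ ∀ i, f i v = χ i • v) : T.card ≤ finrank F V := by
  have h := Module.End.independent_iInf_maxGenEigenspace_of_forall_mapsTo f
    (fun i j φ => Module.End.mapsTo_maxGenEigenspace_of_comm (hf j i) φ)
  have h2 : iSupIndep fun χ : T => ⨅ i, Module.End.maxGenEigenspace (f i) ((χ : ι → F) i) :=
    h.comp Subtype.val_injective
  choose v hv0 hv using fun χ : T => hT χ χ.2
  have h3 : LinearIndependent F v := by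
    refine h2.linearIndependent _ (fun χ => ?_) hv0
    rw [Submodule.mem_iInf]
    intro i
    have h4 : v χ ∈ Module.End.eigenspace (f i) ((χ : ι → F) i) := by
      rw [Module.End.mem_eigenspace_iff]
      exact hv χ i
    exact Module.End.eigenspace_le_maxGenEigenspace h4
  have h4 := h3.fintype_card_le_finrank
  rwa [Fintype.card_coe] at h4

lemma closure_comm {K : Set U} (hK : ∀ a ∈ K, ∀ b ∈ K, a * b = b * a) :
    ∀ a ∈ closure K, ∀ b ∈ closure K, a * b = b * a := by
  have h1 : closure K ≤ centralizer K := by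
    rw [closure_le]
    intro a ha
    rw [SetLike.mem_coe, mem_centralizer_iff]
    intro b hb
    exact hK b hb a ha
  have h2 : K ⊆ centralizer (closure K : Set U) := by
    intro b hb
    rw [SetLike.mem_coe, mem_centralizer_iff]
    intro a ha
    exact ((mem_centralizer_iff.mp (h1 ha)) b hb).symm
  intro a ha b hb
  have h3 : closure K ≤ centralizer (closure K : Set U) := (closure_le _).mpr h2
  exact (mem_centralizer_iff.mp (h3 hb)) a ha

/-- a nonzero operator is nonzero on some joint eigenvector -/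
theorem exists_joint [IsAlgClosed F] [FiniteDimensional F V] [Finite U]
    (hU : (Nat.card U : F) ≠ 0) (ρ : U →* (V →ₗ[F] V)) {ι : Type*} (g : ι → U)
    (hg : ∀ i j, g i * g j = g j * g i) {f : V →ₗ[F] V} (hf : f ≠ 0) :
    ∃ (v : V) (χ : ι → F), (∀ i, ρ (g i) v = χ i • v) ∧ f v ≠ 0 := by
  by_contra hcon
  push Not at hcon
  apply hf
  have hc := closure_comm (K := Set.range g) (by
    rintro _ ⟨i, rfl⟩ _ ⟨j, rfl⟩
    exact hg i j)
  apply TransDeg.Red.ext_wt hU ρ (closure (Set.range g)) hc
  intro χ _ v hv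
  rw [TransDeg.Red.mem_wt] at hv
  have h1 := hcon v (fun i => χ ⟨g i, subset_closure ⟨i, rfl⟩⟩)
    (fun i => hv ⟨g i, subset_closure ⟨i, rfl⟩⟩)
  rw [h1]; rfl

end

/-! ### the orbits of sign patterns -/

/-- the three operations on eigenvalue exponents -/
def op (i : Fin 3) (p : ZMod 3 × ZMod 3 × ZMod 3) : ZMod 3 × ZMod 3 × ZMod 3 :=
  match i with
  | 0 => (-p.1, -p.2.1, p.2.2)
  | 1 => (p.2.1, p.1, -p.2.2)
  | 2 => (p.2.2, p.1, p.2.1)

/-- partial orbits -/
def orb : ℕ → ZMod 3 × ZMod 3 × ZMod 3 → Finset (ZMod 3 × ZMod 3 × ZMod 3)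
  | 0, p => {p}
  | n + 1, p => orb n p ∪ Finset.univ.biUnion (fun i => (orb n p).image (op i))

lemma orb_closed {E : ZMod 3 × ZMod 3 × ZMod 3 → Prop} (hE : ∀ i p, E p → E (op i p)) (n : ℕ)
    {p : ZMod 3 × ZMod 3 × ZMod 3} (hp : E p) : ∀ q ∈ orb n p, E q := by
  induction n with
  | zero =>
    intro q hq
    have : q = p := by simpa [orb] using hq
    rw [this]; exact hp
  | succ n ih =>
    intro q hq
    have h : q ∈ orb n p ∨ ∃ i, ∃ r ∈ orb n p, op i r = q := by
      simpa [orb] using hq
    rcases h with h | ⟨i, r, hr, rfl⟩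
    · exact ih q h
    · exact hE i r (ih r hr)

set_option maxRecDepth 100000 in
lemma orb_card : ∀ i j k : ZMod 3, i ≠ 0 → j ≠ 0 → 8 ≤ (orb 4 (i, j, k)).card := by
  decide

end TransDeg.Cent
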