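import Pool.Agent.TransDeg.CentD
import Pool.Agent.TransDeg.Nine
import Pool.Agent.TransDeg.Cent8

/-!
From disjoint 3-cycles to the dimension bound.
-/

set_option autoImplicit false
set_option linter.unusedSectionVars false

open Subgroup Module
open scoped commutatorElement

namespace TransDeg.Cent

section

variable {F V U : Type*} [Field F] [AddCommGroup V] [Module F V] [Group U]

lemma lift6 {n : ℕ} (hn : 8 ≤ n) {π : U →* alternatingGroup (Fin n)}
    (hπ : Function.Surjective π) (x y : Fin 6 ↪ Fin n) : ∃ u, ∀ i, pm π u (x i) = y i := by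
  have h1 := alternatingGroup.isMultiplyPretransitive (Fin n)
  have h2 : MulAction.IsMultiplyPretransitive (alternatingGroup (Fin n)) (Fin n) 6 := by
    apply MulAction.isMultiplyPretransitive_of_le (n := Nat.card (Fin n) - 2)
    · simp; omega
    · simp
  obtain ⟨g, hg⟩ := MulAction.IsPretransitive.exists_smul_eq (M := alternatingGroup (Fin n)) x y
  obtain ⟨u, hu⟩ := hπ g
  refine ⟨u, fun i => ?_⟩
  rw [← hg]
  show ((π u : alternatingGroup (Fin n)) : Equiv.Perm (Fin n)) (x i) = _
  rw [hu]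
  rfl

/-- six distinct points as an embedding -/
lemma emb6 {Ω : Type*} [DecidableEq Ω] {a b c d e f : Ω} (h1 : Dist a b c) (h2 : Dist d e f)
    (h : Disjoint ({a, b, c} : Finset Ω) {d, e, f}) :
    ∃ x : Fin 6 ↪ Ω, x 0 = a ∧ x 1 = b ∧ x 2 = c ∧ x 3 = d ∧ x 4 = e ∧ x 5 = f := by
  have hd : ∀ x ∈ ({a, b, c} : Finset Ω), ∀ y ∈ ({d, e, f} : Finset Ω), x ≠ y := by
    intro x hx y hy e
    subst e
    exact Finset.disjoint_left.mp h hx hy
  have q1 := hd a (by simp) d (by simp)
  have q2 := hd a (by simp) e (by simp)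
  have q3 := hd a (by simp) f (by simp)
  have q4 := hd b (by simp) d (by simp)
  have q5 := hd b (by simp) e (by simp)
  have q6 := hd b (by simp) f (by simp)
  have q7 := hd c (by simp) d (by simp)
  have q8 := hd c (by simp) e (by simp)
  have q9 := hd c (by simp) f (by simp)
  obtain ⟨w1, w2, w3⟩ := h1
  obtain ⟨w4, w5, w6⟩ := h2
  refine ⟨⟨![a, b, c, d, e, f], ?_⟩, rfl, rfl, rfl, rfl, rfl, rfl⟩
  intro i j hij
  fin_cases i <;> fin_cases j <;>
    first
      | rfl
      | (exfalso; revert hij; simp; (try tauto); done)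
      | (exfalso; simp at hij; (first | exact absurd hij (by assumption) | exact absurd hij.symm (by assumption)))

/-- the disjoint triples relation, moved around -/
lemma s2_move {n : ℕ} (hn : 8 ≤ n) {π : U →* alternatingGroup (Fin n)}
    (hπ : Function.Surjective π) {N : Fin n → Fin n → Fin n → U} (hN : Sys (pm π) N)
    (ρ : U →* (V →ₗ[F] V)) {a b c d e f : Fin n} (h1 : Dist a b c) (h2 : Dist d e f)
    (h : Disjoint ({a, b, c} : Finset (Fin n)) {d, e, f})
    (hs : ∀ v, ρ (N a b c) (ρ (N d e f) v - v) = ρ (N d e f) v - v)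
    {a' b' c' d' e' f' : Fin n} (h1' : Dist a' b' c') (h2' : Dist d' e' f')
    (h' : Disjoint ({a', b', c'} : Finset (Fin n)) {d', e', f'}) (v : V) :
    ρ (N a' b' c') (ρ (N d' e' f') v - v) = ρ (N d' e' f') v - v := by
  obtain ⟨x, x0, x1, x2, x3, x4, x5⟩ := emb6 h1 h2 h
  obtain ⟨y, y0, y1, y2, y3, y4, y5⟩ := emb6 h1' h2' h'
  obtain ⟨u, hu⟩ := lift6 hn hπ x y
  have u0 := hu 0
  have u1 := hu 1
  have u2 := hu 2
  have u3 := hu 3
  have u4 := hu 4
  have u5 := hu 5
  rw [x0, y0] at u0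
  rw [x1, y1] at u1
  rw [x2, y2] at u2
  rw [x3, y3] at u3
  rw [x4, y4] at u4
  rw [x5, y5] at u5
  have h3 := congrArg (ρ u) (hs (ρ u⁻¹ v))
  rw [conj_apply hN u h1, u0, u1, u2, map_sub, conj_apply hN u h2, u3, u4, u5, rinv'] at h3
  exact h3

lemma s2_spaces {n : ℕ} {N : Fin n → Fin n → Fin n → U} {ρ : U →* (V →ₗ[F] V)}
    (hs : ∀ a b c d e f : Fin n, Dist a b c → Dist d e f →
      Disjoint ({a, b, c} : Finset (Fin n)) {d, e, f} →
      ∀ v, ρ (N a b c) (ρ (N d e f) v - v) = ρ (N d e f) v - v)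
    (S T : Finset (Fin n)) (h : Disjoint S T) : X N ρ S ≤ Y N ρ T := by
  conv_lhs => unfold X
  rw [Submodule.span_le]
  rintro _ ⟨a, ha, b, hb, c, hc, d, v, rfl⟩
  intro a' ha' b' hb' c' hc' d'
  apply hs a' b' c' a b c d' d
  rw [Finset.disjoint_left]
  intro x hx hx'
  have h1 : x ∈ T := by
    simp only [Finset.mem_insert, Finset.mem_singleton] at hx
    rcases hx with rfl | rfl | rfl <;> assumption
  have h2 : x ∈ S := by
    simp only [Finset.mem_insert, Finset.mem_singleton] at hx'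
    rcases hx' with rfl | rfl | rfl <;> assumption
  exact Finset.disjoint_left.mp h h2 h1

lemma card_ne {n : ℕ} (hn : 8 ≤ n) [Finite U] {π : U →* alternatingGroup (Fin n)}
    (hπ : Function.Surjective π) (hU : (Nat.card U : F) ≠ 0) : (n : F) ≠ 0 := by
  intro h0
  apply hU
  have h1 : Nat.card (alternatingGroup (Fin n)) ∣ Nat.card U := by
    have := Subgroup.card_dvd_of_surjective π hπ
    exact this
  have h2 : n ∣ Nat.card (alternatingGroup (Fin n)) := by
    have : Nontrivial (Fin n) := Fin.nontrivial_iff_two_le.mpr (by omega)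
    rw [nat_card_alternatingGroup, Nat.card_fin]
    obtain ⟨m, rfl⟩ : ∃ m, n = m + 1 := ⟨n - 1, by omega⟩
    rw [Nat.factorial_succ]
    have h3 : 2 ∣ m.factorial := Nat.dvd_factorial (by norm_num) (by omega)
    rw [Nat.mul_div_assoc _ h3]
    exact dvd_mul_right _ _
  obtain ⟨k, hk⟩ := h2.trans h1
  rw [hk, Nat.cast_mul, h0, zero_mul]

/-- **From disjoint triples to the bound.** -/
theorem closing {n : ℕ} (hn : 8 ≤ n) [IsAlgClosed F] [FiniteDimensional F V] [Finite U]
    (π : U →* alternatingGroup (Fin n)) (hπ : Function.Surjective π) (hker : π.ker ≤ center U)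
    (hU : (Nat.card U : F) ≠ 0) (ρ : U →* (V →ₗ[F] V)) (hV : finrank F V ≤ n - 2)
    {N : Fin n → Fin n → Fin n → U} (hN : Sys (pm π) N)
    (hs : ∀ a b c d e f : Fin n, Dist a b c → Dist d e f →
      Disjoint ({a, b, c} : Finset (Fin n)) {d, e, f} →
      ∀ v, ρ (N a b c) (ρ (N d e f) v - v) = ρ (N d e f) v - v) :
    ∀ x y : U, ρ ⁅x, y⁆ = 1 := by
  have hsimp : IsSimpleGroup (alternatingGroup (Fin n)) :=
    alternatingGroup.isSimpleGroup (by simp; omega)
  by_contra hcon
  have hne : ∀ a b c, Dist a b c → ρ (N a b c) ≠ 1 := by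
    intro a b c d h1
    apply hcon
    refine TransDeg.Cent8.trivial_on_comm π hπ hker ρ h1 ?_
    intro h2
    have h3 := hN.m1 d
    have h4 : pm π (N a b c) = 1 := by
      show ((π (N a b c) : alternatingGroup (Fin n)) : Equiv.Perm (Fin n)) = 1
      rw [h2]; rfl
    rw [h4] at h3
    exact d.1 h3
  have H : Ctx (F := F) (V := V) (pm π) N ρ :=
    { sys := hN
      hU := hU
      n8 := by simpa using hn
      s2 := s2_spaces hs
      ne := hne
      dim := by simpa using hV }
  have h1 := H.char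
  rw [Fintype.card_fin] at h1
  exact card_ne hn hπ hU h1

end

end TransDeg.Cent
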