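import Mathlib

set_option autoImplicit false
set_option linter.unusedVariables false
set_option linter.unusedSectionVars false

/-!
# Finite groups of order prime to `p` which are `(p-1)`-transitive on large finite subsets
-/

namespace Pool.Agent.TransDeg

open Polynomial

section Frame

variable {F : Type} [Field F] [DecidableEq F] {d : ℕ}

/-- Points of the moment curve. -/
def mom (d : ℕ) (a : F) : Fin d → F := fun j => a ^ (j : ℕ)

theorem mom_li {s : Fin d → F} (hs : Function.Injective s) :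
    LinearIndependent F (fun i => mom d (s i)) := by
  have h := Matrix.det_vandermonde_ne_zero_iff.2 hs
  have h2 : LinearIndependent F (Matrix.vandermonde s).row :=
    Matrix.linearIndependent_rows_iff_isUnit.2 ((Matrix.isUnit_iff_isUnit_det _).2 (isUnit_iff_ne_zero.2 h))
  exact h2

/-- Coordinates of a point of the moment curve with respect to `d` others. -/
theorem mom_coord {s : Fin (d + 1) → F} (hs : Function.Injective s) :
    ∃ c : Fin d → F, (∀ i, c i ≠ 0) ∧ mom d (s 0) = ∑ i, c i • mom d (s i.succ) := by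
  have hs' : Set.InjOn (fun i : Fin d => s i.succ) (Finset.univ : Finset (Fin d)) := by
    intro i _ j _ hij
    exact Fin.succ_injective _ (hs hij)
  refine ⟨fun i => (Lagrange.basis Finset.univ (fun i : Fin d => s i.succ) i).eval (s 0), ?_, ?_⟩
  · intro i
    simp only [Lagrange.basis]
    rw [eval_prod, Finset.prod_ne_zero_iff]
    intro j hj
    rw [Lagrange.basisDivisor]
    simp only [eval_mul, eval_C, eval_sub, eval_X]
    have hij : i ≠ j := (Finset.ne_of_mem_erase hj).symm
    apply mul_ne_zero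
    · apply inv_ne_zero
      rw [sub_ne_zero]
      exact fun h => hij (Fin.succ_injective _ (hs h))
    · rw [sub_ne_zero]
      exact fun h => (Fin.succ_ne_zero j).symm (hs h)
  · ext j
    have h1 := Lagrange.eq_interpolate (f := (X : F[X]) ^ (j : ℕ)) hs' (by
      rw [degree_X_pow]
      simp)
    have h2 := congrArg (fun q => q.eval (s 0)) h1
    simp only [eval_pow, eval_X, Lagrange.interpolate_apply, eval_finsetSum, eval_mul, eval_C] at h2
    rw [Finset.sum_apply]
    simp only [mom, Pi.smul_apply, smul_eq_mul]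
    rw [h2]
    apply Finset.sum_congr rfl
    intro i _
    ring

/-- A linear automorphism mapping one frame of points of the moment curve to another. -/
theorem frame {s t : Fin (d + 1) → F} (hs : Function.Injective s) (ht : Function.Injective t) :
    ∃ L : (Fin d → F) ≃ₗ[F] (Fin d → F), ∀ i, ∃ c : F, c ≠ 0 ∧
      L (mom d (s i)) = c • mom d (t i) := by
  obtain ⟨c, hc, hcs⟩ := mom_coord hs
  obtain ⟨c', hc', hct⟩ := mom_coord ht
  have hs1 : Function.Injective (fun i : Fin d => s i.succ) := hs.comp (Fin.succ_injective _)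
  have ht1 : Function.Injective (fun i : Fin d => t i.succ) := ht.comp (Fin.succ_injective _)
  have hcard : Fintype.card (Fin d) = Module.finrank F (Fin d → F) := by simp
  rcases Nat.eq_zero_or_pos d with hd | hd
  · subst hd
    refine ⟨LinearEquiv.refl F _, fun i => ⟨1, one_ne_zero, ?_⟩⟩
    ext j
    exact j.elim0
  haveI : Nonempty (Fin d) := ⟨⟨0, hd⟩⟩
  let Bs := basisOfLinearIndependentOfCardEqFinrank (mom_li hs1) hcard
  let Bt := basisOfLinearIndependentOfCardEqFinrank (mom_li ht1) hcard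
  have hBs : ∀ i, Bs i = mom d (s i.succ) := fun i => by
    simp [Bs]
  have hBt : ∀ i, Bt i = mom d (t i.succ) := fun i => by
    simp [Bt]
  let w : Fin d → Fˣ := fun i => Units.mk0 (c' i / c i) (div_ne_zero (hc' i) (hc i))
  let L : (Fin d → F) ≃ₗ[F] (Fin d → F) := Bs.equiv (Bt.unitsSMul w) (Equiv.refl _)
  have hL : ∀ i, L (mom d (s i.succ)) = (c' i / c i) • mom d (t i.succ) := by
    intro i
    rw [← hBs i, Module.Basis.equiv_apply, Equiv.refl_apply, Module.Basis.unitsSMul_apply, hBt i]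
    rfl
  refine ⟨L, fun i => ?_⟩
  refine Fin.cases ?_ (fun i => ?_) i
  · refine ⟨1, one_ne_zero, ?_⟩
    rw [one_smul, hcs, hct, map_sum]
    apply Finset.sum_congr rfl
    intro i _
    rw [map_smul, hL i, smul_smul, mul_div_cancel₀ _ (hc i)]
  · exact ⟨c' i / c i, div_ne_zero (hc' i) (hc i), hL i⟩

end Frame

/-- The prime-to-`p` torsion property. -/
def Tor {G : Type} [Group G] (p : ℕ) (g : G) : Prop := ∃ m : ℕ, ¬ p ∣ m ∧ g ^ m = 1

/-- `k`-richness by groups of order prime to `p`. -/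
def RichP (p k : ℕ) : Prop :=
  ∀ N : ℕ, ∃ (Γ : Type) (_ : Finite Γ) (K : Subgroup (Equiv.Perm Γ)) (f : Fin N → Γ),
    Function.Injective f ∧ (∃ M : ℕ, ¬ p ∣ M ∧ ∀ κ ∈ K, κ ^ M = 1) ∧
    ∀ s t : Fin k → Fin N, Function.Injective s → Function.Injective t →
      ∃ κ ∈ K, ∀ i, κ (f (s i)) = f (t i)

theorem exists_prime_root {p : ℕ} [Fact p.Prime] (N : ℕ) : ∃ r, r.Prime ∧ N < r ∧
    (∀ m, 0 < m → m < p - 1 → ((r : ZMod p)) ^ m ≠ 1) ∧ (r : ZMod p) ≠ 0 := by
  obtain ⟨g, hg⟩ := IsCyclic.exists_generator (α := (ZMod p)ˣ)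
  obtain ⟨r, hr, hrp, hrg⟩ := Nat.forall_exists_prime_gt_and_eq_mod (q := p) g.isUnit N
  refine ⟨r, hrp, hr, ?_, ?_⟩
  · intro m hm hmp h
    rw [hrg, ← Units.val_pow_eq_pow_val, Units.val_eq_one] at h
    have h1 : orderOf g = p - 1 := by
      rw [orderOf_eq_card_of_forall_mem_zpowers hg, Nat.card_eq_fintype_card, ZMod.card_units]
    have h2 := orderOf_dvd_of_pow_eq_one h
    rw [h1] at h2
    exact absurd (Nat.le_of_dvd hm h2) (not_le.2 hmp)
  · rw [hrg]
    exact g.ne_zero

theorem card_GL_coprime {p r : ℕ} [Fact p.Prime] [Fact r.Prime] (hr0 : (r : ZMod p) ≠ 0)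
    (hr : ∀ m, 0 < m → m < p - 1 → ((r : ZMod p)) ^ m ≠ 1) {d : ℕ} (hd : d < p - 1) :
    ¬ p ∣ Nat.card (GL (Fin d) (ZMod r)) := by
  rw [Matrix.card_GL_field]
  intro h
  rw [Prime.dvd_finsetProd_iff (Nat.Prime.prime Fact.out)] at h
  obtain ⟨i, -, hi⟩ := h
  have hri : Fintype.card (ZMod r) = r := ZMod.card r
  rw [hri] at hi
  have hid : (i : ℕ) < d := i.2
  have h1 : r ^ d - r ^ (i : ℕ) = r ^ (i : ℕ) * (r ^ (d - i) - 1) := by
    rw [Nat.mul_sub, mul_one, ← pow_add, Nat.add_sub_cancel' hid.le]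
  rw [h1, Nat.Prime.dvd_mul Fact.out] at hi
  rcases hi with hi | hi
  · have h2 := (Nat.Prime.dvd_of_dvd_pow Fact.out hi)
    exact hr0 ((ZMod.natCast_eq_zero_iff _ _).2 h2)
  · have h2 : 1 ≤ r ^ (d - i) := Nat.one_le_pow _ _ (Nat.Prime.pos Fact.out)
    have h3 := (ZMod.natCast_eq_zero_iff _ _).2 hi
    rw [Nat.cast_sub h2, Nat.cast_pow, Nat.cast_one, sub_eq_zero] at h3
    exact hr (d - i) (by omega) (by omega) h3

theorem richP {p : ℕ} [Fact p.Prime] (hp : 5 ≤ p) : RichP p (p - 1) := by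
  classical
  intro N
  obtain ⟨r, hrp, hrN, hr, hr0⟩ := exists_prime_root (p := p) N
  haveI : Fact r.Prime := ⟨hrp⟩
  set d := p - 2 with hd
  have hd1 : p - 1 = d + 1 := by omega
  rw [hd1]
  let F := ZMod r
  let V := Fin d → F
  let φ : (V ≃ₗ[F] V) →* Equiv.Perm (Set V) :=
    { toFun := fun L => Equiv.Set.congr L.toEquiv
      map_one' := by
        ext S : 1
        simp
      map_mul' := by
        intro L L'
        ext S : 1
        simp only [Equiv.Set.congr_apply, Equiv.Perm.mul_apply]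
        rw [← Set.image_comp]
        rfl }
  have hφ : ∀ L S, φ L S = L '' S := fun L S => rfl
  let f : Fin N → Set V := fun a => (Submodule.span F {mom d ((a : ℕ) : F)} : Set V)
  have hcast : Function.Injective (fun a : Fin N => ((a : ℕ) : F)) := by
    intro a b hab
    apply Fin.ext
    have h1 := (ZMod.natCast_eq_natCast_iff' _ _ _).1 hab
    rwa [Nat.mod_eq_of_lt (a.2.trans hrN), Nat.mod_eq_of_lt (b.2.trans hrN)] at h1
  refine ⟨Set V, inferInstance, φ.range, f, ?_, ?_, ?_⟩
  · intro a b hab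
    have h1 : mom d ((a : ℕ) : F) ∈ Submodule.span F {mom d ((b : ℕ) : F)} := by
      have h2 : mom d ((a : ℕ) : F) ∈ f a := Submodule.mem_span_singleton_self _
      rw [hab] at h2
      exact h2
    rw [Submodule.mem_span_singleton] at h1
    obtain ⟨c, hc⟩ := h1
    have h0 := congrFun hc ⟨0, by omega⟩
    have h1 := congrFun hc ⟨1, by omega⟩
    simp only [mom, Pi.smul_apply, pow_zero, smul_eq_mul, mul_one, pow_one] at h0 h1
    rw [h0, one_mul] at h1
    exact (hcast h1).symm
  · have hcop := card_GL_coprime (p := p) (r := r) hr0 hr (d := d) (by omega)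
    refine ⟨Nat.card (GL (Fin d) (ZMod r)), hcop, ?_⟩
    rintro _ ⟨L, rfl⟩
    rw [← map_pow]
    have e : GL (Fin d) F ≃* (V ≃ₗ[F] V) :=
      (Matrix.GeneralLinearGroup.toLin).trans (LinearMap.GeneralLinearGroup.generalLinearEquiv F V)
    have h1 : Nat.card (GL (Fin d) (ZMod r)) = Nat.card (V ≃ₗ[F] V) := Nat.card_congr e.toEquiv
    rw [h1, pow_card_eq_one', map_one]
  · intro s t hs ht
    obtain ⟨L, hL⟩ := frame (F := F) (d := d) (s := fun i => ((s i : ℕ) : F))
      (t := fun i => ((t i : ℕ) : F)) (hcast.comp hs) (hcast.comp ht)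
    refine ⟨φ L, ⟨L, rfl⟩, fun i => ?_⟩
    rw [hφ]
    obtain ⟨c, hc, hci⟩ := hL i
    show L '' (Submodule.span F {mom d ((s i : ℕ) : F)} : Set V) = _
    have h1 : (L '' (Submodule.span F {mom d ((s i : ℕ) : F)} : Set V)) =
        ((Submodule.span F {mom d ((s i : ℕ) : F)}).map (L : V →ₗ[F] V) : Submodule F V) := rfl
    rw [h1, Submodule.map_span, Set.image_singleton]
    show ((Submodule.span F {L (mom d ((s i : ℕ) : F))} : Submodule F V) : Set V) = _
    rw [hci]
    have h2 : Submodule.span F {c • mom d ((t i : ℕ) : F)} =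
        Submodule.span F {mom d ((t i : ℕ) : F)} :=
      Submodule.span_singleton_smul_eq (isUnit_iff_ne_zero.2 hc) _
    rw [h2]

end Pool.Agent.TransDeg
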