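import Mathlib
import Pool.Agent.TransDeg.Rich

set_option autoImplicit false
set_option linter.unusedVariables false
set_option linter.unusedSectionVars false

/-!
# The wreath product step
-/

namespace Pool.Agent.TransDeg

open Equiv

/-- The permutations of `H → Γ` of the form `F ↦ (x ↦ κ x (F (h⁻¹ x)))`. -/
def wr {Γ Q : Type} [Group Q] (K : Subgroup (Perm Γ)) : Subgroup (Perm (Q → Γ)) where
  carrier := {e | ∃ (κ : Q → Perm Γ) (h : Q), (∀ x, κ x ∈ K) ∧ ∀ F x, e F x = κ x (F (h⁻¹ * x))}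
  one_mem' := ⟨fun _ => 1, 1, fun _ => K.one_mem, fun F x => by simp⟩
  mul_mem' := by
    rintro e e' ⟨κ, h, hκ, he⟩ ⟨κ', h', hκ', he'⟩
    refine ⟨fun x => κ x * κ' (h⁻¹ * x), h * h', fun x => K.mul_mem (hκ _) (hκ' _), fun F x => ?_⟩
    rw [Perm.mul_apply, he, he', Perm.mul_apply, mul_inv_rev, mul_assoc]
  inv_mem' := by
    rintro e ⟨κ, h, hκ, he⟩
    refine ⟨fun x => (κ (h * x))⁻¹, h⁻¹, fun x => K.inv_mem (hκ _), fun F x => ?_⟩
    have h1 := he (e⁻¹ F) (h * x)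
    have h2 : e (e⁻¹ F) = F := by
      rw [← Perm.mul_apply, mul_inv_cancel, Perm.one_apply]
    rw [h2, ← mul_assoc, inv_mul_cancel, one_mul] at h1
    rw [inv_inv, h1, ← Perm.mul_apply, inv_mul_cancel, Perm.one_apply]

theorem wr_tor {Γ Q : Type} [Group Q] {K : Subgroup (Perm Γ)} {p M : ℕ} (hp : p.Prime)
    (hM : ¬ p ∣ M) (hK : ∀ κ ∈ K, κ ^ M = 1) (hQ : ∀ h : Q, Tor p h)
    {e : Perm (Q → Γ)} (he : e ∈ wr K) : Tor p e := by
  obtain ⟨κ, h, hκ, he⟩ := he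
  obtain ⟨m, hm, hmh⟩ := hQ h
  have key : ∀ n : ℕ, ∃ κ' : Q → Perm Γ, (∀ x, κ' x ∈ K) ∧
      ∀ F x, (e ^ n) F x = κ' x (F ((h ^ n)⁻¹ * x)) := by
    intro n
    induction n with
    | zero => exact ⟨fun _ => 1, fun _ => K.one_mem, fun F x => by simp⟩
    | succ n ih =>
      obtain ⟨κ', hκ', hn⟩ := ih
      refine ⟨fun x => κ' x * κ ((h ^ n)⁻¹ * x), fun x => K.mul_mem (hκ' _) (hκ _), fun F x => ?_⟩
      rw [pow_succ, Perm.mul_apply, hn, he, Perm.mul_apply, pow_succ, mul_inv_rev, mul_assoc]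
  obtain ⟨κ', hκ', hm'⟩ := key m
  refine ⟨m * M, ?_, ?_⟩
  · rw [hp.dvd_mul]
    tauto
  · rw [pow_mul]
    have h3 : ∀ n : ℕ, ∀ F x, ((e ^ m) ^ n) F x = ((κ' x) ^ n) (F x) := by
      intro n
      induction n with
      | zero => intro F x; simp
      | succ n ih =>
        intro F x
        rw [pow_succ, Perm.mul_apply, ih, hm', hmh, inv_one, one_mul, pow_succ, Perm.mul_apply]
    ext F x
    rw [h3, hK _ (hκ' x)]
    rfl

theorem wreath_step {p k : ℕ} (hp : p.Prime) (hrich : RichP p k) {Ω : Type} [Finite Ω]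
    (H : Subgroup (Perm Ω)) (hH : ∀ h ∈ H, Tor p h) :
    ∃ (Ω' : Type) (_ : Finite Ω') (H' : Subgroup (Perm Ω')) (ι : Ω → Ω') (j : H →* H'),
      Function.Injective ι ∧ (∀ (h : H) (ω : Ω), (j h : Perm Ω') (ι ω) = ι ((h : Perm Ω) ω)) ∧
      (∀ h ∈ H', Tor p h) ∧ (Nat.card Ω + 2 ≤ Nat.card Ω') ∧
      ∀ s t : Fin k → Ω, Function.Injective s → Function.Injective t →
        ∃ h ∈ H', ∀ i, h (ι (s i)) = ι (t i) := by
  classical
  obtain ⟨Γ, hΓ, K, f, hf, ⟨M, hM, hKM⟩, htr⟩ := hrich (Nat.card Ω + 2)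
  let e0 : Ω ≃ Fin (Nat.card Ω) := Finite.equivFin Ω
  let e1 : Ω → Fin (Nat.card Ω + 2) := fun ω => Fin.castLE (by omega) (e0 ω)
  have he1 : Function.Injective e1 := (Fin.castLE_injective _).comp e0.injective
  let g : Ω → Γ := fun ω => f (e1 ω)
  have hg : Function.Injective g := hf.comp he1
  have hfin : Finite H := inferInstance
  let ι : Ω → (H → Γ) := fun ω x => g ((x⁻¹ : H) • ω)
  have hι : ∀ ω x, ι ω x = g (((x⁻¹ : H) : Perm Ω) ω) := fun ω x => rfl
  let j0 : H → Perm (H → Γ) := fun h => Equiv.arrowCongr (Equiv.mulLeft h) (Equiv.refl Γ)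
  have hj0 : ∀ h F x, j0 h F x = F (h⁻¹ * x) := fun h F x => rfl
  have hj0mem : ∀ h, j0 h ∈ wr (Q := H) K := fun h =>
    ⟨fun _ => 1, h, fun _ => K.one_mem, fun F x => by rw [hj0]; rfl⟩
  let j : H →* wr (Q := H) K :=
    { toFun := fun h => ⟨j0 h, hj0mem h⟩
      map_one' := by
        apply Subtype.ext
        ext F x
        show j0 1 F x = F x
        rw [hj0, inv_one, one_mul]
      map_mul' := by
        intro h h'
        apply Subtype.ext
        ext F x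
        show j0 (h * h') F x = j0 h (j0 h' F) x
        rw [hj0, hj0, hj0, mul_inv_rev, mul_assoc] }
  refine ⟨H → Γ, inferInstance, wr (Q := H) K, ι, j, ?_, ?_, ?_, ?_, ?_⟩
  · intro ω ω' h
    have h1 := congrFun h 1
    rw [hι, hι, inv_one] at h1
    exact hg h1
  · intro h ω
    ext x
    show j0 h (ι ω) x = _
    rw [hj0, hι, hι, mul_inv_rev, inv_inv]
    rfl
  · intro e he
    exact wr_tor hp hM hKM (fun h => by
      obtain ⟨m, hm, hmh⟩ := hH h.1 h.2
      exact ⟨m, hm, Subtype.ext hmh⟩) he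
  · have h1 : Nat.card (Fin (Nat.card Ω + 2)) ≤ Nat.card (H → Γ) := by
      apply Nat.card_le_card_of_injective (fun a (_ : H) => f a)
      intro a b hab
      exact hf (congrFun hab 1)
    simpa using h1
  · intro s t hs ht
    have h1 : ∀ x : H, ∃ κ ∈ K, ∀ i, κ (g (((x⁻¹ : H) : Perm Ω) (s i))) =
        g (((x⁻¹ : H) : Perm Ω) (t i)) := by
      intro x
      exact htr (fun i => e1 (((x⁻¹ : H) : Perm Ω) (s i))) (fun i => e1 (((x⁻¹ : H) : Perm Ω) (t i)))
        (he1.comp ((Equiv.injective _).comp hs)) (he1.comp ((Equiv.injective _).comp ht))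
    choose κ hκ hκ' using h1
    refine ⟨Equiv.piCongrRight κ, ⟨κ, 1, hκ, fun F x => by rw [inv_one, one_mul]; rfl⟩, fun i => ?_⟩
    ext x
    show κ x (ι (s i) x) = ι (t i) x
    rw [hι, hι, hκ']

end Pool.Agent.TransDeg
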