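import Mathlib
import Pool.Agent.TransDeg.Wreath
import Pool.Agent.SIP.Limit

set_option autoImplicit false
set_option linter.unusedVariables false
set_option linter.unusedSectionVars false

/-!
# Stages of the construction on the natural numbers
-/

namespace Pool.Agent.TransDeg

open Equiv

/-- A finite group acting on a finite set of natural numbers. -/
structure Stage (p : ℕ) where
  D : Finset ℕ
  H : Subgroup (Perm ℕ)
  supp : ∀ h ∈ H, ∀ x, x ∉ D → h x = x
  tor : ∀ h ∈ H, Tor p h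

theorem Stage.mem_iff {p : ℕ} (s : Stage p) {h : Perm ℕ} (hh : h ∈ s.H) (x : ℕ) :
    h x ∈ s.D ↔ x ∈ s.D := by
  constructor
  · intro hx
    by_contra hn
    rw [s.supp h hh x hn] at hx
    exact hn hx
  · intro hx
    by_contra hn
    have h1 := s.supp h hh _ hn
    have h2 := h.injective h1
    rw [h2] at hn
    exact hn hx

/-- The relation between consecutive stages. -/
def Nxt {p : ℕ} (k n : ℕ) (s s' : Stage p) : Prop :=
  s.D ⊆ s'.D ∧ n ∈ s'.D ∧
  (∃ j : s.H →* s'.H, ∀ (h : s.H) x, x ∈ s.D → (j h : Perm ℕ) x = (h : Perm ℕ) x) ∧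
  ∀ u v : Fin k → ℕ, Function.Injective u → Function.Injective v → (∀ i, u i ∈ s.D) →
    (∀ i, v i ∈ s.D) → ∃ h ∈ s'.H, ∀ i, h (u i) = v i

theorem exists_nxt {p k : ℕ} (hp : p.Prime) (hrich : RichP p k) (n : ℕ) (s : Stage p) :
    ∃ s' : Stage p, Nxt k n s s' := by
  classical
  let res : s.H →* Perm {x // x ∈ s.D} :=
    { toFun := fun h => (h : Perm ℕ).subtypePerm (fun x => s.mem_iff h.2 x)
      map_one' := by ext x; rfl
      map_mul' := by intro h h'; ext x; rfl }
  have hres : ∀ h x, ((res h x : {x // x ∈ s.D}) : ℕ) = (h : Perm ℕ) x := fun h x => rfl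
  obtain ⟨Ω', hΩ', H', ι, j', hι, hj', htor, hcard, htr⟩ := wreath_step hp hrich res.range (by
    rintro _ ⟨h, rfl⟩
    obtain ⟨m, hm, hmh⟩ := s.tor h.1 h.2
    refine ⟨m, hm, ?_⟩
    rw [← map_pow]
    have : h ^ m = 1 := Subtype.ext hmh
    rw [this, map_one])
  haveI := Fintype.ofFinite Ω'
  have hcardD : Nat.card {x // x ∈ s.D} = s.D.card := by simp
  rw [hcardD, Nat.card_eq_fintype_card] at hcard
  obtain ⟨D', hD', hD'c⟩ := Infinite.exists_superset_card_eq (insert n s.D) (Fintype.card Ω') (by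
    have := Finset.card_insert_le n s.D
    omega)
  let f : Ω' → ℕ := fun y => if h : ∃ x : {x // x ∈ s.D}, ι x = y then (h.choose : ℕ) else 0
  have hf : ∀ x : {x // x ∈ s.D}, f (ι x) = x := by
    intro x
    have h : ∃ x' : {x // x ∈ s.D}, ι x' = ι x := ⟨x, rfl⟩
    simp only [f]
    rw [dif_pos h, hι h.choose_spec]
  obtain ⟨e, he⟩ := Finset.exists_equiv_extend_of_card_eq (α := Ω') (t := D') hD'c.symm
    (s := Finset.univ.image ι) (f := f) (by
      intro y hy
      simp only [Finset.mem_image, Finset.mem_univ, true_and] at hy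
      obtain ⟨_, ⟨x, rfl⟩, rfl⟩ := hy
      rw [hf]
      exact hD' (Finset.mem_insert_of_mem x.2)) (by
      intro y hy y' hy' hyy
      simp only [Finset.coe_image, Finset.coe_univ, Set.image_univ, Set.mem_range] at hy hy'
      obtain ⟨x, rfl⟩ := hy
      obtain ⟨x', rfl⟩ := hy'
      rw [hf, hf] at hyy
      rw [Subtype.ext hyy])
  have heι : ∀ x : {x // x ∈ s.D}, (e (ι x) : ℕ) = x := by
    intro x
    rw [he _ (Finset.mem_image_of_mem _ (Finset.mem_univ _)), hf]
  let E : Perm Ω' →* Perm ℕ := Perm.extendDomainHom (p := fun x => x ∈ D') e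
  have hE1 : ∀ (g : Perm Ω') y, E g (e y : ℕ) = (e (g y) : ℕ) := fun g y =>
    Perm.extendDomain_apply_image g (p := fun x => x ∈ D') e y
  have hE2 : ∀ (g : Perm Ω') x, x ∉ D' → E g x = x := fun g x hx =>
    Perm.extendDomain_apply_not_subtype g (p := fun x => x ∈ D') e hx
  have hE3 : ∀ (g : Perm Ω') (x : {x // x ∈ s.D}), E g (x : ℕ) = (e (g (ι x)) : ℕ) := by
    intro g x
    rw [← hE1, heι]
  let s' : Stage p :=
    { D := D'
      H := H'.map E
      supp := by
        rintro _ ⟨g, hg, rfl⟩ x hx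
        exact hE2 g x hx
      tor := by
        rintro _ ⟨g, hg, rfl⟩
        obtain ⟨m, hm, hmg⟩ := htor g hg
        exact ⟨m, hm, by rw [← map_pow, hmg, map_one]⟩ }
  refine ⟨s', (Finset.subset_insert _ _).trans hD', hD' (Finset.mem_insert_self _ _), ?_, ?_⟩
  · refine ⟨(E.subgroupMap H').comp (j'.comp res.rangeRestrict), fun h x hx => ?_⟩
    show E (j' (res.rangeRestrict h)) x = _
    have h1 := hE3 (j' (res.rangeRestrict h)) ⟨x, hx⟩
    rw [hj'] at h1
    rw [heι] at h1
    exact h1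
  · intro u v hu hv huD hvD
    obtain ⟨h, hh, hhi⟩ := htr (fun i => ⟨u i, huD i⟩) (fun i => ⟨v i, hvD i⟩)
      (fun a b hab => hu (congrArg Subtype.val hab)) (fun a b hab => hv (congrArg Subtype.val hab))
    refine ⟨E h, ⟨h, hh, rfl⟩, fun i => ?_⟩
    have h1 := hE3 h ⟨u i, huD i⟩
    rw [hhi i, heι] at h1
    exact h1

end Pool.Agent.TransDeg
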