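import Mathlib
import Pool.Agent.TransDeg.Stage

set_option autoImplicit false
set_option linter.unusedVariables false
set_option linter.unusedSectionVars false

/-!
# The limit group
-/

namespace Pool.Agent.TransDeg

open Equiv Pool.Agent.SIP

theorem exists_group {p k : ℕ} (hp : p.Prime) (hrich : RichP p k) :
    ∃ G : Subgroup (Perm ℕ), Countable G ∧ (∀ g ∈ G, Tor p g) ∧
      ∀ u v : Fin k → ℕ, Function.Injective u → Function.Injective v →
        ∃ g ∈ G, ∀ i, g (u i) = v i := by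
  classical
  let s0 : Stage p :=
    { D := ∅
      H := ⊥
      supp := by
        intro h hh x _
        rw [Subgroup.mem_bot] at hh
        rw [hh]; rfl
      tor := by
        intro h hh
        rw [Subgroup.mem_bot] at hh
        exact ⟨1, by simpa using hp.one_lt.ne', by rw [hh, one_pow]⟩ }
  obtain ⟨s, -, hs⟩ := exists_seq (fun n => Nxt (p := p) k n) (fun n a => exists_nxt hp hrich n a) s0
  have hs1 : ∀ n, (s n).D ⊆ (s (n + 1)).D := fun n => (hs n).1
  have hs2 : ∀ n, n ∈ (s (n + 1)).D := fun n => (hs n).2.1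
  have hs3 := fun n => (hs n).2.2.1
  have hs4 := fun n => (hs n).2.2.2
  choose j hj using hs3
  have hmono : ∀ {a b : ℕ}, a ≤ b → (s a).D ⊆ (s b).D := fun {a b} hab =>
    monotone_nat_of_le_succ (f := fun n => (s n).D) hs1 hab
  have hcov : ∀ x n, x < n → x ∈ (s n).D := fun x n hxn => hmono hxn (hs2 x)
  let Coh : ℕ → (∀ m, (s m).H) → Prop := fun n h => ∀ m, n ≤ m → h (m + 1) = j m (h m)
  let Lim : Perm ℕ → ℕ → (∀ m, (s m).H) → Prop := fun f n h =>
    Coh n h ∧ ∀ m, n ≤ m → ∀ x ∈ (s m).D, f x = (h m : Perm ℕ) x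
  have hLimmono : ∀ {f n h n'}, Lim f n h → n ≤ n' → Lim f n' h := by
    rintro f n h n' ⟨h1, h2⟩ hn
    exact ⟨fun m hm => h1 m (hn.trans hm), fun m hm => h2 m (hn.trans hm)⟩
  have hmul : ∀ {f n h f' n' h'}, Lim f n h → Lim f' n' h' → Lim (f * f') (max n n') (h * h') := by
    rintro f n h f' n' h' ⟨h1, h2⟩ ⟨h3, h4⟩
    refine ⟨fun m hm => ?_, fun m hm x hx => ?_⟩
    · show h (m + 1) * h' (m + 1) = j m (h m * h' m)
      rw [map_mul, h1 m ((le_max_left _ _).trans hm), h3 m ((le_max_right _ _).trans hm)]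
    · rw [Perm.mul_apply, h4 m ((le_max_right _ _).trans hm) x hx,
        h2 m ((le_max_left _ _).trans hm) _ (((s m).mem_iff (h' m).2 x).2 hx)]
      rfl
  have hone : Lim 1 0 1 := by
    refine ⟨fun m _ => ?_, fun m _ x _ => rfl⟩
    show (1 : (s (m + 1)).H) = j m 1
    rw [map_one]
  have hinv : ∀ {f n h}, Lim f n h → Lim f⁻¹ n h⁻¹ := by
    rintro f n h ⟨h1, h2⟩
    refine ⟨fun m hm => ?_, fun m hm x hx => ?_⟩
    · show (h (m + 1))⁻¹ = j m (h m)⁻¹
      rw [map_inv, h1 m hm]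
    · have h3 : ((h m)⁻¹ : Perm ℕ) x ∈ (s m).D := ((s m).mem_iff ((s m).H.inv_mem (h m).2) x).2 hx
      have h4 := h2 m hm _ h3
      have h5 : (h m : Perm ℕ) (((h m)⁻¹ : Perm ℕ) x) = x := by
        rw [← Perm.mul_apply, mul_inv_cancel, Perm.one_apply]
      rw [h5] at h4
      show f⁻¹ x = ((h m)⁻¹ : Perm ℕ) x
      have h6 : f⁻¹ (f (((h m)⁻¹ : Perm ℕ) x)) = ((h m)⁻¹ : Perm ℕ) x := by
        rw [← Perm.mul_apply, inv_mul_cancel, Perm.one_apply]
      rw [← h6, h4]
  let G : Subgroup (Perm ℕ) :=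
    { carrier := {f | ∃ n h, Lim f n h}
      one_mem' := ⟨0, 1, hone⟩
      mul_mem' := by
        rintro f f' ⟨n, h, hf⟩ ⟨n', h', hf'⟩
        exact ⟨_, _, hmul hf hf'⟩
      inv_mem' := by
        rintro f ⟨n, h, hf⟩
        exact ⟨_, _, hinv hf⟩ }
  have hex : ∀ n (a : (s n).H), ∃ f h, Lim f n h ∧ h n = a := by
    intro n a
    let h : ∀ m, (s m).H := fun m => if hm : n ≤ m then
      Nat.leRecOn (C := fun m => (s m).H) hm (fun {k} => j k) a else 1
    have hn : h n = a := by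
      simp only [h]
      rw [dif_pos le_rfl, Nat.leRecOn_self]
    have hc : Coh n h := by
      intro m hm
      simp only [h]
      rw [dif_pos hm, dif_pos (hm.trans (Nat.le_succ m)), Nat.leRecOn_succ hm]
    obtain ⟨f, hf⟩ := limit_perm (g := fun i => (h (n + i) : Perm ℕ))
      (D := fun i => (s (n + i)).D) (fun i => hs1 (n + i))
      (fun i x hx => by
        show (h (n + i + 1) : Perm ℕ) x = _
        rw [hc (n + i) (Nat.le_add_right _ _), hj _ _ _ hx])
      (fun x => ⟨x + 1, hcov x _ (by omega)⟩)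
      (fun x => ⟨x + 1, ((s (n + (x + 1))).mem_iff ((s _).H.inv_mem (h (n + (x + 1))).2) x).2
        (hcov x _ (by omega))⟩)
    refine ⟨f, h, ⟨hc, fun m hm x hx => ?_⟩, hn⟩
    obtain ⟨i, rfl⟩ := Nat.exists_eq_add_of_le hm
    exact hf i x hx
  have huniq : ∀ {f f' n h h'}, Lim f n h → Lim f' n h' → h n = h' n → f = f' := by
    rintro f f' n h h' ⟨h1, h2⟩ ⟨h3, h4⟩ he
    have h5 : ∀ m, n ≤ m → h m = h' m := by
      intro m hm
      induction m, hm using Nat.le_induction with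
      | base => exact he
      | succ m hm ih => rw [h1 m hm, h3 m hm, ih]
    ext x
    have hx : x ∈ (s (n + (x + 1))).D := hcov x _ (by omega)
    rw [h2 _ (Nat.le_add_right _ _) x hx, h4 _ (Nat.le_add_right _ _) x hx,
      h5 _ (Nat.le_add_right _ _)]
  refine ⟨G, ?_, ?_, ?_⟩
  · have hcount : ∀ n, Countable (s n).H := by
      intro n
      let φ : (s n).H → ({x // x ∈ (s n).D} → ℕ) := fun h x => (h : Perm ℕ) x
      have hφ : Function.Injective φ := by
        intro h h' hh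
        apply Subtype.ext
        ext x
        by_cases hx : x ∈ (s n).D
        · exact congrFun hh ⟨x, hx⟩
        · rw [(s n).supp _ h.2 x hx, (s n).supp _ h'.2 x hx]
      exact hφ.countable
    choose Φ hΦ using hex
    choose h0 hh0 using hΦ
    have h1 : (G : Set (Perm ℕ)) ⊆ Set.range (fun y : Σ n, (s n).H => Φ y.1 y.2) := by
      rintro f ⟨n, h, hf⟩
      refine ⟨⟨n, h n⟩, ?_⟩
      exact huniq (hh0 n (h n)).1 hf (hh0 n (h n)).2
    exact (Set.countable_range _).mono h1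
  · rintro f ⟨n, h, hf⟩
    obtain ⟨m, hm, hmh⟩ := (s n).tor _ (h n).2
    refine ⟨m, hm, ?_⟩
    have hpow : ∀ i : ℕ, Lim (f ^ i) n (h ^ i) := by
      intro i
      induction i with
      | zero => rw [pow_zero, pow_zero]; exact hLimmono hone (Nat.zero_le _)
      | succ i ih =>
        rw [pow_succ, pow_succ]
        have := hmul ih hf
        rwa [max_self] at this
    refine huniq (hpow m) (hLimmono hone (Nat.zero_le n)) ?_
    exact Subtype.ext hmh
  · intro u v hu hv
    obtain ⟨n, hn⟩ : ∃ n, (∀ i, u i < n) ∧ ∀ i, v i < n := by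
      refine ⟨(∑ i, u i) + (∑ i, v i) + 1, fun i => ?_, fun i => ?_⟩
      · have := Finset.single_le_sum (f := u) (fun i _ => Nat.zero_le _) (Finset.mem_univ i)
        omega
      · have := Finset.single_le_sum (f := v) (fun i _ => Nat.zero_le _) (Finset.mem_univ i)
        omega
    obtain ⟨a, ha, hai⟩ := hs4 n u v hu hv (fun i => hcov _ _ (hn.1 i)) (fun i => hcov _ _ (hn.2 i))
    obtain ⟨f, h, hf, hfn⟩ := hex (n + 1) ⟨a, ha⟩
    refine ⟨f, ⟨_, _, hf⟩, fun i => ?_⟩
    rw [hf.2 (n + 1) le_rfl _ (hcov _ _ ((hn.1 i).trans (Nat.lt_succ_self n))), hfn]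
    exact hai i

end Pool.Agent.TransDeg
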