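import Pool.Agent.TransDeg.BaseCh

/-!
Two disjoint 5-cycles: a nontrivial representation of `Alt(n)`, `n ≥ 10`, has dimension `≥ 8`.
-/

set_option autoImplicit false

open Equiv

namespace TransDeg.Cyc

open TransDeg.Red

section Joint

variable {F V : Type*} [Field F] [AddCommGroup V] [Module F V]

/-- joint eigenvectors with distinct pairs of eigenvalues are independent -/
theorem joint_le [FiniteDimensional F V] {ι : Type*} [Fintype ι] (T : Bool → (V →ₗ[F] V))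
    (hT : Commute (T true) (T false)) (f : ι → Bool → F) (hf : Function.Injective f) (v : ι → V)
    (hv0 : ∀ i, v i ≠ 0) (hv : ∀ i b, T b (v i) = f i b • v i) :
    Fintype.card ι ≤ Module.finrank F V := by
  have hcomm : ∀ i j : Bool, Commute (T i) (T j) := by
    intro i j
    cases i <;> cases j
    · exact Commute.refl _
    · exact hT.symm
    · exact hT
    · exact Commute.refl _
  have hind := Module.End.independent_iInf_maxGenEigenspace_of_forall_mapsTo T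
    (fun i j φ => Module.End.mapsTo_maxGenEigenspace_of_comm (hcomm j i) φ)
  have hmem : ∀ i, v i ∈ ⨅ b : Bool, Module.End.maxGenEigenspace (T b) (f i b) := by
    intro i
    rw [Submodule.mem_iInf]
    intro b
    apply Module.End.eigenspace_le_maxGenEigenspace
    rw [Module.End.mem_eigenspace_iff]
    exact hv i b
  exact (iSupIndep.linearIndependent _ (hind.comp hf) hmem hv0).fintype_card_le_finrank

/-- `(a, b)` is a pair of joint eigenvalues -/
def Jt (T1 T2 : V →ₗ[F] V) (a b : F) : Prop := ∃ v : V, v ≠ 0 ∧ T1 v = a • v ∧ T2 v = b • v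

theorem exists_joint [IsAlgClosed F] [FiniteDimensional F V] {ℓ : ℕ} (hF : (ℓ : F) ≠ 0)
    (T1 T2 : V →ₗ[F] V) (h1 : T1 ^ ℓ = 1) (h2 : T2 ^ ℓ = 1) (hne : T1 ≠ 1)
    (hc : Commute T1 T2) :
    ∃ μ ν : F, μ ≠ 1 ∧ μ ^ ℓ = 1 ∧ ν ^ ℓ = 1 ∧ Jt T1 T2 μ ν := by
  obtain ⟨μ, v, hμ1, hμℓ, hv0, hv⟩ := exists_eigen hF T1 h1 hne
  have hmaps : ∀ w ∈ Module.End.eigenspace T1 μ, T2 w ∈ Module.End.eigenspace T1 μ := by
    intro w hw
    rw [Module.End.mem_eigenspace_iff] at hw ⊢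
    have : (T1 * T2) w = (T2 * T1) w := by rw [hc.eq]
    calc T1 (T2 w) = T2 (T1 w) := this
      _ = μ • T2 w := by rw [hw, map_smul]
  have hnt : Nontrivial (Module.End.eigenspace T1 μ) := by
    refine ⟨⟨⟨v, Module.End.mem_eigenspace_iff.mpr hv⟩, 0, ?_⟩⟩
    intro h
    exact hv0 (congrArg Subtype.val h)
  obtain ⟨ν, hν⟩ := Module.End.exists_eigenvalue (T2.restrict hmaps)
  obtain ⟨w, hw⟩ := hν.exists_hasEigenvector
  have hw1 : T2 (w : V) = ν • (w : V) := by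
    have := hw.apply_eq_smul
    exact congrArg Subtype.val this
  have hw0 : (w : V) ≠ 0 := by
    intro h
    exact hw.2 (Subtype.ext h)
  refine ⟨μ, ν, hμ1, hμℓ, ?_, w, hw0, Module.End.mem_eigenspace_iff.mp w.2, hw1⟩
  have h5 : ∀ n : ℕ, (T2 ^ n) (w : V) = ν ^ n • (w : V) := by
    intro n
    induction n with
    | zero => simp
    | succ n ih =>
      rw [pow_succ, Module.End.mul_apply, hw1, map_smul, ih, smul_smul, pow_succ, mul_comm]
  have h6 := h5 ℓ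
  rw [h2] at h6
  have h7 : (1 - ν ^ ℓ) • (w : V) = 0 := by
    rw [sub_smul, ← h6]; simp
  rcases smul_eq_zero.mp h7 with h8 | h8
  · exact (sub_eq_zero.mp h8).symm
  · exact absurd h8 hw0

lemma pow_apply_of_eig {T : V →ₗ[F] V} {a : F} {v : V} (h : T v = a • v) (n : ℕ) :
    (T ^ n) v = a ^ n • v := by
  induction n with
  | zero => simp
  | succ n ih =>
    rw [pow_succ, Module.End.mul_apply, h, map_smul, ih, smul_smul, pow_succ, mul_comm]

/-- conjugation moves joint eigenvalues -/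
theorem Jt.conj {A : Type*} [Group A] (ρ : A →* (V →ₗ[F] V)) {c1 c2 : A} {a b : F}
    (h : Jt (ρ c1) (ρ c2) a b) (g : A) (i j k l : ℕ) (h1 : g * c1 * g⁻¹ = c1 ^ i * c2 ^ j)
    (h2 : g * c2 * g⁻¹ = c1 ^ k * c2 ^ l) :
    Jt (ρ c1) (ρ c2) (a ^ i * b ^ j) (a ^ k * b ^ l) := by
  obtain ⟨v, hv0, hv1, hv2⟩ := h
  have e : ∀ m n : ℕ, ρ (c1 ^ m * c2 ^ n) v = (a ^ m * b ^ n) • v := by
    intro m n
    rw [rho_mul, map_pow, map_pow, pow_apply_of_eig hv2, map_smul, pow_apply_of_eig hv1,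
      smul_smul, mul_comm]
  refine ⟨ρ g⁻¹ v, ?_, ?_, ?_⟩
  · intro h0
    apply hv0
    rw [← rho_inv' ρ g v, h0, map_zero]
  · have h3 : c1 * g⁻¹ = g⁻¹ * (c1 ^ i * c2 ^ j) := by rw [← h1]; group
    rw [← rho_mul, h3, rho_mul, e, map_smul]
  · have h3 : c2 * g⁻¹ = g⁻¹ * (c1 ^ k * c2 ^ l) := by rw [← h2]; group
    rw [← rho_mul, h3, rho_mul, e, map_smul]

end Joint

section Ten

abbrev Ten : Type := ZMod 5 ⊕ ZMod 5

def dbl : Perm (ZMod 5) := ⟨fun x => 2 * x, fun x => 3 * x, by decide, by decide⟩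
def shf : Perm (ZMod 5) := ⟨fun x => x + 1, fun x => x - 1, by decide, by decide⟩
def ngt : Perm (ZMod 5) := ⟨fun x => -x, fun x => -x, by decide, by decide⟩
def crs : Perm Ten := ⟨fun x => Sum.elim (fun y => Sum.inr y) (fun y => Sum.inl (2 * y)) x,
  fun x => Sum.elim (fun y => Sum.inr (3 * y)) (fun y => Sum.inl y) x, by decide, by decide⟩

def C1 : alternatingGroup Ten := ⟨sumCongr shf (Equiv.refl _), by
  rw [Perm.mem_alternatingGroup]; decide +kernel⟩
def C2 : alternatingGroup Ten := ⟨sumCongr (Equiv.refl _) shf, by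
  rw [Perm.mem_alternatingGroup]; decide +kernel⟩
def G1 : alternatingGroup Ten := ⟨sumCongr dbl dbl, by
  rw [Perm.mem_alternatingGroup]; decide +kernel⟩
def G2 : alternatingGroup Ten := ⟨sumCongr ngt (Equiv.refl _), by
  rw [Perm.mem_alternatingGroup]; decide +kernel⟩
def G2' : alternatingGroup Ten := ⟨sumCongr (Equiv.refl _) ngt, by
  rw [Perm.mem_alternatingGroup]; decide +kernel⟩
def G3 : alternatingGroup Ten := ⟨crs, by
  rw [Perm.mem_alternatingGroup]; decide +kernel⟩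

lemma r0 : C1 ≠ 1 := by decide +kernel
lemma r1 : C1 ^ 5 = 1 := by decide +kernel
lemma r2 : C2 ^ 5 = 1 := by decide +kernel
lemma r3 : C1 * C2 = C2 * C1 := by decide +kernel
lemma r4 : G1 * C1 * G1⁻¹ = C1 ^ 2 * C2 ^ 0 := by decide +kernel
lemma r5 : G1 * C2 * G1⁻¹ = C1 ^ 0 * C2 ^ 2 := by decide +kernel
lemma r6 : G2 * C1 * G2⁻¹ = C1 ^ 4 * C2 ^ 0 := by decide +kernel
lemma r7 : G2 * C2 * G2⁻¹ = C1 ^ 0 * C2 ^ 1 := by decide +kernel
lemma r8 : G2' * C1 * G2'⁻¹ = C1 ^ 1 * C2 ^ 0 := by decide +kernel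
lemma r9 : G2' * C2 * G2'⁻¹ = C1 ^ 0 * C2 ^ 4 := by decide +kernel
lemma r10 : G3 * C1 * G3⁻¹ = C1 ^ 0 * C2 ^ 1 := by decide +kernel
lemma r11 : G3 * C2 * G3⁻¹ = C1 ^ 2 * C2 ^ 0 := by decide +kernel

/-- exponents for the case `ν = 1` -/
def ex1 : Fin 8 → ℕ × ℕ := ![(1,0),(2,0),(3,0),(4,0),(0,1),(0,2),(0,3),(0,4)]
/-- exponents for the case `ν ≠ 1` -/
def ex2 : Fin 8 → ℕ × ℕ := ![(1,1),(4,1),(1,4),(4,4),(2,2),(3,2),(2,3),(3,3)]

lemma ex1_inj : Function.Injective ex1 := by decide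
lemma ex2_inj : Function.Injective ex2 := by decide
lemma ex1_lt : ∀ i, (ex1 i).1 < 5 ∧ (ex1 i).2 < 5 := by decide
lemma ex2_lt : ∀ i, (ex2 i).1 < 5 ∧ (ex2 i).2 < 5 := by decide

variable {F V : Type*} [Field F] [AddCommGroup V] [Module F V]

theorem eight_le [FiniteDimensional F V] (T1 T2 : V →ₗ[F] V) (hc : Commute T1 T2)
    (a b : F) (ha : orderOf a = 5) (hb : orderOf b = 5) (e : Fin 8 → ℕ × ℕ)
    (he : Function.Injective e) (hlt : ∀ i, (e i).1 < 5 ∧ (e i).2 < 5)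
    (h : ∀ i, Jt T1 T2 (a ^ (e i).1) (b ^ (e i).2)) : 8 ≤ Module.finrank F V := by
  choose v hv0 hv1 hv2 using h
  have key := joint_le (F := F) (V := V) (ι := Fin 8) (fun c => if c then T1 else T2)
    (by simpa using hc) (fun i c => if c then a ^ (e i).1 else b ^ (e i).2) ?_ v hv0 ?_
  · simpa using key
  · intro i j hij
    have h1 : a ^ (e i).1 = a ^ (e j).1 := by simpa using congrFun hij true
    have h2 : b ^ (e i).2 = b ^ (e j).2 := by simpa using congrFun hij false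
    have h3 := pow_injOn_Iio_orderOf (x := a) (by rw [Set.mem_Iio, ha]; exact (hlt i).1)
      (by rw [Set.mem_Iio, ha]; exact (hlt j).1) h1
    have h4 := pow_injOn_Iio_orderOf (x := b) (by rw [Set.mem_Iio, hb]; exact (hlt i).2)
      (by rw [Set.mem_Iio, hb]; exact (hlt j).2) h2
    exact he (Prod.ext h3 h4)
  · intro i c
    cases c
    · simpa using hv2 i
    · simpa using hv1 i

lemma order_five {a : F} (h1 : a ≠ 1) (h5 : a ^ 5 = 1) : orderOf a = 5 := by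
  rcases (Nat.dvd_prime Nat.prime_five).mp (orderOf_dvd_of_pow_eq_one h5) with h | h
  · rw [orderOf_eq_one_iff] at h; exact absurd h h1
  · exact h

theorem ten_bound [IsAlgClosed F] [FiniteDimensional F V] (hF : ((5 : ℕ) : F) ≠ 0)
    (ρ : alternatingGroup Ten →* (V →ₗ[F] V)) (hρ : ρ ≠ 1) : 8 ≤ Module.finrank F V := by
  have : IsSimpleGroup (alternatingGroup Ten) := alternatingGroup.isSimpleGroup (by simp)
  have hc : Commute (ρ C1) (ρ C2) := by
    show ρ C1 * ρ C2 = ρ C2 * ρ C1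
    rw [← map_mul, ← map_mul, r3]
  obtain ⟨μ, ν, hμ1, hμ5, hν5, hJ⟩ := exists_joint (ℓ := 5) hF (ρ C1) (ρ C2)
    (by rw [← map_pow, r1, map_one]) (by rw [← map_pow, r2, map_one])
    (ne_one_of_ne ρ hρ r0) hc
  have c1 : ∀ {a b : F}, Jt (ρ C1) (ρ C2) a b → Jt (ρ C1) (ρ C2) (a ^ 2) (b ^ 2) := by
    intro a b h
    simpa using h.conj ρ G1 2 0 0 2 r4 r5
  have c2 : ∀ {a b : F}, Jt (ρ C1) (ρ C2) a b → Jt (ρ C1) (ρ C2) (a ^ 4) b := by
    intro a b h
    simpa using h.conj ρ G2 4 0 0 1 r6 r7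
  have c2' : ∀ {a b : F}, Jt (ρ C1) (ρ C2) a b → Jt (ρ C1) (ρ C2) a (b ^ 4) := by
    intro a b h
    simpa using h.conj ρ G2' 1 0 0 4 r8 r9
  have c3 : ∀ {a b : F}, Jt (ρ C1) (ρ C2) a b → Jt (ρ C1) (ρ C2) b (a ^ 2) := by
    intro a b h
    simpa using h.conj ρ G3 0 1 2 0 r10 r11
  have hoμ := order_five hμ1 hμ5
  have red : ∀ {x : F}, x ^ 5 = 1 → (x ^ 2) ^ 4 = x ^ 3 ∧ (x ^ 4) ^ 4 = x ∧ (x ^ 4) ^ 2 = x ^ 3 ∧
      (x ^ 2) ^ 2 = x ^ 4 := by
    intro x hx
    refine ⟨?_, ?_, ?_, ?_⟩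
    · calc (x ^ 2) ^ 4 = x ^ 5 * x ^ 3 := by ring
        _ = x ^ 3 := by rw [hx, one_mul]
    · calc (x ^ 4) ^ 4 = (x ^ 5) ^ 3 * x := by ring
        _ = x := by rw [hx, one_pow, one_mul]
    · calc (x ^ 4) ^ 2 = x ^ 5 * x ^ 3 := by ring
        _ = x ^ 3 := by rw [hx, one_mul]
    · ring
  obtain ⟨m1, m2, m3, m4⟩ := red hμ5
  obtain ⟨n1, n2, n3, n4⟩ := red hν5
  by_cases hν1 : ν = 1
  · subst hν1
    refine eight_le (ρ C1) (ρ C2) hc μ μ hoμ hoμ ex1 ex1_inj ex1_lt ?_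
    have a1 : Jt (ρ C1) (ρ C2) μ 1 := hJ
    have a2 : Jt (ρ C1) (ρ C2) (μ ^ 2) 1 := by simpa using c1 a1
    have a4 : Jt (ρ C1) (ρ C2) (μ ^ 4) 1 := by simpa using c2 a1
    have a3 : Jt (ρ C1) (ρ C2) (μ ^ 3) 1 := by
      have := c1 a4
      rw [m3, one_pow] at this
      exact this
    have b2 : Jt (ρ C1) (ρ C2) 1 (μ ^ 2) := c3 a1
    have b4 : Jt (ρ C1) (ρ C2) 1 (μ ^ 4) := by
      have := c3 a2
      rw [m4] at this
      exact this
    have b3 : Jt (ρ C1) (ρ C2) 1 (μ ^ 3) := by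
      have := c3 a4
      rw [m3] at this
      exact this
    have b1 : Jt (ρ C1) (ρ C2) 1 μ := by
      have := c2' b4
      rw [m2] at this
      exact this
    intro i
    fin_cases i <;> simp [ex1] <;> assumption
  · have hoν := order_five hν1 hν5
    refine eight_le (ρ C1) (ρ C2) hc μ ν hoμ hoν ex2 ex2_inj ex2_lt ?_
    have a11 : Jt (ρ C1) (ρ C2) μ ν := hJ
    have a41 : Jt (ρ C1) (ρ C2) (μ ^ 4) ν := c2 a11
    have a14 : Jt (ρ C1) (ρ C2) μ (ν ^ 4) := c2' a11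
    have a44 : Jt (ρ C1) (ρ C2) (μ ^ 4) (ν ^ 4) := c2' a41
    have a22 : Jt (ρ C1) (ρ C2) (μ ^ 2) (ν ^ 2) := c1 a11
    have a32 : Jt (ρ C1) (ρ C2) (μ ^ 3) (ν ^ 2) := by
      have := c1 a41
      rw [m3] at this
      exact this
    have a23 : Jt (ρ C1) (ρ C2) (μ ^ 2) (ν ^ 3) := by
      have := c1 a14
      rw [n3] at this
      exact this
    have a33 : Jt (ρ C1) (ρ C2) (μ ^ 3) (ν ^ 3) := by
      have := c1 a44
      rw [m3, n3] at this
      exact this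
    intro i
    fin_cases i <;> simp [ex2] <;> assumption

/-- embedding of alternating groups -/
theorem exists_altEmb {α : Type*} [Fintype α] [DecidableEq α] (n : ℕ) (h : Fintype.card α ≤ n) :
    ∃ f : alternatingGroup α →* alternatingGroup (Fin n), Function.Injective f := by
  obtain ⟨e⟩ : Nonempty (α ≃ {x : Fin n // x.val < Fintype.card α}) := by
    refine ⟨(Fintype.equivFin α).trans ?_⟩
    exact
      { toFun := fun i => ⟨⟨i.1, lt_of_lt_of_le i.2 h⟩, i.2⟩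
        invFun := fun x => ⟨x.1.1, x.2⟩
        left_inv := fun i => rfl
        right_inv := fun x => rfl }
  let f0 : alternatingGroup α →* Perm (Fin n) :=
    (Perm.extendDomainHom e).comp (alternatingGroup α).subtype
  have hf0 : ∀ a, f0 a ∈ alternatingGroup (Fin n) := by
    intro a
    rw [Perm.mem_alternatingGroup]
    show Perm.sign ((a : Perm α).extendDomain e) = 1
    rw [Perm.sign_extendDomain]
    exact Perm.mem_alternatingGroup.mp a.2
  refine ⟨f0.codRestrict (alternatingGroup (Fin n)) hf0, ?_⟩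
  intro a b hab
  have h1 : (Perm.extendDomainHom e) (a : Perm α) = (Perm.extendDomainHom e) (b : Perm α) :=
    congrArg Subtype.val hab
  exact Subtype.ext (Perm.extendDomainHom_injective e h1)

/-- **Two 5-cycles.** -/
theorem pair_bound [IsAlgClosed F] [FiniteDimensional F V] {n : ℕ} (hn : 10 ≤ n)
    (hF : ((5 : ℕ) : F) ≠ 0)
    (ρ : alternatingGroup (Fin n) →* (V →ₗ[F] V)) (hρ : ρ ≠ 1) : 8 ≤ Module.finrank F V := by
  have : IsSimpleGroup (alternatingGroup (Fin n)) :=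
    alternatingGroup.isSimpleGroup (by simp; omega)
  obtain ⟨f, hf⟩ := exists_altEmb (α := Ten) n (by
    have : Fintype.card Ten = 10 := rfl
    omega)
  refine ten_bound hF (ρ.comp f) ?_
  intro h
  have h1 : ρ (f C1) = 1 := DFunLike.congr_fun h C1
  refine ne_one_of_ne ρ hρ (a := f C1) ?_ h1
  intro h2
  exact r0 (hf (by rw [h2, map_one]))

end Ten

end TransDeg.Cyc
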