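import Mathlib

/-!
Minimal covers of a finite simple group: Frattini arguments.
-/

open Subgroup
open scoped commutatorElement

namespace TransDeg.Red

/-- `π : U →* A` is a minimal cover: surjective and no proper subgroup maps onto `A`. -/
structure MinCover {U A : Type*} [Group U] [Group A] (π : U →* A) : Prop where
  surj : Function.Surjective π
  min : ∀ M : Subgroup U, M.map π = ⊤ → M = ⊤

lemma exists_minCover {G A : Type*} [Group G] [Finite G] [Group A] (π : G →* A)
    (hπ : Function.Surjective π) : ∃ U : Subgroup G, MinCover (π.comp U.subtype) := by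
  have hne : {U : Subgroup G | U.map π = ⊤}.Nonempty :=
    ⟨⊤, by simp [← MonoidHom.range_eq_map, MonoidHom.range_eq_top.mpr hπ]⟩
  obtain ⟨U, hU, hmin⟩ := (wellFounded_lt (α := Subgroup G)).has_min _ hne
  refine ⟨U, ?_, ?_⟩
  · rw [← MonoidHom.range_eq_top, MonoidHom.range_comp, range_subtype]
    exact hU
  · intro M hM
    rw [← Subgroup.map_map] at hM
    have h1 : M.map U.subtype ≤ U := by
      rintro _ ⟨x, -, rfl⟩
      exact x.2
    have h2 : ¬ M.map U.subtype < U := hmin _ hM
    have h3 : M.map U.subtype = U := by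
      by_contra h
      exact h2 (lt_of_le_of_ne h1 h)
    rw [eq_top_iff]
    rintro x -
    have h4 : (x : G) ∈ M.map U.subtype := by rw [h3]; exact x.2
    obtain ⟨y, hy, hxy⟩ := h4
    have : y = x := Subtype.ext hxy
    rwa [← this]

section

variable {U A : Type*} [Group U] [Group A] {π : U →* A}

lemma MinCover.normal_cases [IsSimpleGroup A] (h : MinCover π) (N : Subgroup U) [hN : N.Normal] :
    N = ⊤ ∨ N ≤ π.ker := by
  have h1 : (N.map π).Normal := hN.map π h.surj
  rcases h1.eq_bot_or_eq_top with h2 | h2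
  · right
    intro x hx
    have h3 : π x ∈ N.map π := ⟨x, hx, rfl⟩
    rw [h2] at h3
    exact h3
  · left
    exact h.min _ h2

lemma MinCover.perfect [IsSimpleGroup A] (hA : ∃ a b : A, a * b ≠ b * a) (h : MinCover π) :
    commutator U = ⊤ := by
  rcases h.normal_cases (commutator U) with h1 | h1
  · exact h1
  · exfalso
    obtain ⟨a, b, hab⟩ := hA
    obtain ⟨x, rfl⟩ := h.surj a
    obtain ⟨y, rfl⟩ := h.surj b
    have h2 : ⁅x, y⁆ ∈ commutator U := commutator_mem_commutator (mem_top _) (mem_top _)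
    have h3 := h1 h2
    rw [MonoidHom.mem_ker, map_commutatorElement, commutatorElement_eq_one_iff_mul_comm] at h3
    exact hab h3

lemma MinCover.eq_top_of_sup_ker (h : MinCover π) (M : Subgroup U) (hM : M ⊔ π.ker = ⊤) :
    M = ⊤ := by
  apply h.min
  have h1 : (M ⊔ π.ker).map π = M.map π := by
    rw [Subgroup.map_sup]
    have : π.ker.map π = ⊥ := by
      rw [Subgroup.map_eq_bot_iff]
    rw [this, sup_bot_eq]
  rw [← h1, hM, ← MonoidHom.range_eq_map, MonoidHom.range_eq_top.mpr h.surj]

lemma MinCover.sylow_normal [Finite U] (h : MinCover π) (p : ℕ) [Fact p.Prime]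
    (P : Sylow p π.ker) : ((P : Subgroup π.ker).map π.ker.subtype).Normal := by
  have h1 := P.normalizer_sup_eq_top
  exact normalizer_eq_top_iff.mp (h.eq_top_of_sup_ker _ h1)

lemma MinCover.not_dvd_card [Finite U] (h : MinCover π) (p : ℕ) [hp : Fact p.Prime]
    (hA : ¬ p ∣ Nat.card A) : ¬ p ∣ Nat.card U := by
  intro hpU
  obtain ⟨P⟩ : Nonempty (Sylow p U) := inferInstance
  have hPW : (P : Subgroup U) ≤ π.ker := by
    intro x hx
    rw [MonoidHom.mem_ker]
    obtain ⟨k, hk⟩ := P.2 ⟨x, hx⟩
    have hk' : x ^ p ^ k = 1 := by simpa using congrArg Subtype.val hk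
    have h1 : orderOf (π x) ∣ p ^ k := orderOf_dvd_of_pow_eq_one (by rw [← map_pow, hk', map_one])
    have h2 : orderOf (π x) ∣ Nat.card A := orderOf_dvd_natCard _
    have h3 : Nat.Coprime (p ^ k) (Nat.card A) :=
      Nat.Coprime.pow_left _ ((Nat.Prime.coprime_iff_not_dvd hp.out).mpr hA)
    have h4 : orderOf (π x) = 1 := Nat.Coprime.eq_one_of_dvd (Nat.Coprime.coprime_dvd_left h1 h3) h2
    rwa [orderOf_eq_one_iff] at h4
  have h1 := P.normalizer_sup_eq_top' hPW
  have hPn : (P : Subgroup U).Normal :=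
    normalizer_eq_top_iff.mp (h.eq_top_of_sup_ker _ h1)
  have hcop : Nat.Coprime (Nat.card (P : Subgroup U)) (P : Subgroup U).index := by
    obtain ⟨n, hn⟩ := IsPGroup.iff_card.mp P.2
    have h5 : ¬ p ∣ (P : Subgroup U).index := P.not_dvd_index
    rw [show Nat.card (P : Subgroup U) = p ^ n from hn]
    exact Nat.Coprime.pow_left _ ((Nat.Prime.coprime_iff_not_dvd hp.out).mpr h5)
  obtain ⟨H, hH⟩ := exists_left_complement'_of_coprime hcop
  have h6 : H ⊔ (P : Subgroup U) = ⊤ := hH.sup_eq_top
  have h7 : H = ⊤ := by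
    apply h.eq_top_of_sup_ker
    rw [eq_top_iff, ← h6]
    exact sup_le_sup le_rfl hPW
  have h8 : (P : Subgroup U) = ⊥ := by
    have := hH.disjoint
    rw [h7, top_disjoint] at this
    exact this
  exact P.ne_bot_of_dvd_card hpU h8

end

end TransDeg.Red
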