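import Pool.Agent.TransDeg.Red2

/-!
Abelian normal subgroups of a minimal cover are central (dimension < order of the quotient).
-/

open Subgroup
open scoped commutatorElement

namespace TransDeg.Red

section Conj

variable {F V U : Type*} [Field F] [AddCommGroup V] [Module F V] [Group U]

/-- the conjugate weight -/
def cw {S : Subgroup U} [S.Normal] (u : U) (χ : S → F) : S → F :=
  fun a => χ (MulAut.conjNormal u⁻¹ a)

lemma rho_inv (ρ : U →* (V →ₗ[F] V)) (u : U) (v : V) : ρ u⁻¹ (ρ u v) = v := by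
  have : (ρ u⁻¹ * ρ u) v = v := by rw [← map_mul, inv_mul_cancel, map_one]; rfl
  exact this

lemma rho_inv' (ρ : U →* (V →ₗ[F] V)) (u : U) (v : V) : ρ u (ρ u⁻¹ v) = v := by
  have : (ρ u * ρ u⁻¹) v = v := by rw [← map_mul, mul_inv_cancel, map_one]; rfl
  exact this

lemma rho_mul (ρ : U →* (V →ₗ[F] V)) (u w : U) (v : V) : ρ (u * w) v = ρ u (ρ w v) := by
  rw [map_mul]; rfl

lemma mem_wt_cw (ρ : U →* (V →ₗ[F] V)) {S : Subgroup U} [S.Normal] {χ : S → F} (u : U) {v : V}
    (hv : v ∈ wt ρ S χ) : ρ u v ∈ wt ρ S (cw u χ) := by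
  rw [mem_wt] at hv ⊢
  intro a
  have h1 := hv (MulAut.conjNormal u⁻¹ a)
  have h2 : ((MulAut.conjNormal u⁻¹ a : S) : U) = u⁻¹ * a * u := by
    rw [MulAut.conjNormal_apply]; simp
  rw [h2, rho_mul, rho_mul] at h1
  have h3 := congrArg (ρ u) h1
  rw [rho_inv', map_smul] at h3
  exact h3

lemma cw_mul {S : Subgroup U} [S.Normal] (u w : U) (χ : S → F) :
    cw (u * w) χ = cw u (cw w χ) := by
  funext a
  simp only [cw, mul_inv_rev, map_mul, MulAut.mul_apply]

lemma cw_one {S : Subgroup U} [S.Normal] (χ : S → F) : cw (1 : U) χ = χ := by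
  funext a
  simp [cw]

lemma wt_cw_ne (ρ : U →* (V →ₗ[F] V)) {S : Subgroup U} [S.Normal] {χ : S → F} (u : U)
    (h : wt ρ S χ ≠ ⊥) : wt ρ S (cw u χ) ≠ ⊥ := by
  obtain ⟨v, hv, hv0⟩ := (Submodule.ne_bot_iff _).mp h
  refine (Submodule.ne_bot_iff _).mpr ⟨ρ u v, mem_wt_cw ρ u hv, ?_⟩
  intro h0
  apply hv0
  rw [← rho_inv ρ u v, h0, map_zero]

/-- the action of `U` on the set of weights of a normal subgroup -/
def wact (ρ : U →* (V →ₗ[F] V)) (S : Subgroup U) [S.Normal] :
    U →* Equiv.Perm {χ : S → F // wt ρ S χ ≠ ⊥} where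
  toFun u :=
    { toFun := fun χ => ⟨cw u χ.1, wt_cw_ne ρ u χ.2⟩
      invFun := fun χ => ⟨cw u⁻¹ χ.1, wt_cw_ne ρ u⁻¹ χ.2⟩
      left_inv := fun χ => Subtype.ext (by simp only [← cw_mul, inv_mul_cancel, cw_one])
      right_inv := fun χ => Subtype.ext (by simp only [← cw_mul, mul_inv_cancel, cw_one]) }
  map_one' := by
    ext χ : 2
    simp [cw_one]
  map_mul' u w := by
    ext χ : 2
    simp [cw_mul]

variable {A : Type*} [Group A]

theorem MinCover.abelian_normal_le_center [Finite U] [IsAlgClosed F] [FiniteDimensional F V]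
    [IsSimpleGroup A] [Finite A] {π : U →* A}
    (h : MinCover π) (hU : (Nat.card U : F) ≠ 0)
    (ρ : U →* (V →ₗ[F] V)) (hρ : Function.Injective ρ)
    (hcard : (Module.finrank F V).factorial < Nat.card A)
    (S : Subgroup U) [S.Normal] (hS : ∀ a ∈ S, ∀ b ∈ S, a * b = b * a) : S ≤ center U := by
  obtain ⟨hfin, hle⟩ := finite_wts hU ρ S hS
  have hK : (wact ρ S).ker = ⊤ := by
    rcases h.normal_cases (wact ρ S).ker with h1 | h1
    · exact h1
    · exfalso
      have h2 : π.ker.index ∣ (wact ρ S).ker.index := index_dvd_of_le h1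
      have h3 : π.ker.index = Nat.card A := by
        rw [index_ker, MonoidHom.range_eq_top.mpr h.surj]
        exact Subgroup.card_top
      have h4 : (wact ρ S).ker.index ≤ (Module.finrank F V).factorial := by
        rw [index_ker]
        calc Nat.card (wact ρ S).range ≤ Nat.card (Equiv.Perm {χ : S → F // wt ρ S χ ≠ ⊥}) :=
              Nat.card_le_card_of_injective _ (Subtype.val_injective)
          _ = (Nat.card {χ : S → F // wt ρ S χ ≠ ⊥}).factorial := Nat.card_perm
          _ ≤ _ := Nat.factorial_le hle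
      have h5 : Nat.card A ≤ (wact ρ S).ker.index := by
        rw [← h3]
        exact Nat.le_of_dvd (Nat.pos_of_ne_zero index_ne_zero_of_finite) h2
      omega
  intro a ha
  rw [mem_center_iff]
  intro u
  have h6 : ρ (u⁻¹ * a * u) = ρ a := by
    apply ext_wt hU ρ S hS
    intro χ hχ v hv
    have h7 : (wact ρ S) u = 1 := by
      rw [← MonoidHom.mem_ker, hK]; exact mem_top _
    have h8 : cw u χ = χ := by
      have h80 := DFunLike.congr_fun h7 (⟨χ, hχ⟩ : {χ : S → F // wt ρ S χ ≠ ⊥})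
      exact congrArg Subtype.val h80
    rw [mem_wt] at hv
    have h9 := hv ⟨a, ha⟩
    have h10 := hv (MulAut.conjNormal u⁻¹ ⟨a, ha⟩)
    have h11 : ((MulAut.conjNormal u⁻¹ (⟨a, ha⟩ : S) : S) : U) = u⁻¹ * a * u := by
      rw [MulAut.conjNormal_apply]; simp
    rw [h11] at h10
    rw [h10, h9]
    congr 1
    exact congrFun h8 ⟨a, ha⟩
  have h12 := hρ h6
  calc u * a = u * (u⁻¹ * a * u) := by rw [h12]
    _ = a * u := by group

end Conj

end TransDeg.Red
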