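import Pool.Agent.TransDeg.Red3

/-!
The non-central case: the minimal non-central normal `s`-subgroup.
-/

open Subgroup
open scoped commutatorElement

namespace TransDeg.Red

section Heart

variable {U A : Type*} [Group U] [Finite U] [Group A]

lemma comm_ne (p : ℕ) [Fact p.Prime] (P D : Subgroup U) (hP : IsPGroup p P) (hD : D ≤ P)
    (hne : D ≠ ⊥) : ⁅D, P⁆ ≠ D := by
  intro h
  have h1 : Group.IsNilpotent P := hP.isNilpotent
  rw [Subgroup.isNilpotent_iff_lowerCentralSeries] at h1
  obtain ⟨n, hn⟩ := h1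
  have h2 : ∀ n, D ≤ P.lowerCentralSeries n := by
    intro n
    induction n with
    | zero => simpa using hD
    | succ k ih =>
      rw [Subgroup.lowerCentralSeries_succ, ← h]
      exact commutator_mono ih le_rfl
  apply hne
  rw [eq_bot_iff, ← hn]
  exact h2 n

lemma le_of_sylow_le (W C : Subgroup U)
    (h : ∀ (p : ℕ) (_ : Fact p.Prime), ∃ P : Sylow p W, (P : Subgroup W).map W.subtype ≤ C) :
    W ≤ C := by
  have h1 : (C.subgroupOf W).index = 1 := by
    by_contra h2
    obtain ⟨p, hp, hdvd⟩ := Nat.exists_prime_and_dvd h2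
    have : Fact p.Prime := ⟨hp⟩
    obtain ⟨P, hP⟩ := h p ⟨hp⟩
    have h3 : (P : Subgroup W) ≤ C.subgroupOf W := by
      intro x hx
      rw [mem_subgroupOf]
      exact hP ⟨x, hx, rfl⟩
    exact P.not_dvd_index (hdvd.trans (index_dvd_of_le h3))
  rw [index_eq_one, subgroupOf_eq_top] at h1
  exact h1

/-- The subgroup of elements acting trivially on `D` modulo the centre. -/
def actTriv (D : Subgroup U) : Subgroup U :=
  (centralizer ((D.map (QuotientGroup.mk' (center U)) : Subgroup (U ⧸ center U)) :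
    Set (U ⧸ center U))).comap (QuotientGroup.mk' (center U))

omit [Finite U] in
lemma mem_actTriv {D : Subgroup U} {w : U} :
    w ∈ actTriv D ↔ ∀ x ∈ D, ⁅x, w⁆ ∈ center U := by
  unfold actTriv
  rw [mem_comap, mem_centralizer_iff]
  constructor
  · intro h x hx
    have h1 := h (QuotientGroup.mk' (center U) x) ⟨x, hx, rfl⟩
    rw [← commutatorElement_eq_one_iff_mul_comm, ← map_commutatorElement,
      QuotientGroup.mk'_apply, QuotientGroup.eq_one_iff] at h1
    exact h1
  · rintro h _ ⟨x, hx, rfl⟩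
    rw [← commutatorElement_eq_one_iff_mul_comm, ← map_commutatorElement,
      QuotientGroup.mk'_apply, QuotientGroup.eq_one_iff]
    exact h x hx

/-- The minimal non-central normal subgroup in the kernel of a minimal cover. -/
structure Heart (π : U →* A) (s : ℕ) (D : Subgroup U) : Prop where
  normal : D.Normal
  le_ker : D ≤ π.ker
  not_central : ¬ D ≤ center U
  pgroup : IsPGroup s D
  minimal : ∀ N : Subgroup U, N.Normal → N ≤ D → N ≠ D → N ≤ center U
  ker_le : π.ker ≤ actTriv D

theorem MinCover.exists_heart {π : U →* A} (h : MinCover π)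
    (hW : ¬ π.ker ≤ center U) : ∃ (s : ℕ) (_ : Fact s.Prime) (D : Subgroup U), Heart π s D := by
  have h1 : ∃ (p : ℕ) (_ : Fact p.Prime) (P : Sylow p π.ker),
      ¬ (P : Subgroup π.ker).map π.ker.subtype ≤ center U := by
    by_contra hcon
    push Not at hcon
    apply hW
    apply le_of_sylow_le
    intro p hp
    exact ⟨default, hcon p hp default⟩
  obtain ⟨s, hs, P, hP⟩ := h1
  refine ⟨s, hs, ?_⟩
  set Q : Subgroup U := (P : Subgroup π.ker).map π.ker.subtype with hQ
  have hQn : Q.Normal := h.sylow_normal s P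
  have hQp : IsPGroup s Q := P.2.map _
  have hQW : Q ≤ π.ker := by
    rintro _ ⟨x, -, rfl⟩
    exact x.2
  obtain ⟨D, ⟨hDn, hDQ, hDc⟩, hmin⟩ := (wellFounded_lt (α := Subgroup U)).has_min
    {D : Subgroup U | D.Normal ∧ D ≤ Q ∧ ¬ D ≤ center U} ⟨Q, hQn, le_rfl, hP⟩
  have hmin' : ∀ N : Subgroup U, N.Normal → N ≤ D → N ≠ D → N ≤ center U := by
    intro N hN hND hne
    by_contra hNc
    exact hmin N ⟨hN, hND.trans hDQ, hNc⟩ (lt_of_le_of_ne hND hne)
  have hDne : D ≠ ⊥ := by
    rintro rfl
    exact hDc bot_le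
  refine ⟨D, hDn, hDQ.trans hQW, hDc, hQp.to_le hDQ, hmin', ?_⟩
  apply le_of_sylow_le
  intro t ht
  by_cases hts : t = s
  · subst hts
    refine ⟨P, ?_⟩
    rw [← hQ]
    intro w hw
    rw [mem_actTriv]
    intro x hx
    have h2 : ⁅D, Q⁆ ≤ center U := by
      exact hmin' _ inferInstance (commutator_le_left D Q) (comm_ne t Q D hQp hDQ hDne)
    exact h2 (commutator_mem_commutator hx hw)
  · refine ⟨default, ?_⟩
    set R : Subgroup U := ((default : Sylow t π.ker) : Subgroup π.ker).map π.ker.subtype with hR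
    have hRn : R.Normal := h.sylow_normal t default
    have hRp : IsPGroup t R := (default : Sylow t π.ker).2.map _
    intro w hw
    rw [mem_actTriv]
    intro x hx
    have h2 : Disjoint D R := IsPGroup.disjoint_of_ne s t (Ne.symm hts) _ _ (hQp.to_le hDQ) hRp
    have h3 : ⁅D, R⁆ = ⊥ := commutator_eq_bot_of_disjoint h2
    have h4 : ⁅x, w⁆ ∈ ⁅D, R⁆ := commutator_mem_commutator hx hw
    rw [h3, mem_bot] at h4
    rw [h4]
    exact one_mem _

end Heart

end TransDeg.Red
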