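import Pool.Agent.TransDeg.Red4

/-!
Group theory of the heart: class two, exponent `s` modulo the centre, the action of `A`.
-/

open Subgroup
open scoped commutatorElement

namespace TransDeg.Red

section Heart2

variable {U A : Type*} [Group U] [Finite U] [Group A] {π : U →* A} {s : ℕ} {D : Subgroup U}

omit [Finite U] in
lemma Heart.comm_mem (H : Heart π s D) {x : U} (hx : x ∈ D) {w : U} (hw : w ∈ π.ker) :
    ⁅x, w⁆ ∈ center U := mem_actTriv.mp (H.ker_le hw) x hx

omit [Finite U] in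
lemma Heart.comm_mem' (H : Heart π s D) {x y : U} (hx : x ∈ D) (hy : y ∈ D) :
    ⁅x, y⁆ ∈ center U := H.comm_mem hx (H.le_ker hy)

omit [Finite U] in
lemma comm_mul_left {x x' y : U} (h : ⁅x', y⁆ ∈ center U) :
    ⁅x * x', y⁆ = ⁅x, y⁆ * ⁅x', y⁆ := by
  rw [commutatorElement_mul_left_eq_conj_mul]
  have h1 := mem_center_iff.mp h x
  rw [h1, mul_assoc (⁅x', y⁆) x x⁻¹, mul_inv_cancel, mul_one]
  exact (mem_center_iff.mp h _).symm

omit [Finite U] in
lemma comm_central_left {z y : U} (h : z ∈ center U) : ⁅z, y⁆ = 1 := by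
  rw [commutatorElement_eq_one_iff_mul_comm]
  exact (mem_center_iff.mp h y).symm

omit [Finite U] in
lemma comm_inv' (x y : U) : ⁅y, x⁆ = ⁅x, y⁆⁻¹ := (commutatorElement_inv x y).symm

omit [Finite U] in
lemma comm_mul_right {x y y' : U} (h' : ⁅y', x⁆ ∈ center U) :
    ⁅x, y * y'⁆ = ⁅x, y⁆ * ⁅x, y'⁆ := by
  rw [comm_inv' (y * y') x, comm_mul_left h', mul_inv_rev, ← comm_inv', ← comm_inv']
  have : ⁅x, y'⁆ ∈ center U := by
    rw [comm_inv' y' x]; exact inv_mem h'
  exact (mem_center_iff.mp this _).symm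

omit [Finite U] in
/-- `s`-th powers of the heart are central. -/
theorem Heart.pow_mem (H : Heart π s D) {x : U} (hx : x ∈ D) : x ^ s ∈ center U := by
  let N : Subgroup U :=
    { carrier := {x | x ∈ D ∧ x ^ s ∈ center U}
      one_mem' := ⟨one_mem _, by rw [one_pow]; exact one_mem _⟩
      inv_mem' := fun {x} hx => ⟨inv_mem hx.1, by rw [inv_pow]; exact inv_mem hx.2⟩
      mul_mem' := by
        rintro x y ⟨hx, hx'⟩ ⟨hy, hy'⟩
        refine ⟨mul_mem hx hy, ?_⟩
        rw [← QuotientGroup.eq_one_iff] at hx' hy' ⊢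
        have hc : Commute (x : U ⧸ center U) (y : U ⧸ center U) := by
          rw [← commutatorElement_eq_one_iff_commute]
          have := H.comm_mem' hx hy
          rw [← QuotientGroup.eq_one_iff] at this
          exact this
        rw [QuotientGroup.mk_pow] at hx' hy' ⊢
        rw [QuotientGroup.mk_mul, hc.mul_pow, hx', hy', one_mul] }
  have hN : N.Normal := by
    refine ⟨fun x hx u => ⟨H.normal.conj_mem x hx.1 u, ?_⟩⟩
    rw [conj_pow]
    have : (center U).Normal := inferInstance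
    exact this.conj_mem _ hx.2 u
  have hND : N ≤ D := fun x hx => hx.1
  have hNeq : N = D := by
    by_contra hne
    have h1 := H.minimal N hN hND hne
    obtain ⟨y, hyD, hyc⟩ := SetLike.not_le_iff_exists.mp H.not_central
    obtain ⟨k, hk⟩ := H.pgroup ⟨y, hyD⟩
    have hk' : y ^ s ^ k = 1 := by simpa using congrArg Subtype.val hk
    classical
    have hex : ∃ k, y ^ s ^ k ∈ center U := ⟨k, by rw [hk']; exact one_mem _⟩
    have h2 := Nat.find_spec hex
    have h3 : Nat.find hex ≠ 0 := by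
      intro h0
      rw [h0] at h2
      apply hyc
      simpa using h2
    obtain ⟨j, hj⟩ := Nat.exists_eq_succ_of_ne_zero h3
    have h4 : y ^ s ^ j ∉ center U := Nat.find_min hex (by omega)
    apply h4
    apply h1
    refine ⟨_root_.pow_mem hyD _, ?_⟩
    rw [← pow_mul, ← pow_succ]
    rw [hj] at h2
    exact h2
  rw [← hNeq] at hx
  exact hx.2

/-- The image of `D` modulo the centre. -/
abbrev bar (D : Subgroup U) : Subgroup (U ⧸ center U) := D.map (QuotientGroup.mk' (center U))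

omit [Finite U] in
lemma Heart.bar_normal (H : Heart π s D) : (bar D).Normal :=
  H.normal.map _ (QuotientGroup.mk'_surjective _)

/-- the class of `x ∈ D` in `bar D` -/
def cls {x : U} (hx : x ∈ D) : bar D := ⟨QuotientGroup.mk' (center U) x, ⟨x, hx, rfl⟩⟩

omit [Finite U] in
lemma cls_surj (X : bar D) : ∃ (x : U) (hx : x ∈ D), cls hx = X := by
  obtain ⟨X, x, hx, rfl⟩ := X
  exact ⟨x, hx, rfl⟩

omit [Finite U] in
lemma cls_eq {x y : U} {hx : x ∈ D} {hy : y ∈ D} : cls hx = cls hy ↔ x⁻¹ * y ∈ center U := by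
  rw [Subtype.ext_iff]
  show (QuotientGroup.mk' (center U)) x = (QuotientGroup.mk' (center U)) y ↔ _
  rw [QuotientGroup.mk'_apply, QuotientGroup.mk'_apply, QuotientGroup.eq]

omit [Finite U] in
lemma cls_mul {x y : U} (hx : x ∈ D) (hy : y ∈ D) : cls hx * cls hy = cls (mul_mem hx hy) := rfl

omit [Finite U] in
lemma cls_one : cls (one_mem D) = 1 := rfl

omit [Finite U] in
lemma Heart.bar_comm (H : Heart π s D) (X Y : bar D) : X * Y = Y * X := by
  obtain ⟨x, hx, rfl⟩ := cls_surj X
  obtain ⟨y, hy, rfl⟩ := cls_surj Y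
  rw [cls_mul, cls_mul, cls_eq]
  have h := H.comm_mem' (inv_mem hy) (inv_mem hx)
  have h2 : (x * y)⁻¹ * (y * x) = ⁅y⁻¹, x⁻¹⁆ := by
    rw [commutatorElement_def]; group
  rw [h2]
  exact h

lemma Heart.bar_pow (H : Heart π s D) (X : bar D) : X ^ s = 1 := by
  obtain ⟨x, hx, rfl⟩ := cls_surj X
  have h := H.pow_mem hx
  apply Subtype.ext
  show (QuotientGroup.mk' (center U) x) ^ s = 1
  rw [← map_pow, QuotientGroup.mk'_apply, QuotientGroup.eq_one_iff]
  exact h

/-- the conjugation action of `U` on `bar D` -/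
def conjAct (H : Heart π s D) : U →* MulAut (bar D) :=
  haveI := H.bar_normal
  (MulAut.conjNormal (H := bar D)).comp (QuotientGroup.mk' (center U))

omit [Finite U] in
lemma conjAct_cls (H : Heart π s D) (u : U) {x : U} (hx : x ∈ D) :
    conjAct H u (cls hx) = cls (H.normal.conj_mem x hx u) := by
  have := H.bar_normal
  apply Subtype.ext
  simp only [conjAct, MonoidHom.comp_apply]
  rw [MulAut.conjNormal_apply]
  rfl

omit [Finite U] in
lemma ker_le_conjAct (H : Heart π s D) : π.ker ≤ (conjAct H).ker := by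
  intro w hw
  rw [MonoidHom.mem_ker]
  ext X : 1
  obtain ⟨x, hx, rfl⟩ := cls_surj X
  rw [conjAct_cls]
  show _ = cls hx
  rw [cls_eq]
  have h := H.comm_mem (inv_mem hx) hw
  have h2 : (w * x * w⁻¹)⁻¹ * x = ⁅w, x⁻¹⁆ := by
    rw [commutatorElement_def]; group
  rw [h2, comm_inv']
  exact inv_mem h

/-- the action of the simple quotient on `bar D` -/
noncomputable def barAct (hπ : Function.Surjective π) (H : Heart π s D) : A →* MulAut (bar D) :=
  π.liftOfSurjective hπ ⟨conjAct H, ker_le_conjAct H⟩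

omit [Finite U] in
lemma barAct_cls (hπ : Function.Surjective π) (H : Heart π s D) (u : U) {x : U} (hx : x ∈ D) :
    barAct hπ H (π u) (cls hx) = cls (H.normal.conj_mem x hx u) := by
  rw [← conjAct_cls H, barAct]
  have := π.liftOfRightInverse_comp_apply (Function.surjInv hπ) (Function.rightInverse_surjInv hπ)
    ⟨conjAct H, ker_le_conjAct H⟩ u
  rw [← this]

omit [Finite U] in
theorem MinCover.barAct_ne_one [IsSimpleGroup A] (hA : ∃ a b : A, a * b ≠ b * a)
    (h : MinCover π) (H : Heart π s D) : barAct h.surj H ≠ 1 := by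
  intro h1
  apply H.not_central
  have h2 : ⁅D, (⊤ : Subgroup U)⁆ ≤ center U := by
    rw [commutator_le]
    intro x hx u _
    have h3 := barAct_cls h.surj H u (inv_mem hx)
    rw [h1] at h3
    have h4 : cls (inv_mem hx) = cls (H.normal.conj_mem _ (inv_mem hx) u) := h3
    rw [cls_eq] at h4
    have h5 : x⁻¹⁻¹ * (u * x⁻¹ * u⁻¹) = ⁅x, u⁆ := by
      rw [commutatorElement_def]; group
    rwa [h5] at h4
  have h3 : ⁅⁅D, (⊤ : Subgroup U)⁆, (⊤ : Subgroup U)⁆ = ⊥ :=
    commutator_top_right_eq_bot_iff_le_center.mpr h2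
  have h4 : ⁅⁅(⊤ : Subgroup U), D⁆, (⊤ : Subgroup U)⁆ = ⊥ := by
    rw [commutator_comm (⊤ : Subgroup U) D]; exact h3
  have h5 : ⁅⁅(⊤ : Subgroup U), (⊤ : Subgroup U)⁆, D⁆ = ⊥ :=
    commutator_commutator_eq_bot_of_rotate h4 h3
  have h6 : ⁅(⊤ : Subgroup U), (⊤ : Subgroup U)⁆ = ⊤ := h.perfect hA
  rw [h6] at h5
  exact commutator_top_left_eq_bot_iff_le_center.mp h5

end Heart2

end TransDeg.Red
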