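import Pool.Agent.TransDeg.Red5

/-!
The alternating form on the heart and the bound on its order.
-/

open Subgroup
open scoped commutatorElement

namespace TransDeg.Red

section Form

variable {F V U A : Type*} [Field F] [AddCommGroup V] [Module F V] [Group U] [Finite U] [Group A]
  {π : U →* A} {s : ℕ} {D : Subgroup U}

/-- A central weight, extended by zero to the whole group. -/
structure CWt (ρ : U →* (V →ₗ[F] V)) (χ : U → F) (P : Submodule F V) : Prop where
  act : ∀ c ∈ center U, ∀ v ∈ P, ρ c v = χ c • v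
  inv : ∀ u : U, ∀ v ∈ P, ρ u v ∈ P
  one : χ 1 = 1
  mul : ∀ c ∈ center U, ∀ c' ∈ center U, χ (c * c') = χ c * χ c'
  ne : P ≠ ⊥

lemma exists_cwt [IsAlgClosed F] [FiniteDimensional F V] (hU : (Nat.card U : F) ≠ 0)
    (ρ : U →* (V →ₗ[F] V)) (hρ : Function.Injective ρ) (H : Heart π s D)
    (hD : ∃ x ∈ D, ∃ y ∈ D, ⁅x, y⁆ ≠ 1) :
    ∃ (χ : U → F) (P : Submodule F V), CWt ρ χ P ∧ ∃ x ∈ D, ∃ y ∈ D, χ ⁅x, y⁆ ≠ 1 := by
  obtain ⟨x, hx, y, hy, hxy⟩ := hD
  have hcomm : ∀ a ∈ center U, ∀ b ∈ center U, a * b = b * a := fun a ha b _ =>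
    (mem_center_iff.mp ha b).symm
  have hc : ⁅x, y⁆ ∈ center U := H.comm_mem' hx hy
  have h1 : ∃ χ : center U → F, wt ρ (center U) χ ≠ ⊥ ∧ χ ⟨⁅x, y⁆, hc⟩ ≠ 1 := by
    by_contra hcon
    push Not at hcon
    apply hxy
    apply hρ
    rw [map_one]
    apply ext_wt hU ρ (center U) hcomm
    intro χ hχ v hv
    rw [mem_wt] at hv
    have h2 := hv ⟨⁅x, y⁆, hc⟩
    rw [hcon χ hχ, one_smul] at h2
    exact h2
  obtain ⟨χ, hχ, hχ1⟩ := h1
  classical
  obtain ⟨v0, hv0, hv0'⟩ := (Submodule.ne_bot_iff _).mp hχ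
  have hmul : ∀ a b : center U, χ (a * b) = χ a * χ b := by
    intro a b
    have h2 := mem_wt.mp hv0
    have h3 := h2 (a * b)
    have h4 : ((a * b : center U) : U) = (a : U) * (b : U) := rfl
    rw [h4, rho_mul, h2 b, map_smul, h2 a, smul_smul] at h3
    have h5 : (χ b * χ a - χ (a * b)) • v0 = 0 := by rw [sub_smul, h3, sub_self]
    rcases smul_eq_zero.mp h5 with h6 | h6
    · rw [sub_eq_zero] at h6
      rw [← h6, mul_comm]
    · exact absurd h6 hv0'
  have hone : χ 1 = 1 := by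
    have h3 := mem_wt.mp hv0 1
    have h4 : ((1 : center U) : U) = 1 := rfl
    rw [h4, map_one] at h3
    have h5 : (1 - χ 1) • v0 = 0 := by rw [sub_smul, one_smul, ← h3]; simp
    rcases smul_eq_zero.mp h5 with h6 | h6
    · rw [sub_eq_zero] at h6
      exact h6.symm
    · exact absurd h6 hv0'
  refine ⟨fun u => if h : u ∈ center U then χ ⟨u, h⟩ else 0, wt ρ (center U) χ,
    ⟨?_, ?_, ?_, ?_, hχ⟩, x, hx, y, hy, ?_⟩
  · intro c hc v hv
    simp only [hc, dite_true]
    exact mem_wt.mp hv ⟨c, hc⟩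
  · intro u v hv
    rw [mem_wt] at hv ⊢
    intro a
    rw [← rho_mul, ← mem_center_iff.mp a.2 u, rho_mul, hv a, map_smul]
  · simp only [one_mem, dite_true]
    exact hone
  · intro c hc c' hc'
    simp only [hc, hc', mul_mem hc hc', dite_true]
    exact hmul ⟨c, hc⟩ ⟨c', hc'⟩
  · simp only [hc, dite_true]
    exact hχ1

omit [Finite U] in
lemma CWt.inv_mul {ρ : U →* (V →ₗ[F] V)} {χ : U → F} {P : Submodule F V} (h : CWt ρ χ P)
    {c : U} (hc : c ∈ center U) : χ c⁻¹ * χ c = 1 := by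
  rw [← h.mul _ (inv_mem hc) _ hc, inv_mul_cancel, h.one]

omit [Finite U] in
/-- an element of `D` whose commutators with `D` all have trivial weight is central -/
lemma Heart.nondeg (H : Heart π s D) {ρ : U →* (V →ₗ[F] V)} {χ : U → F} {P : Submodule F V}
    (h : CWt ρ χ P) (hne : ∃ x ∈ D, ∃ y ∈ D, χ ⁅x, y⁆ ≠ 1) {x : U} (hx : x ∈ D)
    (hxy : ∀ y ∈ D, χ ⁅x, y⁆ = 1) : x ∈ center U := by
  let R : Subgroup U :=
    { carrier := {x | x ∈ D ∧ ∀ y ∈ D, χ ⁅x, y⁆ = 1}
      one_mem' := ⟨one_mem _, fun y _ => by rw [commutatorElement_one_left, h.one]⟩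
      inv_mem' := by
        rintro x ⟨hx, hxy⟩
        refine ⟨inv_mem hx, fun y hy => ?_⟩
        have h1 : ⁅x * x⁻¹, y⁆ = ⁅x, y⁆ * ⁅x⁻¹, y⁆ := comm_mul_left (H.comm_mem' (inv_mem hx) hy)
        rw [mul_inv_cancel, commutatorElement_one_left] at h1
        have h2 := congrArg χ h1
        rw [h.one, h.mul _ (H.comm_mem' hx hy) _ (H.comm_mem' (inv_mem hx) hy), hxy y hy,
          one_mul] at h2
        exact h2.symm
      mul_mem' := by
        rintro x x' ⟨hx, hxy⟩ ⟨hx', hxy'⟩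
        refine ⟨mul_mem hx hx', fun y hy => ?_⟩
        rw [comm_mul_left (H.comm_mem' hx' hy),
          h.mul _ (H.comm_mem' hx hy) _ (H.comm_mem' hx' hy), hxy y hy, hxy' y hy, one_mul] }
  have hR : R.Normal := by
    refine ⟨fun x hx u => ⟨H.normal.conj_mem x hx.1 u, fun y hy => ?_⟩⟩
    have h1 : u⁻¹ * y * u ∈ D := by
      have := H.normal.conj_mem y hy u⁻¹
      rwa [inv_inv] at this
    have h2 : ⁅u * x * u⁻¹, y⁆ = u * ⁅x, u⁻¹ * y * u⁆ * u⁻¹ := by
      rw [commutatorElement_def, commutatorElement_def]; group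
    have h3 := H.comm_mem' hx.1 h1
    rw [h2, mem_center_iff.mp h3 u, mul_assoc, mul_inv_cancel, mul_one]
    exact hx.2 _ h1
  have hRD : R ≤ D := fun x hx => hx.1
  have hRne : R ≠ D := by
    intro h1
    obtain ⟨x, hx, y, hy, hxy⟩ := hne
    rw [← h1] at hx
    exact hxy (hx.2 y hy)
  exact H.minimal R hR hRD hRne ⟨hx, hxy⟩

/-- the representation on an invariant subspace -/
def subRep (ρ : U →* (V →ₗ[F] V)) (P : Submodule F V) (hP : ∀ u : U, ∀ v ∈ P, ρ u v ∈ P) :
    U →* (P →ₗ[F] P) where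
  toFun u := (ρ u).restrict (hP u)
  map_one' := by
    ext v
    simp
  map_mul' u w := by
    ext v
    simp

omit [Finite U] in
lemma subRep_apply (ρ : U →* (V →ₗ[F] V)) (P : Submodule F V) (hP : ∀ u : U, ∀ v ∈ P, ρ u v ∈ P)
    (u : U) (v : P) : ((subRep ρ P hP u v : P) : V) = ρ u v := rfl

/-- conjugation operator on `End P` -/
def adj {P : Type*} [AddCommGroup P] [Module F P] (T : U →* (P →ₗ[F] P)) (u : U) :
    (P →ₗ[F] P) →ₗ[F] (P →ₗ[F] P) :=
  (LinearMap.mulLeft F (T u)).comp (LinearMap.mulRight F (T u⁻¹))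

omit [Finite U] in
lemma adj_apply {P : Type*} [AddCommGroup P] [Module F P] (T : U →* (P →ₗ[F] P)) (u : U)
    (X : P →ₗ[F] P) : adj T u X = T u * X * T u⁻¹ := by
  simp [adj, mul_assoc]

theorem Heart.card_le [FiniteDimensional F V]
    {ρ : U →* (V →ₗ[F] V)} (H : Heart π s D) {χ : U → F} {P : Submodule F V}
    (h : CWt ρ χ P) (hne : ∃ x ∈ D, ∃ y ∈ D, χ ⁅x, y⁆ ≠ 1) :
    Nat.card (bar D) ≤ (Module.finrank F V) ^ 2 := by
  classical
  set T : U →* (P →ₗ[F] P) := subRep ρ P h.inv with hT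
  have hTc : ∀ c ∈ center U, T c = χ c • (1 : P →ₗ[F] P) := by
    intro c hc
    ext v
    rw [hT, subRep_apply, h.act c hc v v.2]
    simp
  -- commuting family
  have hcomm : ∀ y y' : D, Commute (adj T (y : U)) (adj T (y' : U)) := by
    intro y y'
    apply LinearMap.ext
    intro X
    show adj T y (adj T y' X) = adj T y' (adj T y X)
    rw [adj_apply, adj_apply, adj_apply, adj_apply]
    have hc := H.comm_mem' y.2 y'.2
    have e1 : (y : U) * y' = ⁅(y : U), (y' : U)⁆ * (y' * y) := by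
      rw [commutatorElement_def]; group
    have e2 : (y' : U)⁻¹ * (y : U)⁻¹ = ((y : U)⁻¹ * (y' : U)⁻¹) * ⁅(y : U), (y' : U)⁆⁻¹ := by
      rw [commutatorElement_def]; group
    calc T y * (T y' * X * T (y' : U)⁻¹) * T (y : U)⁻¹
        = T ((y : U) * y') * X * T ((y' : U)⁻¹ * (y : U)⁻¹) := by
          rw [map_mul, map_mul]; simp only [mul_assoc]
      _ = (χ ⁅(y : U), (y' : U)⁆⁻¹ * χ ⁅(y : U), (y' : U)⁆) •
            (T ((y' : U) * y) * X * T ((y : U)⁻¹ * (y' : U)⁻¹)) := by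
          rw [e1, e2, map_mul T ⁅(y : U), (y' : U)⁆, map_mul T _ ⁅(y : U), (y' : U)⁆⁻¹, hTc _ hc,
            hTc _ (inv_mem hc)]
          simp only [smul_mul_assoc, one_mul, mul_smul_comm, mul_one, smul_smul]
      _ = T y' * (T y * X * T (y : U)⁻¹) * T (y' : U)⁻¹ := by
          rw [h.inv_mul hc, one_smul, map_mul, map_mul]; simp only [mul_assoc]
  have hind := Module.End.independent_iInf_maxGenEigenspace_of_forall_mapsTo
    (fun y : D => adj T (y : U)) (fun i j φ => Module.End.mapsTo_maxGenEigenspace_of_comm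
      (hcomm j i) φ)
  -- representatives
  choose r hr hrX using fun X : bar D => cls_surj X
  let lam : bar D → (D → F) := fun X y => χ ⁅(y : U), r X⁆
  have hlam : Function.Injective lam := by
    intro X Y hXY
    rw [← hrX X, ← hrX Y, cls_eq]
    apply H.nondeg h hne (mul_mem (inv_mem (hr X)) (hr Y))
    intro y hy
    have h1 : χ ⁅y, r X⁆ = χ ⁅y, r Y⁆ := congrFun hXY ⟨y, hy⟩
    have c1 := H.comm_mem' (hr X) hy
    have c2 := H.comm_mem' (hr Y) hy
    have c1' := H.comm_mem' (inv_mem (hr X)) hy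
    have h2 : χ ⁅r X, y⁆ = χ ⁅r Y, y⁆ := by
      have e1 := h.inv_mul c1
      have e2 := h.inv_mul c2
      rw [← comm_inv'] at e1 e2
      rw [h1] at e1
      have e3 : χ ⁅y, r Y⁆ ≠ 0 := by
        intro h0; rw [h0, zero_mul] at e1; exact zero_ne_one e1
      exact mul_left_cancel₀ e3 (e1.trans e2.symm)
    have h3 : χ ⁅(r X)⁻¹, y⁆ * χ ⁅r X, y⁆ = 1 := by
      rw [← h.mul _ c1' _ c1, ← comm_mul_left c1, inv_mul_cancel, commutatorElement_one_left,
        h.one]
    rw [comm_mul_left c2, h.mul _ c1' _ c2, ← h2]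
    exact h3
  have hmem : ∀ X : bar D, T (r X) ∈ ⨅ y : D, Module.End.maxGenEigenspace (adj T (y : U)) (lam X y) := by
    intro X
    rw [Submodule.mem_iInf]
    intro y
    apply Module.End.eigenspace_le_maxGenEigenspace
    rw [Module.End.mem_eigenspace_iff, adj_apply]
    have hc := H.comm_mem' y.2 (hr X)
    have e1 : (y : U) * r X * (y : U)⁻¹ = ⁅(y : U), r X⁆ * r X := by
      rw [commutatorElement_def]; group
    rw [← map_mul, ← map_mul, e1, map_mul, hTc _ hc]
    simp only [smul_mul_assoc, one_mul]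
    rfl
  have hne0 : ∀ X : bar D, T (r X) ≠ 0 := by
    intro X h0
    obtain ⟨v, hv, hv0⟩ := (Submodule.ne_bot_iff _).mp h.ne
    apply hv0
    have h1 : ((T (r X) ⟨v, hv⟩ : P) : V) = ρ (r X) v := subRep_apply ρ P h.inv _ _
    rw [h0] at h1
    have h2 : ρ (r X) v = 0 := h1.symm
    rw [← rho_inv ρ (r X) v, h2, map_zero]
  have hLI : LinearIndependent F (fun X : bar D => T (r X)) :=
    iSupIndep.linearIndependent _ (hind.comp hlam) hmem hne0
  have := Fintype.ofFinite (bar D)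
  have h1 := hLI.fintype_card_le_finrank
  rw [Module.finrank_linearMap] at h1
  have h2 : Module.finrank F P ≤ Module.finrank F V := Submodule.finrank_le P
  rw [Nat.card_eq_fintype_card]
  calc Fintype.card (bar D) ≤ _ := h1
    _ ≤ Module.finrank F V * Module.finrank F V := Nat.mul_le_mul h2 h2
    _ = _ := (sq _).symm

end Form

end TransDeg.Red
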