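import Pool.Agent.TD.Affine

/-!
The class of groups without a section isomorphic to the alternating group of degree `n`.
-/

set_option autoImplicit false

namespace TransDeg.Sect

open Function Pool.Agent.TD

abbrev Alt (n : ℕ) : Type := alternatingGroup (Fin n)

/-- `Alt n` is not a section of `G`. -/
def NoSect (n : ℕ) (G : Type) [Group G] : Prop :=
  ∀ (D : Subgroup G) (f : D →* Alt n), ¬ Surjective f

theorem noSect_of_hom {n : ℕ} {G : Type} [Group G] (h : NoSect n G) (D : Type) [Group D]
    (i : D →* G) (f : D →* Alt n) (hk : i.ker ≤ f.ker) : ¬ Surjective f := by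
  intro hf
  have e := QuotientGroup.quotientKerEquivRange i
  let g : D ⧸ i.ker →* Alt n := QuotientGroup.lift i.ker f hk
  refine h i.range (g.comp e.symm.toMonoidHom) ?_
  intro a
  obtain ⟨d, rfl⟩ := hf a
  refine ⟨e (d : D ⧸ i.ker), ?_⟩
  show g (e.symm (e (d : D ⧸ i.ker))) = f d
  rw [e.symm_apply_apply]
  rfl

/-- The class of groups without `Alt n`-section. -/
def noAlt (n : ℕ) (hn : 5 ≤ n) : GClass where
  P := fun G _ => NoSect n G
  surj := by
    intro G H _ _ f hf h D φ hφ
    -- preimage of D
    let ψ : D.comap f →* D := f.subgroupComap D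
    have hψ : Surjective ψ := by
      rintro ⟨d, hd⟩
      obtain ⟨g, rfl⟩ := hf d
      exact ⟨⟨g, hd⟩, rfl⟩
    exact h (D.comap f) (φ.comp ψ) (hφ.comp hψ)
  ext := by
    intro G H _ _ f hk h D φ hφ
    have : IsSimpleGroup (Alt n) := alternatingGroup.isSimpleGroup (by simpa using hn)
    let fD : D →* H := f.comp D.subtype
    have hN : (fD.ker.map φ).Normal := Subgroup.Normal.map inferInstance φ hφ
    rcases hN.eq_bot_or_eq_top with h1 | h1
    · -- the kernel dies: section of H
      refine noSect_of_hom h D fD φ ?_ hφ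
      intro x hx
      have h2 : φ x ∈ fD.ker.map φ := ⟨x, hx, rfl⟩
      rw [h1] at h2
      exact h2
    · let j : fD.ker →* f.ker :=
        { toFun := fun x => ⟨((x : D) : G), x.2⟩
          map_one' := rfl
          map_mul' := fun _ _ => rfl }
      refine noSect_of_hom hk fD.ker j (φ.comp fD.ker.subtype) ?_ ?_
      · intro x hx
        rw [MonoidHom.mem_ker] at hx ⊢
        have h2 : ((x : D) : G) = 1 := congrArg Subtype.val hx
        have h3 : (x : D) = 1 := Subtype.ext h2
        show φ (x : D) = 1
        rw [h3, map_one]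
      · intro a
        have h2 : a ∈ fD.ker.map φ := by rw [h1]; exact Subgroup.mem_top _
        obtain ⟨x, hx, rfl⟩ := h2
        exact ⟨⟨x, hx⟩, rfl⟩
  lim := by
    classical
    intro G _ h D φ hφ
    choose d hd using hφ
    obtain ⟨U, hU, hP⟩ := h (Finset.univ.image fun a => ((d a : D) : G))
    let i : (D ⊓ U : Subgroup G) →* U := Subgroup.inclusion inf_le_right
    let j : (D ⊓ U : Subgroup G) →* D := Subgroup.inclusion inf_le_left
    refine noSect_of_hom hP (D ⊓ U : Subgroup G) i (φ.comp j) ?_ ?_
    · intro x hx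
      rw [MonoidHom.mem_ker] at hx ⊢
      have h2 : (x : G) = 1 := congrArg Subtype.val hx
      have h3 : x = 1 := Subtype.ext h2
      rw [h3, map_one]
    · intro a
      refine ⟨⟨((d a : D) : G), (d a).2, hU _ (Finset.mem_image.mpr ⟨a, Finset.mem_univ _, rfl⟩)⟩, ?_⟩
      exact hd a
  triv := by
    intro D φ hφ
    have h1 : Nontrivial (Alt n) := by
      have : IsSimpleGroup (Alt n) := alternatingGroup.isSimpleGroup (by simpa using hn)
      infer_instance
    obtain ⟨a, ha⟩ := exists_ne (1 : Alt n)
    obtain ⟨x, hx⟩ := hφ a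
    have : x = 1 := Subsingleton.elim _ _
    rw [this, map_one] at hx
    exact ha hx.symm

/-- A group without `Alt n`-section has no `n`-transitive action. -/
theorem not_trans {n : ℕ} {G : Type} [Group G] (h : NoSect n G) (X : Type)
    [MulAction G X] (x : Fin n ↪ X) : ¬ ∀ x y : Fin n ↪ X, ∃ g : G, ∀ i, g • x i = y i := by
  intro H
  -- the set stabiliser of the range, as a subgroup of `G × Perm (Fin n)`
  let D : Subgroup (G × Alt n) :=
    { carrier := {p | ∀ i, p.1 • x i = x ((p.2 : Equiv.Perm (Fin n)) i)}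
      one_mem' := fun i => by simp
      mul_mem' := by
        intro p q hp hq i
        show (p.1 * q.1) • x i = x (((p.2 * q.2 : Alt n) : Equiv.Perm (Fin n)) i)
        rw [mul_smul, hq, hp]
        rfl
      inv_mem' := by
        intro p hp i
        show p.1⁻¹ • x i = x (((p.2⁻¹ : Alt n) : Equiv.Perm (Fin n)) i)
        rw [inv_smul_eq_iff, hp]
        congr 1
        show i = ((p.2 * p.2⁻¹ : Alt n) : Equiv.Perm (Fin n)) i
        rw [mul_inv_cancel]
        rfl }
  let i1 : D →* G := (MonoidHom.fst G (Alt n)).comp D.subtype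
  let i2 : D →* Alt n := (MonoidHom.snd G (Alt n)).comp D.subtype
  refine noSect_of_hom h D i1 i2 ?_ ?_
  · intro p hp
    rw [MonoidHom.mem_ker] at hp ⊢
    have h1 : (p : G × Alt n).1 = 1 := hp
    have h2 := p.2
    show (p : G × Alt n).2 = 1
    apply Subtype.ext
    ext i : 1
    apply x.injective
    have h3 : (p : G × Alt n).1 • x i = x (((p : G × Alt n).2 : Equiv.Perm (Fin n)) i) := h2 i
    rw [h1, one_smul] at h3
    exact h3.symm
  · intro a
    obtain ⟨g, hg⟩ := H x ((a : Equiv.Perm (Fin n)).toEmbedding.trans x)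
    exact ⟨⟨(g, a), fun i => hg i⟩, rfl⟩

end TransDeg.Sect
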