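import Pool.Agent.TransDeg.PairCycle

/-!
An automorphism of order 7 of a small symplectic space (the case of degree 8).
-/

set_option autoImplicit false

namespace TransDeg.Cyc

open TransDeg.Red

section Seven

variable {M : Type*} [CommGroup M] [Finite M]

/-- the subgroup of fixed points -/
def fixs (g : MulAut M) : Subgroup M where
  carrier := {x | g x = x}
  one_mem' := map_one g
  mul_mem' := fun {a b} ha hb => by
    show g (a * b) = a * b
    rw [map_mul, ha, hb]
  inv_mem' := fun {a} ha => by
    show g a⁻¹ = a⁻¹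
    rw [map_inv, ha]

/-- the map `x ↦ g x / x` -/
def del (g : MulAut M) : M →* M where
  toFun x := g x * x⁻¹
  map_one' := by simp
  map_mul' a b := by
    rw [map_mul, mul_inv]
    exact mul_mul_mul_comm _ _ _ _

omit [Finite M] in
lemma del_ker (g : MulAut M) : (del g).ker = fixs g := by
  ext x
  show g x * x⁻¹ = 1 ↔ g x = x
  rw [mul_inv_eq_one]

lemma card_fix_modEq (g : MulAut M) (hg7 : g ^ 7 = 1) :
    Nat.card M ≡ Nat.card (fixs g) [MOD 7] := by
  have : Fact (Nat.Prime 7) := ⟨by norm_num⟩
  have hP : IsPGroup 7 (Subgroup.zpowers g) := by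
    rintro ⟨x, k, rfl⟩
    refine ⟨1, ?_⟩
    apply Subtype.ext
    show (g ^ k) ^ 7 ^ 1 = 1
    rw [pow_one, ← zpow_natCast, ← zpow_mul, mul_comm, zpow_mul, zpow_natCast, hg7, one_zpow]
  have h1 := hP.card_modEq_card_fixedPoints M
  have h2 : MulAction.fixedPoints (Subgroup.zpowers g) M = (fixs g : Set M) := by
    ext x
    rw [MulAction.mem_fixedPoints]
    constructor
    · intro h
      exact h ⟨g, Subgroup.mem_zpowers g⟩
    · rintro h ⟨_, k, rfl⟩
      have h3 : g ∈ MulAction.stabilizer (MulAut M) x := h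
      exact (MulAction.stabilizer (MulAut M) x).zpow_mem h3 k
  rw [h2] at h1
  exact h1

/-- possible orders of the fixed subgroup -/
lemma fix_card (g : MulAut M) (hg7 : g ^ 7 = 1) (hg : g ≠ 1) (s d : ℕ) (hs : s.Prime)
    (hcard : Nat.card M = s ^ d) :
    ∃ e, e < d ∧ Nat.card (fixs g) = s ^ e ∧ s ^ d ≡ s ^ e [MOD 7] := by
  have h1 : Nat.card (fixs g) ∣ s ^ d := by rw [← hcard]; exact Subgroup.card_subgroup_dvd_card _
  obtain ⟨e, he, hce⟩ := (Nat.dvd_prime_pow hs).mp h1
  refine ⟨e, ?_, hce, ?_⟩
  · rcases he.lt_or_eq with h | h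
    · exact h
    · exfalso
      apply hg
      have h2 : fixs g = ⊤ := by
        apply Subgroup.eq_top_of_card_eq
        rw [hce, hcard, h]
      ext x
      have : x ∈ fixs g := by rw [h2]; exact Subgroup.mem_top _
      exact this
  · have := card_fix_modEq g hg7
    rw [hcard, hce] at this
    exact this

lemma five_impossible (g : MulAut M) (hg7 : g ^ 7 = 1) (hg : g ≠ 1) (d : ℕ)
    (hcard : Nat.card M = 5 ^ d) (h36 : 5 ^ d ≤ 36) : False := by
  obtain ⟨e, hed, -, hmod⟩ := fix_card g hg7 hg 5 d (by norm_num) hcard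
  have hd : d ≤ 2 := by
    by_contra hd
    have : 5 ^ 3 ≤ 5 ^ d := Nat.pow_le_pow_right (by norm_num) (by omega)
    omega
  interval_cases d <;> interval_cases e <;> simp [Nat.ModEq] at hmod

lemma two_impossible {F : Type*} [Field F] (g : MulAut M) (hg7 : g ^ 7 = 1) (hg : g ≠ 1) (d : ℕ)
    (hcard : Nat.card M = 2 ^ d) (h36 : 2 ^ d ≤ 36) (h2 : ∀ x : M, x ^ 2 = 1)
    (form : M → M → F)
    (mul_left : ∀ x y z, form (x * y) z = form x z * form y z)
    (mul_right : ∀ x y z, form x (y * z) = form x y * form x z)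
    (alt : ∀ x, form x x = 1)
    (inv : ∀ x y, form (g x) (g y) = form x y)
    (nondeg : ∀ x, (∀ y, form x y = 1) → x = 1) : False := by
  obtain ⟨e, hed, hce, hmod⟩ := fix_card g hg7 hg 2 d (by norm_num) hcard
  have hd : d ≤ 5 := by
    by_contra hd
    have : 2 ^ 6 ≤ 2 ^ d := Nat.pow_le_pow_right (by norm_num) (by omega)
    omega
  have hde : d = e + 3 := by
    interval_cases d <;> interval_cases e <;> simp [Nat.ModEq] at hmod ⊢
  set K : Subgroup M := (del g).range with hK
  have hcK : Nat.card K = 8 := by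
    have h1 : Nat.card (del g).ker * Nat.card K = Nat.card M := by
      rw [hK, ← Subgroup.index_ker, Subgroup.card_mul_index]
    rw [del_ker, hce, hcard, hde, pow_add] at h1
    have : (0 : ℕ) < 2 ^ e := by positivity
    have := Nat.eq_of_mul_eq_mul_left this h1
    simpa using this
  have hinv2 : ∀ x : M, x⁻¹ = x := by
    intro x
    rw [inv_eq_iff_mul_eq_one, ← sq]
    exact h2 x
  -- elements of `K` fixed by `g` are trivial
  have hKC : ∀ y ∈ K, g y = y → y = 1 := by
    rintro _ ⟨x, rfl⟩ hy
    have hy1 : del g x = g x * x⁻¹ := rfl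
    rw [hy1] at hy ⊢
    have h3 : g x = (g x * x⁻¹) * x := by group
    have h4 : g (g x) = x := by
      have h5 : g (g x) = g ((g x * x⁻¹) * x) := by rw [← h3]
      rw [h5, map_mul, hy]
      calc g x * x⁻¹ * g x = (g x) ^ 2 * x⁻¹ := by rw [sq]; exact mul_right_comm _ _ _
        _ = x⁻¹ := by rw [h2, one_mul]
        _ = x := hinv2 x
    have h6 : g x = x := by
      have h7 : (g ^ 7) x = g (g (g (g (g (g (g x)))))) := rfl
      rw [hg7] at h7
      rw [h4, h4, h4] at h7
      exact h7.symm
    rw [h6, mul_inv_cancel]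
  have hgK : ∀ y ∈ K, g y ∈ K := by
    rintro _ ⟨x, rfl⟩
    refine ⟨g x, ?_⟩
    show g (g x) * (g x)⁻¹ = g (g x * x⁻¹)
    rw [map_mul, map_inv]
  have hgpK : ∀ (i : ℕ), ∀ y ∈ K, (g ^ i) y ∈ K := by
    intro i
    induction i with
    | zero => intro y hy; simpa using hy
    | succ i ih =>
      intro y hy
      rw [pow_succ', MulAut.mul_apply]
      exact hgK _ (ih y hy)
  -- a nontrivial element of `K`
  have hKne : K ≠ ⊥ := by
    intro h
    rw [h] at hcK
    simp at hcK
  obtain ⟨y, hyK, hy1⟩ := (Subgroup.ne_bot_iff_exists_ne_one).mp hKne |>.elim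
    (fun a ha => (⟨a.1, a.2, fun h => ha (Subtype.ext h)⟩ : ∃ y : M, y ∈ K ∧ y ≠ 1))
  have hgy : g y ≠ y := fun h => hy1 (hKC y hyK h)
  have hadd : ∀ (i j : ℕ) (x : M), (g ^ i) ((g ^ j) x) = (g ^ (i + j)) x := by
    intro i j x
    rw [pow_add, MulAut.mul_apply]
  -- the orbit
  have hinj : Function.Injective (fun i : Fin 7 => (g ^ (i : ℕ)) y) := by
    have key : ∀ i j : ℕ, i < j → j < 7 → (g ^ i) y ≠ (g ^ j) y := by
      intro i j hij hj7 h
      have h3 : (g ^ (j - i)) y = y := by
        apply (g ^ i).injective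
        rw [hadd, Nat.add_sub_cancel' hij.le]
        exact h.symm
      have h4 : ∀ k : ℕ, (g ^ ((j - i) * k)) y = y := by
        intro k
        induction k with
        | zero => simp
        | succ k ih => rw [Nat.mul_succ, ← hadd, h3, ih]
      -- choose the inverse mod 7
      have h5 : ∃ k m : ℕ, (j - i) * k = 7 * m + 1 := by
        have : ∀ t : ℕ, 0 < t → t < 7 → ∃ k m : ℕ, t * k = 7 * m + 1 := by
          intro t ht0 ht7
          interval_cases t
          · exact ⟨1, 0, rfl⟩
          · exact ⟨4, 1, rfl⟩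
          · exact ⟨5, 2, rfl⟩
          · exact ⟨2, 1, rfl⟩
          · exact ⟨3, 2, rfl⟩
          · exact ⟨6, 5, rfl⟩
        exact this (j - i) (by omega) (by omega)
      obtain ⟨k, m, hkm⟩ := h5
      have h6 := h4 k
      rw [hkm, pow_succ, pow_mul, hg7, one_pow, one_mul] at h6
      exact hgy h6
    intro i j hij
    by_contra hne
    rcases lt_or_gt_of_ne (fun h => hne (Fin.ext h) : (i : ℕ) ≠ j) with h | h
    · exact key i j h j.2 hij
    · exact key j i h i.2 hij.symm
  have hne1 : ∀ i : ℕ, (g ^ i) y ≠ 1 := by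
    intro i h
    apply hy1
    apply (g ^ i).injective
    rw [h, map_one]
  -- every nontrivial element of `K` is in the orbit
  have horb : ∀ z ∈ K, z ≠ 1 → ∃ i : Fin 7, z = (g ^ (i : ℕ)) y := by
    classical
    have := Fintype.ofFinite K
    let f : Option (Fin 7) → K := fun o => Option.elim o 1 (fun i => ⟨(g ^ (i : ℕ)) y, hgpK i y hyK⟩)
    have hf : Function.Injective f := by
      intro a b hab
      rcases a with _ | a <;> rcases b with _ | b
      · rfl
      · exfalso
        exact hne1 b (congrArg Subtype.val hab).symm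
      · exfalso
        exact hne1 a (congrArg Subtype.val hab)
      · congr 1
        exact hinj (congrArg Subtype.val hab)
    have hf2 : Function.Surjective f := by
      apply ((Fintype.bijective_iff_injective_and_card f).mpr ⟨hf, ?_⟩).2
      rw [← Nat.card_eq_fintype_card (α := K), hcK]
      rfl
    intro z hz hz1
    obtain ⟨o, ho⟩ := hf2 ⟨z, hz⟩
    rcases o with _ | i
    · exact absurd (congrArg Subtype.val ho).symm hz1
    · exact ⟨i, (congrArg Subtype.val ho).symm⟩
  -- the relation
  obtain ⟨j, hj⟩ := horb (y * g y) (mul_mem hyK (hgK y hyK)) (by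
    intro h
    apply hgy
    have := eq_inv_of_mul_eq_one_right h
    rw [this, hinv2])
  set c : ℕ → F := fun i => form y ((g ^ i) y) with hc
  have hsq : ∀ a b : M, form a b * form a b = 1 := by
    intro a b
    rw [← mul_right, ← sq, h2]
    have h3 : form a (1 * 1) = form a 1 * form a 1 := mul_right a 1 1
    have h4 : form a (a * a) = form a a * form a a := mul_right a a a
    rw [alt, ← sq, h2, one_mul] at h4
    exact h4
  have hsymm : ∀ a b : M, form a b = form b a := by
    intro a b
    have h3 := alt (a * b)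
    rw [mul_left, mul_right, mul_right, alt, alt, one_mul, mul_one] at h3
    have h4 := hsq a b
    have h5 : form a b ≠ 0 := by
      intro h0
      rw [h0, zero_mul] at h4
      exact zero_ne_one h4
    exact mul_left_cancel₀ h5 (h4.trans h3.symm)
  have hinvp : ∀ (i : ℕ) (a b : M), form ((g ^ i) a) ((g ^ i) b) = form a b := by
    intro i
    induction i with
    | zero => intro a b; simp
    | succ i ih =>
      intro a b
      rw [pow_succ', MulAut.mul_apply, MulAut.mul_apply, inv, ih]
  have hc0 : c 0 = 1 := by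
    show form y ((g ^ 0) y) = 1
    rw [pow_zero]
    exact alt y
  have hcper : ∀ i, c (i + 7) = c i := by
    intro i
    show form y ((g ^ (i + 7)) y) = form y ((g ^ i) y)
    rw [pow_add, hg7, mul_one]
  have hcsym : ∀ i, i ≤ 7 → c (7 - i) = c i := by
    intro i hi
    show form y ((g ^ (7 - i)) y) = form y ((g ^ i) y)
    rw [← hinvp i y, hadd, Nat.add_sub_cancel' hi, hg7]
    exact hsymm _ _
  have hrel : ∀ i, c (i + j) = c i * c (i + 1) := by
    intro i
    show form y ((g ^ (i + (j : ℕ))) y) = form y ((g ^ i) y) * form y ((g ^ (i + 1)) y)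
    rw [← mul_right, ← hadd, ← hj, map_mul, ← hadd i 1, pow_one]
  have hsqc : ∀ i, c i * c i = 1 := fun i => hsq _ _
  have hj0 : (j : ℕ) ≠ 0 := by
    intro h0
    rw [h0, pow_zero] at hj
    apply hne1 1
    rw [pow_one]
    have : y * g y = y * 1 := by rw [mul_one]; exact hj
    exact mul_left_cancel this
  have hj1 : (j : ℕ) ≠ 1 := by
    intro h0
    rw [h0, pow_one] at hj
    apply hy1
    have : y * g y = 1 * g y := by rw [one_mul]; exact hj
    exact mul_right_cancel this
  have hcall : c 1 = 1 ∧ c 2 = 1 ∧ c 3 = 1 := by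
    have s1 : c 6 = c 1 := hcsym 1 (by norm_num)
    have s2 : c 5 = c 2 := hcsym 2 (by norm_num)
    have s3 : c 4 = c 3 := hcsym 3 (by norm_num)
    have p0 : c 7 = 1 := by rw [← hc0]; exact hcper 0
    have p1 : c 8 = c 1 := hcper 1
    have p2 : c 9 = c 2 := hcper 2
    have p3 : c 10 = c 3 := hcper 3
    have q1 := hsqc 1
    have q2 := hsqc 2
    have q3 := hsqc 3
    obtain ⟨j, hj7⟩ := j
    simp only at hj0 hj1 hrel
    have r0 := hrel 0
    have r1 := hrel 1
    have r2 := hrel 2
    have r3 := hrel 3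
    interval_cases j
    · exact absurd rfl hj0
    · exact absurd rfl hj1
    · norm_num at r0 r1 r2 r3
      grind
    · norm_num at r0 r1 r2 r3
      grind
    · norm_num at r0 r1 r2 r3
      grind
    · norm_num at r0 r1 r2 r3
      grind
    · norm_num at r0 r1 r2 r3
      grind
  -- `y` is orthogonal to `K`
  have hyK' : ∀ k ∈ K, form y k = 1 := by
    intro k hk
    by_cases hk1 : k = 1
    · subst hk1
      have h4 : form y (y * y) = form y y * form y y := mul_right y y y
      rw [alt, ← sq, h2, one_mul] at h4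
      exact h4
    · obtain ⟨i, rfl⟩ := horb k hk hk1
      obtain ⟨c1, c2, c3⟩ := hcall
      show c i = 1
      have s1 : c 6 = c 1 := hcsym 1 (by norm_num)
      have s2 : c 5 = c 2 := hcsym 2 (by norm_num)
      have s3 : c 4 = c 3 := hcsym 3 (by norm_num)
      fin_cases i
      · exact hc0
      · exact c1
      · exact c2
      · exact c3
      · exact s3.trans c3
      · exact s2.trans c2
      · exact s1.trans c1
  -- `y` is orthogonal to the fixed points
  have hyC : ∀ f ∈ fixs g, form y f = 1 := by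
    intro f hf
    obtain ⟨x, hx⟩ := hyK
    have hx' : y = g x * x⁻¹ := hx.symm
    have h3 : form (g x) f = form x f := by
      conv_lhs => rw [← (show g f = f from hf)]
      exact inv x f
    rw [hx', mul_left, h3, hinv2]
    exact hsq x f
  have hcompl : Subgroup.IsComplement' K (fixs g) := by
    apply Subgroup.isComplement'_of_card_mul_and_disjoint
    · rw [hcK, hce, hcard, hde, pow_add]
      ring
    · rw [Subgroup.disjoint_def]
      intro x hx hx'
      exact hKC x hx hx'
  apply hy1
  apply nondeg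
  intro m
  have hm : m ∈ K ⊔ fixs g := by rw [hcompl.sup_eq_top]; exact Subgroup.mem_top _
  obtain ⟨k, hk, f, hf, rfl⟩ := Subgroup.mem_sup.mp hm
  rw [mul_right, hyK' k hk, hyC f hf, one_mul]

end Seven

end TransDeg.Cyc
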