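import Pool.Agent.TransDeg.Red7

/-!
Nontrivial representations of alternating groups: the bound from one cycle of prime length.
-/

set_option autoImplicit false

open Subgroup

namespace TransDeg.Cyc

open TransDeg.Red

section Gen

variable {F V : Type*} [Field F] [AddCommGroup V] [Module F V]

/-- An operator of order dividing `ℓ`, not the identity, has an eigenvalue `≠ 1`, a primitive
`ℓ`-th root of unity. -/
lemma exists_eigen [IsAlgClosed F] [FiniteDimensional F V] {ℓ : ℕ}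
    (hF : (ℓ : F) ≠ 0) (T : V →ₗ[F] V) (hT : T ^ ℓ = 1) (hT1 : T ≠ 1) :
    ∃ (μ : F) (v : V), μ ≠ 1 ∧ μ ^ ℓ = 1 ∧ v ≠ 0 ∧ T v = μ • v := by
  have h1 : ∃ μ : F, μ ≠ 1 ∧ Module.End.eigenspace T μ ≠ ⊥ := by
    by_contra hcon
    push Not at hcon
    apply hT1
    have h2 := Module.End.iSup_maxGenEigenspace_eq_top T
    have h3 : Module.End.eigenspace T 1 = ⊤ := by
      rw [eq_top_iff, ← h2]
      refine iSup_le fun μ => ?_
      rw [maxGen_eq T ℓ hF hT μ]
      by_cases hμ : μ = 1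
      · rw [hμ]
      · rw [hcon μ hμ]; exact bot_le
    ext v
    have h4 : v ∈ Module.End.eigenspace T 1 := by rw [h3]; trivial
    rw [Module.End.mem_eigenspace_iff, one_smul] at h4
    simpa using h4
  obtain ⟨μ, hμ, hE⟩ := h1
  obtain ⟨v, hv, hv0⟩ := (Submodule.ne_bot_iff _).mp hE
  rw [Module.End.mem_eigenspace_iff] at hv
  refine ⟨μ, v, hμ, ?_, hv0, hv⟩
  have h5 : ∀ n : ℕ, (T ^ n) v = μ ^ n • v := by
    intro n
    induction n with
    | zero => simp
    | succ n ih =>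
      rw [pow_succ, Module.End.mul_apply, hv, map_smul, ih, smul_smul, pow_succ, mul_comm]
  have h6 := h5 ℓ
  rw [hT] at h6
  have h7 : (1 - μ ^ ℓ) • v = 0 := by
    rw [sub_smul, ← h6]; simp
  rcases smul_eq_zero.mp h7 with h8 | h8
  · exact (sub_eq_zero.mp h8).symm
  · exact absurd h8 hv0

/-- If `c` is conjugate to all its powers `c ^ j`, `1 ≤ j < ℓ`, then a representation in which `c`
acts nontrivially has dimension at least `ℓ - 1`. -/
theorem le_finrank_of_conj {A : Type*} [Group A] [IsAlgClosed F] [FiniteDimensional F V] {ℓ : ℕ}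
    (hℓ : ℓ.Prime) (hF : (ℓ : F) ≠ 0) (ρ : A →* (V →ₗ[F] V)) (c : A) (hc : c ^ ℓ = 1)
    (hρc : ρ c ≠ 1) (hconj : ∀ j : ℕ, 1 ≤ j → j < ℓ → IsConj c (c ^ j)) :
    ℓ - 1 ≤ Module.finrank F V := by
  have hT : ρ c ^ ℓ = 1 := by rw [← map_pow, hc, map_one]
  obtain ⟨μ, v, hμ1, hμℓ, hv0, hv⟩ := exists_eigen hF (ρ c) hT hρc
  have hord : orderOf μ = ℓ := by
    rcases (Nat.dvd_prime hℓ).mp (orderOf_dvd_of_pow_eq_one hμℓ) with h | h
    · rw [orderOf_eq_one_iff] at h; exact absurd h hμ1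
    · exact h
  -- eigenvectors for `μ ^ j`
  have hev : ∀ j : Fin (ℓ - 1), ∃ w : V,
      Module.End.HasEigenvector (ρ c) (μ ^ ((j : ℕ) + 1)) w := by
    intro j
    obtain ⟨g, hg⟩ := isConj_iff.mp (hconj (j + 1) (by omega) (by omega))
    refine ⟨ρ g⁻¹ v, ?_, ?_⟩
    · rw [Module.End.mem_eigenspace_iff]
      have h1 : ∀ n : ℕ, ρ (c ^ n) v = μ ^ n • v := by
        intro n
        induction n with
        | zero => simp
        | succ n ih =>
          rw [pow_succ, rho_mul, hv, map_smul, ih, smul_smul, pow_succ, mul_comm]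
      have h2 : c * g⁻¹ = g⁻¹ * c ^ ((j : ℕ) + 1) := by
        rw [← hg]; group
      rw [← rho_mul, h2, rho_mul, h1, map_smul]
    · intro h0
      apply hv0
      rw [← rho_inv' ρ g v, h0, map_zero]
  choose w hw using hev
  have hinj : Function.Injective (fun j : Fin (ℓ - 1) => μ ^ ((j : ℕ) + 1)) := by
    intro i j hij
    have h1 : μ ^ ((i : ℕ) + 1) = μ ^ ((j : ℕ) + 1) := hij
    have h2 := pow_injOn_Iio_orderOf (x := μ) (by rw [Set.mem_Iio, hord]; omega)
      (by rw [Set.mem_Iio, hord]; omega) h1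
    ext
    omega
  have hLI := Module.End.eigenvectors_linearIndependent' (ρ c) _ hinj w hw
  have h1 := hLI.fintype_card_le_finrank
  simpa using h1

end Gen

section Alt

/-- existence of an `ℓ`-cycle conjugate to all its powers -/
theorem exists_cycle (n ℓ : ℕ) (hℓ : ℓ.Prime) (hodd : Odd ℓ) (hn : ℓ + 2 ≤ n) :
    ∃ c : alternatingGroup (Fin n), c ≠ 1 ∧ c ^ ℓ = 1 ∧
      ∀ j : ℕ, 1 ≤ j → j < ℓ → IsConj c (c ^ j) := by
  obtain ⟨σ, hσ⟩ := (Equiv.Perm.exists_with_cycleType_iff (Fin n) (m := {ℓ})).mpr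
    ⟨by simp; omega, by simpa using hℓ.two_le⟩
  have hcyc : σ.IsCycle := by
    rw [← Equiv.Perm.card_cycleType_eq_one, hσ]; rfl
  have hord : orderOf σ = ℓ := by
    rw [← Equiv.Perm.lcm_cycleType, hσ]; simp
  have hsign : σ ∈ alternatingGroup (Fin n) := by
    rw [Equiv.Perm.mem_alternatingGroup, hcyc.sign, ← hcyc.orderOf, hord, hodd.neg_one_pow]
    rfl
  have hsupp : σ.support.card = ℓ := by rw [← hcyc.orderOf, hord]
  refine ⟨⟨σ, hsign⟩, ?_, ?_, ?_⟩
  · intro h
    have h1 : σ = 1 := congrArg Subtype.val h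
    rw [h1, orderOf_one] at hord
    exact hℓ.one_lt.ne hord
  · apply Subtype.ext
    show σ ^ ℓ = 1
    rw [← hord, pow_orderOf_eq_one]
  · intro j hj hjℓ
    apply alternatingGroup.isConj_of
    · show IsConj σ (σ ^ j)
      rw [Equiv.Perm.isConj_iff_cycleType_eq]
      have h1 : (σ ^ j).IsCycle := hcyc.isCycle_pow_pos_of_lt_prime_order (by rwa [hord]) j
        (by omega) (by rwa [hord])
      have h2 : orderOf (σ ^ j) = ℓ := by
        rw [orderOf_pow, hord]
        have : Nat.gcd ℓ j = 1 :=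
          (Nat.Prime.coprime_iff_not_dvd hℓ).mpr (Nat.not_dvd_of_pos_of_lt (by omega) hjℓ)
        rw [this, Nat.div_one]
      rw [hσ, h1.cycleType, ← h1.orderOf, h2]
    · show σ.support.card + 2 ≤ _
      rw [hsupp]
      simpa using hn

variable {F V : Type*} [Field F] [AddCommGroup V] [Module F V]

/-- nontrivial representations of a simple group are faithful -/
lemma ne_one_of_ne {A : Type*} [Group A] [IsSimpleGroup A] (ρ : A →* (V →ₗ[F] V)) (hρ : ρ ≠ 1)
    {a : A} (ha : a ≠ 1) : ρ a ≠ 1 := by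
  intro h
  have hker : ρ.ker = ⊥ ∨ ρ.ker = ⊤ := (inferInstance : ρ.ker.Normal).eq_bot_or_eq_top
  rcases hker with h1 | h1
  · have h2 : a ∈ ρ.ker := h
    rw [h1, mem_bot] at h2
    exact ha h2
  · apply hρ
    ext b : 1
    have h2 : b ∈ ρ.ker := by rw [h1]; exact mem_top _
    exact h2

/-- **Single cycle bound.** -/
theorem single_cycle [IsAlgClosed F] [FiniteDimensional F V] {n ℓ : ℕ} (hn5 : 5 ≤ n)
    (hℓ : ℓ.Prime) (hodd : Odd ℓ) (hn : ℓ + 2 ≤ n) (hF : (ℓ : F) ≠ 0)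
    (ρ : alternatingGroup (Fin n) →* (V →ₗ[F] V)) (hρ : ρ ≠ 1) :
    ℓ - 1 ≤ Module.finrank F V := by
  have : IsSimpleGroup (alternatingGroup (Fin n)) := alternatingGroup.isSimpleGroup (by simpa using hn5)
  obtain ⟨c, hc1, hcℓ, hconj⟩ := exists_cycle n ℓ hℓ hodd hn
  exact le_finrank_of_conj hℓ hF ρ c hcℓ (ne_one_of_ne ρ hρ hc1) hconj

end Alt

end TransDeg.Cyc
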