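import Pool.Agent.TransDeg.Nine
import Pool.Agent.TransDeg.Cent8

/-!
Lifts of commuting permutations; orbits of exponent vectors.
-/

set_option autoImplicit false
set_option linter.unusedSectionVars false

open Subgroup Module
open scoped commutatorElement

namespace TransDeg.Cent

section orbits

variable {α : Type*} [DecidableEq α] {m : ℕ}

/-- partial orbits -/
def orbG (ops : Fin m → α → α) : ℕ → α → Finset α
  | 0, p => {p}
  | n + 1, p => orbG ops n p ∪ Finset.univ.biUnion (fun i => (orbG ops n p).image (ops i))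

lemma orbG_closed {ops : Fin m → α → α} {E : α → Prop} (hE : ∀ i p, E p → E (ops i p)) (n : ℕ)
    {p : α} (hp : E p) : ∀ q ∈ orbG ops n p, E q := by
  induction n with
  | zero =>
    intro q hq
    have : q = p := by simpa [orbG] using hq
    rw [this]; exact hp
  | succ n ih =>
    intro q hq
    have h : q ∈ orbG ops n p ∨ ∃ i, ∃ r ∈ orbG ops n p, ops i r = q := by
      simpa [orbG] using hq
    rcases h with h | ⟨i, r, hr, rfl⟩
    · exact ih q h
    · exact hE i r (ih r hr)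

end orbits

section lifts

variable {Ω U : Type*} [Fintype Ω] [DecidableEq Ω] [Group U] {π : U →* alternatingGroup Ω}

lemma comm_central (hker : π.ker ≤ center U) {x y : U}
    (h : pm π x * pm π y = pm π y * pm π x) (w : U) :
    w * (x * y * x⁻¹ * y⁻¹) = (x * y * x⁻¹ * y⁻¹) * w := by
  apply central_of_pm hker
  rw [map_mul, map_mul, map_mul, map_inv, map_inv, h]
  group

/-- central commutator and powers -/
lemma comm_pow {x y z : U} (hz : ∀ w, w * z = z * w) (h : x * y * x⁻¹ = z * y) (b : ℕ) :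
    x * y ^ b * x⁻¹ = z ^ b * y ^ b := by
  have h1 : (x * y * x⁻¹) ^ b = x * y ^ b * x⁻¹ := conj_pow
  rw [← h1, h]
  exact (show Commute z y from (hz y).symm).mul_pow b

/-- lifts of commuting permutations whose coprime powers are central commute -/
lemma comm_coprime (hker : π.ker ≤ center U) {x y : U}
    (h : pm π x * pm π y = pm π y * pm π x) {a b : ℕ} (hab : Nat.Coprime a b)
    (hx : ∀ w, w * x ^ a = x ^ a * w) (hy : ∀ w, w * y ^ b = y ^ b * w) : x * y = y * x := by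
  set z := x * y * x⁻¹ * y⁻¹ with hz
  have hzc : ∀ w, w * z = z * w := comm_central hker h
  have h1 : x * y * x⁻¹ = z * y := by rw [hz]; group
  have h2 := comm_pow hzc h1 b
  have hzb : z ^ b = 1 := by
    have h3 : x * y ^ b * x⁻¹ = y ^ b := by
      rw [hy x, mul_assoc, mul_inv_cancel, mul_one]
    rw [h3] at h2
    exact (mul_eq_right.mp h2.symm)
  have hzi : ∀ w, w * z⁻¹ = z⁻¹ * w := fun w => by
    calc w * z⁻¹ = z⁻¹ * (z * w) * z⁻¹ := by group
      _ = z⁻¹ * (w * z) * z⁻¹ := by rw [hzc]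
      _ = z⁻¹ * w := by group
  have h4 : y * x * y⁻¹ = z⁻¹ * x := by
    have h5 : x * y = z * y * x := by rw [← h1]; group
    calc y * x * y⁻¹ = z⁻¹ * (z * y * x) * y⁻¹ := by group
      _ = z⁻¹ * (x * y) * y⁻¹ := by rw [h5]
      _ = z⁻¹ * x := by group
  have h5 := comm_pow hzi h4 a
  have hza : z ^ a = 1 := by
    have h3 : y * x ^ a * y⁻¹ = x ^ a := by
      rw [hx y, mul_assoc, mul_inv_cancel, mul_one]
    rw [h3] at h5
    have h6 : (z⁻¹) ^ a = 1 := mul_eq_right.mp h5.symm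
    rw [inv_pow, inv_eq_one] at h6
    exact h6
  have h6 : z = 1 := by
    have h7 : orderOf z ∣ Nat.gcd a b :=
      Nat.dvd_gcd (orderOf_dvd_of_pow_eq_one hza) (orderOf_dvd_of_pow_eq_one hzb)
    rw [hab] at h7
    exact orderOf_eq_one_iff.mp (Nat.dvd_one.mp h7)
  rw [h6, one_mul] at h1
  calc x * y = (x * y * x⁻¹) * x := by group
    _ = y * x := by rw [h1]

/-- an element inverted by `w` commutes with lifts that commute with everything modulo the centre -/
lemma comm_inverted (hker : π.ker ≤ center U) {x y w : U}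
    (hxy : pm π x * pm π y = pm π y * pm π x) (hwy : pm π w * pm π y = pm π y * pm π w)
    (hw : w * x * w⁻¹ = x⁻¹) {a : ℕ} (ha : Nat.Coprime a 2) (hx : x ^ a = 1) : x * y = y * x := by
  set z := x * y * x⁻¹ * y⁻¹ with hz
  have hzc : ∀ w, w * z = z * w := comm_central hker hxy
  set t := w * y * w⁻¹ * y⁻¹ with ht
  have htc : ∀ u, u * t = t * u := comm_central hker hwy
  have h1 : x * y = z * y * x := by rw [hz]; group
  have h2 : w * y * w⁻¹ = t * y := by rw [ht]; group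
  -- conjugate by `w`
  have h3 : x⁻¹ * y = z * y * x⁻¹ := by
    have h4 : w * (x * y) * w⁻¹ = w * (z * y * x) * w⁻¹ := by rw [h1]
    have e1 : w * (x * y) * w⁻¹ = (w * x * w⁻¹) * (w * y * w⁻¹) := by group
    have e2 : w * (z * y * x) * w⁻¹ = (w * z) * w⁻¹ * (w * y * w⁻¹) * (w * x * w⁻¹) := by group
    have e3 : (w * z) * w⁻¹ = z := by rw [hzc]; group
    rw [e1, e2, e3, hw, h2] at h4
    -- cancel `t`
    have e4 : x⁻¹ * (t * y) = t * (x⁻¹ * y) := by
      rw [← mul_assoc, htc, mul_assoc]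
    have e5 : z * (t * y) * x⁻¹ = t * (z * y * x⁻¹) := by
      rw [← mul_assoc z, htc z]; group
    rw [e4, e5] at h4
    exact mul_left_cancel h4
  have h4 : z * z = 1 := by
    -- `x⁻¹ y = z y x⁻¹` and `x y = z y x`
    have e1 : y = x * (z * y * x⁻¹) := by rw [← h3]; group
    have e2 : x * (z * y * x⁻¹) = z * (x * y) * x⁻¹ := by
      rw [← mul_assoc, ← mul_assoc, hzc x]; group
    rw [e2, h1] at e1
    have e3 : z * (z * y * x) * x⁻¹ = (z * z) * y := by group
    rw [e3] at e1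
    exact (mul_eq_right.mp e1.symm)
  have hzi : ∀ w, w * z⁻¹ = z⁻¹ * w := fun w => by
    calc w * z⁻¹ = z⁻¹ * (z * w) * z⁻¹ := by group
      _ = z⁻¹ * (w * z) * z⁻¹ := by rw [hzc]
      _ = z⁻¹ * w := by group
  have h5 : y * x * y⁻¹ = z⁻¹ * x := by
    calc y * x * y⁻¹ = z⁻¹ * (z * y * x) * y⁻¹ := by group
      _ = z⁻¹ * (x * y) * y⁻¹ := by rw [h1]
      _ = z⁻¹ * x := by group
  have h6 := comm_pow hzi h5 a
  have hza : z ^ a = 1 := by
    rw [hx, mul_one, mul_inv_cancel, mul_one] at h6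
    have h6' := h6.symm
    rw [inv_pow, inv_eq_one] at h6'
    exact h6'
  have h7 : z = 1 := by
    have h8 : orderOf z ∣ Nat.gcd a 2 :=
      Nat.dvd_gcd (orderOf_dvd_of_pow_eq_one hza)
        (orderOf_dvd_of_pow_eq_one (by rw [pow_two]; exact h4))
    rw [ha] at h8
    exact orderOf_eq_one_iff.mp (Nat.dvd_one.mp h8)
  rw [h1, h7, one_mul]

/-- uniqueness of the normalised lift -/
lemma lift_unique (hker : π.ker ≤ center U) {x y w w' : U} (hxy : pm π x = pm π y)
    (hww : pm π w = pm π w')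
    (hw : w * x * w⁻¹ = x⁻¹) (hw' : w' * y * w'⁻¹ = y⁻¹) {a : ℕ} (ha : Nat.Coprime a 2)
    (hx : x ^ a = 1) (hy : y ^ a = 1) : x = y := by
  -- `w` also inverts `y`
  have hwy : w * y * w⁻¹ = y⁻¹ := by
    have h1 : pm π (w'⁻¹ * w) = 1 := by rw [map_mul, map_inv, hww, inv_mul_cancel]
    have h2 := central_of_pm hker h1 y
    calc w * y * w⁻¹ = w' * ((w'⁻¹ * w) * y) * (w'⁻¹ * w)⁻¹ * w'⁻¹ := by group
      _ = w' * (y * (w'⁻¹ * w)) * (w'⁻¹ * w)⁻¹ * w'⁻¹ := by rw [h2]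
      _ = w' * y * w'⁻¹ := by group
      _ = y⁻¹ := hw'
  set z := x * y⁻¹ with hz
  have hzc : ∀ u, u * z = z * u := by
    intro u
    apply central_of_pm hker
    rw [hz, map_mul, map_inv, hxy, mul_inv_cancel]
  have hx' : x = z * y := by rw [hz]; group
  have h1 : z * z = 1 := by
    have h2 : w * x * w⁻¹ = z * y⁻¹ := by
      rw [hx']
      calc w * (z * y) * w⁻¹ = (w * z) * y * w⁻¹ := by group
        _ = z * (w * y * w⁻¹) := by rw [hzc]; group
        _ = z * y⁻¹ := by rw [hwy]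
    have h3 : z * y⁻¹ = x⁻¹ := by rw [← h2, hw]
    have h4 : x = y * z⁻¹ := by
      calc x = (x⁻¹)⁻¹ := by group
        _ = (z * y⁻¹)⁻¹ := by rw [h3]
        _ = y * z⁻¹ := by group
    have h5 : z * y = y * z⁻¹ := by rw [← hx']; exact h4
    rw [← hzc y] at h5
    have h6 : z = z⁻¹ := mul_left_cancel h5
    calc z * z = z⁻¹ * z := by rw [← h6]
      _ = 1 := inv_mul_cancel z
  have h2 : z ^ a = 1 := by
    have h3 : x ^ a = z ^ a * y ^ a := by
      rw [hx']
      exact (show Commute z y from (hzc y).symm).mul_pow a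
    rw [hx, hy, mul_one] at h3
    exact h3.symm
  have h7 : z = 1 := by
    have h8 : orderOf z ∣ Nat.gcd a 2 :=
      Nat.dvd_gcd (orderOf_dvd_of_pow_eq_one h2)
        (orderOf_dvd_of_pow_eq_one (by rw [pow_two]; exact h1))
    rw [ha] at h8
    exact orderOf_eq_one_iff.mp (Nat.dvd_one.mp h8)
  rw [hx', h7, one_mul]

/-- normalised lifts of 5-cycles -/
lemma exists_five (hker : π.ker ≤ center U) {c n : U} (h1 : pm π (n * c * n⁻¹ * c) = 1)
    (h5 : pm π c ^ 5 = 1) : ∃ C : U, pm π C = pm π c ∧ C ^ 5 = 1 ∧ n * C * n⁻¹ = C⁻¹ := by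
  set y := n * c * n⁻¹ * c with hy
  have hyc : ∀ w, w * y = y * w := fun w => central_of_pm hker h1 w
  set M := c * c * y⁻¹ with hM
  have hyc' : ∀ w, w * y⁻¹ = y⁻¹ * w := by
    intro w
    have := hyc w
    calc w * y⁻¹ = y⁻¹ * (y * w) * y⁻¹ := by group
      _ = y⁻¹ * (w * y) * y⁻¹ := by rw [this]
      _ = y⁻¹ * w := by group
  have hcn : n * c * n⁻¹ = y * c⁻¹ := by rw [hy]; group
  have hnM : n * M * n⁻¹ = M⁻¹ := by
    calc n * M * n⁻¹ = (n * c * n⁻¹) * (n * c * n⁻¹) * (n * y⁻¹) * n⁻¹ := by rw [hM]; group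
      _ = (y * c⁻¹) * (y * c⁻¹) * (y⁻¹ * n) * n⁻¹ := by rw [hcn, hyc']
      _ = y * (c⁻¹ * y) * (c⁻¹ * y⁻¹) := by group
      _ = y * (y * c⁻¹) * (y⁻¹ * c⁻¹) := by rw [hyc, hyc']
      _ = y * (y * (c⁻¹ * y⁻¹)) * c⁻¹ := by group
      _ = y * (y * (y⁻¹ * c⁻¹)) * c⁻¹ := by rw [hyc']
      _ = M⁻¹ := by rw [hM]; group
  have hpmM : pm π M = pm π c ^ 2 := by
    rw [hM, map_mul, map_mul, map_inv, h1, inv_one, mul_one, pow_two]
  have hM5 : ∀ w, w * M ^ 5 = M ^ 5 * w := by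
    intro w
    apply central_of_pm hker
    rw [map_pow, hpmM, ← pow_mul, mul_comm, pow_mul, h5, one_pow]
  have hM10 : M ^ 10 = 1 := by
    have h1 : n * M ^ 5 * n⁻¹ = (M ^ 5)⁻¹ := by
      have : n * M ^ 5 * n⁻¹ = (n * M * n⁻¹) ^ 5 := conj_pow.symm
      rw [this, hnM, inv_pow]
    rw [hM5 n, mul_assoc, mul_inv_cancel, mul_one] at h1
    calc M ^ 10 = M ^ 5 * M ^ 5 := by rw [← pow_add]
      _ = (M ^ 5)⁻¹ * M ^ 5 := by rw [← h1]
      _ = 1 := inv_mul_cancel _
  refine ⟨M ^ 8, ?_, ?_, ?_⟩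
  · rw [map_pow, hpmM, ← pow_mul]
    calc pm π c ^ (2 * 8) = (pm π c ^ 5) ^ 3 * pm π c := by rw [← pow_mul, ← pow_succ]
      _ = pm π c := by rw [h5, one_pow, one_mul]
  · rw [← pow_mul]
    calc M ^ (8 * 5) = (M ^ 10) ^ 4 := by rw [← pow_mul]
      _ = 1 := by rw [hM10, one_pow]
  · have : n * M ^ 8 * n⁻¹ = (n * M * n⁻¹) ^ 8 := conj_pow.symm
    rw [this, hnM, inv_pow]

end lifts

section eigen

variable {F V U : Type*} [Field F] [AddCommGroup V] [Module F V] [Group U]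

lemma eigen_pow (ρ : U →* (V →ₗ[F] V)) {g : U} {v : V} {x : F} (h : ρ g v = x • v) (a : ℕ) :
    ρ (g ^ a) v = x ^ a • v := by
  induction a with
  | zero => simp
  | succ a ih => rw [pow_succ, rmul, h, map_smul, ih, smul_smul]; congr 1; ring

lemma eigen_order (ρ : U →* (V →ₗ[F] V)) {g : U} {a : ℕ} (hg : g ^ a = 1) {v : V} (hv : v ≠ 0)
    {x : F} (h : ρ g v = x • v) : x ^ a = 1 := by
  have h4 := eigen_pow ρ h a
  rw [hg, map_one] at h4
  have h5 : (x ^ a - 1) • v = 0 := by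
    rw [sub_smul, one_smul, ← h4]
    simp
  rcases smul_eq_zero.mp h5 with h6 | h6
  · exact sub_eq_zero.mp h6
  · exact absurd h6 hv

/-- moving an eigenvector by `u` -/
lemma eigen_move (ρ : U →* (V →ₗ[F] V)) {g g' u : U} (h : u * g' = g * u) {v : V} {x : F}
    (hv : ρ g' v = x • v) : ρ g (ρ u v) = x • ρ u v := by
  rw [← rmul, ← h, rmul, hv, map_smul]

/-- from a fixed vector of `g 0` to a joint eigenvector with first eigenvalue 1 -/
lemma exists_joint_fixed [IsAlgClosed F] [FiniteDimensional F V] [Finite U]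
    (hU : (Nat.card U : F) ≠ 0) (ρ : U →* (V →ₗ[F] V)) {m : ℕ} (g : Fin (m + 1) → U)
    (hg : ∀ i j, g i * g j = g j * g i) {a : ℕ} (ha : (a : F) ≠ 0) (h0 : g 0 ^ a = 1)
    {w : V} (hw : w ≠ 0) (hw1 : ρ (g 0) w = w) :
    ∃ (v : V) (χ : Fin (m + 1) → F), v ≠ 0 ∧ (∀ i, ρ (g i) v = χ i • v) ∧ χ 0 = 1 := by
  set f : V →ₗ[F] V := ∑ i ∈ Finset.range a, ρ (g 0 ^ i) with hf
  have hfv : ∀ v (x : F), ρ (g 0) v = x • v → f v = (∑ i ∈ Finset.range a, x ^ i) • v := by
    intro v x h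
    rw [hf, LinearMap.sum_apply, Finset.sum_smul]
    apply Finset.sum_congr rfl
    intro i _
    exact eigen_pow ρ h i
  have hf0 : f ≠ 0 := by
    intro h
    have h1 := hfv w 1 (by rw [hw1, one_smul])
    rw [h] at h1
    simp only [LinearMap.zero_apply, one_pow, Finset.sum_const, Finset.card_range, nsmul_eq_mul,
      mul_one] at h1
    rcases smul_eq_zero.mp h1.symm with h2 | h2
    · exact ha h2
    · exact hw h2
  obtain ⟨v, χ, hχ, hv⟩ := exists_joint hU ρ g hg hf0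
  have hv0 : v ≠ 0 := by
    rintro rfl
    rw [map_zero] at hv
    exact hv rfl
  refine ⟨v, χ, hv0, hχ, ?_⟩
  by_contra hne
  have h1 := eigen_order ρ h0 hv0 (hχ 0)
  have h2 := geom_sum_mul (χ 0) a
  rw [h1, sub_self] at h2
  rcases mul_eq_zero.mp h2 with h3 | h3
  · rw [hfv v _ (hχ 0), h3, zero_smul] at hv
    exact hv rfl
  · exact hne (sub_eq_zero.mp h3)

end eigen

section roots5

variable {F : Type*} [Field F] {s : F} {p : ℕ} [hp : Fact p.Prime]

lemma expP_inj (h5 : s ^ p = 1) (h1 : s ≠ 1) {i j : ZMod p} (h : s ^ i.val = s ^ j.val) :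
    i = j := by
  have ho : orderOf s = p := orderOf_eq_prime h5 h1
  have h2 := pow_injOn_Iio_orderOf (x := s) (by rw [ho]; exact ZMod.val_lt i)
    (by rw [ho]; exact ZMod.val_lt j) h
  exact ZMod.val_injective p h2

lemma expP_mul (h5 : s ^ p = 1) (k : ℕ) (i : ZMod p) : s ^ ((k : ZMod p) * i).val =
    (s ^ i.val) ^ k := by
  rw [ZMod.val_mul, ← pow_mul]
  have h : ∀ m : ℕ, s ^ (m % p) = s ^ m := by
    intro m
    conv_rhs => rw [← Nat.mod_add_div m p, pow_add, pow_mul, h5, one_pow, mul_one]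
  rw [h, ZMod.val_natCast]
  have h2 : ∀ m : ℕ, s ^ (k % p * m) = s ^ (m * k) := by
    intro m
    rw [← h, Nat.mul_mod, Nat.mod_mod, ← Nat.mul_mod, h, mul_comm]
  exact h2 _

lemma existsP_exp (h5 : s ^ p = 1) (h1 : s ≠ 1) {y : F} (hy : y ^ p = 1) :
    ∃ i : ZMod p, y = s ^ i.val := by
  have hprim : IsPrimitiveRoot s p := by
    have ho : orderOf s = p := orderOf_eq_prime h5 h1
    rw [← ho]; exact IsPrimitiveRoot.orderOf s
  obtain ⟨i, hi, rfl⟩ := hprim.eq_pow_of_pow_eq_one hy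
  exact ⟨(i : ZMod p), by rw [ZMod.val_natCast, Nat.mod_eq_of_lt hi]⟩

end roots5

end TransDeg.Cent
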